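import Pool.Agent.EVF.Defs
import Pool.Agent.CST.Sli

/-!
# Definitions for part B of the project EVF

Paper proof: /team-store/evf66.md. `K` is the field called `L` there: finite over `k(x_1, ..., x_r)`.
-/

open scoped BigOperators Polynomial
open Polynomial

namespace Pool.Agent.EVF

open Pool.Agent.CST Pool.Agent.CSG Pool.Agent.Helper11 Pool.Agent.ISI

theorem mo_zero {r : ℕ} {G : Type*} [CommGroup G] (x : Fin r → G) : mo x 0 = 1 := by
  simp [mo]

theorem mo_add {r : ℕ} {G : Type*} [CommGroup G] (x : Fin r → G) (e e' : Fin r → ℤ) :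
    mo x (e + e') = mo x e * mo x e' := by
  simp [mo, zpow_add, Finset.prod_mul_distrib]

/-- the value of a Laurent polynomial at `x` -/
noncomputable def evx {k K : Type} [Field k] [Field K] [Algebra k K] {r : ℕ} (x : Fin r → Kˣ) :
    LR k r →ₐ[k] K :=
  AddMonoidAlgebra.lift k K (Fin r → ℤ)
    { toFun := fun e => ((mo x e.toAdd : Kˣ) : K)
      map_one' := by
        change ((mo x 0 : Kˣ) : K) = 1
        rw [mo_zero, Units.val_one]
      map_mul' := fun e e' => by
        rw [toAdd_mul, mo_add, Units.val_mul] }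

/-- the value of `G` at `(x, θ)` -/
noncomputable def evW {k K : Type} [Field k] [Field K] [Algebra k K] {r : ℕ} (x : Fin r → Kˣ)
    (θ : K) : (LR k r)[X] →+* K :=
  Polynomial.eval₂RingHom (evx x : LR k r →ₐ[k] K).toRingHom θ

/-- polynomials as Laurent polynomials -/
noncomputable def toL (k : Type) [Field k] (r : ℕ) : MvPolynomial (Fin r) k →+* LR k r :=
  (MvPolynomial.aeval fun i =>
    (AddMonoidAlgebra.single (Pi.single i (1 : ℤ)) (1 : k) : LR k r)).toRingHom

/-- `π(x ^ a)` as a Laurent polynomial -/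
noncomputable def pia {k : Type} [Field k] {r : ℕ} (a : Fin r → ℤ) (π : k[X]) : LR k r :=
  aeval (AddMonoidAlgebra.single a (1 : k) : LR k r) π

/-- a model of `K` over `k(x)`: `f(x, θ) = 0`, `f` monic with integral coefficients, of degree
`[K : k(x)]` -/
structure Md {k K : Type} [Field k] [Field K] [Algebra k K] {r : ℕ} (x : Fin r → Kˣ) (θ : K)
    (f : (MvPolynomial (Fin r) k)[X]) : Prop where
  ind : AlgebraicIndependent k fun i => (x i : K)
  monic : f.Monic
  int : ∀ i m, IsIntegral ℤ ((f.coeff i).coeff m)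
  root : evW x θ (f.map (toL k r)) = 0
  min : ∀ G : (LR k r)[X], G.natDegree < f.natDegree → evW x θ G = 0 → G = 0
  gen : ∀ y : K, ∃ (Q : LR k r) (G : (LR k r)[X]), Q ≠ 0 ∧ evx x Q * y = evW x θ G
  pos : 0 < f.natDegree

/-- the group generated by the `x i` is saturated modulo `k` -/
def NpM (k : Type) {K : Type} [Field k] [Field K] [Algebra k K] {r : ℕ} (x : Fin r → Kˣ) : Prop :=
  ∀ p : ℕ, p.Prime → ∀ (v : Fin r → ℤ) (q : k) (h : K),
    ((mo x v : Kˣ) : K) = algebraMap k K q * h ^ p → ∀ i, (p : ℤ) ∣ v i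

/-- the places: the discrete valuation rings of `K` which contain the field generated by all but one
of the `x i` -/
def IsPP {K : Type} [Field K] [CharZero K] {r : ℕ} (x : Fin r → Kˣ) (O : ValuationSubring K) :
    Prop :=
  IsPl O ∧ ∃ i, ∀ y ∈ IntermediateField.adjoin ℚ ((fun j => (x j : K)) '' {j | j ≠ i}), y ∈ O

/-- unramified at all places -/
def UnP {K : Type} [Field K] [CharZero K] {r : ℕ} (x : Fin r → Kˣ) (z : KMQ K 2) : Prop :=
  ∀ O : ValuationSubring K, IsPP x O → z ∈ unrM O 2

/-- `∑ {x i, h i}` -/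
noncomputable def sS {K : Type} [Field K] {r : ℕ} (x h : Fin r → Kˣ) : KMQ K 2 :=
  ∑ i, sy (x i) (h i)

/-- the span of the symbols `{a, b}`, `a, b` in `ℚ(x)` -/
noncomputable def rSl {K : Type} [Field K] [CharZero K] {r : ℕ} (x : Fin r → Kˣ) :
    Submodule ℚ (KMQ K 2) :=
  Submodule.span ℚ {z | ∃ a b : Kˣ,
    (a : K) ∈ IntermediateField.adjoin ℚ (Set.range fun i => (x i : K)) ∧
    (b : K) ∈ IntermediateField.adjoin ℚ (Set.range fun i => (x i : K)) ∧ z = sy a b}

/-- the residue of `x ^ a` is a root of `π` -/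
structure Ov {k K : Type} [Field k] [Field K] [CharZero K] [Algebra k K] {r : ℕ}
    (x : Fin r → Kˣ) (a : Fin r → ℤ) (π : k[X]) (O : ValuationSubring K) : Prop where
  pp : IsPP x O
  un : ∀ i, O.valuation (x i : K) = 1
  pr : ∃ b, dt a b = 1
  monic : π.Monic
  irr : Irreducible π
  lt : O.valuation (aeval ((mo x a : Kˣ) : K) π) < 1

end Pool.Agent.EVF
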