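import Pool.Agent.EVF.Defs

/-!
# The coefficients of a factor and their conjugates are bounded on the unit circle

For `σ : E → ℂ` and `‖t‖ = 1` the image of a factor `G` of `F(ξ T ^ c, W)` by `σ` and `T ↦ t` divides a monic
polynomial whose coefficients are bounded by the sum `A` over all coefficients `q` of `F` of the sums of the absolute
values of the conjugates of `q`. So its roots are bounded by `A + 1`, and its coefficients by a constant.
-/

open scoped BigOperators Polynomial LaurentPolynomial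
open Polynomial

namespace Pool.Agent.EVF

/-- the sum of the absolute values of the conjugates -/
private noncomputable def bnd_hs (x : ℂ) : ℝ :=
  ((((minpoly ℚ x).map (algebraMap ℚ ℂ)).roots).map fun r => ‖r‖).sum

private theorem bnd_hs_nonneg (x : ℂ) : 0 ≤ bnd_hs x := by
  unfold bnd_hs
  refine Multiset.sum_nonneg fun y hy => ?_
  obtain ⟨r, _, rfl⟩ := Multiset.mem_map.1 hy
  exact norm_nonneg _

private theorem bnd_le_hs (K : IntermediateField ℚ ℂ) (c : K) (hc : IsIntegral ℤ (c : ℂ))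
    (τ : K →+* ℂ) : ‖τ c‖ ≤ bnd_hs (c : ℂ) := by
  have hq : IsIntegral ℚ (c : ℂ) := hc.tower_top
  have h0 : minpoly ℚ (c : ℂ) ≠ 0 := minpoly.ne_zero hq
  have h1 : aeval c (minpoly ℚ (c : ℂ)) = 0 := by
    have h2 : aeval (algebraMap K ℂ c) (minpoly ℚ (c : ℂ)) = 0 := minpoly.aeval ℚ (c : ℂ)
    rw [aeval_algebraMap_apply] at h2
    exact (map_eq_zero_iff (algebraMap K ℂ) (algebraMap K ℂ).injective).1 h2
  have h3 : aeval (τ c) (minpoly ℚ (c : ℂ)) = 0 := by
    have h4 := congrArg τ.toRatAlgHom h1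
    rw [← aeval_algHom_apply, map_zero] at h4
    exact h4
  have h5 : τ c ∈ ((minpoly ℚ (c : ℂ)).map (algebraMap ℚ ℂ)).roots := by
    rw [mem_roots', IsRoot.def, eval_map_algebraMap]
    exact ⟨(Polynomial.map_ne_zero_iff (algebraMap ℚ ℂ).injective).2 h0, h3⟩
  unfold bnd_hs
  refine Multiset.single_le_sum (fun y hy => ?_) _ (Multiset.mem_map_of_mem _ h5)
  obtain ⟨r, _, rfl⟩ := Multiset.mem_map.1 hy
  exact norm_nonneg _

private theorem bnd_root {P : ℂ[X]} (hm : P.Monic) {A : ℝ} (hA : 0 ≤ A)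
    (h : ∀ i, i < P.natDegree → ‖P.coeff i‖ ≤ A) {x : ℂ} (hx : P.IsRoot x) : ‖x‖ ≤ A + 1 := by
  have h1 := hx.norm_lt_cauchyBound hm.ne_zero
  have h2 : ((cauchyBound P : NNReal) : ℝ) ≤ A + 1 := by
    unfold cauchyBound
    rw [hm.leadingCoeff, nnnorm_one, div_one, NNReal.coe_add, NNReal.coe_one]
    refine add_le_add_left ?_ 1
    have h4 : Finset.sup (Finset.range P.natDegree) (fun i => ‖P.coeff i‖₊) ≤
        NNReal.mk _ hA := by
      refine Finset.sup_le fun i hi => ?_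
      rw [← NNReal.coe_le_coe, coe_nnnorm, NNReal.coe_mk]
      exact h i (Finset.mem_range.1 hi)
    have h5 := NNReal.coe_le_coe.2 h4
    rwa [NNReal.coe_mk] at h5
  exact (le_of_lt (by exact_mod_cast h1)).trans h2

private theorem bnd_eval {E : Type*} [Field E] (σ : E →+* ℂ) (u : ℂˣ) (p : E[T;T⁻¹]) :
    LaurentPolynomial.eval₂ σ u p = ∑ n ∈ p.coeff.support, σ (p.coeff n) * (u : ℂ) ^ n := by
  conv_lhs => rw [← AddMonoidAlgebra.sum_coeff_single p]
  rw [Finsupp.sum, map_sum]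
  refine Finset.sum_congr rfl fun n _ => ?_
  rw [LaurentPolynomial.single_eq_C_mul_T, LaurentPolynomial.eval₂_C_mul_T,
    Units.val_zpow_eq_zpow_val]

/-- the inclusion -/
private noncomputable def bndJ (E : IntermediateField ℚ ℂ) : E[T;T⁻¹] →+* ℂ[T;T⁻¹] :=
  AddMonoidAlgebra.mapRingHom ℤ (algebraMap E ℂ)

private theorem bndJ_coeff (E : IntermediateField ℚ ℂ) (p : E[T;T⁻¹]) (n : ℤ) :
    (bndJ E p).coeff n = ((p.coeff n : E) : ℂ) :=
  AddMonoidAlgebra.coeff_mapRingHom _ _ _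

private theorem bndJ_inj (E : IntermediateField ℚ ℂ) : Function.Injective (bndJ E) := by
  intro p q h
  refine AddMonoidAlgebra.ext (Finsupp.ext fun n => ?_)
  have h1 : (bndJ E p).coeff n = (bndJ E q).coeff n := by rw [h]
  rw [bndJ_coeff, bndJ_coeff] at h1
  exact Subtype.ext h1

private theorem bnd_lift (E : IntermediateField ℚ ℂ) (p : ℂ[T;T⁻¹]) (h : ∀ n, p.coeff n ∈ E) :
    ∃ q : E[T;T⁻¹], bndJ E q = p := by
  refine ⟨AddMonoidAlgebra.ofCoeff (Finsupp.onFinset p.coeff.support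
    (fun n => (⟨p.coeff n, h n⟩ : E)) fun n hn => ?_), ?_⟩
  · rw [Finsupp.mem_support_iff]
    intro h0
    exact hn (Subtype.ext h0)
  · refine AddMonoidAlgebra.ext (Finsupp.ext fun n => ?_)
    rw [bndJ_coeff]
    rfl

private theorem bnd_liftX (E : IntermediateField ℚ ℂ) (G : (ℂ[T;T⁻¹])[X])
    (h : ∀ i n, (G.coeff i).coeff n ∈ E) : ∃ g : (E[T;T⁻¹])[X], g.map (bndJ E) = G := by
  have h1 : G ∈ lifts (bndJ E) := by
    rw [lifts_iff_coeff_lifts]
    intro i
    obtain ⟨p, hp⟩ := bnd_lift E (G.coeff i) (h i)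
    exact ⟨p, hp⟩
  exact (mem_lifts _).1 h1

private theorem bnd_liftM {r : ℕ} (E : IntermediateField ℚ ℂ) (F : (MvPolynomial (Fin r) ℂ)[X])
    (h : ∀ i m, (F.coeff i).coeff m ∈ E) :
    ∃ f : (MvPolynomial (Fin r) E)[X], f.map (MvPolynomial.map (algebraMap E ℂ)) = F := by
  have h1 : F ∈ lifts (MvPolynomial.map (σ := Fin r) (algebraMap E ℂ)) := by
    rw [lifts_iff_coeff_lifts]
    intro i
    have h2 : F.coeff i ∈ Set.range (MvPolynomial.map (σ := Fin r) (algebraMap E ℂ)) := by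
      rw [MvPolynomial.mem_range_map_iff_coeffs_subset]
      intro q hq
      obtain ⟨m, _, rfl⟩ := MvPolynomial.mem_coeffs_iff.1 hq
      exact ⟨⟨_, h i m⟩, rfl⟩
    obtain ⟨p, hp⟩ := h2
    exact ⟨p, hp⟩
  exact (mem_lifts _).1 h1

/-- the substitution over `E` -/
private noncomputable def bndS {r : ℕ} (E : IntermediateField ℚ ℂ) (ξ : Fin r → E)
    (c : Fin r → ℤ) : MvPolynomial (Fin r) E →+* E[T;T⁻¹] :=
  MvPolynomial.eval₂Hom LaurentPolynomial.C
    fun i => LaurentPolynomial.C (ξ i) * LaurentPolynomial.T (c i)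

private theorem bndJ_C (E : IntermediateField ℚ ℂ) (a : E) :
    bndJ E (LaurentPolynomial.C a) = LaurentPolynomial.C (a : ℂ) := by
  refine AddMonoidAlgebra.ext (Finsupp.ext fun n => ?_)
  rw [bndJ_coeff]
  have h1 : (LaurentPolynomial.C a : E[T;T⁻¹]).coeff = Finsupp.single 0 a := rfl
  have h2 : (LaurentPolynomial.C (a : ℂ) : ℂ[T;T⁻¹]).coeff = Finsupp.single 0 (a : ℂ) := rfl
  rw [h1, h2, Finsupp.single_apply, Finsupp.single_apply]
  split_ifs
  · rfl
  · rfl

private theorem bndJ_T (E : IntermediateField ℚ ℂ) (m : ℤ) :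
    bndJ E (LaurentPolynomial.T m) = LaurentPolynomial.T m := by
  refine AddMonoidAlgebra.ext (Finsupp.ext fun n => ?_)
  rw [bndJ_coeff]
  have h1 : (LaurentPolynomial.T m : E[T;T⁻¹]).coeff = Finsupp.single m 1 := rfl
  have h2 : (LaurentPolynomial.T m : ℂ[T;T⁻¹]).coeff = Finsupp.single m 1 := rfl
  rw [h1, h2, Finsupp.single_apply, Finsupp.single_apply]
  split_ifs
  · rfl
  · rfl

private theorem bnd_compat {r : ℕ} (E : IntermediateField ℚ ℂ) (ξ : Fin r → E)
    (c : Fin r → ℤ) : (bndJ E).comp (bndS E ξ c) =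
      (subT (fun i => (ξ i : ℂ)) c).comp (MvPolynomial.map (algebraMap E ℂ)) := by
  refine MvPolynomial.ringHom_ext (fun a => ?_) (fun i => ?_)
  · rw [RingHom.comp_apply, RingHom.comp_apply, MvPolynomial.map_C]
    unfold bndS subT
    rw [MvPolynomial.coe_eval₂Hom, MvPolynomial.eval₂_C, bndJ_C]
    exact ((MvPolynomial.aeval fun i => LaurentPolynomial.C ((ξ i : E) : ℂ) *
      LaurentPolynomial.T (c i)).commutes (a : ℂ)).symm
  · rw [RingHom.comp_apply, RingHom.comp_apply, MvPolynomial.map_X]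
    unfold bndS subT
    rw [MvPolynomial.coe_eval₂Hom, MvPolynomial.eval₂_X, map_mul, bndJ_C, bndJ_T]
    exact (MvPolynomial.aeval_X (fun i => LaurentPolynomial.C ((ξ i : E) : ℂ) *
      LaurentPolynomial.T (c i)) i).symm

private theorem bnd_phi {r : ℕ} (E : IntermediateField ℚ ℂ) (ξ : Fin r → E)
    (c : Fin r → ℤ) (σ : E →+* ℂ) (u : ℂˣ) (p : MvPolynomial (Fin r) E) :
    LaurentPolynomial.eval₂ σ u (bndS E ξ c p) =
      ∑ d ∈ p.support, σ (p.coeff d) * ∏ i, (σ (ξ i) * (u : ℂ) ^ c i) ^ d i := by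
  have h1 : (LaurentPolynomial.eval₂ σ u).comp (bndS E ξ c) =
      MvPolynomial.eval₂Hom σ fun i => σ (ξ i) * (u : ℂ) ^ c i := by
    refine MvPolynomial.ringHom_ext (fun a => ?_) (fun i => ?_)
    · unfold bndS
      rw [RingHom.comp_apply, MvPolynomial.coe_eval₂Hom, MvPolynomial.coe_eval₂Hom,
        MvPolynomial.eval₂_C, MvPolynomial.eval₂_C, LaurentPolynomial.eval₂_C]
    · unfold bndS
      rw [RingHom.comp_apply, MvPolynomial.coe_eval₂Hom, MvPolynomial.coe_eval₂Hom,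
        MvPolynomial.eval₂_X, MvPolynomial.eval₂_X, LaurentPolynomial.eval₂_C_mul_T,
        Units.val_zpow_eq_zpow_val]
  have h2 := congrArg (fun f => f p) h1
  exact h2.trans (MvPolynomial.eval₂_eq' _ _ _)

theorem exists_bound {r : ℕ} {F : (MvPolynomial (Fin r) ℂ)[X]} (hF : F.Monic)
    (hI : ∀ i m, IsIntegral ℤ ((F.coeff i).coeff m)) :
    ∃ C : ℝ, 0 ≤ C ∧ ∀ ξ : Fin r → ℂ, RU ξ → ∀ (c : Fin r → ℤ) (G H : (ℂ[T;T⁻¹])[X]),
      G.Monic → H.Monic → F.map (subT ξ c) = G * H → ∀ (E : IntermediateField ℚ ℂ)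
      (hG : ∀ i n, (G.coeff i).coeff n ∈ E), (∀ i n, (H.coeff i).coeff n ∈ E) →
      (∀ i, ξ i ∈ E) → (∀ i m, (F.coeff i).coeff m ∈ E) → ∀ (σ : E →+* ℂ) (t : ℂ), ‖t‖ = 1 →
      ∀ i, ‖∑ n ∈ (G.coeff i).coeff.support, σ ⟨(G.coeff i).coeff n, hG i n⟩ * t ^ n‖ ≤ C := by
  set A : ℝ := ∑ k ∈ Finset.range (F.natDegree + 1),
    ∑ m ∈ (F.coeff k).support, bnd_hs ((F.coeff k).coeff m) with hAdef
  have hA : 0 ≤ A := Finset.sum_nonneg fun k _ => Finset.sum_nonneg fun j _ => bnd_hs_nonneg _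
  refine ⟨max (A + 1) 1 ^ F.natDegree * F.natDegree.choose (F.natDegree / 2), ?_, ?_⟩
  · have h1 : (0 : ℝ) ≤ max (A + 1) 1 := le_trans zero_le_one (le_max_right _ _)
    exact mul_nonneg (pow_nonneg h1 _) (Nat.cast_nonneg _)
  intro ξ hξ c G H hGm hHm h E hG hH hξE hFE σ t ht i
  have ht0 : t ≠ 0 := by
    intro h0
    rw [h0, norm_zero] at ht
    exact zero_ne_one ht
  obtain ⟨u, hu⟩ : ∃ u : ℂˣ, (u : ℂ) = t := ⟨Units.mk0 t ht0, rfl⟩
  obtain ⟨g, hg⟩ := bnd_liftX E G hG
  obtain ⟨k, hk⟩ := bnd_liftX E H hH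
  obtain ⟨f, hf⟩ := bnd_liftM E F hFE
  obtain ⟨x, hx⟩ : ∃ x : Fin r → E, ∀ i, (x i : ℂ) = ξ i := ⟨fun i => ⟨ξ i, hξE i⟩, fun i => rfl⟩
  have hxe : (fun i => (x i : ℂ)) = ξ := funext hx
  have hinjM : Function.Injective (MvPolynomial.map (σ := Fin r) (algebraMap E ℂ)) :=
    MvPolynomial.map_injective _ (algebraMap E ℂ).injective
  have hfm : f.Monic := monic_of_injective hinjM (by rw [hf]; exact hF)
  have hgm : g.Monic := monic_of_injective (bndJ_inj E) (by rw [hg]; exact hGm)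
  have hkm : k.Monic := monic_of_injective (bndJ_inj E) (by rw [hk]; exact hHm)
  have hfd : f.natDegree = F.natDegree := by
    rw [← hf]
    exact (hfm.natDegree_map _).symm
  have hfac : f.map (bndS E x c) = g * k := by
    refine Polynomial.map_injective _ (bndJ_inj E) ?_
    rw [Polynomial.map_mul, hg, hk, ← h, Polynomial.map_map, bnd_compat, hxe, ← Polynomial.map_map,
      hf]
  set P : ℂ[X] := (f.map (bndS E x c)).map (LaurentPolynomial.eval₂ σ u) with hP
  have hPf : P = g.map (LaurentPolynomial.eval₂ σ u) * k.map (LaurentPolynomial.eval₂ σ u) := by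
    rw [hP, hfac, Polynomial.map_mul]
  have hPm : P.Monic := (hfm.map _).map _
  have hPd : P.natDegree = F.natDegree := by
    rw [hP, (hfm.map _).natDegree_map, hfm.natDegree_map, hfd]
  have hx1 : ∀ i, ‖σ (x i)‖ = 1 := by
    intro i
    obtain ⟨M, hM, hM'⟩ := hξ
    have h2 : x i ^ M = 1 := Subtype.ext (by
      have h3 := hM' i
      rw [← hx i] at h3
      exact h3)
    have h3 : (σ (x i)) ^ M = 1 := by rw [← map_pow, h2, map_one]
    exact Complex.norm_eq_one_of_pow_eq_one h3 hM.ne'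
  have hPc : ∀ i, i < P.natDegree → ‖P.coeff i‖ ≤ A := by
    intro i hi
    rw [hP, coeff_map, coeff_map, bnd_phi]
    refine (norm_sum_le _ _).trans ?_
    have h6 : ∑ m ∈ (F.coeff i).support, bnd_hs ((F.coeff i).coeff m) ≤ A :=
      Finset.single_le_sum
        (f := fun k => ∑ m ∈ (F.coeff k).support, bnd_hs ((F.coeff k).coeff m))
        (fun k _ => Finset.sum_nonneg fun j _ => bnd_hs_nonneg _)
        (Finset.mem_range.2 (by omega))
    have hsup : (f.coeff i).support = (F.coeff i).support := by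
      rw [← hf, coeff_map]
      exact (MvPolynomial.support_map_of_injective _ (algebraMap E ℂ).injective).symm
    rw [hsup]
    refine le_trans (Finset.sum_le_sum fun m _ => ?_) h6
    have h8 : ‖∏ i, (σ (x i) * (u : ℂ) ^ c i) ^ m i‖ = 1 := by
      rw [norm_prod]
      refine Finset.prod_eq_one fun j _ => ?_
      rw [norm_pow, norm_mul, norm_zpow, hx1, hu, ht, one_zpow, mul_one, one_pow]
    rw [norm_mul, h8, mul_one]
    have hfc : (((f.coeff i).coeff m : E) : ℂ) = (F.coeff i).coeff m := by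
      rw [← hf, coeff_map, MvPolynomial.coeff_map]
      rfl
    have h7 := bnd_le_hs E ((f.coeff i).coeff m) (by rw [hfc]; exact hI i m) σ
    rwa [hfc] at h7
  have hgz : (g.map (LaurentPolynomial.eval₂ σ u)).Monic := hgm.map _
  have hdeg : (g.map (LaurentPolynomial.eval₂ σ u)).natDegree ≤ F.natDegree := by
    have h2 := congrArg natDegree hPf
    rw [hgz.natDegree_mul (hkm.map _), hPd] at h2
    omega
  have hroots : ∀ y ∈ (map (RingHom.id ℂ) (g.map (LaurentPolynomial.eval₂ σ u))).roots,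
      ‖y‖ ≤ A + 1 := by
    intro y hy
    rw [Polynomial.map_id] at hy
    have h3 : (g.map (LaurentPolynomial.eval₂ σ u)).IsRoot y := isRoot_of_mem_roots hy
    refine bnd_root hPm hA hPc ?_
    rw [hPf]
    exact root_mul_right_of_isRoot _ h3
  have h4 := coeff_bdd_of_roots_le (RingHom.id ℂ) hgz (IsAlgClosed.splits _) hdeg hroots i
  rw [Polynomial.map_id, coeff_map, bnd_eval] at h4
  have hgc : ∀ n, (g.coeff i).coeff n = ⟨(G.coeff i).coeff n, hG i n⟩ := by
    intro n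
    refine Subtype.ext ?_
    change (((g.coeff i).coeff n : E) : ℂ) = (G.coeff i).coeff n
    rw [← hg, coeff_map, bndJ_coeff]
  have hgs : (g.coeff i).coeff.support = (G.coeff i).coeff.support := by
    ext n
    rw [Finsupp.mem_support_iff, Finsupp.mem_support_iff, hgc]
    constructor
    · intro h5 h6
      exact h5 (Subtype.ext h6)
    · intro h5 h6
      exact h5 (congrArg Subtype.val h6)
  rw [hgs, hu] at h4
  refine le_trans (le_of_eq ?_) h4
  congr 1
  refine Finset.sum_congr rfl fun n _ => ?_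
  rw [hgc]

end Pool.Agent.EVF
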