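import Mathlib

/-!
# EVF-CAid: exchange one element of an algebraically independent family

If `y` is an algebraically independent family of `r` elements and `y i` is algebraic over the field
generated by the family `y'`, obtained from `y` by replacing `y i` by `w`, then `y'` is algebraically
independent. The proof counts ranks in the matroid of algebraic independence.
-/

namespace Pool.Agent.EVF

open scoped IntermediateField.algebraAdjoinAdjoin in
private theorem caid_alg {E M : Type} [Field E] [Field M] [Algebra E M] {S : Set M} {a : M}
    (h : IsAlgebraic (IntermediateField.adjoin E S) a) : IsAlgebraic (Algebra.adjoin E S) a :=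
  (IsFractionRing.isAlgebraic_iff (Algebra.adjoin E S) (IntermediateField.adjoin E S) M).2 h

theorem indep_update {E M : Type} [Field E] [Field M] [Algebra E M] {r : ℕ} {y : Fin r → M}
    (hy : AlgebraicIndependent E y) (i : Fin r) {w : M}
    (h : IsAlgebraic (IntermediateField.adjoin E (Set.range (Function.update y i w))) (y i)) :
    AlgebraicIndependent E (Function.update y i w) := by
  classical
  set y' : Fin r → M := Function.update y i w with hy'
  have h1 : Set.range y ⊆ (AlgebraicIndependent.matroid E M).closure (Set.range y') := by
    rw [AlgebraicIndependent.matroid_closure_eq]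
    rintro _ ⟨j, rfl⟩
    show y j ∈ Subalgebra.algebraicClosure _ _
    rw [Subalgebra.mem_algebraicClosure]
    by_cases hj : j = i
    · subst hj
      exact caid_alg h
    · have : y j = y' j := by rw [hy', Function.update_of_ne hj]
      rw [this]
      exact isAlgebraic_algebraMap
        (⟨y' j, Algebra.subset_adjoin ⟨j, rfl⟩⟩ : Algebra.adjoin E (Set.range y'))
  have h2 : (Set.range y).encard ≤ (AlgebraicIndependent.matroid E M).eRk (Set.range y') := by
    rw [← (AlgebraicIndependent.matroid E M).eRk_closure_eq,
      ← Matroid.Indep.eRk_eq_encard (M := AlgebraicIndependent.matroid E M)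
        (AlgebraicIndependent.matroid_indep_iff.2 hy.coe_range)]
    exact Matroid.eRk_mono _ h1
  have h3 : (Set.range y).encard = r := by
    rw [← Set.image_univ, hy.injective.encard_image, Set.encard_univ]
    simp
  have h4 : (Set.range y').encard ≤ r := by
    rw [← Set.image_univ]
    refine (Set.encard_image_le _ _).trans ?_
    rw [Set.encard_univ]
    simp
  have h5 : (AlgebraicIndependent.matroid E M).eRk (Set.range y') = (Set.range y').encard :=
    le_antisymm (Matroid.eRk_le_encard _ _) (h4.trans (h3 ▸ h2))
  have h6 := (Matroid.indep_iff_eRk_eq_encard_of_finite (Set.finite_range y')).2 h5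
  have h7 : (Set.range y').encard = r :=
    le_antisymm h4 (h3 ▸ (h2.trans h5.le))
  have h8 : Function.Injective y' := by
    have h9 : (y' '' Set.univ).encard = (Set.univ : Set (Fin r)).encard := by
      rw [Set.image_univ, h7, Set.encard_univ]
      simp
    exact Set.injOn_univ.1 (Set.finite_univ.injOn_of_encard_image_eq h9)
  rw [AlgebraicIndependent.matroid_indep_iff] at h6
  exact (algebraicIndependent_subtype_range h8).1 h6

end Pool.Agent.EVF
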