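import Pool.Agent.EVF.CDefs

/-!
# EVF-CCns: the algebraic numbers in `L` form a finite extension of `ℚ`

Algebraic elements of `L` which are linearly independent over `ℚ` are linearly independent over `ℚ(x_1, ..., x_r)`,
because `x_1, ..., x_r` are algebraically independent over the field of algebraic numbers in `L`. So the degree of this
field is at most `[L : ℚ(x)]`.
-/

open scoped BigOperators
open MvPolynomial

namespace Pool.Agent.EVF

open scoped IntermediateField.algebraAdjoinAdjoin

private theorem CCns_li {L : Type} [Field L] [CharZero L] {r : ℕ} {x : Fin r → L}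
    (hx : AlgebraicIndependent ℚ x) {ι : Type} {b : ι → algebraicClosure ℚ L}
    (hb : LinearIndependent ℚ b) :
    LinearIndependent (Algebra.adjoin ℚ (Set.range x)) fun i => (b i : L) := by
  have halg : Algebra.IsAlgebraic ℚ (algebraicClosure ℚ L) := algebraicClosure.isAlgebraic ℚ L
  have htr : AlgebraicIndependent (algebraicClosure ℚ L) x :=
    hx.extendScalars (algebraicClosure ℚ L)
  rw [linearIndependent_iff']
  intro s c hc i hi
  have hP : ∀ j, ∃ P : MvPolynomial (Fin r) ℚ, aeval x P = (c j : L) := by
    intro j
    have h1 : (c j : L) ∈ (aeval (R := ℚ) x).range :=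
      Algebra.adjoin_range_eq_range_aeval ℚ x ▸ (c j).2
    exact h1
  choose P hP using hP
  have hQ : aeval x (∑ j ∈ s, C (b j) * map (algebraMap ℚ (algebraicClosure ℚ L)) (P j)) = 0 := by
    rw [map_sum, ← hc]
    refine Finset.sum_congr rfl fun j _ => ?_
    rw [map_mul, aeval_C, aeval_map_algebraMap, hP, Algebra.smul_def, mul_comm]
    rfl
  have hQ0 : ∑ j ∈ s, C (b j) * map (algebraMap ℚ (algebraicClosure ℚ L)) (P j) = 0 :=
    (injective_iff_map_eq_zero _).1 htr _ hQ
  have hPi : P i = 0 := by
    ext n
    rw [coeff_zero]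
    refine linearIndependent_iff'.1 hb s (fun j => coeff n (P j)) ?_ i hi
    have h2 := congrArg (fun q => coeff n q) hQ0
    simp only [coeff_sum, coeff_C_mul, coeff_map, coeff_zero] at h2
    rw [← h2]
    refine Finset.sum_congr rfl fun j _ => ?_
    rw [Algebra.smul_def, mul_comm]
  have h3 := hP i
  rw [hPi, map_zero] at h3
  exact Subtype.ext h3.symm

theorem finite_cns {L : Type} [Field L] [CharZero L] {r : ℕ} (x : Fin r → Lˣ)
    (hx : AlgebraicIndependent ℚ fun i => (x i : L)) (hL : FiniteDimensional (ratField x) L) :
    FiniteDimensional ℚ (algebraicClosure ℚ L) := by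
  have h1 := CCns_li hx (Module.Basis.ofVectorSpace ℚ (algebraicClosure ℚ L)).linearIndependent
  have h2 := (LinearIndependent.iff_fractionRing
    (Algebra.adjoin ℚ (Set.range fun i => (x i : L))) (ratField x)).1 h1
  have h3 := h2.finite
  exact Module.Finite.of_basis (Module.Basis.ofVectorSpace ℚ (algebraicClosure ℚ L))

end Pool.Agent.EVF
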