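import Pool.Agent.EVF.Stm
import Pool.Agent.CST.Red

/-!
# EVF, part C (reductions): definitions

Paper proof: /team-store/evf66.md. Part C (architect helper97). `KMQ K 2` is `K₂(K) ⊗ ℚ` with symbols `sy u v`.
-/

namespace Pool.Agent.EVF

open Pool.Agent.Helper11 Pool.Agent.ISI Pool.Agent.CST

/-- `slices` in `KMQ K 2`: the span of the symbols `{g i, h}` and of the symbols of two nonzero elements of
`ℚ(g_1, ..., g_r)` -/
noncomputable def slR {K : Type} [Field K] [CharZero K] {r : ℕ} (g : Fin r → Kˣ) :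
    Submodule ℚ (KMQ K 2) :=
  Submodule.span ℚ {z | ∃ u v : Kˣ,
    ((∃ i, u = g i) ∨ ((u : K) ∈ ratField g ∧ (v : K) ∈ ratField g)) ∧ z = sy u v}

/-- the elements of `L` algebraic over `ℚ` times `p`-th powers meet the group generated by the `x i` only in the
`p`-th powers -/
def NN {L : Type} [Field L] [CharZero L] {r : ℕ} (x : Fin r → Lˣ) : Prop :=
  ∀ p : ℕ, p.Prime → ∀ (v : Fin r → ℤ) (q h : Lˣ), IsAlgebraic ℚ (q : L) →
    ∏ i, x i ^ v i = q * h ^ p → ∀ i, (p : ℤ) ∣ v i

end Pool.Agent.EVF
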