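import Pool.Agent.EVF.CDefs

/-!
# EVF-CExt: completion to a transcendence basis

`K` is generated over `ℚ` by a finite set `S`. The range of the independent family `g` is contained in
`S ∪ range g`, which generates `K`; between the two lies a transcendence basis `B`, which is finite. We enumerate
`B`; `K` is algebraic over `ℚ(B)` and generated by the finite set `S`, so it is finite over `ℚ(B)`.
-/

namespace Pool.Agent.EVF

private theorem cext_algebraic {K : Type} [Field K] [CharZero K] (T : Set K)
    (hT : IntermediateField.adjoin ℚ T = ⊤) : Algebra.IsAlgebraic (Algebra.adjoin ℚ T) K := by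
  constructor
  intro x
  have hx : x ∈ IntermediateField.adjoin ℚ T := by
    rw [hT]
    exact IntermediateField.mem_top
  obtain ⟨r, hr, s, hs, rfl⟩ := IntermediateField.mem_adjoin_iff_div.1 hx
  have h1 : IsAlgebraic (Algebra.adjoin ℚ T) r :=
    isAlgebraic_algebraMap (⟨r, hr⟩ : Algebra.adjoin ℚ T)
  have h2 : IsAlgebraic (Algebra.adjoin ℚ T) s :=
    isAlgebraic_algebraMap (⟨s, hs⟩ : Algebra.adjoin ℚ T)
  rw [div_eq_mul_inv]
  exact h1.mul h2.inv

private theorem cext_finite {K : Type} [Field K] [CharZero K] (S : Finset K)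
    (hS : IntermediateField.adjoin ℚ (S : Set K) = ⊤) (F : IntermediateField ℚ K)
    (hF : Algebra.IsAlgebraic F K) : FiniteDimensional F K := by
  have h1 : FiniteDimensional F (IntermediateField.adjoin F (S : Set K)) :=
    IntermediateField.finiteDimensional_adjoin fun x _ => (hF.isAlgebraic x).isIntegral
  have h2 : IntermediateField.adjoin F (S : Set K) = ⊤ := by
    rw [← IntermediateField.restrictScalars_eq_top_iff (K := ℚ), eq_top_iff, ← hS,
      IntermediateField.adjoin_le_iff]
    exact IntermediateField.subset_adjoin F (S : Set K)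
  rw [h2] at h1
  exact LinearEquiv.finiteDimensional (IntermediateField.topEquiv (F := F) (E := K)).toLinearEquiv

theorem exists_basis {K : Type} [Field K] [CharZero K]
    (hK : ∃ S : Finset K, IntermediateField.adjoin ℚ (S : Set K) = ⊤) {r : ℕ} (hr : 0 < r)
    (g : Fin r → Kˣ) (hg : AlgebraicIndependent ℚ fun i => (g i : K)) :
    ∃ (s : ℕ) (t : Fin s → Kˣ), 0 < s ∧ AlgebraicIndependent ℚ (fun i => (t i : K)) ∧
      FiniteDimensional (ratField t) K ∧ ∀ i, ∃ j, g i = t j := by
  classical
  obtain ⟨S, hS⟩ := hK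
  have hTtop : IntermediateField.adjoin ℚ ((S : Set K) ∪ Set.range fun i => (g i : K)) = ⊤ := by
    rw [eq_top_iff, ← hS]
    exact IntermediateField.adjoin.mono _ _ _ Set.subset_union_left
  have halg := cext_algebraic _ hTtop
  obtain ⟨B, hgB, hBT, hB⟩ := exists_isTranscendenceBasis_between
    (R := ℚ) (Set.range fun i => (g i : K)) ((S : Set K) ∪ Set.range fun i => (g i : K))
    Set.subset_union_right hg.coe_range
  have hBfin : B.Finite := (S.finite_toSet.union (Set.finite_range _)).subset hBT
  have : Fintype B := hBfin.fintype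
  let e : Fin (Fintype.card B) ≃ B := (Fintype.equivFin B).symm
  have hne : ∀ b : B, (b : K) ≠ 0 := fun b => hB.1.ne_zero b
  let t : Fin (Fintype.card B) → Kˣ := fun j => Units.mk0 (e j : K) (hne (e j))
  have ht : (fun j => (t j : K)) = (fun b : B => (b : K)) ∘ e := rfl
  have htB : IsTranscendenceBasis ℚ (fun j => (t j : K)) := by
    rw [ht]
    exact hB.comp_equiv e
  have hgt : ∀ i, ∃ j, g i = t j := by
    intro i
    refine ⟨e.symm ⟨(g i : K), hgB ⟨i, rfl⟩⟩, ?_⟩
    apply Units.ext
    show (g i : K) = ((e (e.symm ⟨(g i : K), hgB ⟨i, rfl⟩⟩) : B) : K)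
    rw [Equiv.apply_symm_apply]
  refine ⟨Fintype.card B, t, ?_, htB.1, cext_finite S hS _ htB.isAlgebraic_field, hgt⟩
  obtain ⟨j, -⟩ := hgt ⟨0, hr⟩
  exact j.pos

end Pool.Agent.EVF
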