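import Pool.Agent.EVF.CFld
import Pool.Agent.CS2.RatB

/-!
# EVF-CFin: the theorem, with the definitions of the statement

`eK K : K2Q K ≃ₗ[ℚ] KMQ K 2` maps `slices g` into `slR g` and `unramK2 K` into `geomM K`.
-/

namespace Pool.Agent.EVF

open Pool.Agent.ISG Pool.Agent.Helper11 Pool.Agent.ISI Pool.Agent.CST Pool.Agent.CS2

theorem field_main {K : Type} [Field K] [CharZero K]
    (hK : ∃ S : Finset K, IntermediateField.adjoin ℚ (S : Set K) = ⊤) {r : ℕ} (hr : 0 < r)
    (g : Fin r → Kˣ) (hg : AlgebraicIndependent ℚ fun i => (g i : K)) :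
    Module.Finite ℚ ↥(slices g ⊓ unramK2 K) := by
  have : Module.Finite ℚ ↥(slR g ⊓ geomM K) := finite_of_fg hK hr g hg
  have h1 : ∀ z ∈ slices g ⊓ unramK2 K, (eK K).toLinearMap z ∈ slR g ⊓ geomM K := by
    rintro z ⟨hz, hu⟩
    refine ⟨?_, eK_geom hu⟩
    exact eK_span (fun u v => (∃ i, u = g i) ∨ ((u : K) ∈ ratField g ∧ (v : K) ∈ ratField g))
      (slR g) (fun u v huv => Submodule.subset_span ⟨u, v, huv, rfl⟩) hz
  refine Module.Finite.of_injective ((eK K).toLinearMap.restrict h1) ?_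
  intro x y hxy
  have h2 : eK K (x : ISG.K2Q K) = eK K (y : ISG.K2Q K) := congrArg Subtype.val hxy
  exact Subtype.ext ((eK K).injective h2)

end Pool.Agent.EVF
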