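import Pool.Agent.EVF.CPla

/-!
# EVF-CGeo: unramified elements of `K₂(K) ⊗ ℚ` have unramified images, `L/K` algebraic

`geomM` (CST/Red) is the intersection of `unrM O 2` over the places `O`. For a place `O` of `L`,
`O.comap (algebraMap K L)` is a place of `K` (`comap_place`), and symbols of its units go to symbols of units
of `O`.
-/

namespace Pool.Agent.EVF

open Pool.Agent.Helper11 Pool.Agent.ISI Pool.Agent.CST

theorem geomM_map {K L : Type} [Field K] [CharZero K] [Field L] [CharZero L] [Algebra K L]
    [Algebra.IsAlgebraic K L] {z : KMQ K 2} (hz : z ∈ geomM K) :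
    KMQ.map (algebraMap K L) 2 z ∈ geomM L := by
  unfold geomM at hz ⊢
  rw [Submodule.mem_iInf]
  intro O
  rw [Submodule.mem_iInf]
  intro hO
  have hO' := comap_place (K := K) hO
  rw [Submodule.mem_iInf] at hz
  have h1 := hz (O.comap (algebraMap K L))
  rw [Submodule.mem_iInf] at h1
  have h2 := h1 hO'
  clear hz h1
  unfold unrM at h2 ⊢
  induction h2 using Submodule.span_induction with
  | mem x hx =>
    obtain ⟨f, hf, rfl⟩ := hx
    rw [KMQ.map_symM]
    refine Submodule.subset_span ⟨_, fun i => ?_, rfl⟩
    have h3 := hf i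
    have h4 : ((f i : Kˣ) : K) ∈ O.comap (algebraMap K L) := by
      have h5 := (ValuationSubring.mem_unitGroup_iff _ _).1 h3
      exact (ValuationSubring.valuation_le_one_iff _ _).1 h5.le
    have h5 : (((f i)⁻¹ : Kˣ) : K) ∈ O.comap (algebraMap K L) := by
      have h6 := (ValuationSubring.mem_unitGroup_iff _ _).1 (Subgroup.inv_mem _ h3)
      exact (ValuationSubring.valuation_le_one_iff _ _).1 h6.le
    rw [ValuationSubring.mem_comap] at h4 h5
    rw [ValuationSubring.mem_unitGroup_iff]
    apply le_antisymm
    · exact (O.valuation_le_one_iff _).2 h4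
    · have h6 := (O.valuation_le_one_iff _).2 h5
      rw [Units.val_inv_eq_inv_val, map_inv₀, map_inv₀] at h6
      have h7 : O.valuation (algebraMap K L ((f i : Kˣ) : K)) ≠ 0 := by
        rw [Ne, map_eq_zero, map_eq_zero]
        exact (f i).ne_zero
      have h8 : (1 : O.ValueGroup) ≤ O.valuation (algebraMap K L ((f i : Kˣ) : K)) := by
        rwa [inv_le_one₀ (zero_lt_iff.2 h7)] at h6
      exact h8
  | zero => rw [map_zero]; exact Submodule.zero_mem _
  | add x y _ _ hx hy => rw [map_add]; exact Submodule.add_mem _ hx hy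
  | smul c x _ hx => rw [map_smul]; exact Submodule.smul_mem _ c hx

end Pool.Agent.EVF
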