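import Pool.Agent.EVF.CDefs
import Pool.Agent.TGF.Inj2
import Pool.Agent.TGF.Res
import Pool.Agent.QPL.Th0

/-!
# EVF-CInj: `K₂(K) ⊗ ℚ → K₂(L) ⊗ ℚ` is injective for algebraic extensions

`KMQ K 2` is compared with `Λ² K^* ⊗ ℚ` modulo the elements `(1 - x) ∧ x` (`Tx 2 K` modulo `N0 2 K`), for which the
statement is `TGF.inj_alg`.
-/

noncomputable section

namespace Pool.Agent.EVF

open Pool.Agent.Helper11 Pool.Agent.ISI Pool.Agent.CST Helper14.Gon Helper14.W4 TGF QPL TensorProduct

/-- `1 ⊗ (u ∧ v)` -/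
private def ciw {K : Type} [Field K] (f : Fin 2 → Kˣ) : Tx 2 K :=
  toQ (exteriorPower.ιMulti ℤ 2 fun i => Additive.ofMul (f i))

private theorem ci_toQ_add {M : Type} [AddCommGroup M] (a b : M) : toQ (a + b) = toQ a + toQ b := by
  rw [toQ, toQ, toQ, tmul_add]

private theorem ci_upd {K : Type} [Field K] (f : Fin 2 → Kˣ) (i : Fin 2) (u : Kˣ) :
    (fun k => Additive.ofMul (Function.update f i u k)) =
      Function.update (fun k => Additive.ofMul (f k)) i (Additive.ofMul u) := by
  funext k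
  by_cases hk : k = i
  · subst hk
    simp
  · simp [hk]

private theorem ciw_add {K : Type} [Field K] (f : Fin 2 → Kˣ) (i : Fin 2) (u v : Kˣ) :
    ciw (Function.update f i (u * v)) = ciw (Function.update f i u) + ciw (Function.update f i v) := by
  unfold ciw
  rw [ci_upd, ci_upd, ci_upd, ofMul_mul, AlternatingMap.map_update_add, ci_toQ_add]

private theorem ci_mulW {K : Type} [Field K] (η : L2 K) (v : Fin 0 → Additive Kˣ) :
    mulW 0 η (exteriorPower.ιMulti ℤ 0 v) = η := by
  apply Subtype.ext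
  change η.1 * ExteriorAlgebra.ιMulti ℤ 0 v = η.1
  rw [ExteriorAlgebra.ιMulti_zero_apply, mul_one]

private theorem ci_st {K : Type} [Field K] (a b : Kˣ) (h : (a : K) + b = 1) :
    toQ (wdg (Additive.ofMul a) (Additive.ofMul b)) ∈ N0 2 K := by
  refine ⟨gen 2 (some (b : K)) (exteriorPower.ιMulti ℤ 0 (fun _ => 0)), ?_⟩
  rw [dT_gen, ci_mulW]
  change toQ (wdg (lg (1 - (b : K))) (lg (b : K))) = _
  rw [← h, add_sub_cancel_right, lg_unit, lg_unit]

private theorem ci_fun {K : Type} [Field K] (f : Fin 2 → Kˣ) :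
    (fun i => Additive.ofMul (f i)) = ![Additive.ofMul (f 0), Additive.ofMul (f 1)] := by
  funext k
  fin_cases k <;> rfl

private theorem ciw_st {K : Type} [Field K] (f : Fin 2 → Kˣ) (i j : Fin 2) (hij : i ≠ j)
    (h : (f i : K) + f j = 1) : ciw f ∈ N0 2 K := by
  have h1 : ciw f = toQ (wdg (Additive.ofMul (f 0)) (Additive.ofMul (f 1))) := by
    unfold ciw
    rw [ci_fun]
    rfl
  rw [h1]
  have h2 : (f 0 : K) + f 1 = 1 := by
    fin_cases i <;> fin_cases j
    · exact absurd rfl hij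
    · exact h
    · rw [add_comm]
      exact h
    · exact absurd rfl hij
  exact ci_st _ _ h2

private theorem ci_lift (K : Type) [Field K] :
    ∃ T : KMQ K 2 →ₗ[ℚ] (Tx 2 K ⧸ N0 2 K), ∀ f, T (symM f) = (N0 2 K).mkQ (ciw f) := by
  refine KMQ.exists_lift _ ?_ ?_
  · intro f i u v
    rw [ciw_add, map_add]
  · intro f i j hij h
    rw [Submodule.mkQ_apply, Submodule.Quotient.mk_eq_zero]
    exact ciw_st f i j hij h

private theorem ci_mul_upd {K : Type} [Field K] (m : Fin 2 → Additive Kˣ) (i : Fin 2)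
    (z : Additive Kˣ) : (fun k => (Function.update m i z k).toMul) =
      Function.update (fun k => (m k).toMul) i z.toMul := by
  funext k
  by_cases hk : k = i
  · subst hk
    simp
  · simp [hk]

private theorem ci_fin (i j : Fin 2) (h : i ≠ j) (x : Fin 2 → Prop) (hi : x i) (hj : x j) (k : Fin 2) :
    x k := by
  fin_cases i <;> fin_cases j <;> fin_cases k <;> simp_all

private theorem ci_zpow {K : Type} [Field K] (g : Fin 2 → Kˣ) (i : Fin 2) (c : ℤ) (x : Kˣ) :
    symM (Function.update g i (x ^ c)) = c • symM (Function.update g i x) := by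
  have h := map_zpow (AddMonoidHom.toMultiplicativeRight (AddMonoidHom.mk' (fun y : Additive Kˣ =>
    symM (Function.update g i y.toMul)) (fun a b => symM_update_mul g i a.toMul b.toMul))) x c
  exact h

/-- the alternating map `(u, v) ↦ {u, v}` -/
private def ciA (K : Type) [Field K] : (Additive Kˣ) [⋀^Fin 2]→ₗ[ℤ] KMQ K 2 where
  toFun v := symM fun i => (v i).toMul
  map_update_add' := by
    intro _ m i x y
    have e := Subsingleton.elim (‹DecidableEq (Fin 2)›) (instDecidableEqFin 2)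
    subst e
    rw [ci_mul_upd, ci_mul_upd, ci_mul_upd, toMul_add, symM_update_mul]
  map_update_smul' := by
    intro _ m i c x
    have e := Subsingleton.elim (‹DecidableEq (Fin 2)›) (instDecidableEqFin 2)
    subst e
    rw [ci_mul_upd, ci_mul_upd, toMul_zsmul, ci_zpow]
  map_eq_zero_of_eq' := by
    intro v i j hv hij
    have h1 : ∀ k, v k = v i := ci_fin i j hij (fun k => v k = v i) rfl hv.symm
    have h2 : (fun k => (v k).toMul) = ![(v i).toMul, (v i).toMul] := by
      funext k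
      rw [h1 k]
      fin_cases k <;> rfl
    rw [h2]
    exact sy_self _

/-- `1 ⊗ (u ∧ v) ↦ {u, v}` -/
private def ciAl (K : Type) [Field K] : Tx 2 K →ₗ[ℚ] KMQ K 2 :=
  LinearMap.liftBaseChange ℚ (exteriorPower.alternatingMapLinearEquiv (ciA K))

private theorem ciAl_toQ {K : Type} [Field K] (ω : Lam 2 K) :
    ciAl K (toQ ω) = exteriorPower.alternatingMapLinearEquiv (ciA K) ω := by
  simp only [ciAl, toQ]
  exact LinearMap.liftBaseChange_one_tmul ℚ _ _

private theorem ciAl_w {K : Type} [Field K] (f : Fin 2 → Kˣ) : ciAl K (ciw f) = symM f := by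
  rw [ciw, ciAl_toQ, exteriorPower.alternatingMapLinearEquiv_apply_ιMulti]
  rfl

private theorem ciAl_wdg {K : Type} [Field K] (u v : Additive Kˣ) :
    ciAl K (toQ (wdg u v)) = sy u.toMul v.toMul := by
  rw [wdg, ciAl_toQ, exteriorPower.alternatingMapLinearEquiv_apply_ιMulti]
  have h : (fun i => (![u, v] i).toMul) = ![u.toMul, v.toMul] := by
    funext k
    fin_cases k <;> rfl
  exact congrArg symM h

private theorem ci_d2 {K : Type} [Field K] (x : P1 K) : ciAl K (toQ (d2 x)) = 0 := by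
  match x with
  | none =>
    change ciAl K (toQ (0 : L2 K)) = 0
    rw [toQ, tmul_zero, map_zero]
  | some x =>
    change ciAl K (toQ (wdg (lg (1 - x)) (lg x))) = 0
    rw [ciAl_wdg]
    by_cases h0 : x = 0
    · rw [h0, lg_zero, toMul_zero]
      exact sy_one_right _
    · by_cases h1 : x = 1
      · rw [h1, lg_one, toMul_zero]
        exact sy_one_right _
      · have h2 : 1 - x ≠ 0 := sub_ne_zero.2 (Ne.symm h1)
        rw [lg, lg, dif_neg h0, dif_neg h2]
        refine sy_steinberg ?_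
        change 1 - x + x = 1
        ring

private theorem ciAl_N {K : Type} [Field K] : N0 2 K ≤ LinearMap.ker (ciAl K) := by
  have key : (ciAl K) ∘ₗ (dT 0 : Cx 2 0 K →ₗ[ℚ] Tx 2 K) = 0 := by
    refine Cx_ext fun x ω => ?_
    change ciAl K (dT 0 (gen 2 x ω)) = 0
    rw [dT_gen]
    have h : (AddMonoidHom.mk' (fun ω : Lam 0 K => ciAl K (toQ (mulW 0 (d2 x) ω))) (by
        intro a b
        rw [map_add, ci_toQ_add, map_add])) = 0 := by
      refine lam_ext fun v => ?_
      change ciAl K (toQ (mulW 0 (d2 x) (exteriorPower.ιMulti ℤ 0 v))) = 0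
      rw [ci_mulW]
      exact ci_d2 x
    exact DFunLike.congr_fun h ω
  rintro _ ⟨y, rfl⟩
  exact LinearMap.congr_fun key y

private theorem ci_ext {K M : Type} [Field K] [AddCommGroup M] [Module ℚ M] (f g : KMQ K 2 →ₗ[ℚ] M)
    (h : ∀ v, f (symM v) = g (symM v)) : f = g := by
  refine LinearMap.ext fun w => ?_
  have hw := mem_span_symM w
  induction hw using Submodule.span_induction with
  | mem x hx =>
    obtain ⟨v, rfl⟩ := hx
    exact h v
  | zero => rw [map_zero, map_zero]
  | add x y _ _ hx hy => rw [map_add, map_add, hx, hy]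
  | smul a x _ hx => rw [map_smul, map_smul, hx]

private theorem ci_res {K L : Type} [Field K] [Field L] (φ : K →+* L) (f : Fin 2 → Kˣ) :
    resT 2 φ (ciw f) = ciw (fun i => Units.map (φ : K →* L) (f i)) := by
  rw [ciw, resT_toQ, resL, exteriorPower.map_apply_ιMulti]
  rfl

theorem kmq_injective {K L : Type} [Field K] [Field L] (φ : K →+* L)
    (halg : ∀ x : L, ∃ P : Polynomial K, P ≠ 0 ∧ P.eval₂ φ x = 0) :
    Function.Injective (KMQ.map φ 2) := by
  rw [injective_iff_map_eq_zero]
  intro z hz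
  obtain ⟨S, hS⟩ := ci_lift K
  obtain ⟨T, hT⟩ := ci_lift L
  have hid : ((N0 2 K).liftQ (ciAl K) ciAl_N) ∘ₗ S = LinearMap.id := by
    refine ci_ext _ _ fun v => ?_
    change (N0 2 K).liftQ (ciAl K) ciAl_N (S (symM v)) = symM v
    rw [hS, Submodule.mkQ_apply, Submodule.liftQ_apply, ciAl_w]
  have hN : N0 2 K ≤ (N0 2 L).comap (resT 2 φ) := fun y hy => (laws0 res0).map_N K L φ 2 y hy
  have hnat : ((N0 2 K).mapQ (N0 2 L) (resT 2 φ) hN) ∘ₗ S = T ∘ₗ (KMQ.map φ 2) := by
    refine ci_ext _ _ fun v => ?_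
    change (N0 2 K).mapQ (N0 2 L) (resT 2 φ) hN (S (symM v)) = T (KMQ.map φ 2 (symM v))
    rw [hS, KMQ.map_symM, hT, Submodule.mkQ_apply, Submodule.mapQ_apply, ci_res]
    rfl
  obtain ⟨w, hw⟩ := (N0 2 K).mkQ_surjective (S z)
  have h1 : resT 2 φ w ∈ N0 2 L := by
    have h2 := LinearMap.congr_fun hnat z
    change (N0 2 K).mapQ (N0 2 L) (resT 2 φ) hN (S z) = T (KMQ.map φ 2 z) at h2
    rw [hz, map_zero, ← hw, Submodule.mkQ_apply, Submodule.mapQ_apply,
      Submodule.Quotient.mk_eq_zero] at h2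
    exact h2
  have h3 : w ∈ N0 2 K := TGF.inj_alg th0 (laws0 res0) exact0 φ halg 2 w trivial h1
  have h4 : S z = 0 := by
    rw [← hw, Submodule.mkQ_apply, Submodule.Quotient.mk_eq_zero]
    exact h3
  have h5 := LinearMap.congr_fun hid z
  change (N0 2 K).liftQ (ciAl K) ciAl_N (S z) = z at h5
  rw [← h5, h4, map_zero]

end Pool.Agent.EVF
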