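import Pool.Agent.EVF.CDefs

/-!
# EVF-CRel: the composite with the algebraic numbers is finite

`K` is finite over `ℚ(g)`, so the composite `E(K)` inside `M` is generated over `E(g)` by the images of a
basis, which are integral over `E(g)`.
-/

namespace Pool.Agent.EVF

private theorem crel_mem {K M : Type} [Field K] [CharZero K] [Field M] [CharZero M]
    [Algebra K M] (E : IntermediateField ℚ M) {r : ℕ} (g : Fin r → Kˣ) (y : K)
    (hy : y ∈ ratField g) :
    algebraMap K M y ∈ IntermediateField.adjoin E (Set.range fun i => algebraMap K M (g i : K)) := by
  let f : K →ₐ[ℚ] M := (algebraMap K M).toRatAlgHom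
  have h1 : ratField g ≤ ((IntermediateField.adjoin E
      (Set.range fun i => algebraMap K M (g i : K))).restrictScalars ℚ).comap f := by
    refine IntermediateField.adjoin_le_iff.2 ?_
    rintro _ ⟨i, rfl⟩
    exact IntermediateField.subset_adjoin E _ ⟨i, rfl⟩
  exact h1 hy

theorem relfinrank_ne_zero {K M : Type} [Field K] [CharZero K] [Field M] [CharZero M]
    [Algebra K M] (E : IntermediateField ℚ M) {r : ℕ} (g : Fin r → Kˣ)
    (hK : FiniteDimensional (ratField g) K) :
    IntermediateField.relfinrank
      (IntermediateField.adjoin E (Set.range fun i => algebraMap K M (g i : K)))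
      (IntermediateField.adjoin E (Set.range (algebraMap K M))) ≠ 0 := by
  set A : IntermediateField E M :=
    IntermediateField.adjoin E (Set.range fun i => algebraMap K M (g i : K)) with hA
  have hAF : A ≤ IntermediateField.adjoin E (Set.range (algebraMap K M)) := by
    refine IntermediateField.adjoin.mono E _ _ ?_
    rintro _ ⟨i, rfl⟩
    exact ⟨_, rfl⟩
  rw [IntermediateField.relfinrank_eq_finrank_of_le hAF]
  have hmem : ∀ y ∈ ratField g, algebraMap K M y ∈ A := fun y hy => crel_mem E g y hy
  let b := Module.finBasis (ratField g) K
  let φ : ratField g →+* A :=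
    ((algebraMap K M).comp (algebraMap (ratField g) K)).codRestrict A fun y => hmem y y.2
  have hint : ∀ y : K, IsIntegral A (algebraMap K M y) := by
    intro y
    have h1 : IsIntegral (ratField g) y := Algebra.IsIntegral.isIntegral y
    exact h1.map_of_comp_eq φ (algebraMap K M) rfl
  let N : IntermediateField A M :=
    IntermediateField.adjoin A (Set.range fun k => algebraMap K M (b k))
  have hN : FiniteDimensional A N := by
    refine IntermediateField.finiteDimensional_adjoin ?_
    rintro _ ⟨k, rfl⟩
    exact hint _
  have hle : IntermediateField.extendScalars hAF ≤ N := by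
    intro z hz
    have h1 : IntermediateField.adjoin E (Set.range (algebraMap K M)) ≤
        N.restrictScalars E := by
      refine IntermediateField.adjoin_le_iff.2 ?_
      rintro _ ⟨y, rfl⟩
      show algebraMap K M y ∈ N
      rw [← b.sum_repr y, map_sum]
      refine sum_mem fun k _ => ?_
      have h2 : algebraMap K M (b.repr y k • b k) =
          algebraMap K M (b.repr y k : K) * algebraMap K M (b k) := by
        rw [← map_mul]
        rfl
      rw [h2]
      refine mul_mem ?_ (IntermediateField.subset_adjoin A _ ⟨k, rfl⟩)
      exact N.algebraMap_mem ⟨_, hmem _ (b.repr y k).2⟩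
    exact h1 hz
  have hfin : FiniteDimensional A (IntermediateField.extendScalars hAF) :=
    FiniteDimensional.of_injective (IntermediateField.inclusion hle).toLinearMap
      (IntermediateField.inclusion_injective hle)
  exact (Module.finrank_pos (R := A) (M := IntermediateField.extendScalars hAF)).ne'

end Pool.Agent.EVF
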