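import Pool.Agent.EVF.CMin
import Pool.Agent.EVF.CRel

/-!
# EVF-CSat: a finite extension with a saturated transcendence basis

Inside an algebraic closure `M` of `K`, with `E` the algebraic closure of `ℚ` in `M` and `F = E(K)`, the family `g` is contained in the group
generated by a saturated family `y` in `F` (`exists_saturated`); `L = K(y)` is finite over `K` and over `ℚ(y)`.
-/

namespace Pool.Agent.EVF

/-- `L` is finite over `ℚ(x)` if `K` is finite over `ℚ(g)`, `L` is finite over `K` and the `g i` are monomials in the `x j` -/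
private theorem cSat_fin {K L : Type} [Field K] [CharZero K] [Field L] [CharZero L] [Algebra K L]
    [FiniteDimensional K L] {r : ℕ} (g : Fin r → Kˣ) (hK : FiniteDimensional (ratField g) K)
    (x : Fin r → Lˣ)
    (h : ∀ i, ∃ a : Fin r → ℤ, Units.map (algebraMap K L : K →* L) (g i) = ∏ j, x j ^ a j) :
    FiniteDimensional (ratField x) L := by
  have hmem : ∀ z : K, z ∈ ratField g → algebraMap K L z ∈ ratField x := by
    have h1 : ratField g ≤ (ratField x).comap (algebraMap K L).toRatAlgHom := by
      rw [IntermediateField.adjoin_le_iff]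
      rintro _ ⟨i, rfl⟩
      obtain ⟨a, ha⟩ := h i
      have h2 : algebraMap K L (g i : K) = ∏ j, (x j : L) ^ a j := by
        have h3 := congrArg (fun u : Lˣ => (u : L)) ha
        simpa using h3
      show algebraMap K L (g i : K) ∈ ratField x
      rw [h2]
      refine prod_mem fun j _ => zpow_mem ?_ _
      exact IntermediateField.subset_adjoin ℚ _ ⟨j, rfl⟩
    intro z hz
    exact h1 hz
  let φ : ratField g →+* ratField x :=
    ((algebraMap K L).comp (algebraMap (ratField g) K)).codRestrict (ratField x)
      fun z => hmem _ z.2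
  let _ : Algebra (ratField g) (ratField x) := φ.toAlgebra
  have _ : IsScalarTower (ratField g) (ratField x) L :=
    IsScalarTower.of_algebraMap_eq fun z => rfl
  have _ : Module.Finite (ratField g) L := Module.Finite.trans K L
  exact Module.Finite.of_restrictScalars_finite (ratField g) (ratField x) L

/-- saturation passes to `L` -/
private theorem cSat_nn {M L : Type} [Field M] [CharZero M] [Field L] [CharZero L] [Algebra L M]
    (F : Set M) {r : ℕ} (x : Fin r → Lˣ) (y : Fin r → Mˣ)
    (hxy : ∀ i, Units.map (algebraMap L M : L →* M) (x i) = y i)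
    (hLF : ∀ z : L, algebraMap L M z ∈ F)
    (hsat : ∀ p : ℕ, p.Prime → ∀ (v : Fin r → ℤ) (q : (algebraicClosure ℚ M)ˣ) (h : Mˣ),
      (h : M) ∈ F →
        ∏ i, y i ^ v i =
          Units.map (algebraMap (algebraicClosure ℚ M) M : algebraicClosure ℚ M →* M) q * h ^ p →
        ∀ i, (p : ℤ) ∣ v i) : NN x := by
  intro p hp v q h hq e
  have hq' : algebraMap L M (q : L) ∈ algebraicClosure ℚ M := by
    rw [mem_algebraicClosure_iff]
    exact IsAlgebraic.algHom (algebraMap L M).toRatAlgHom hq
  have hq0 : (⟨algebraMap L M (q : L), hq'⟩ : algebraicClosure ℚ M) ≠ 0 := by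
    intro h0
    have h1 : algebraMap L M (q : L) = 0 := congrArg Subtype.val h0
    rw [map_eq_zero] at h1
    exact q.ne_zero h1
  refine hsat p hp v (Units.mk0 _ hq0) (Units.map (algebraMap L M : L →* M) h) (hLF _) ?_
  have h2 := congrArg (Units.map (algebraMap L M : L →* M)) e
  rw [map_mul, map_pow, map_prod] at h2
  have h3 : Units.map (algebraMap L M : L →* M) q =
      Units.map (algebraMap (algebraicClosure ℚ M) M : algebraicClosure ℚ M →* M)
        (Units.mk0 _ hq0) := Units.ext rfl
  rw [← h3, ← h2]
  refine Finset.prod_congr rfl fun i _ => ?_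
  rw [map_zpow, hxy]

theorem saturate {K : Type} [Field K] [CharZero K] {r : ℕ} (g : Fin r → Kˣ)
    (hg : AlgebraicIndependent ℚ fun i => (g i : K)) (hK : FiniteDimensional (ratField g) K) :
    ∃ (L : Type) (_ : Field L) (_ : CharZero L) (_ : Algebra K L) (_ : FiniteDimensional K L)
      (x : Fin r → Lˣ), AlgebraicIndependent ℚ (fun i => (x i : L)) ∧
      FiniteDimensional (ratField x) L ∧ NN x ∧
      ∀ i, ∃ a : Fin r → ℤ, Units.map (algebraMap K L : K →* L) (g i) = ∏ j, x j ^ a j := by
  have hM : CharZero (AlgebraicClosure K) :=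
    charZero_of_injective_algebraMap (algebraMap K (AlgebraicClosure K)).injective
  obtain ⟨M, fM, cM, aM, clM, algM⟩ : ∃ (M : Type) (_ : Field M) (_ : CharZero M)
      (_ : Algebra K M), IsAlgClosed M ∧ Algebra.IsAlgebraic K M :=
    ⟨AlgebraicClosure K, inferInstance, hM, inferInstance, inferInstance, inferInstance⟩
  set E : IntermediateField ℚ M := algebraicClosure ℚ M with hE
  have hEc : IsAlgClosed E := (algebraicClosure.isAlgClosure ℚ M).isAlgClosed
  have hEa : Algebra.IsAlgebraic ℚ E := algebraicClosure.isAlgebraic ℚ M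
  let F : IntermediateField E M := IntermediateField.adjoin E (Set.range (algebraMap K M))
  let g' : Fin r → Mˣ := fun i => Units.map (algebraMap K M : K →* M) (g i)
  have hg' : AlgebraicIndependent E fun i => (g' i : M) := by
    have h1 : AlgebraicIndependent ℚ fun i => (g' i : M) :=
      hg.map' (f := (algebraMap K M).toRatAlgHom) (algebraMap K M).injective
    exact h1.extendScalars E
  have hgF : ∀ i, (g' i : M) ∈ F := fun i => IntermediateField.subset_adjoin E _ ⟨(g i : K), rfl⟩
  obtain ⟨y, hy, hyF, hgy, hsat⟩ := exists_saturated hg' hgF (relfinrank_ne_zero E g hK)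
  -- the field `L`
  let L : IntermediateField K M := IntermediateField.adjoin K (Set.range fun i => (y i : M))
  have hLfin : FiniteDimensional K L :=
    IntermediateField.finiteDimensional_adjoin fun z _ =>
      (Algebra.IsAlgebraic.isAlgebraic (R := K) z).isIntegral
  have hL0 : CharZero L := charZero_of_injective_algebraMap (algebraMap K L).injective
  have hyL : ∀ i, (y i : M) ∈ L := fun i => IntermediateField.subset_adjoin K _ ⟨i, rfl⟩
  have hy0 : ∀ i, (⟨(y i : M), hyL i⟩ : L) ≠ 0 := by
    intro i h0
    exact (y i).ne_zero (congrArg Subtype.val h0)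
  let x : Fin r → Lˣ := fun i => Units.mk0 ⟨(y i : M), hyL i⟩ (hy0 i)
  have hxy : ∀ i, Units.map (algebraMap L M : L →* M) (x i) = y i := fun i => Units.ext rfl
  have hmon : ∀ i, ∃ a : Fin r → ℤ,
      Units.map (algebraMap K L : K →* L) (g i) = ∏ j, x j ^ a j := by
    intro i
    obtain ⟨a, ha⟩ := hgy i
    refine ⟨a, ?_⟩
    have hinj : Function.Injective (Units.map (algebraMap L M : L →* M)) :=
      Units.map_injective (algebraMap L M).injective
    apply hinj
    rw [map_prod]
    have h1 : Units.map (algebraMap L M : L →* M) (Units.map (algebraMap K L : K →* L) (g i)) =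
        g' i := Units.ext rfl
    rw [h1, ha]
    refine Finset.prod_congr rfl fun j _ => ?_
    rw [map_zpow, hxy]
  refine ⟨L, inferInstance, hL0, inferInstance, hLfin, x, ?_, cSat_fin g hK x hmon, ?_, hmon⟩
  · have h1 : AlgebraicIndependent ℚ fun i => (y i : M) :=
      hy.restrictScalars (algebraMap ℚ E).injective
    exact AlgebraicIndependent.of_comp (f := (algebraMap L M).toRatAlgHom) h1
  · refine cSat_nn (F : Set M) x y hxy ?_ hsat
    let F' : IntermediateField K M := F.toSubfield.toIntermediateField fun z =>
      IntermediateField.subset_adjoin E _ ⟨z, rfl⟩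
    have h1 : L ≤ F' := by
      rw [IntermediateField.adjoin_le_iff]
      rintro _ ⟨i, rfl⟩
      exact hyF i
    intro z
    exact h1 z.2

end Pool.Agent.EVF
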