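import Pool.Agent.EVF.CDefs

/-!
# EVF-CSlr: slices are mapped to slices

`slR g` is a span of symbols `sy u v`; a field map which sends the `g i` into the group generated by the `x j` sends it
into `slR x`.
-/

namespace Pool.Agent.EVF

open Pool.Agent.Helper11 Pool.Agent.ISI Pool.Agent.CST

private theorem CSlr_map_sy {K L : Type} [Field K] [Field L] (f : K →+* L) (u v : Kˣ) :
    KMQ.map f 2 (sy u v) = sy (Units.map (f : K →* L) u) (Units.map (f : K →* L) v) := by
  unfold sy
  rw [KMQ.map_symM]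
  congr 1
  funext m
  fin_cases m <;> rfl

private theorem CSlr_rat {K L : Type} [Field K] [CharZero K] [Field L] [CharZero L] [Algebra K L]
    {r : ℕ} {g : Fin r → Kˣ} {x : Fin r → Lˣ}
    (hx : ∀ i, ∃ a : Fin r → ℤ, Units.map (algebraMap K L : K →* L) (g i) = ∏ j, x j ^ a j)
    {a : K} (ha : a ∈ ratField g) : algebraMap K L a ∈ ratField x := by
  have h : ratField g ≤ (ratField x).comap (algebraMap K L).toRatAlgHom := by
    unfold ratField
    rw [IntermediateField.adjoin_le_iff]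
    rintro _ ⟨i, rfl⟩
    obtain ⟨b, hb⟩ := hx i
    have h1 : (algebraMap K L).toRatAlgHom (g i : K) = ∏ j, (x j : L) ^ b j := by
      have h2 := congrArg (fun w : Lˣ => (w : L)) hb
      simp only [Units.coe_map, Units.coe_prod, Units.val_zpow_eq_zpow_val] at h2
      exact h2
    have h4 : ∀ j, (x j : L) ∈ ratField x := fun j =>
      IntermediateField.subset_adjoin ℚ _ (Set.mem_range_self j)
    have h3 : ∏ j, (x j : L) ^ b j ∈ ratField x := prod_mem fun j _ => zpow_mem (h4 j) _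
    rw [← h1] at h3
    exact h3
  exact h ha

theorem slR_map {K L : Type} [Field K] [CharZero K] [Field L] [CharZero L] [Algebra K L]
    {r : ℕ} {g : Fin r → Kˣ} {x : Fin r → Lˣ}
    (hx : ∀ i, ∃ a : Fin r → ℤ, Units.map (algebraMap K L : K →* L) (g i) = ∏ j, x j ^ a j)
    {z : KMQ K 2} (hz : z ∈ slR g) : KMQ.map (algebraMap K L) 2 z ∈ slR x := by
  have h : slR g ≤ (slR x).comap (KMQ.map (algebraMap K L) 2) := by
    unfold slR
    rw [Submodule.span_le]
    rintro _ ⟨u, v, h, rfl⟩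
    rw [SetLike.mem_coe, Submodule.mem_comap, CSlr_map_sy]
    rcases h with ⟨i, rfl⟩ | ⟨h1, h2⟩
    · obtain ⟨a, ha⟩ := hx i
      rw [ha, sy_prod_left]
      refine Submodule.sum_mem _ fun j _ => ?_
      rw [sy_zpow_left]
      exact Submodule.smul_mem _ _ (Submodule.subset_span ⟨x j, _, Or.inl ⟨j, rfl⟩, rfl⟩)
    · exact Submodule.subset_span ⟨_, _, Or.inr ⟨CSlr_rat hx h1, CSlr_rat hx h2⟩, rfl⟩
  exact h hz

/-- a larger family has a larger slice -/
theorem slR_mono {K : Type} [Field K] [CharZero K] {r s : ℕ} {g : Fin r → Kˣ} {t : Fin s → Kˣ}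
    (h : ∀ i, ∃ j, g i = t j) : slR g ≤ slR t := by
  have hr : ratField g ≤ ratField t := by
    unfold ratField
    rw [IntermediateField.adjoin_le_iff]
    rintro _ ⟨i, rfl⟩
    obtain ⟨j, hj⟩ := h i
    change (g i : K) ∈ _
    rw [hj]
    exact IntermediateField.subset_adjoin _ _ ⟨j, rfl⟩
  unfold slR
  refine Submodule.span_mono ?_
  rintro _ ⟨u, v, h1, rfl⟩
  refine ⟨u, v, ?_, rfl⟩
  rcases h1 with ⟨i, rfl⟩ | ⟨h1, h2⟩
  · obtain ⟨j, hj⟩ := h i
    exact Or.inl ⟨j, hj⟩
  · exact Or.inr ⟨hr h1, hr h2⟩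

end Pool.Agent.EVF
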