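import Pool.Agent.EVF.FieldB
import Pool.Agent.EVF.CInj
import Pool.Agent.EVF.CGeo
import Pool.Agent.EVF.CSlr
import Pool.Agent.EVF.CSat
import Pool.Agent.EVF.CExt

/-!
# EVF-CFld: the theorem for `KMQ K 2`

A transcendence basis `g` of `K` becomes saturated in a finite extension `L` (`saturate`), where the
theorem is `fieldB`; the map from `K₂(K) ⊗ ℚ` to `K₂(L) ⊗ ℚ` is injective. A general independent family is
completed to a transcendence basis.
-/

namespace Pool.Agent.EVF

open Pool.Agent.Helper11 Pool.Agent.ISI Pool.Agent.CST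

theorem finite_of_basis {K : Type} [Field K] [CharZero K] {r : ℕ} (hr : 0 < r) (g : Fin r → Kˣ)
    (hg : AlgebraicIndependent ℚ fun i => (g i : K)) (hK : FiniteDimensional (ratField g) K) :
    Module.Finite ℚ ↥(slR g ⊓ geomM K) := by
  obtain ⟨L, _, _, _, hfin, x, hx, hL, hN, ha⟩ := saturate g hg hK
  have h1 : Module.Finite ℚ ↥(slR x ⊓ geomM L) := fieldB hr x hx hL hN
  have hinj : Function.Injective (KMQ.map (algebraMap K L) 2) := by
    refine kmq_injective _ fun y => ?_
    obtain ⟨P, hP, hy⟩ := (Algebra.IsAlgebraic.isAlgebraic (R := K) y)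
    exact ⟨P, hP, hy⟩
  have h2 : ∀ z ∈ slR g ⊓ geomM K, KMQ.map (algebraMap K L) 2 z ∈ slR x ⊓ geomM L :=
    fun z hz => ⟨slR_map ha hz.1, geomM_map hz.2⟩
  refine Module.Finite.of_injective ((KMQ.map (algebraMap K L) 2).restrict h2) ?_
  intro a b hab
  exact Subtype.ext (hinj (congrArg Subtype.val hab))

theorem finite_of_fg {K : Type} [Field K] [CharZero K]
    (hK : ∃ S : Finset K, IntermediateField.adjoin ℚ (S : Set K) = ⊤) {r : ℕ} (hr : 0 < r)
    (g : Fin r → Kˣ) (hg : AlgebraicIndependent ℚ fun i => (g i : K)) :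
    Module.Finite ℚ ↥(slR g ⊓ geomM K) := by
  obtain ⟨s, t, hs, ht, hfin, hgt⟩ := exists_basis hK hr g hg
  have h1 : Module.Finite ℚ ↥(slR t ⊓ geomM K) := finite_of_basis hs t ht hfin
  have h2 : slR g ⊓ geomM K ≤ slR t ⊓ geomM K := inf_le_inf_right _ (slR_mono hgt)
  exact Module.Finite.of_injective (Submodule.inclusion h2) (Submodule.inclusion_injective h2)

end Pool.Agent.EVF
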