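import Pool.Agent.EVF.CStp

/-!
# EVF-CMin: a saturated family

Strong induction on the degree of `F` over the field generated by the family, with `kummer_step`.
-/

namespace Pool.Agent.EVF

private theorem cmin_mem {E M : Type} [Field E] [Field M] [Algebra E M] {r : ℕ}
    (B : IntermediateField E M) (y : Fin r → Mˣ) (hy : ∀ j, (y j : M) ∈ B) (a : Fin r → ℤ) :
    ((∏ j, y j ^ a j : Mˣ) : M) ∈ B := by
  rw [Units.coe_prod]
  refine prod_mem fun j _ => ?_
  rw [Units.val_zpow_eq_zpow_val]
  exact zpow_mem (hy j) _

theorem exists_saturated {E M : Type} [Field E] [IsAlgClosed E] [Field M] [Algebra E M]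
    {r : ℕ} {F : IntermediateField E M} {g : Fin r → Mˣ}
    (hg : AlgebraicIndependent E fun i => (g i : M)) (hF : ∀ i, (g i : M) ∈ F)
    (hfin : IntermediateField.relfinrank
      (IntermediateField.adjoin E (Set.range fun i => (g i : M))) F ≠ 0) :
    ∃ y : Fin r → Mˣ, AlgebraicIndependent E (fun i => (y i : M)) ∧ (∀ i, (y i : M) ∈ F) ∧
      (∀ i, ∃ a : Fin r → ℤ, g i = ∏ j, y j ^ a j) ∧
      ∀ p : ℕ, p.Prime → ∀ (v : Fin r → ℤ) (q : Eˣ) (h : Mˣ), (h : M) ∈ F →
        ∏ i, y i ^ v i = Units.map (algebraMap E M : E →* M) q * h ^ p → ∀ i, (p : ℤ) ∣ v i := by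
  classical
  induction hn : IntermediateField.relfinrank
      (IntermediateField.adjoin E (Set.range fun i => (g i : M))) F using
      Nat.strong_induction_on generalizing g with
  | _ n ih =>
    by_cases hsat : ∀ p : ℕ, p.Prime → ∀ (v : Fin r → ℤ) (q : Eˣ) (h : Mˣ), (h : M) ∈ F →
        ∏ i, g i ^ v i = Units.map (algebraMap E M : E →* M) q * h ^ p → ∀ i, (p : ℤ) ∣ v i
    · refine ⟨g, hg, hF, fun i => ⟨Pi.single i 1, ?_⟩, hsat⟩
      rw [Finset.prod_eq_single i]
      · rw [Pi.single_eq_same, zpow_one]
      · intro j _ hj
        rw [Pi.single_eq_of_ne hj, zpow_zero]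
      · intro h
        exact absurd (Finset.mem_univ i) h
    · push Not at hsat
      obtain ⟨p, hp, v, q, h, hh, he, i, hi⟩ := hsat
      obtain ⟨y', h1, h2, h3, i0, h4⟩ := kummer_step hg hF hp hh he hi
      choose a ha using h3
      have hy' : ∀ j, (y' j : M) ∈ IntermediateField.adjoin E (Set.range fun i => (y' i : M)) :=
        fun j => IntermediateField.subset_adjoin E _ ⟨j, rfl⟩
      have hAB : IntermediateField.adjoin E (Set.range fun i => (g i : M)) ≤
          IntermediateField.adjoin E (Set.range fun i => (y' i : M)) := by
        rw [IntermediateField.adjoin_le_iff]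
        rintro _ ⟨j, rfl⟩
        change (g j : M) ∈ IntermediateField.adjoin E (Set.range fun i => (y' i : M))
        rw [ha j]
        exact cmin_mem _ y' hy' (a j)
      have hBF : IntermediateField.adjoin E (Set.range fun i => (y' i : M)) ≤ F := by
        rw [IntermediateField.adjoin_le_iff]
        rintro _ ⟨j, rfl⟩
        exact h2 j
      have hmul := IntermediateField.relfinrank_mul_relfinrank hAB hBF
      have hne1 : IntermediateField.relfinrank
          (IntermediateField.adjoin E (Set.range fun i => (g i : M)))
          (IntermediateField.adjoin E (Set.range fun i => (y' i : M))) ≠ 1 := by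
        intro h5
        exact h4 (IntermediateField.relfinrank_eq_one_iff.1 h5 (hy' i0))
      have hB0 : IntermediateField.relfinrank
          (IntermediateField.adjoin E (Set.range fun i => (y' i : M))) F ≠ 0 := by
        intro h5
        rw [h5, mul_zero] at hmul
        exact hfin hmul.symm
      have hA0 : IntermediateField.relfinrank
          (IntermediateField.adjoin E (Set.range fun i => (g i : M)))
          (IntermediateField.adjoin E (Set.range fun i => (y' i : M))) ≠ 0 := by
        intro h5
        rw [h5, zero_mul] at hmul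
        exact hfin hmul.symm
      have hlt : IntermediateField.relfinrank
          (IntermediateField.adjoin E (Set.range fun i => (y' i : M))) F < n := by
        rw [← hn, ← hmul]
        refine lt_mul_of_one_lt_left (Nat.pos_of_ne_zero hB0) ?_
        omega
      obtain ⟨y, k1, k2, k3, k4⟩ := ih _ hlt h1 h2 hB0 rfl
      refine ⟨y, k1, k2, fun i => ?_, k4⟩
      choose b hb using k3
      refine ⟨fun k => ∑ j, a i j * b j k, ?_⟩
      rw [ha i]
      calc ∏ j, y' j ^ a i j = ∏ j, (∏ k, y k ^ b j k) ^ a i j :=
            Finset.prod_congr rfl fun j _ => by rw [← hb j]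
        _ = ∏ j, ∏ k, y k ^ (a i j * b j k) := by
            refine Finset.prod_congr rfl fun j _ => ?_
            rw [← Finset.prod_zpow]
            refine Finset.prod_congr rfl fun k _ => ?_
            rw [← zpow_mul, mul_comm]
        _ = ∏ k, ∏ j, y k ^ (a i j * b j k) := Finset.prod_comm
        _ = ∏ k, y k ^ ∑ j, a i j * b j k := by
            refine Finset.prod_congr rfl fun k _ => ?_
            induction (Finset.univ : Finset (Fin r)) using Finset.induction_on with
            | empty => simp
            | insert x s hx ihs =>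
              rw [Finset.prod_insert hx, Finset.sum_insert hx, zpow_add, ihs]

end Pool.Agent.EVF
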