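import Mathlib

/-!
# EVF-CNpw: monomials in independent elements are not powers

Write `h = a(y) / b(y)` with polynomials `a`, `b`. From `h ^ p = ∏ y ^ w` one gets
`a ^ p * ∏ X j ^ w⁻ j = b ^ p * ∏ X j ^ w⁺ j` (injectivity of `aeval y`); compare the degrees in `X i`.
-/

namespace Pool.Agent.EVF

private theorem npw_deg {E : Type} [Field E] {r : ℕ} {a : MvPolynomial (Fin r) E} (ha : a ≠ 0)
    (p : ℕ) (n : Fin r → ℕ) (i : Fin r) :
    (a ^ p * ∏ j, MvPolynomial.X j ^ n j).degreeOf i = p * a.degreeOf i + n i := by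
  have h1 : ∀ j : Fin r, (MvPolynomial.X j : MvPolynomial (Fin r) E) ^ n j ≠ 0 := fun j =>
    pow_ne_zero _ (MvPolynomial.X_ne_zero j)
  rw [MvPolynomial.degreeOf_mul_eq (pow_ne_zero _ ha) (Finset.prod_ne_zero_iff.2 fun j _ => h1 j),
    MvPolynomial.degreeOf_pow_eq _ _ _ ha, MvPolynomial.degreeOf_prod_eq _ _ fun j _ => h1 j]
  congr 1
  rw [Finset.sum_eq_single i]
  · rw [MvPolynomial.degreeOf_pow_eq _ _ _ (MvPolynomial.X_ne_zero i), MvPolynomial.degreeOf_X,
      if_pos rfl, mul_one]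
  · intro j _ hj
    rw [MvPolynomial.degreeOf_pow_eq _ _ _ (MvPolynomial.X_ne_zero j), MvPolynomial.degreeOf_X,
      if_neg (Ne.symm hj), mul_zero]
  · intro h
    exact absurd (Finset.mem_univ i) h

theorem not_pow_of_indep {E M : Type} [Field E] [Field M] [Algebra E M] {r : ℕ}
    {y : Fin r → M} (hy : AlgebraicIndependent E y) {w : Fin r → ℤ} {p : ℕ} {i : Fin r}
    (hw : ¬ (p : ℤ) ∣ w i) {h : M} (hh : h ∈ IntermediateField.adjoin E (Set.range y)) :
    h ^ p ≠ ∏ j, y j ^ w j := by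
  intro he
  have hy0 : ∀ j, y j ≠ 0 := fun j => hy.ne_zero j
  have hp0 : ∏ j, y j ^ w j ≠ 0 := Finset.prod_ne_zero_iff.2 fun j _ => zpow_ne_zero _ (hy0 j)
  obtain ⟨a, b, ha, hb, hab⟩ : ∃ a b : MvPolynomial (Fin r) E, a ≠ 0 ∧ b ≠ 0 ∧
      h ^ p * MvPolynomial.aeval y b ^ p = MvPolynomial.aeval y a ^ p := by
    by_cases h0 : h = 0
    · have hp : p = 0 := by
        by_contra hp
        rw [h0, zero_pow hp] at he
        exact hp0 he.symm
      refine ⟨1, 1, one_ne_zero, one_ne_zero, ?_⟩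
      rw [hp, pow_zero, pow_zero, mul_one]
    · obtain ⟨a, b, hab⟩ := (IntermediateField.mem_adjoin_range_iff E y h).1 hh
      have hb : MvPolynomial.aeval y b ≠ 0 := by
        intro hb
        rw [hb, div_zero] at hab
        exact h0 hab
      have ha : MvPolynomial.aeval y a ≠ 0 := by
        intro ha
        rw [ha, zero_div] at hab
        exact h0 hab
      refine ⟨a, b, fun h1 => ha (by rw [h1, map_zero]), fun h1 => hb (by rw [h1, map_zero]), ?_⟩
      rw [← mul_pow, hab, div_mul_cancel₀ _ hb]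
  have h1 : (∏ j, y j ^ w j) * ∏ j, y j ^ (-w j).toNat = ∏ j, y j ^ (w j).toNat := by
    rw [← Finset.prod_mul_distrib]
    refine Finset.prod_congr rfl fun j _ => ?_
    rw [← zpow_natCast, ← zpow_natCast, ← zpow_add₀ (hy0 j)]
    congr 1
    omega
  have h2 : a ^ p * ∏ j, MvPolynomial.X j ^ (-w j).toNat =
      b ^ p * ∏ j, MvPolynomial.X j ^ (w j).toNat := by
    refine hy (?_ : MvPolynomial.aeval y _ = MvPolynomial.aeval y _)
    simp only [map_mul, map_pow, map_prod, MvPolynomial.aeval_X]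
    rw [← hab, ← h1, he]
    ring
  have h3 := congrArg (MvPolynomial.degreeOf i) h2
  rw [npw_deg ha, npw_deg hb] at h3
  refine hw ⟨(a.degreeOf i : ℤ) - b.degreeOf i, ?_⟩
  have h4 : (p : ℤ) * a.degreeOf i + (-w i).toNat = p * b.degreeOf i + (w i).toNat := by
    exact_mod_cast h3
  have h5 : w i = (w i).toNat - (-w i).toNat := by omega
  rw [h5, mul_sub]
  linarith

end Pool.Agent.EVF
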