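import Pool.Agent.EVF.CDefs
import Pool.Agent.CST.Ord

/-!
# EVF-CPla: a place of `L` lies over a place of `K`, `L/K` algebraic

The order function of the place `O` of `L`, restricted to `K`, is not constantly `0`: otherwise `K`,
and so `L`, which is integral over `K`, is contained in `O`. It takes its least positive value at an
element `t`, and every nonzero element of `O ∩ K` is a unit times a power of `t`.
-/

namespace Pool.Agent.EVF

open Pool.Agent.Helper11 Pool.Agent.ISI Pool.Agent.CST

private theorem cpla_dvr {K : Type} [Field K] (O' : ValuationSubring K) (f : Kˣ → ℤ)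
    (hmul : ∀ x y, f (x * y) = f x + f y) (hnn : ∀ x : Kˣ, 0 ≤ f x ↔ (x : K) ∈ O')
    (hne : ∃ x, f x ≠ 0) : IsDiscreteValuationRing O' := by
  classical
  have h1 : f 1 = 0 := by
    have h := hmul 1 1
    rw [mul_one] at h
    omega
  have hinv : ∀ x, f x⁻¹ = -f x := by
    intro x
    have h := hmul x x⁻¹
    rw [mul_inv_cancel, h1] at h
    omega
  have hpow : ∀ x (n : ℕ), f (x ^ n) = n * f x := by
    intro x n
    induction n with
    | zero => rw [pow_zero, h1, Nat.cast_zero, zero_mul]
    | succ n ih =>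
      rw [pow_succ, hmul, ih]
      push_cast
      ring
  have hex : ∃ n : ℕ, 0 < n ∧ ∃ x, f x = n := by
    obtain ⟨x, hx⟩ := hne
    rcases lt_or_gt_of_ne hx with h | h
    · refine ⟨(-f x).toNat, by omega, x⁻¹, ?_⟩
      rw [hinv]
      omega
    · exact ⟨(f x).toNat, by omega, x, by omega⟩
  obtain ⟨he, t, ht⟩ := Nat.find_spec hex
  have hmin : ∀ x : Kˣ, 0 < f x → (Nat.find hex : ℤ) ≤ f x := by
    intro x hx
    have h := Nat.find_min' hex (m := (f x).toNat) ⟨by omega, x, by omega⟩
    omega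
  generalize Nat.find hex = e at he ht hmin
  have htO : (t : K) ∈ O' := (hnn t).1 (by omega)
  have hunit : ∀ (a : O') (u : Kˣ), (u : K) = a → (IsUnit a ↔ f u = 0) := by
    intro a u hu
    have hau : 0 ≤ f u := (hnn u).2 (by rw [hu]; exact a.2)
    constructor
    · intro ha
      obtain ⟨b, hb⟩ := isUnit_iff_exists_inv.1 ha
      have hb' : (a : K) * b = 1 := by
        have h := congrArg (Subtype.val : O' → K) hb
        exact h
      have hbu : ((u⁻¹ : Kˣ) : K) = b := by
        rw [Units.val_inv_eq_inv_val, hu]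
        exact inv_eq_of_mul_eq_one_right hb'
      have h2 : 0 ≤ f u⁻¹ := (hnn _).2 (by rw [hbu]; exact b.2)
      rw [hinv] at h2
      omega
    · intro h
      have h2 : ((u⁻¹ : Kˣ) : K) ∈ O' := (hnn _).1 (by rw [hinv]; omega)
      refine isUnit_iff_exists_inv.2 ⟨⟨_, h2⟩, Subtype.ext ?_⟩
      show (a : K) * ((u⁻¹ : Kˣ) : K) = 1
      rw [← hu]
      exact u.mul_inv
  refine IsDiscreteValuationRing.ofHasUnitMulPowIrreducibleFactorization
    ⟨⟨(t : K), htO⟩, ?_, ?_⟩
  · refine irreducible_iff.2 ⟨fun h => ?_, fun {a b} hab => ?_⟩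
    · have h2 := (hunit _ t rfl).1 h
      omega
    · have hab' : (t : K) = a * b := congrArg (Subtype.val : O' → K) hab
      have ha0 : (a : K) ≠ 0 := by
        intro h
        rw [h, zero_mul] at hab'
        exact t.ne_zero hab'
      have hb0 : (b : K) ≠ 0 := by
        intro h
        rw [h, mul_zero] at hab'
        exact t.ne_zero hab'
      have h3 : f t = f (Units.mk0 _ ha0) + f (Units.mk0 _ hb0) := by
        rw [← hmul]
        exact congrArg f (Units.ext hab')
      have h4 : 0 ≤ f (Units.mk0 _ ha0) := (hnn _).2 a.2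
      have h5 : 0 ≤ f (Units.mk0 _ hb0) := (hnn _).2 b.2
      by_cases h6 : f (Units.mk0 _ ha0) = 0
      · exact Or.inl ((hunit a (Units.mk0 _ ha0) rfl).2 h6)
      · refine Or.inr ((hunit b (Units.mk0 _ hb0) rfl).2 ?_)
        have h7 := hmin _ (lt_of_le_of_ne h4 (Ne.symm h6))
        omega
  · intro x hx
    have hx0 : (x : K) ≠ 0 := fun h => hx (Subtype.ext h)
    have h4 : 0 ≤ f (Units.mk0 _ hx0) := (hnn _).2 x.2
    obtain ⟨m, hm⟩ := Int.eq_ofNat_of_zero_le h4
    have h5 : f (Units.mk0 _ hx0 * (t ^ (m / e))⁻¹) = ((m % e : ℕ) : ℤ) := by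
      rw [hmul, hinv, hpow, hm, ht]
      have h6 := Nat.div_add_mod m e
      have h7 : (m : ℤ) = e * (m / e : ℕ) + (m % e : ℕ) := by exact_mod_cast h6.symm
      rw [mul_comm ((m / e : ℕ) : ℤ)]
      omega
    have h8 : m % e < e := Nat.mod_lt _ he
    have h9 : f (Units.mk0 _ hx0 * (t ^ (m / e))⁻¹) = 0 := by
      by_contra h
      have h10 := hmin (Units.mk0 _ hx0 * (t ^ (m / e))⁻¹) (by omega)
      omega
    have h11 : ((Units.mk0 _ hx0 * (t ^ (m / e))⁻¹ : Kˣ) : K) ∈ O' := (hnn _).1 h9.ge
    have h12 : IsUnit (⟨_, h11⟩ : O') := (hunit _ _ rfl).2 h9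
    refine ⟨m / e, h12.unit, Subtype.ext ?_⟩
    show (t : K) ^ (m / e) * ((Units.mk0 _ hx0 * (t ^ (m / e))⁻¹ : Kˣ) : K) = x
    rw [Units.val_mul, Units.val_mk0, Units.val_inv_eq_inv_val, Units.val_pow_eq_pow_val]
    field_simp

theorem comap_place {K L : Type} [Field K] [CharZero K] [Field L] [CharZero L] [Algebra K L]
    [Algebra.IsAlgebraic K L] {O : ValuationSubring L} (hO : IsPl O) :
    IsPl (O.comap (algebraMap K L)) := by
  have hf : ∀ x : Kˣ, 0 ≤ vo O (Units.map (algebraMap K L : K →* L) x) ↔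
      (x : K) ∈ O.comap (algebraMap K L) := fun x => vo_nonneg_iff hO _
  refine ⟨cpla_dvr _ (fun x => vo O (Units.map (algebraMap K L : K →* L) x)) ?_ hf ?_, ?_⟩
  · intro x y
    show vo O _ = _
    rw [map_mul, vo_mul]
  · by_contra hne
    push Not at hne
    have hK : ∀ a : K, algebraMap K L a ∈ O := by
      intro a
      by_cases ha : a = 0
      · rw [ha, map_zero]
        exact zero_mem _
      · exact (hf (Units.mk0 a ha)).1 (hne _).ge
    have hL : ∀ y : L, y ∈ O := by
      intro y
      have hint : IsIntegral K y := Algebra.IsIntegral.isIntegral y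
      have hint' : IsIntegral O y := by
        refine ⟨(minpoly K y).map ((algebraMap K L).codRestrict O.toSubring hK),
          (minpoly.monic hint).map _, ?_⟩
        rw [Polynomial.eval₂_map]
        exact minpoly.aeval K y
      obtain ⟨z, hz⟩ := IsIntegrallyClosed.isIntegral_iff.1 hint'
      rw [← hz]
      exact z.2
    have hD := hO.1
    refine IsDiscreteValuationRing.not_isField O ⟨⟨0, 1, zero_ne_one⟩, mul_comm, ?_⟩
    intro a ha
    have ha0 : (a : L) ≠ 0 := fun h => ha (Subtype.ext h)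
    exact ⟨⟨(a : L)⁻¹, hL _⟩, Subtype.ext (mul_inv_cancel₀ ha0)⟩
  · intro q
    show algebraMap K L (q : K) ∈ O
    rw [map_ratCast]
    exact hO.2 q

end Pool.Agent.EVF
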