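import Pool.Agent.EVF.CNpw
import Pool.Agent.EVF.CAid

/-!
# EVF-CStp: adjoin a `p`-th root

If a monomial in the independent elements `y` is a constant times a `p`-th power and `p` does not divide the exponent of `y i`, then `y i` can be
replaced by an element `w` with `w ^ p` a monomial in which `y i` has the exponent one; `w` is not in the field generated by `y`.
-/

namespace Pool.Agent.EVF

private theorem cstp_upd {G : Type} [CommGroup G] {r : ℕ} (y : Fin r → G) (v : Fin r → ℤ) (i : Fin r)
    (c : ℤ) : ∏ j, y j ^ Function.update v i c j = y i ^ c * ∏ j ∈ Finset.univ.erase i, y j ^ v j := by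
  rw [← Finset.mul_prod_erase Finset.univ _ (Finset.mem_univ i), Function.update_self]
  congr 1
  refine Finset.prod_congr rfl fun j hj => ?_
  rw [Function.update_of_ne (Finset.ne_of_mem_erase hj)]

private theorem cstp_upd2 {G : Type} [CommGroup G] {r : ℕ} (y : Fin r → G) (v : Fin r → ℤ) (i : Fin r)
    (c : ℤ) (w : G) : ∏ j, Function.update y i w j ^ Function.update v i c j =
      w ^ c * ∏ j ∈ Finset.univ.erase i, y j ^ v j := by
  rw [cstp_upd, Function.update_self]
  congr 1
  refine Finset.prod_congr rfl fun j hj => ?_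
  rw [Function.update_of_ne (Finset.ne_of_mem_erase hj)]

theorem kummer_step {E M : Type} [Field E] [IsAlgClosed E] [Field M] [Algebra E M]
    {r : ℕ} {F : IntermediateField E M} {y : Fin r → Mˣ}
    (hy : AlgebraicIndependent E fun i => (y i : M)) (hF : ∀ i, (y i : M) ∈ F) {p : ℕ}
    (hp : p.Prime) {v : Fin r → ℤ} {q : Eˣ} {h : Mˣ} (hh : (h : M) ∈ F)
    (he : ∏ i, y i ^ v i = Units.map (algebraMap E M : E →* M) q * h ^ p) {i : Fin r}
    (hi : ¬ (p : ℤ) ∣ v i) :
    ∃ y' : Fin r → Mˣ, AlgebraicIndependent E (fun i => (y' i : M)) ∧ (∀ i, (y' i : M) ∈ F) ∧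
      (∀ i, ∃ a : Fin r → ℤ, y i = ∏ j, y' j ^ a j) ∧
      ∃ i, (y' i : M) ∉ IntermediateField.adjoin E (Set.range fun i => (y i : M)) := by
  classical
  obtain ⟨t, s, hst⟩ := (Prime.coprime_iff_not_dvd (Nat.prime_iff_prime_int.1 hp)).2 hi
  obtain ⟨q₀, hq₀⟩ := IsAlgClosed.exists_pow_nat_eq ((q ^ s : Eˣ) : E) hp.pos
  have hq0 : q₀ ≠ 0 := by
    intro h0
    rw [h0, zero_pow hp.ne_zero] at hq₀
    exact (q ^ s).ne_zero hq₀.symm
  set q₁ : Eˣ := Units.mk0 q₀ hq0 with hq₁
  have hq1 : q₁ ^ p = q ^ s := by
    apply Units.ext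
    rw [Units.val_pow_eq_pow_val, hq₁, Units.val_mk0, hq₀]
  set w : Mˣ := Units.map (algebraMap E M : E →* M) q₁ * h ^ s * y i ^ t with hw
  have hwp : w ^ p = y i * ∏ j ∈ Finset.univ.erase i, y j ^ (s * v j) := by
    have h1 : w ^ p = (Units.map (algebraMap E M : E →* M) q * h ^ p) ^ s * y i ^ (t * p) := by
      rw [hw, mul_pow, mul_pow, ← map_pow, hq1, map_zpow, mul_zpow, zpow_mul, zpow_natCast]
      congr 2
      rw [← zpow_natCast, ← zpow_natCast, ← zpow_mul, ← zpow_mul, mul_comm]
    have h2 : (∏ j, y j ^ v j) ^ s = y i ^ (v i * s) * ∏ j ∈ Finset.univ.erase i, y j ^ (s * v j) := by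
      rw [← Finset.mul_prod_erase Finset.univ _ (Finset.mem_univ i), mul_zpow, ← zpow_mul,
        ← Finset.prod_zpow]
      congr 1
      refine Finset.prod_congr rfl fun j _ => ?_
      rw [← zpow_mul, mul_comm]
    rw [h1, ← he, h2, mul_right_comm, ← zpow_add, show v i * s + t * p = 1 by linarith, zpow_one]
  have hself : y i = ∏ j, Function.update y i w j ^ Function.update (fun j => -(s * v j)) i (p : ℤ) j := by
    rw [cstp_upd2, zpow_natCast, hwp, mul_assoc, ← Finset.prod_mul_distrib, Finset.prod_eq_one, mul_one]
    intro j _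
    rw [← zpow_add, add_neg_cancel, zpow_zero]
  have hcoe : (fun j => (Function.update y i w j : M)) = Function.update (fun j => (y j : M)) i (w : M) := by
    funext j
    by_cases hj : j = i
    · subst hj
      rw [Function.update_self, Function.update_self]
    · rw [Function.update_of_ne hj, Function.update_of_ne hj]
  refine ⟨Function.update y i w, ?_, ?_, ?_, i, ?_⟩
  · rw [hcoe]
    refine indep_update hy i ?_
    rw [← hcoe]
    have hmem : (y i : M) ∈ IntermediateField.adjoin E (Set.range fun j => (Function.update y i w j : M)) := by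
      have h3 : (y i : M) =
          ∏ j, (Function.update y i w j : M) ^ Function.update (fun j => -(s * v j)) i (p : ℤ) j := by
        have h4 := congrArg (Units.coeHom M) hself
        rw [map_prod] at h4
        simpa only [map_zpow, Units.coeHom_apply] using h4
      rw [h3]
      exact prod_mem fun j _ => zpow_mem (IntermediateField.subset_adjoin E
        (Set.range fun j => (Function.update y i w j : M)) (Set.mem_range_self j)) _
    exact isAlgebraic_algebraMap (⟨(y i : M), hmem⟩ :
      IntermediateField.adjoin E (Set.range fun j => (Function.update y i w j : M)))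
  · intro j
    by_cases hj : j = i
    · subst hj
      rw [Function.update_self, hw]
      push_cast
      refine mul_mem (mul_mem ?_ (zpow_mem hh _)) (zpow_mem (hF _) _)
      exact F.algebraMap_mem _
    · rw [Function.update_of_ne hj]
      exact hF j
  · intro k
    by_cases hk : k = i
    · subst hk
      exact ⟨_, hself⟩
    · refine ⟨Pi.single k 1, ?_⟩
      rw [Finset.prod_eq_single k]
      · rw [Pi.single_eq_same, zpow_one, Function.update_of_ne hk]
      · intro j _ hj
        rw [Pi.single_eq_of_ne hj, zpow_zero]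
      · intro h5
        exact absurd (Finset.mem_univ k) h5
  · rw [Function.update_self]
    intro hmem
    refine not_pow_of_indep hy (w := Function.update (fun j => s * v j) i 1) (p := p) (i := i) ?_ hmem ?_
    · rw [Function.update_self]
      intro h6
      have h7 := Int.eq_one_of_dvd_one (by positivity) h6
      exact hp.one_lt.ne' (by exact_mod_cast h7)
    · have h8 : w ^ p = ∏ j, y j ^ Function.update (fun j => s * v j) i 1 j := by
        rw [cstp_upd, hwp, zpow_one]
      have h9 := congrArg (Units.coeHom M) h8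
      rw [map_prod, map_pow] at h9
      simpa only [map_zpow, Units.coeHom_apply] using h9

end Pool.Agent.EVF
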