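import Pool.Agent.EVF.Coo

/-!
# The adapted coordinates are independent over `k(z₀)`

With the coordinates of `exists_coo` every `y i` is a power of `y^a` times a product of powers of the `y^(β s)`, and `y^a` is algebraic over
`k`. So the field generated by the `r - 1` elements `y^(β s)` over `k(y^a)` has transcendence degree at least `r - 1`.
-/

open scoped BigOperators Polynomial
open Polynomial

namespace Pool.Agent.EVF

open Pool.Agent.CST Pool.Agent.CSG Pool.Agent.Helper11 Pool.Agent.ISI

private theorem yin_add {r : ℕ} {G : Type*} [CommGroup G] (x : Fin r → G) (e f : Fin r → ℤ) :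
    mo x (e + f) = mo x e * mo x f := by
  unfold mo
  rw [← Finset.prod_mul_distrib]
  exact Finset.prod_congr rfl fun i _ => by rw [Pi.add_apply, zpow_add]

private theorem yin_smul {r : ℕ} {G : Type*} [CommGroup G] (x : Fin r → G) (c : ℤ)
    (e : Fin r → ℤ) : mo x (c • e) = mo x e ^ c := by
  unfold mo
  rw [← Finset.prod_zpow]
  exact Finset.prod_congr rfl fun i _ => by rw [Pi.smul_apply, smul_eq_mul, mul_comm, zpow_mul]

private theorem yin_sum {r : ℕ} {G : Type*} [CommGroup G] (x : Fin r → G) {ι : Type*}
    (S : Finset ι) (f : ι → (Fin r → ℤ)) : mo x (∑ i ∈ S, f i) = ∏ i ∈ S, mo x (f i) := by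
  classical
  induction S using Finset.induction_on with
  | empty =>
    rw [Finset.sum_empty, Finset.prod_empty]
    unfold mo
    exact Finset.prod_eq_one fun i _ => by rw [Pi.zero_apply, zpow_zero]
  | insert a S ha ih => rw [Finset.sum_insert ha, Finset.prod_insert ha, yin_add, ih]

private theorem yin_single {r : ℕ} {G : Type*} [CommGroup G] (x : Fin r → G) (i : Fin r) :
    mo x (Pi.single i 1) = x i := by
  classical
  unfold mo
  rw [Finset.prod_eq_single i]
  · rw [Pi.single_eq_same, zpow_one]
  · intro j _ hj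
    rw [Pi.single_eq_of_ne hj, zpow_zero]
  · intro h
    exact absurd (Finset.mem_univ i) h

private theorem yin_alg {K κ : Type} [Field K] [Field κ] [Algebra K κ] {s : ℕ} (z : Fin s → κ)
    (z' : Fin s → IntermediateField.adjoin K (Set.range z)) (hz : ∀ i, ((z' i : κ)) = z i) :
    Algebra.IsAlgebraic (Algebra.adjoin K (Set.range z'))
      (IntermediateField.adjoin K (Set.range z)) := by
  refine ⟨fun m => ?_⟩
  obtain ⟨p, q, hpq⟩ := (IntermediateField.mem_adjoin_range_iff K z (m : κ)).1 m.2
  have hval : ∀ u : MvPolynomial (Fin s) K,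
      ((MvPolynomial.aeval z' u : IntermediateField.adjoin K (Set.range z)) : κ) =
        MvPolynomial.aeval z u := by
    intro u
    have h1 := MvPolynomial.map_aeval z' (algebraMap (IntermediateField.adjoin K (Set.range z)) κ) u
    have h2 : (fun i => algebraMap (IntermediateField.adjoin K (Set.range z)) κ (z' i)) = z :=
      funext hz
    rw [h2] at h1
    rw [MvPolynomial.aeval_def, ← MvPolynomial.coe_eval₂Hom]
    exact h1
  have hmem : ∀ u : MvPolynomial (Fin s) K,
      MvPolynomial.aeval z' u ∈ Algebra.adjoin K (Set.range z') := by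
    intro u
    rw [Algebra.adjoin_range_eq_range_aeval]
    exact ⟨u, rfl⟩
  by_cases hq : MvPolynomial.aeval z q = 0
  · rw [hq, div_zero] at hpq
    have hm : m = 0 := Subtype.ext hpq
    rw [hm]
    exact isAlgebraic_zero
  · set a : Algebra.adjoin K (Set.range z') := ⟨MvPolynomial.aeval z' p, hmem p⟩ with ha
    set b : Algebra.adjoin K (Set.range z') := ⟨MvPolynomial.aeval z' q, hmem q⟩ with hb
    have hb0 : b ≠ 0 := by
      intro h
      apply hq
      rw [← hval]
      have h1 : MvPolynomial.aeval z' q = 0 := congrArg Subtype.val h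
      rw [h1]
      rfl
    refine ⟨C b * X - C a, ?_, ?_⟩
    · intro h
      have h1 := congrArg (fun u => Polynomial.coeff u 1) h
      simp only [coeff_sub, coeff_C_mul, coeff_X_one, mul_one, coeff_C_of_ne_zero one_ne_zero,
        sub_zero, coeff_zero] at h1
      exact hb0 h1
    · rw [map_sub, map_mul, aeval_C, aeval_C, aeval_X, sub_eq_zero]
      apply Subtype.ext
      change ((MvPolynomial.aeval z' q : IntermediateField.adjoin K (Set.range z)) : κ) * (m : κ) =
        ((MvPolynomial.aeval z' p : IntermediateField.adjoin K (Set.range z)) : κ)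
      rw [hval, hval, hpq]
      field_simp

theorem indep_adapted {k κ : Type} [Field k] [CharZero k] [Field κ] [Algebra k κ] {r : ℕ}
    {y : Fin r → κˣ} {a b : Fin r → ℤ} (hab : dt a b = 1) {π : k[X]} (hπ : π ≠ 0)
    (h0 : aeval ((mo y a : κˣ) : κ) π = 0)
    (hy : ∃ i, AlgebraicIndependent k fun j : {j // j ≠ i} => (y j.1 : κ)) {s : ℕ}
    {β : Fin s → (Fin r → ℤ)} {d : (Fin r → ℤ) →+ (Fin s → ℤ)} (hs : s + 1 = r)
    (hd : ∀ e, e = (dt b e) • a + ∑ i, d e i • β i) :
    AlgebraicIndependent (IntermediateField.adjoin k {((mo y a : κˣ) : κ)})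
      fun i : Fin s => ((mo y (β i) : κˣ) : κ) := by
  classical
  obtain ⟨i0, hi0⟩ := hy
  have halg0 : IsAlgebraic k ((mo y a : κˣ) : κ) := ⟨π, hπ, h0⟩
  have hint : IsIntegral k ((mo y a : κˣ) : κ) := halg0.isIntegral
  have halg := IntermediateField.isAlgebraic_adjoin_simple hint
  set K := IntermediateField.adjoin k {((mo y a : κˣ) : κ)} with hK
  have hαK : ((mo y a : κˣ) : κ) ∈ K := IntermediateField.mem_adjoin_simple_self k _
  have hyK : AlgebraicIndependent K fun j : {j // j ≠ i0} => (y j.1 : κ) := hi0.extendScalars K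
  set z : Fin s → κ := fun i => ((mo y (β i) : κˣ) : κ) with hz
  set M := IntermediateField.adjoin K (Set.range z) with hM
  have hzM : ∀ i, z i ∈ M := fun i => IntermediateField.subset_adjoin K _ ⟨i, rfl⟩
  have hαM : ((mo y a : κˣ) : κ) ∈ M := by
    have h1 := M.algebraMap_mem ⟨((mo y a : κˣ) : κ), hαK⟩
    exact h1
  have hyM : ∀ j, (y j : κ) ∈ M := by
    intro j
    have h1 := congrArg (mo y) (hd (Pi.single j 1))
    rw [yin_single, yin_add, yin_smul, yin_sum] at h1
    simp only [yin_smul] at h1
    rw [h1]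
    push_cast
    exact M.mul_mem (zpow_mem hαM _) (prod_mem fun i _ => zpow_mem (hzM i) _)
  set z' : Fin s → M := fun i => ⟨z i, hzM i⟩ with hz'
  have hA : Algebra.IsAlgebraic (Algebra.adjoin K (Set.range z')) M := yin_alg z z' fun _ => rfl
  have hyM' : AlgebraicIndependent K fun j : {j // j ≠ i0} => (⟨(y j.1 : κ), hyM j.1⟩ : M) :=
    AlgebraicIndependent.of_comp M.val hyK
  have hcard : Cardinal.mk (Fin s) ≤ Algebra.trdeg K M := by
    have h1 := hyM'.cardinalMk_le_trdeg
    have h2 : Cardinal.mk (Fin s) = Cardinal.mk {j : Fin r // j ≠ i0} := by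
      rw [Cardinal.mk_fintype, Cardinal.mk_fintype, Fintype.card_subtype_compl, Fintype.card_fin,
        Fintype.card_fin, Fintype.card_subtype_eq]
      congr 1
      omega
    rw [h2]
    exact h1
  have hbas := Algebra.IsAlgebraic.isTranscendenceBasis_of_le_trdeg_of_finite K z' hcard
  have h3 := hbas.1.map' (f := M.val) M.val.injective
  exact h3

end Pool.Agent.EVF
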