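import Pool.Agent.EVF.Red
import Pool.Agent.EVF.Yin

/-!
# The centre of a place

For a place `O` at which the residue of `x ^ a` is a root of `π` the value of a Laurent polynomial `P` at
`x` has positive valuation iff `π(x ^ a)` divides `P`. The residue of the value is the value at the
residues; in adapted coordinates the coefficients of `P` in the transversal variables vanish at `y ^ a`,
so they are divisible by the minimal polynomial `π`.
-/

open scoped BigOperators Polynomial
open Polynomial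

namespace Pool.Agent.EVF

open Pool.Agent.CST Pool.Agent.CSG Pool.Agent.Helper11 Pool.Agent.ISI

private theorem cen_single {k K : Type} [Field k] [Field K] [Algebra k K] {r : ℕ} (x : Fin r → Kˣ)
    (e : Fin r → ℤ) (a : k) :
    evx x (AddMonoidAlgebra.single e a : LR k r) = a • ((mo x e : Kˣ) : K) := by
  unfold evx
  rw [AddMonoidAlgebra.lift_single]
  rfl

private theorem cen_self {k : Type} [Field k] {r : ℕ} (q : LR k r) :
    ∑ e ∈ q.coeff.support, (AddMonoidAlgebra.single e (q.coeff e) : LR k r) = q :=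
  AddMonoidAlgebra.sum_coeff_single q

private theorem cen_sum {k K : Type} [Field k] [Field K] [Algebra k K] {r : ℕ} (x : Fin r → Kˣ)
    (q : LR k r) : evx x q = ∑ e ∈ q.coeff.support, q.coeff e • ((mo x e : Kˣ) : K) := by
  conv_lhs => rw [← cen_self q]
  rw [map_sum]
  exact Finset.sum_congr rfl fun e _ => cen_single x e _

private theorem cen_mo_map {r : ℕ} {G H : Type*} [CommGroup G] [CommGroup H] (f : G →* H)
    (x : Fin r → G) (e : Fin r → ℤ) : f (mo x e) = mo (fun i => f (x i)) e := by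
  unfold mo
  rw [map_prod]
  exact Finset.prod_congr rfl fun i _ => map_zpow f _ _

private theorem cen_mo_nsmul {r : ℕ} {G : Type*} [CommGroup G] (x : Fin r → G) (a : Fin r → ℤ)
    (n : ℤ) : mo x (n • a) = mo x a ^ n := by
  unfold mo
  rw [← Finset.prod_zpow]
  refine Finset.prod_congr rfl fun i _ => ?_
  rw [← zpow_mul, Pi.smul_apply, smul_eq_mul, mul_comm]

private theorem cen_mo_sum {r s : ℕ} {G : Type*} [CommGroup G] (x : Fin r → G)
    (β : Fin s → (Fin r → ℤ)) (u : Fin s → ℤ) :
    mo x (∑ i, u i • β i) = mo (fun i => mo x (β i)) u := by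
  have h : ∀ t : Finset (Fin s), mo x (∑ i ∈ t, u i • β i) = ∏ i ∈ t, mo x (β i) ^ u i := by
    intro t
    classical
    induction t using Finset.induction_on with
    | empty => rw [Finset.sum_empty, Finset.prod_empty, mo_zero]
    | insert i t hi ih => rw [Finset.sum_insert hi, Finset.prod_insert hi, mo_add, ih, cen_mo_nsmul]
  exact h Finset.univ

private theorem cen_inj {E κ : Type} [Field E] [Field κ] [Algebra E κ] {s : ℕ} {Y : Fin s → κˣ}
    (hY : AlgebraicIndependent E fun i => (Y i : κ)) {P : LR E s} (h : evx Y P = 0) : P = 0 := by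
  classical
  obtain ⟨N, hN⟩ : ∃ N : ℕ, ∀ e ∈ P.coeff.support, ∀ i, 0 ≤ e i + (N : ℤ) := by
    refine ⟨∑ e ∈ P.coeff.support, ∑ i, (e i).natAbs, fun e he i => ?_⟩
    have h1 : (e i).natAbs ≤ ∑ i, (e i).natAbs :=
      Finset.single_le_sum (f := fun i => (e i).natAbs) (fun _ _ => Nat.zero_le _)
        (Finset.mem_univ i)
    have h2 : ∑ i, (e i).natAbs ≤ ∑ e ∈ P.coeff.support, ∑ i, (e i).natAbs :=
      Finset.single_le_sum (f := fun e : Fin s → ℤ => ∑ i, (e i).natAbs)
        (fun _ _ => Nat.zero_le _) he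
    omega
  let ex : (Fin s → ℤ) → (Fin s →₀ ℕ) := fun e =>
    Finsupp.equivFunOnFinite.symm fun i => (e i + (N : ℤ)).toNat
  have hex : ∀ e i, ex e i = (e i + (N : ℤ)).toNat := fun e i => rfl
  let Q : MvPolynomial (Fin s) E := ∑ e ∈ P.coeff.support, MvPolynomial.monomial (ex e) (P.coeff e)
  have hmon : ∀ e ∈ P.coeff.support, MvPolynomial.aeval (fun i => (Y i : κ))
      (MvPolynomial.monomial (ex e) (P.coeff e)) =
      (P.coeff e • ((mo Y e : κˣ) : κ)) * ∏ i, (Y i : κ) ^ N := by
    intro e he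
    rw [MvPolynomial.aeval_monomial, Finsupp.prod_fintype _ _ (fun i => pow_zero _),
      Algebra.smul_def, mul_assoc]
    congr 1
    unfold mo
    rw [Units.coe_prod, ← Finset.prod_mul_distrib]
    refine Finset.prod_congr rfl fun i _ => ?_
    have h1 : ((ex e i : ℕ) : ℤ) = e i + (N : ℤ) := by
      rw [hex]
      exact Int.toNat_of_nonneg (hN e he i)
    rw [← zpow_natCast, ← zpow_natCast, h1, zpow_add₀ (Y i).ne_zero, Units.val_zpow_eq_zpow_val]
  have hQ : MvPolynomial.aeval (fun i => (Y i : κ)) Q = 0 := by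
    change MvPolynomial.aeval (fun i => (Y i : κ))
      (∑ e ∈ P.coeff.support, MvPolynomial.monomial (ex e) (P.coeff e)) = 0
    rw [map_sum, Finset.sum_congr rfl hmon, ← Finset.sum_mul, ← cen_sum, h, zero_mul]
  have hQ0 : Q = 0 := hY (hQ.trans (map_zero _).symm)
  have hinj : ∀ e ∈ P.coeff.support, ∀ e' ∈ P.coeff.support, ex e = ex e' → e = e' := by
    intro e he e' he' hee
    funext i
    have h1 := DFunLike.congr_fun hee i
    rw [hex, hex] at h1
    have h2 := hN e he i
    have h3 := hN e' he' i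
    omega
  have hsupp : P.coeff.support = ∅ := by
    rw [Finset.eq_empty_iff_forall_notMem]
    intro e he
    have h1 : Q.coeff (ex e) = P.coeff e := by
      change MvPolynomial.coeff (ex e)
        (∑ e ∈ P.coeff.support, MvPolynomial.monomial (ex e) (P.coeff e)) = _
      rw [MvPolynomial.coeff_sum, Finset.sum_eq_single e]
      · rw [MvPolynomial.coeff_monomial, if_pos rfl]
      · intro e' he' hne
        rw [MvPolynomial.coeff_monomial, if_neg]
        intro h2
        exact hne (hinj e' he' e he h2)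
      · intro h2
        exact absurd he h2
    rw [hQ0, MvPolynomial.coeff_zero] at h1
    exact (Finsupp.mem_support_iff.1 he) h1.symm
  rw [← cen_self P, hsupp, Finset.sum_empty]

private theorem cen_coe {k κ : Type} [Field k] [Field κ] [Algebra k κ] (E : IntermediateField k κ)
    (w : E) (c : k) (n : ℤ) : ((c • w ^ n : E) : κ) = c • (w : κ) ^ n := by
  rw [IntermediateField.coe_smul]
  congr 1

/-- the value is in the valuation ring and its residue is the value at the residues -/
private theorem cen_res {k K : Type} [Field k] [Field K] [Algebra k K] {r : ℕ} {x : Fin r → Kˣ}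
    {O : ValuationSubring K} (hk : ∀ q : k, algebraMap k K q ∈ O)
    (hun : ∀ i, O.valuation (x i : K) = 1) {κ : Type} [Field κ] [Algebra k κ] {ρ : O →+* κ}
    {y : Fin r → κˣ} (hy : ∀ i, ∀ h : (x i : K) ∈ O, ρ ⟨x i, h⟩ = y i)
    (hq : ∀ q, ∀ h : algebraMap k K q ∈ O, ρ ⟨algebraMap k K q, h⟩ = algebraMap k κ q)
    (P : LR k r) : ∃ h : evx x P ∈ O, ρ ⟨evx x P, h⟩ = evx y P := by
  classical
  have hx : ∀ i, (x i : K) ∈ O := fun i => (O.valuation_le_one_iff _).1 (hun i).le
  have hx' : ∀ i, ((x i)⁻¹ : Kˣ).val ∈ O := fun i => by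
    rw [← O.valuation_le_one_iff, Units.val_inv_eq_inv_val, map_inv₀, hun i, inv_one]
  let U : Fin r → Oˣ := fun i =>
    ⟨⟨x i, hx i⟩, ⟨((x i)⁻¹ : Kˣ).val, hx' i⟩, Subtype.ext (x i).mul_inv,
      Subtype.ext (x i).inv_mul⟩
  have hU1 : ∀ e, (((mo U e : Oˣ) : O) : K) = ((mo x e : Kˣ) : K) := by
    intro e
    have h1 := cen_mo_map (Units.map (O.subtype : O →* K)) U e
    have h2 : (fun i => Units.map (O.subtype : O →* K) (U i)) = x := by
      funext i
      exact Units.ext rfl
    rw [h2] at h1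
    exact congrArg Units.val h1
  have hU2 : ∀ e, ρ ((mo U e : Oˣ) : O) = ((mo y e : κˣ) : κ) := by
    intro e
    have h1 := cen_mo_map (Units.map (ρ : O →* κ)) U e
    have h2 : (fun i => Units.map (ρ : O →* κ) (U i)) = y := by
      funext i
      exact Units.ext (hy i (hx i))
    rw [h2] at h1
    exact congrArg Units.val h1
  have key : ∀ s : Finset (Fin r → ℤ), ∃ h : ∑ e ∈ s, P.coeff e • ((mo x e : Kˣ) : K) ∈ O,
      ρ ⟨_, h⟩ = ∑ e ∈ s, P.coeff e • ((mo y e : κˣ) : κ) := by
    intro s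
    have h1 : ∑ e ∈ s, P.coeff e • ((mo x e : Kˣ) : K) =
        ((∑ e ∈ s, (⟨algebraMap k K (P.coeff e), hk _⟩ : O) * ((mo U e : Oˣ) : O) : O) : K) := by
      rw [AddSubmonoidClass.coe_finsetSum]
      refine Finset.sum_congr rfl fun e _ => ?_
      rw [Algebra.smul_def, ← hU1]
      rfl
    have h2 : ∑ e ∈ s, P.coeff e • ((mo x e : Kˣ) : K) ∈ O := by
      rw [h1]
      exact Subtype.property _
    refine ⟨h2, ?_⟩
    have h3 : (⟨_, h2⟩ : O) =
        ∑ e ∈ s, (⟨algebraMap k K (P.coeff e), hk _⟩ : O) * ((mo U e : Oˣ) : O) :=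
      Subtype.ext h1
    rw [h3, map_sum]
    refine Finset.sum_congr rfl fun e _ => ?_
    rw [map_mul, hq, hU2, Algebra.smul_def]
  obtain ⟨h, h'⟩ := key P.coeff.support
  have h1 : (⟨evx x P, by rw [cen_sum]; exact h⟩ : O) = ⟨_, h⟩ := Subtype.ext (cen_sum x P)
  refine ⟨by rw [cen_sum]; exact h, ?_⟩
  rw [h1, h', cen_sum]

/-- the part of a Laurent polynomial with a fixed transversal exponent -/
private theorem cen_fiber {k κ : Type} [Field k] [Field κ] [Algebra k κ] {r : ℕ} {a b : Fin r → ℤ}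
    {π : k[X]} (hπ : π.Monic) (hπi : Irreducible π) {z : κˣ} (h0 : aeval (z : κ) π = 0)
    (P : LR k r) (S : Finset (Fin r → ℤ)) (w : Fin r → ℤ) (hS : ∀ e ∈ S, e = (dt b e) • a + w)
    (hz : ∑ e ∈ S, P.coeff e • ((z ^ (dt b e) : κˣ) : κ) = 0) :
    pia a π ∣ ∑ e ∈ S, (AddMonoidAlgebra.single e (P.coeff e) : LR k r) := by
  classical
  obtain ⟨N, hN⟩ : ∃ N : ℕ, ∀ e ∈ S, 0 ≤ dt b e + (N : ℤ) := by
    refine ⟨∑ e ∈ S, (dt b e).natAbs, fun e he => ?_⟩
    have h2 : (dt b e).natAbs ≤ ∑ e ∈ S, (dt b e).natAbs :=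
      Finset.single_le_sum (f := fun e : Fin r → ℤ => (dt b e).natAbs)
        (fun _ _ => Nat.zero_le _) he
    omega
  let p : k[X] := ∑ e ∈ S, monomial (dt b e + (N : ℤ)).toNat (P.coeff e)
  have hp : aeval (z : κ) p = 0 := by
    change aeval (z : κ) (∑ e ∈ S, monomial (dt b e + (N : ℤ)).toNat (P.coeff e)) = 0
    have h1 : ∀ e ∈ S, aeval (z : κ) (monomial (dt b e + (N : ℤ)).toNat (P.coeff e)) =
        (P.coeff e • ((z ^ (dt b e) : κˣ) : κ)) * (z : κ) ^ N := by
      intro e he
      have h2 : (((dt b e + (N : ℤ)).toNat : ℕ) : ℤ) = dt b e + (N : ℤ) :=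
        Int.toNat_of_nonneg (hN e he)
      rw [aeval_monomial, Algebra.smul_def, mul_assoc]
      congr 1
      rw [← zpow_natCast, ← zpow_natCast, h2, zpow_add₀ z.ne_zero, Units.val_zpow_eq_zpow_val]
    rw [map_sum, Finset.sum_congr rfl h1, ← Finset.sum_mul, hz, zero_mul]
  have hdvd : π ∣ p := by
    rw [minpoly.eq_of_irreducible_of_monic hπi h0 hπ]
    exact minpoly.dvd k (z : κ) hp
  have h1 : pia a π ∣ aeval (AddMonoidAlgebra.single a (1 : k) : LR k r) p := by
    unfold pia
    exact _root_.map_dvd _ hdvd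
  have h2 : (AddMonoidAlgebra.single w (1 : k) : LR k r) *
      aeval (AddMonoidAlgebra.single a (1 : k) : LR k r) p =
      AddMonoidAlgebra.single (N • a) (1 : k) *
        ∑ e ∈ S, (AddMonoidAlgebra.single e (P.coeff e) : LR k r) := by
    change (AddMonoidAlgebra.single w (1 : k) : LR k r) *
      aeval (AddMonoidAlgebra.single a (1 : k) : LR k r)
        (∑ e ∈ S, monomial (dt b e + (N : ℤ)).toNat (P.coeff e)) = _
    rw [map_sum, Finset.mul_sum, Finset.mul_sum]
    refine Finset.sum_congr rfl fun e he => ?_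
    have h3 : (((dt b e + (N : ℤ)).toNat : ℕ) : ℤ) = dt b e + (N : ℤ) :=
      Int.toNat_of_nonneg (hN e he)
    have h4 : w + (dt b e + (N : ℤ)).toNat • a = N • a + e := by
      rw [← natCast_zsmul, h3, add_smul, natCast_zsmul]
      conv_rhs => rw [hS e he]
      abel
    rw [aeval_monomial, AddMonoidAlgebra.single_pow, one_pow, AddMonoidAlgebra.single_mul_single,
      one_mul, ← h4, ← Algebra.smul_def, AddMonoidAlgebra.smul_single, smul_eq_mul, mul_one,
      AddMonoidAlgebra.single_mul_single, one_mul]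
  have h3 : ∑ e ∈ S, (AddMonoidAlgebra.single e (P.coeff e) : LR k r) =
      (AddMonoidAlgebra.single (-(N • a)) (1 : k) : LR k r) *
        ((AddMonoidAlgebra.single w (1 : k) : LR k r) *
          aeval (AddMonoidAlgebra.single a (1 : k) : LR k r) p) := by
    rw [h2, ← mul_assoc, AddMonoidAlgebra.single_mul_single, neg_add_cancel, one_mul,
      ← AddMonoidAlgebra.one_def, one_mul]
  rw [h3]
  exact dvd_mul_of_dvd_right (dvd_mul_of_dvd_right h1 _) _

theorem cen {k K : Type} [Field k] [CharZero k] [Field K] [CharZero K] [Algebra k K]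
    (hk : Algebra.IsAlgebraic ℚ k) {r : ℕ} {x : Fin r → Kˣ}
    (hx : AlgebraicIndependent k fun i => (x i : K)) {a : Fin r → ℤ} {π : k[X]}
    {O : ValuationSubring K} (hO : Ov x a π O) (P : LR k r) :
    O.valuation (evx x P : K) < 1 ↔ pia a π ∣ P := by
  classical
  obtain ⟨κ, iF, iC, iA, ρ, y, hρ, hy, hq, h0, hind⟩ := exists_red hk hx hO
  obtain ⟨hm, hr⟩ := cen_res (fun q => const_mem hk hO.pp.1 q) hO.un hy hq P
  have e1 : O.valuation (evx x P : K) < 1 ↔ evx y P = 0 := by
    rw [← hr, hρ ⟨_, hm⟩]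
  rw [e1]
  obtain ⟨b, hab⟩ := hO.pr
  obtain ⟨s, β, d, hs, hd, -, -, -⟩ := exists_coo hab
  constructor
  · intro hP
    have hI := indep_adapted hab hO.monic.ne_zero h0 hind hs hd
    have hmo : ∀ e, mo y e = mo y a ^ (dt b e) * mo (fun i => mo y (β i)) (d e) := by
      intro e
      conv_lhs => rw [hd e]
      rw [mo_add, cen_mo_nsmul, cen_mo_sum]
    obtain ⟨w, hw⟩ : ∃ w : IntermediateField.adjoin k {((mo y a : κˣ) : κ)},
        (w : κ) = ((mo y a : κˣ) : κ) :=
      ⟨⟨_, IntermediateField.mem_adjoin_simple_self k _⟩, rfl⟩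
    have hcw : ∀ e, ((P.coeff e • w ^ (dt b e) :
        IntermediateField.adjoin k {((mo y a : κˣ) : κ)}) : κ) =
        P.coeff e • ((mo y a ^ (dt b e) : κˣ) : κ) := by
      intro e
      rw [cen_coe, hw, Units.val_zpow_eq_zpow_val]
    let Q : LR (IntermediateField.adjoin k {((mo y a : κˣ) : κ)}) s :=
      ∑ e ∈ P.coeff.support, AddMonoidAlgebra.single (d e) (P.coeff e • w ^ (dt b e))
    have hQ : evx (fun i => mo y (β i)) Q = 0 := by
      change evx (fun i => mo y (β i)) (∑ e ∈ P.coeff.support, (AddMonoidAlgebra.single (d e)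
        (P.coeff e • w ^ (dt b e)) : LR (IntermediateField.adjoin k {((mo y a : κˣ) : κ)}) s)) = 0
      rw [map_sum, ← hP, cen_sum y P]
      refine Finset.sum_congr rfl fun e _ => ?_
      rw [cen_single, hmo e, Units.val_mul, Algebra.smul_def, IntermediateField.algebraMap_apply,
        hcw, Algebra.smul_mul_assoc]
    have hQ0 : Q = 0 := cen_inj hI hQ
    have hc : ∀ u : Fin s → ℤ, ∑ e ∈ P.coeff.support with d e = u,
        P.coeff e • ((mo y a ^ (dt b e) : κˣ) : κ) = 0 := by
      intro u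
      have h1 : Q.coeff u = ∑ e ∈ P.coeff.support with d e = u, P.coeff e • w ^ (dt b e) := by
        change (∑ e ∈ P.coeff.support, (AddMonoidAlgebra.single (d e) (P.coeff e • w ^ (dt b e)) :
          LR (IntermediateField.adjoin k {((mo y a : κˣ) : κ)}) s)).coeff u = _
        rw [AddMonoidAlgebra.coeff_sum, Finsupp.finsetSum_apply, Finset.sum_filter]
        refine Finset.sum_congr rfl fun e _ => ?_
        rw [AddMonoidAlgebra.coeff_single, Finsupp.single_apply]
      rw [hQ0] at h1
      have h2 := congrArg (IntermediateField.adjoin k {((mo y a : κˣ) : κ)}).val h1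
      rw [map_sum] at h2
      have h3 : (IntermediateField.adjoin k {((mo y a : κˣ) : κ)}).val
          ((0 : LR (IntermediateField.adjoin k {((mo y a : κˣ) : κ)}) s).coeff u) = 0 := by
        rw [AddMonoidAlgebra.coeff_zero, Finsupp.zero_apply, map_zero]
      rw [h3] at h2
      rw [h2]
      exact Finset.sum_congr rfl fun e _ => (hcw e).symm
    have hdv : ∀ u ∈ P.coeff.support.image d, pia a π ∣
        ∑ e ∈ P.coeff.support with d e = u,
          (AddMonoidAlgebra.single e (P.coeff e) : LR k r) := by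
      intro u _
      refine cen_fiber (b := b) hO.monic hO.irr h0 P _ (∑ i, u i • β i) ?_ (hc u)
      intro e he
      have h1 := (Finset.mem_filter.1 he).2
      rw [← h1]
      exact hd e
    have hfin := Finset.dvd_sum hdv
    rw [Finset.sum_fiberwise_of_maps_to (fun e he => Finset.mem_image_of_mem _ he),
      cen_self] at hfin
    exact hfin
  · rintro ⟨Q, rfl⟩
    have h1 : evx y (pia a π) = 0 := by
      unfold pia
      rw [← Polynomial.aeval_algHom_apply, cen_single, one_smul]
      exact h0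
    rw [map_mul, h1, zero_mul]

end Pool.Agent.EVF
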