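import Pool.Agent.EVF.BDefs

/-!
# Coordinates adapted to a primitive vector

`Fin r → ℤ` is the direct sum of `ℤ a` and of the kernel `B` of `e ↦ dt b e`, which is free of rank `r - 1`.
-/

open scoped BigOperators Polynomial
open Polynomial

namespace Pool.Agent.EVF

open Pool.Agent.CST Pool.Agent.CSG Pool.Agent.Helper11 Pool.Agent.ISI

private theorem coo_main {r : ℕ} (a : Fin r → ℤ) (φ : (Fin r → ℤ) →ₗ[ℤ] ℤ) (ha : φ a = 1) :
    ∃ (s : ℕ) (β : Fin s → (Fin r → ℤ)) (d : (Fin r → ℤ) →+ (Fin s → ℤ)), s + 1 = r ∧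
      (∀ e, e = (φ e) • a + ∑ i, d e i • β i) ∧ (∀ i, φ (β i) = 0) ∧ d a = 0 ∧
      ∀ i, d (β i) = Pi.single i 1 := by
  let ψ : (Fin r → ℤ) →ₗ[ℤ] (Fin r → ℤ) := LinearMap.id - φ.smulRight a
  have hψ : ∀ e, ψ e = e - φ e • a := fun e => rfl
  have hp : ∀ e, ψ e ∈ LinearMap.ker φ := by
    intro e
    rw [LinearMap.mem_ker, hψ, map_sub, map_smul, ha, smul_eq_mul, mul_one, sub_self]
  let p : (Fin r → ℤ) →ₗ[ℤ] LinearMap.ker φ := ψ.codRestrict (LinearMap.ker φ) hp
  have hpc : ∀ e, ((p e : LinearMap.ker φ) : Fin r → ℤ) = e - φ e • a := fun e => rfl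
  let B := Module.finBasis ℤ (LinearMap.ker φ)
  have hs : Module.finrank ℤ (LinearMap.ker φ) + 1 = r := by
    have h1 := Submodule.finrank_quotient_add_finrank (LinearMap.ker φ)
    have h2 : Function.Surjective φ := by
      intro z
      exact ⟨z • a, by rw [map_smul, ha, smul_eq_mul, mul_one]⟩
    rw [(φ.quotKerEquivOfSurjective h2).finrank_eq, Module.finrank_self,
      Module.finrank_fin_fun] at h1
    omega
  refine ⟨Module.finrank ℤ (LinearMap.ker φ), fun i => (B i : Fin r → ℤ),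
    ((B.equivFun : LinearMap.ker φ →ₗ[ℤ] _) ∘ₗ p).toAddMonoidHom, hs, ?_, ?_, ?_, ?_⟩
  · intro e
    have h1 := congrArg (Subtype.val) (B.sum_equivFun (p e))
    rw [hpc, Submodule.coe_sum] at h1
    have h2 : ∑ i, (B.equivFun (p e) i) • ((B i : LinearMap.ker φ) : Fin r → ℤ) = e - φ e • a := h1
    have h3 : e = φ e • a + ∑ i, (B.equivFun (p e) i) • ((B i : LinearMap.ker φ) : Fin r → ℤ) := by
      rw [h2, add_sub_cancel]
    exact h3
  · intro i
    exact (B i).2
  · have h1 : p a = 0 := by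
      refine Subtype.ext ?_
      rw [hpc, ha, one_smul, sub_self]
      rfl
    change B.equivFun (p a) = 0
    rw [h1, map_zero]
  · intro i
    have h1 : p (B i : Fin r → ℤ) = B i := by
      refine Subtype.ext ?_
      rw [hpc, LinearMap.mem_ker.1 (B i).2, zero_smul, sub_zero]
    change B.equivFun (p (B i : Fin r → ℤ)) = _
    rw [h1]
    funext j
    rw [Module.Basis.equivFun_self, Pi.single_apply]
    simp only [eq_comm]

theorem exists_coo {r : ℕ} {a b : Fin r → ℤ} (hab : dt a b = 1) :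
    ∃ (s : ℕ) (β : Fin s → (Fin r → ℤ)) (d : (Fin r → ℤ) →+ (Fin s → ℤ)), s + 1 = r ∧
      (∀ e, e = (dt b e) • a + ∑ i, d e i • β i) ∧ (∀ i, dt b (β i) = 0) ∧ d a = 0 ∧
      ∀ i, d (β i) = Pi.single i 1 := by
  let φ : (Fin r → ℤ) →ₗ[ℤ] ℤ :=
    { toFun := fun e => dt b e
      map_add' := fun x y => by
        unfold dt
        rw [← Finset.sum_add_distrib]
        exact Finset.sum_congr rfl fun i _ => mul_add _ _ _
      map_smul' := fun z x => by
        unfold dt
        rw [RingHom.id_apply, smul_eq_mul, Finset.mul_sum]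
        refine Finset.sum_congr rfl fun i _ => ?_
        rw [Pi.smul_apply, smul_eq_mul]
        ring }
  have ha : φ a = 1 := by
    change dt b a = 1
    rw [← hab]
    unfold dt
    exact Finset.sum_congr rfl fun i _ => mul_comm _ _
  exact coo_main a φ ha

end Pool.Agent.EVF
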