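import Pool.Agent.CSG.Defs

/-!
# Common definitions of the project EVF (MP_a09a03_nt, EveryField)

Paper proof: /team-store/evf66.md.
-/

open scoped BigOperators Polynomial LaurentPolynomial
open Polynomial

namespace Pool.Agent.EVF

open Pool.Agent.CST Pool.Agent.CSG

/-- the scalar product -/
def dt {r : ℕ} (a b : Fin r → ℤ) : ℤ := ∑ i, a i * b i

/-- the monomial `x ^ e` -/
def mo {r : ℕ} {G : Type*} [CommGroup G] (x : Fin r → G) (e : Fin r → ℤ) : G := ∏ i, x i ^ e i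

/-- Laurent polynomials in `r` variables -/
abbrev LR (k : Type*) [Semiring k] (r : ℕ) := AddMonoidAlgebra k (Fin r → ℤ)

/-- the substitution `X i = X i ^ D`, into the Laurent polynomials -/
noncomputable def subD {r : ℕ} (D : ℕ) : MvPolynomial (Fin r) ℂ →+* LR ℂ r :=
  (MvPolynomial.aeval fun i =>
    (AddMonoidAlgebra.single (Pi.single i (D : ℤ)) (1 : ℂ) : LR ℂ r)).toRingHom

/-- the substitution `X i = ξ i * T ^ c i` -/
noncomputable def subT {r : ℕ} (ξ : Fin r → ℂ) (c : Fin r → ℤ) :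
    MvPolynomial (Fin r) ℂ →+* ℂ[T;T⁻¹] :=
  (MvPolynomial.aeval fun i => LaurentPolynomial.C (ξ i) * LaurentPolynomial.T (c i)).toRingHom

/-- no factorisation of `F(X ^ D, W)` with algebraic coefficients -/
def GeoM {r : ℕ} (F : (MvPolynomial (Fin r) ℂ)[X]) : Prop :=
  ∀ D : ℕ, 0 < D → ∀ G H : (LR ℂ r)[X], G.Monic → H.Monic →
    (∀ i n, IsAlgebraic ℚ ((G.coeff i).coeff n)) →
    (∀ i n, IsAlgebraic ℚ ((H.coeff i).coeff n)) →
    F.map (subD D) = G * H → G.natDegree = 0 ∨ H.natDegree = 0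

/-- the coefficients are algebraic integers of `k₀` -/
def IntM {r : ℕ} (k₀ : IntermediateField ℚ ℂ) (F : (MvPolynomial (Fin r) ℂ)[X]) : Prop :=
  ∀ i m, (F.coeff i).coeff m ∈ k₀ ∧ IsIntegral ℤ ((F.coeff i).coeff m)

/-- all `ξ i` are roots of unity -/
def RU {r : ℕ} (ξ : Fin r → ℂ) : Prop := ∃ M : ℕ, 0 < M ∧ ∀ i, ξ i ^ M = 1

/-- the subring generated by `k₀` and the monomials in the `ξ i * T ^ c i` -/
noncomputable def Rg {r : ℕ} (k₀ : IntermediateField ℚ ℂ) (ξ : Fin r → ℂ) (c : Fin r → ℤ) :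
    Subring ℂ[T;T⁻¹] :=
  Subring.closure ({z | ∃ q ∈ k₀, z = LaurentPolynomial.C q} ∪
    {z | ∃ e : Fin r → ℤ, z = LaurentPolynomial.C (∏ i, ξ i ^ e i) * LaurentPolynomial.T (dt c e)})

/-- there is a point or a curve `ξ T ^ c` in the coset `x ^ a = z`, over which `F` does not
factorise -/
def Good {r : ℕ} (k₀ : IntermediateField ℚ ℂ) (F : (MvPolynomial (Fin r) ℂ)[X]) (a : Fin r → ℤ)
    (z : ℂ) : Prop :=
  ∃ (ξ : Fin r → ℂ) (c : Fin r → ℤ), RU ξ ∧ dt a c = 0 ∧ ∏ i, ξ i ^ a i = z ∧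
    ∀ G H : (ℂ[T;T⁻¹])[X], G.Monic → H.Monic → (∀ i, G.coeff i ∈ Rg k₀ ξ c) →
      (∀ i, H.coeff i ∈ Rg k₀ ξ c) → F.map (subT ξ c) = G * H → G.natDegree = 0 ∨ H.natDegree = 0

end Pool.Agent.EVF
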