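import Pool.Agent.EVF.Kum
import Pool.Agent.CSG.Reg

/-!
# The degree of `θ` over `k(α, γ)`

The exponents of `G` are sorted modulo `D`: `0 = G(γ, θ) = ∑_i γ^i c_i`, `i : Fin r → Fin D`, with `c_i ∈ K(α)`, so `c_i = 0` by `kum`. The powers
`α ^ s`, `s < deg (minpoly k α)`, are a basis of `k(α)` over `k` and independent over `K` (`CSG.minpoly_mapK`), so `c_i = ∑_s α ^ s G_(i,s)(x, θ)` with
`G_(i,s)` in `(LR k r)[X]` of degree less than `f.natDegree`: all `G_(i,s)` are zero (`Md.min`), but `G` is monic.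
-/

open scoped BigOperators Polynomial
open Polynomial

namespace Pool.Agent.EVF

open Pool.Agent.CST Pool.Agent.CSG Pool.Agent.Helper11 Pool.Agent.ISI

/-- coordinates with respect to the powers of `α` -/
private theorem dgr_lam {k L : Type} [Field k] [Field L] [Algebra k L] {α : L}
    (hα : IsIntegral k α) : ∃ lam : Fin (minpoly k α).natDegree → L →ₗ[k] k,
      ∀ y ∈ IntermediateField.adjoin k {α}, ∑ s, lam s y • α ^ (s : ℕ) = y := by
  show ∃ lam : Fin (IntermediateField.adjoin.powerBasis hα).dim → L →ₗ[k] k,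
    ∀ y ∈ IntermediateField.adjoin k {α},
      ∑ s : Fin (IntermediateField.adjoin.powerBasis hα).dim, lam s y • α ^ (s : ℕ) = y
  obtain ⟨g, hg⟩ := LinearMap.exists_leftInverse_of_injective
    (IntermediateField.adjoin k {α}).val.toLinearMap (by
      rw [LinearMap.ker_eq_bot]
      exact (IntermediateField.adjoin k {α}).val.injective)
  refine ⟨fun s => (IntermediateField.adjoin.powerBasis hα).basis.coord s ∘ₗ g, fun y hy => ?_⟩
  have h1 := (IntermediateField.adjoin.powerBasis hα).basis.sum_repr ⟨y, hy⟩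
  have h2 := congrArg (IntermediateField.adjoin k {α}).val h1
  rw [map_sum] at h2
  refine Eq.trans (Finset.sum_congr rfl fun s _ => ?_) h2
  have h3 : g y = ⟨y, hy⟩ := LinearMap.congr_fun hg ⟨y, hy⟩
  rw [map_smul, PowerBasis.basis_eq_pow, IntermediateField.adjoin.powerBasis_gen, map_pow,
    LinearMap.comp_apply, h3, Module.Basis.coord_apply]
  rfl

private theorem dgr_single {k K : Type} [Field k] [Field K] [Algebra k K] {r : ℕ} (x : Fin r → Kˣ)
    (e : Fin r → ℤ) (a : k) :
    evx x (AddMonoidAlgebra.single e a : LR k r) = a • ((mo x e : Kˣ) : K) := by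
  unfold evx
  rw [AddMonoidAlgebra.lift_single]
  rfl

private theorem dgr_sum {k K : Type} [Field k] [Field K] [Algebra k K] {r : ℕ} (x : Fin r → Kˣ)
    (q : LR k r) : evx x q = ∑ e ∈ q.coeff.support, q.coeff e • ((mo x e : Kˣ) : K) := by
  have h : q = ∑ e ∈ q.coeff.support, AddMonoidAlgebra.single e (q.coeff e) :=
    (AddMonoidAlgebra.sum_coeff_single q).symm
  conv_lhs => rw [h]
  rw [map_sum]
  exact Finset.sum_congr rfl fun e _ => dgr_single x e _

/-- the residue of the exponent -/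
private def dgr_md {r D : ℕ} (hD : 0 < D) (e : Fin r → ℤ) : Fin r → Fin D := fun s =>
  ⟨(e s % (D : ℤ)).toNat, by
    have h1 := Int.emod_nonneg (e s) (show (D : ℤ) ≠ 0 by omega)
    have h2 := Int.emod_lt_of_pos (e s) (show (0 : ℤ) < D by omega)
    omega⟩

private theorem dgr_pow {K L : Type} [Field K] [Field L] [Algebra K L] {r : ℕ} {x : Fin r → Kˣ}
    {D : ℕ} (hD : 0 < D) {γ : Fin r → Lˣ} (hγ : ∀ i, (γ i : L) ^ D = algebraMap K L (x i))
    (e : Fin r → ℤ) : ((mo γ e : Lˣ) : L) =
      algebraMap K L ((mo x fun s => e s / (D : ℤ) : Kˣ) : K) *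
        ∏ s, (γ s : L) ^ (dgr_md hD e s : ℕ) := by
  unfold mo
  rw [Units.coe_prod, Units.coe_prod, map_prod, ← Finset.prod_mul_distrib]
  refine Finset.prod_congr rfl fun s _ => ?_
  rw [Units.val_zpow_eq_zpow_val, Units.val_zpow_eq_zpow_val, map_zpow₀, ← hγ]
  have h1 : ((dgr_md hD e s : ℕ) : ℤ) = e s % (D : ℤ) :=
    Int.toNat_of_nonneg (Int.emod_nonneg (e s) (by omega))
  have h2 : e s = (D : ℤ) * (e s / (D : ℤ)) + ((dgr_md hD e s : ℕ) : ℤ) := by
    rw [h1]
    exact (Int.mul_ediv_add_emod (e s) D).symm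
  conv_lhs => rw [h2]
  rw [zpow_add₀ (γ s).ne_zero, zpow_mul, zpow_natCast, zpow_natCast]

open Classical in
/-- one component of a Laurent polynomial -/
private noncomputable def dgr_cp {k L : Type} [Field k] [Field L] [Algebra k L] {r D : ℕ}
    (hD : 0 < D) (lam : L →ₗ[k] k) (i : Fin r → Fin D) (q : LR L r) : LR k r :=
  ∑ e ∈ q.coeff.support, if dgr_md hD e = i then
    AddMonoidAlgebra.single (fun s => e s / (D : ℤ)) (lam (q.coeff e)) else 0

open Classical in
private theorem dgr_dec {k K L : Type} [Field k] [Field K] [Field L] [Algebra k K] [Algebra K L]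
    [Algebra k L] [IsScalarTower k K L] {r : ℕ} {x : Fin r → Kˣ} {D : ℕ} (hD : 0 < D)
    {γ : Fin r → Lˣ} (hγ : ∀ i, (γ i : L) ^ D = algebraMap K L (x i)) {α : L} {d : ℕ}
    (lam : Fin d → L →ₗ[k] k) (q : LR L r)
    (hq : ∀ e, ∑ s, lam s (q.coeff e) • α ^ (s : ℕ) = q.coeff e) :
    evx γ q = ∑ i : Fin r → Fin D, (∑ s : Fin d, α ^ (s : ℕ) *
      algebraMap K L (evx x (dgr_cp hD (lam s) i q))) * ∏ s, (γ s : L) ^ (i s : ℕ) := by
  have h1 : ∀ (i : Fin r → Fin D) (s : Fin d), algebraMap K L (evx x (dgr_cp hD (lam s) i q)) =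
      ∑ e ∈ q.coeff.support, if dgr_md hD e = i then lam s (q.coeff e) •
        algebraMap K L ((mo x fun s => e s / (D : ℤ) : Kˣ) : K) else 0 := by
    intro i s
    unfold dgr_cp
    rw [map_sum, map_sum]
    refine Finset.sum_congr rfl fun e _ => ?_
    split_ifs with h
    · rw [dgr_single, Algebra.algebraMap_eq_smul_one, Algebra.algebraMap_eq_smul_one, smul_assoc]
    · rw [map_zero, map_zero]
  simp only [h1]
  rw [dgr_sum]
  have h2 : ∀ i : Fin r → Fin D, (∑ s : Fin d, α ^ (s : ℕ) * ∑ e ∈ q.coeff.support,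
      if dgr_md hD e = i then lam s (q.coeff e) •
        algebraMap K L ((mo x fun s => e s / (D : ℤ) : Kˣ) : K) else 0) *
      ∏ s, (γ s : L) ^ (i s : ℕ) = ∑ e ∈ q.coeff.support, if dgr_md hD e = i then
        q.coeff e • ((mo γ e : Lˣ) : L) else 0 := by
    intro i
    simp only [Finset.mul_sum]
    rw [Finset.sum_comm, Finset.sum_mul]
    refine Finset.sum_congr rfl fun e _ => ?_
    by_cases h : dgr_md hD e = i
    · subst h
      simp only [if_true]
      rw [dgr_pow hD hγ e, smul_eq_mul, ← mul_assoc]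
      congr 1
      conv_rhs => rw [← hq e, Finset.sum_mul]
      refine Finset.sum_congr rfl fun s _ => ?_
      rw [mul_smul_comm, smul_mul_assoc]
    · simp only [h, if_false, mul_zero, Finset.sum_const_zero, zero_mul]
  simp only [h2]
  rw [Finset.sum_comm]
  refine Finset.sum_congr rfl fun e _ => ?_
  rw [Finset.sum_ite_eq, if_pos (Finset.mem_univ _)]

theorem degree_countR {k K L : Type} [Field k] [CharZero k] [Field K] [CharZero K] [Field L]
    [CharZero L] [Algebra k K] [Algebra K L] [Algebra k L] [IsScalarTower k K L] [IsAlgClosed L]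
    (hc : CstK k K) {r : ℕ} {x : Fin r → Kˣ} {θ : K} {f : (MvPolynomial (Fin r) k)[X]}
    (hm : Md x θ f) (hp : NpM k x) {D : ℕ} (hD : 0 < D) {γ : Fin r → Lˣ} {α : L}
    (hγ : ∀ i, (γ i : L) ^ D = algebraMap K L (x i)) (hα : IsAlgebraic k α)
    (hn : Normal k (IntermediateField.adjoin k {α}))
    (hξ : ∃ ξ ∈ IntermediateField.adjoin k {α}, IsPrimitiveRoot ξ D) {G : (LR L r)[X]}
    (hG : G.Monic) (hd : G.natDegree < f.natDegree)
    (hG' : ∀ i n, (G.coeff i).coeff n ∈ IntermediateField.adjoin k {α})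
    (h0 : evW γ (algebraMap K L θ) G = 0) : False := by
  classical
  obtain ⟨lam, hlam⟩ := dgr_lam (k := k) hα.isIntegral
  have hli : LinearIndependent K fun s : Fin (minpoly k α).natDegree => α ^ (s : ℕ) := by
    have h := linearIndependent_pow (K := K) α
    rw [minpoly_mapK hc hα, natDegree_map] at h
    exact h
  set P : (Fin r → Fin D) → Fin (minpoly k α).natDegree → (LR k r)[X] := fun i s =>
    ∑ m ∈ Finset.range f.natDegree, monomial m (dgr_cp hD (lam s) i (G.coeff m)) with hP
  have hPev : ∀ i s, evW x θ (P i s) = ∑ m ∈ Finset.range f.natDegree,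
      evx x (dgr_cp hD (lam s) i (G.coeff m)) * θ ^ m := by
    intro i s
    rw [hP, map_sum]
    refine Finset.sum_congr rfl fun m _ => ?_
    exact eval₂_monomial _ _
  have hdeg : ∀ i s, (P i s).natDegree < f.natDegree := by
    intro i s
    refine Nat.lt_of_le_of_lt (natDegree_sum_le_of_forall_le _ _ fun m hm' => ?_)
      (Nat.sub_lt hm.pos one_pos)
    exact (natDegree_monomial_le _).trans (Nat.le_sub_one_of_lt (Finset.mem_range.1 hm'))
  set c : (Fin r → Fin D) → L := fun i =>
    ∑ s : Fin (minpoly k α).natDegree, α ^ (s : ℕ) * algebraMap K L (evW x θ (P i s)) with hcdef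
  have hsum : ∑ i, c i * ∏ s, (γ s : L) ^ (i s : ℕ) = 0 := by
    rw [← h0]
    have h1 : evW γ (algebraMap K L θ) G = ∑ m ∈ Finset.range f.natDegree,
        evx γ (G.coeff m) * algebraMap K L θ ^ m := eval₂_eq_sum_range' _ hd _
    rw [h1]
    have h2 : ∀ m, evx γ (G.coeff m) = _ := fun m =>
      dgr_dec (x := x) hD hγ lam (G.coeff m) fun e => hlam _ (hG' m e)
    simp only [h2, Finset.sum_mul]
    rw [Finset.sum_comm]
    refine Finset.sum_congr rfl fun i _ => ?_
    rw [hcdef]
    simp only [hPev, map_sum, map_mul, map_pow, Finset.sum_mul, Finset.mul_sum]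
    rw [Finset.sum_comm]
    refine Finset.sum_congr rfl fun m _ => Finset.sum_congr rfl fun s _ => ?_
    ring
  have hc0 : ∀ i, c i = 0 := kum hc hp hD hγ hα hn hξ c (fun i => by
    rw [hcdef]
    refine sum_mem fun s _ => mul_mem (pow_mem ?_ _) ?_
    · exact IntermediateField.mem_adjoin_simple_self K α
    · exact (IntermediateField.adjoin K {α}).algebraMap_mem _) hsum
  have hP0 : ∀ i s, P i s = 0 := by
    intro i s
    refine hm.min _ (hdeg i s) ?_
    refine Fintype.linearIndependent_iff.1 hli (fun s => evW x θ (P i s)) ?_ s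
    rw [← hc0 i, hcdef]
    refine Finset.sum_congr rfl fun s _ => ?_
    rw [Algebra.smul_def, mul_comm]
  have hcp : ∀ s, dgr_cp hD (lam s) (dgr_md hD (0 : Fin r → ℤ)) (1 : LR L r) = 0 := by
    intro s
    have h1 := congrArg (fun p => Polynomial.coeff p G.natDegree)
      (hP0 (dgr_md hD (0 : Fin r → ℤ)) s)
    rw [hP] at h1
    simp only [finsetSum_coeff, coeff_monomial, coeff_zero] at h1
    rw [Finset.sum_ite_eq', if_pos (Finset.mem_range.2 hd)] at h1
    have h2 : G.coeff G.natDegree = 1 := hG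
    rwa [h2] at h1
  have hlam0 : ∀ s, lam s 1 = 0 := by
    intro s
    have h1 := hcp s
    unfold dgr_cp at h1
    have h2 : (1 : LR L r).coeff.support = {0} := by
      show (AddMonoidAlgebra.single (0 : Fin r → ℤ) (1 : L)).coeff.support = {0}
      rw [AddMonoidAlgebra.coeff_single]
      exact Finsupp.support_single _ one_ne_zero
    have h3 : (1 : LR L r).coeff 0 = 1 := by
      show (AddMonoidAlgebra.single (0 : Fin r → ℤ) (1 : L)).coeff 0 = 1
      rw [AddMonoidAlgebra.coeff_single]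
      exact Finsupp.single_eq_same
    rw [h2, Finset.sum_singleton, if_pos rfl, h3] at h1
    exact AddMonoidAlgebra.single_eq_zero.1 h1
  have h1 := hlam 1 (one_mem _)
  simp only [hlam0, zero_smul, Finset.sum_const_zero] at h1
  exact zero_ne_one h1

end Pool.Agent.EVF
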