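import Pool.Agent.EVF.Defs
import Pool.Agent.CS2.Hec

/-!
# The coefficients of a factor are algebraic integers

For a root of unity `t` map the identity by `T ↦ t` (a ring homomorphism
`ℂ[T;T⁻¹] →+* ℂ`): the polynomial `F(ξ t ^ c, W)` has integral coefficients (`ξ i` and `t ^ c i` are
integral, also for negative `c i`: a root of unity), so `G(t, W)` has integral coefficients
(`Pool.Agent.CS2.integral_factor` with `m = 1`). For `N` larger than all differences of exponents of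
`G.coeff i` and `n` one has `N * (G.coeff i).coeff n = ∑ t ^ (-n) * G_i(t)` over the `N`-th roots of unity `t`,
an algebraic integer; subtract the statements for `N + 1` and `N`.
-/

open scoped BigOperators Polynomial LaurentPolynomial
open Polynomial

namespace Pool.Agent.EVF

/-- the value of a Laurent polynomial -/
private noncomputable def itgE (u : ℂˣ) : ℂ[T;T⁻¹] →+* ℂ :=
  LaurentPolynomial.eval₂ (RingHom.id ℂ) u

private theorem itg_ev (u : ℂˣ) (p : ℂ[T;T⁻¹]) :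
    itgE u p = ∑ m ∈ p.coeff.support, p.coeff m * ((u ^ m : ℂˣ) : ℂ) := by
  have h1 : p = ∑ m ∈ p.coeff.support,
      LaurentPolynomial.C (p.coeff m) * LaurentPolynomial.T m := by
    refine LaurentPolynomial.ext fun k => ?_
    rw [AddMonoidAlgebra.coeff_sum, Finsupp.finsetSum_apply]
    simp only [← LaurentPolynomial.single_eq_C_mul_T, AddMonoidAlgebra.coeff_single,
      Finsupp.single_apply]
    rw [Finset.sum_ite_eq']
    by_cases hk : k ∈ p.coeff.support
    · rw [if_pos hk]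
    · rw [if_neg hk]
      exact Finsupp.notMem_support_iff.1 hk
  conv_lhs => rw [h1]
  rw [map_sum]
  refine Finset.sum_congr rfl fun m _ => ?_
  show LaurentPolynomial.eval₂ (RingHom.id ℂ) u _ = _
  rw [LaurentPolynomial.eval₂_C_mul_T, RingHom.id_apply]

private theorem itg_unit {u : ℂˣ} {N : ℕ} (hN : 0 < N) (hu : u ^ N = 1) (m : ℤ) :
    IsIntegral ℤ ((u ^ m : ℂˣ) : ℂ) := by
  refine IsIntegral.of_pow hN ?_
  rw [← Units.val_pow_eq_pow_val, ← zpow_natCast, ← zpow_mul, mul_comm, zpow_mul, zpow_natCast, hu,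
    one_zpow, Units.val_one]
  exact isIntegral_one

private theorem itg_avg (p : ℂ[T;T⁻¹]) (n : ℤ) {N : ℕ}
    (hb : ∀ m ∈ p.coeff.support, |m - n| < N) {u : ℂˣ} (hu : u ^ N = 1)
    (hu' : ∀ d : ℤ, u ^ d = 1 → (N : ℤ) ∣ d) :
    (N : ℂ) * p.coeff n = ∑ j ∈ Finset.range N, (((u ^ j) ^ (-n) : ℂˣ) : ℂ) * itgE (u ^ j) p := by
  have h1 : ∀ m ∈ p.coeff.support, ∑ j ∈ Finset.range N,
      (((u ^ j) ^ (-n) : ℂˣ) : ℂ) * (((u ^ j) ^ m : ℂˣ) : ℂ) = if m = n then (N : ℂ) else 0 := by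
    intro m hm
    have h2 : ∀ j : ℕ, (((u ^ j) ^ (-n) : ℂˣ) : ℂ) * (((u ^ j) ^ m : ℂˣ) : ℂ) =
        ((u ^ (m - n) : ℂˣ) : ℂ) ^ j := by
      intro j
      rw [← Units.val_mul, ← zpow_add, ← Units.val_pow_eq_pow_val, ← zpow_natCast, ← zpow_natCast,
        ← zpow_mul, ← zpow_mul]
      congr 2
      ring
    rw [Finset.sum_congr rfl fun j _ => h2 j]
    by_cases hmn : m = n
    · rw [if_pos hmn, hmn, sub_self, zpow_zero, Units.val_one]
      simp
    · rw [if_neg hmn]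
      have h3 : ((u ^ (m - n) : ℂˣ) : ℂ) ≠ 1 := by
        intro h4
        have h5 : u ^ (m - n) = 1 := Units.ext h4
        obtain ⟨q, hq⟩ := hu' _ h5
        have h6 := hb m hm
        have h7 : (m - n) ≠ 0 := sub_ne_zero.2 hmn
        have h8 := Int.le_of_dvd (abs_pos.2 h7) ((dvd_abs _ _).2 ⟨q, hq⟩)
        omega
      have h4 := geom_sum_mul ((u ^ (m - n) : ℂˣ) : ℂ) N
      have h5 : ((u ^ (m - n) : ℂˣ) : ℂ) ^ N = 1 := by
        rw [← Units.val_pow_eq_pow_val, ← zpow_natCast, ← zpow_mul, mul_comm, zpow_mul,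
          zpow_natCast, hu, one_zpow, Units.val_one]
      rw [h5, sub_self] at h4
      exact (mul_eq_zero.1 h4).resolve_right (sub_ne_zero.2 h3)
  simp only [itg_ev, Finset.mul_sum]
  rw [Finset.sum_comm]
  have h2 : ∀ m ∈ p.coeff.support, ∑ j ∈ Finset.range N,
      (((u ^ j) ^ (-n) : ℂˣ) : ℂ) * (p.coeff m * (((u ^ j) ^ m : ℂˣ) : ℂ)) =
      if m = n then (N : ℂ) * p.coeff m else 0 := by
    intro m hm
    have h3 : ∀ j : ℕ, (((u ^ j) ^ (-n) : ℂˣ) : ℂ) * (p.coeff m * (((u ^ j) ^ m : ℂˣ) : ℂ)) =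
      (((u ^ j) ^ (-n) : ℂˣ) : ℂ) * (((u ^ j) ^ m : ℂˣ) : ℂ) * p.coeff m := fun j => by ring
    rw [Finset.sum_congr rfl fun j _ => h3 j, ← Finset.sum_mul, h1 m hm, ite_mul, zero_mul]
  rw [Finset.sum_congr rfl h2, Finset.sum_ite_eq']
  by_cases hn : n ∈ p.coeff.support
  · rw [if_pos hn]
  · rw [if_neg hn, Finsupp.notMem_support_iff.1 hn, mul_zero]

private theorem itg_root (N : ℕ) (hN : 0 < N) :
    ∃ u : ℂˣ, u ^ N = 1 ∧ ∀ d : ℤ, u ^ d = 1 → (N : ℤ) ∣ d := by
  have h1 := Complex.isPrimitiveRoot_exp N hN.ne'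
  obtain ⟨u, hu⟩ := h1.isUnit hN.ne'
  rw [← hu] at h1
  have h2 := IsPrimitiveRoot.coe_units_iff.1 h1
  exact ⟨u, h2.pow_eq_one, fun d hd => (h2.zpow_eq_one_iff_dvd d).1 hd⟩

private theorem itg_of_val (p : ℂ[T;T⁻¹])
    (hp : ∀ (u : ℂˣ) (N : ℕ), 0 < N → u ^ N = 1 → IsIntegral ℤ (itgE u p)) (n : ℤ) :
    IsIntegral ℤ (p.coeff n) := by
  obtain ⟨B, hB⟩ : ∃ B : ℕ, ∀ m ∈ p.coeff.support, |m - n| < B := by
    refine ⟨∑ m ∈ p.coeff.support, ((m - n).natAbs + 1), fun m hm => ?_⟩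
    have h1 : (m - n).natAbs + 1 ≤ ∑ m ∈ p.coeff.support, ((m - n).natAbs + 1) :=
      Finset.single_le_sum (f := fun m : ℤ => (m - n).natAbs + 1) (fun _ _ => Nat.zero_le _) hm
    rw [Int.abs_eq_natAbs]
    exact_mod_cast h1
  have h1 : ∀ N : ℕ, 0 < N → B ≤ N → IsIntegral ℤ ((N : ℂ) * p.coeff n) := by
    intro N hN hBN
    obtain ⟨u, hu, hu'⟩ := itg_root N hN
    rw [itg_avg p n (fun m hm => (hB m hm).trans_le (by exact_mod_cast hBN)) hu hu']
    refine IsIntegral.sum _ fun j _ => ?_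
    have h2 : (u ^ j) ^ N = 1 := by rw [← pow_mul, mul_comm, pow_mul, hu, one_pow]
    exact (itg_unit hN h2 _).mul (hp _ N hN h2)
  have h2 := (h1 (B + 2) (by omega) (by omega)).sub (h1 (B + 1) (by omega) (by omega))
  have h3 : ((B + 2 : ℕ) : ℂ) * p.coeff n - ((B + 1 : ℕ) : ℂ) * p.coeff n = p.coeff n := by
    push_cast
    ring
  rwa [h3] at h2

theorem coeff_integral {r : ℕ} {F : (MvPolynomial (Fin r) ℂ)[X]} (hF : F.Monic)
    (hI : ∀ i m, IsIntegral ℤ ((F.coeff i).coeff m)) {ξ : Fin r → ℂ} (hξ : RU ξ) (c : Fin r → ℤ)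
    {G H : (ℂ[T;T⁻¹])[X]} (hG : G.Monic) (hH : H.Monic) (h : F.map (subT ξ c) = G * H) (i : ℕ)
    (n : ℤ) : IsIntegral ℤ ((G.coeff i).coeff n) := by
  refine itg_of_val _ (fun u N hN hu => ?_) n
  obtain ⟨M, hM, hξ⟩ := hξ
  have h1 := congrArg (Polynomial.map (itgE u)) h
  rw [Polynomial.map_map, Polynomial.map_mul] at h1
  have h2 : ∀ i, IsIntegral ℤ ((F.map ((itgE u).comp (subT ξ c))).coeff i) := by
    intro i
    rw [Polynomial.coeff_map]
    have h3 : ((itgE u).comp (subT ξ c)) (F.coeff i) =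
        MvPolynomial.aeval (R := ℂ) (fun i => ξ i * ((u ^ c i : ℂˣ) : ℂ)) (F.coeff i) := by
      have h4 : (itgE u).comp (subT ξ c) = (MvPolynomial.aeval (R := ℂ)
          (fun i => ξ i * ((u ^ c i : ℂˣ) : ℂ))).toRingHom := by
        refine MvPolynomial.ringHom_ext (fun a => ?_) fun i => ?_
        · show itgE u (MvPolynomial.aeval _ (MvPolynomial.C a)) =
            MvPolynomial.aeval _ (MvPolynomial.C a)
          rw [MvPolynomial.aeval_C, MvPolynomial.aeval_C, LaurentPolynomial.algebraMap_apply]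
          show LaurentPolynomial.eval₂ (RingHom.id ℂ) u _ = _
          rw [LaurentPolynomial.eval₂_C]
          rfl
        · show itgE u (MvPolynomial.aeval _ (MvPolynomial.X i)) =
            MvPolynomial.aeval _ (MvPolynomial.X i)
          rw [MvPolynomial.aeval_X, MvPolynomial.aeval_X]
          show LaurentPolynomial.eval₂ (RingHom.id ℂ) u _ = _
          rw [LaurentPolynomial.eval₂_C_mul_T]
          rfl
      rw [h4]
      rfl
    rw [h3, MvPolynomial.aeval_def, MvPolynomial.eval₂_eq]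
    refine IsIntegral.sum _ fun m _ => (hI i m).mul (IsIntegral.prod _ fun k _ => ?_)
    refine IsIntegral.pow (IsIntegral.mul ?_ (itg_unit hN hu _)) _
    refine IsIntegral.of_pow hM ?_
    rw [hξ]
    exact isIntegral_one
  have h3 : F.map ((itgE u).comp (subT ξ c)) = Polynomial.C 1 * G.map (itgE u) * H.map (itgE u) := by
    rw [h1, Polynomial.C_1, one_mul]
  have h4 := Pool.Agent.CS2.integral_factor h2 (hG.map _) (hH.map _) h3 i
  rwa [one_mul, Polynomial.coeff_map] at h4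

end Pool.Agent.EVF
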