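import Pool.Agent.EVF.Defs

/-!
# The conjugates of an algebraic integer

The sum of the squares of the absolute values of the conjugates of a nonzero algebraic integer is at least the number of
conjugates: the product is at least `1`, and `x ^ 2 ≥ 1 + log (x ^ 2)`.
-/

open scoped BigOperators Polynomial LaurentPolynomial
open Polynomial

namespace Pool.Agent.EVF

theorem exists_embs (E : IntermediateField ℚ ℂ) (hE : FiniteDimensional ℚ E) :
    ∃ S : Finset (E →+* ℂ), S.Nonempty ∧ ∀ q : E, q ≠ 0 → IsIntegral ℤ q →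
      (S.card : ℝ) ≤ ∑ σ ∈ S, ‖σ q‖ ^ 2 := by
  classical
  let emb : (E →ₐ[ℚ] ℂ) ↪ (E →+* ℂ) :=
    ⟨fun σ : E →ₐ[ℚ] ℂ => (RingHomClass.toRingHom σ : E →+* ℂ), AlgHom.coe_ringHom_injective⟩
  refine ⟨Finset.map emb Finset.univ, ?_, ?_⟩
  · rw [Finset.map_nonempty]
    exact ⟨E.val, Finset.mem_univ _⟩
  · intro q hq hi
    rw [Finset.card_map, Finset.sum_map]
    change ((Finset.univ : Finset (E →ₐ[ℚ] ℂ)).card : ℝ) ≤ ∑ σ : E →ₐ[ℚ] ℂ, ‖σ q‖ ^ 2
    have hpos : ∀ σ : E →ₐ[ℚ] ℂ, 0 < ‖σ q‖ := by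
      intro σ
      rw [norm_pos_iff]
      exact (map_ne_zero_iff _ σ.toRingHom.injective).2 hq
    -- the norm
    have h1 : (1 : ℝ) ≤ ∏ σ : E →ₐ[ℚ] ℂ, ‖σ q‖ := by
      rw [← norm_prod, ← Algebra.norm_eq_prod_embeddings ℚ ℂ q]
      have h2 : IsIntegral ℤ (Algebra.norm ℚ q) := Algebra.isIntegral_norm ℚ hi
      obtain ⟨z, hz⟩ := IsIntegrallyClosed.isIntegral_iff.1 h2
      have h3 : Algebra.norm ℚ q ≠ 0 := Algebra.norm_ne_zero_iff.2 hq
      have h4 : z ≠ 0 := by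
        rintro rfl
        rw [map_zero] at hz
        exact h3 hz.symm
      rw [← hz]
      simp only [eq_intCast, eq_ratCast, Rat.cast_intCast, Complex.norm_intCast]
      have h5 : (1 : ℤ) ≤ |z| := Int.one_le_abs h4
      exact_mod_cast h5
    have h2 : 0 ≤ ∑ σ : E →ₐ[ℚ] ℂ, Real.log (‖σ q‖ ^ 2) := by
      rw [← Real.log_prod fun σ _ => by have := hpos σ; positivity]
      refine Real.log_nonneg ?_
      rw [Finset.prod_pow]
      exact one_le_pow₀ h1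
    have h3 : ∀ σ : E →ₐ[ℚ] ℂ, 1 + Real.log (‖σ q‖ ^ 2) ≤ ‖σ q‖ ^ 2 := by
      intro σ
      have h4 := Real.log_le_sub_one_of_pos (show 0 < ‖σ q‖ ^ 2 by have := hpos σ; positivity)
      linarith
    calc ((Finset.univ : Finset (E →ₐ[ℚ] ℂ)).card : ℝ)
        = ∑ σ : E →ₐ[ℚ] ℂ, (1 : ℝ) := by rw [Finset.sum_const, nsmul_eq_mul, mul_one]
      _ ≤ ∑ σ : E →ₐ[ℚ] ℂ, (1 + Real.log (‖σ q‖ ^ 2)) := by
          rw [Finset.sum_add_distrib]
          linarith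
      _ ≤ ∑ σ : E →ₐ[ℚ] ℂ, ‖σ q‖ ^ 2 := Finset.sum_le_sum fun σ _ => h3 σ

end Pool.Agent.EVF
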