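import Pool.Agent.EVF.Par
import Pool.Agent.EVF.Nrm
import Pool.Agent.EVF.Itg
import Pool.Agent.EVF.Bnd

/-!
# The coefficients of a factor have few terms

The number of terms is at most `C ^ 2`, `C` the constant of `exists_bound`: sum Parseval over the embeddings of a
number field which contains all coefficients.
-/

open scoped BigOperators Polynomial LaurentPolynomial
open Polynomial

namespace Pool.Agent.EVF

private theorem few_fin {α : Type*} (s : Finset ℕ) (f : ℕ → α → ℂ) (t : ℕ → Finset α)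
    (h1 : ∀ i, i ∉ s → ∀ n, f i n = 0) (h2 : ∀ i n, n ∉ t i → f i n = 0) :
    {z : ℂ | ∃ i n, z = f i n}.Finite := by
  classical
  refine Set.Finite.subset ((insert (0 : ℂ) (s.biUnion fun i => (t i).image (f i))).finite_toSet) ?_
  rintro z ⟨i, n, rfl⟩
  rw [Finset.mem_coe, Finset.mem_insert, Finset.mem_biUnion]
  by_cases hi : i ∈ s
  · by_cases hn : n ∈ t i
    · exact Or.inr ⟨i, hi, Finset.mem_image_of_mem _ hn⟩
    · exact Or.inl (h2 i n hn)
  · exact Or.inl (h1 i hi n)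

private theorem few_fin_laurent (G : (ℂ[T;T⁻¹])[X]) :
    {z : ℂ | ∃ i n, z = (G.coeff i).coeff n}.Finite := by
  refine few_fin G.support (fun i n => (G.coeff i).coeff n) (fun i => (G.coeff i).coeff.support)
    (fun i hi n => ?_) (fun i n hn => ?_)
  · rw [Polynomial.notMem_support_iff] at hi
    simp [hi]
  · exact Finsupp.notMem_support_iff.1 hn

private theorem few_fin_mv {r : ℕ} (F : (MvPolynomial (Fin r) ℂ)[X]) :
    {z : ℂ | ∃ i m, z = (F.coeff i).coeff m}.Finite := by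
  refine few_fin F.support (fun i n => (F.coeff i).coeff n) (fun i => (F.coeff i).support)
    (fun i hi n => ?_) (fun i n hn => ?_)
  · rw [Polynomial.notMem_support_iff] at hi
    simp [hi]
  · exact MvPolynomial.notMem_support_iff.1 hn

private theorem few_count (E : IntermediateField ℚ ℂ) (hE : FiniteDimensional ℚ E) {C : ℝ}
    {R : ℕ} (hR : C ^ 2 ≤ R) (s : Finset ℤ) (a : ℤ → E) (ha : ∀ n ∈ s, a n ≠ 0)
    (hi : ∀ n, IsIntegral ℤ (a n))
    (hC : ∀ (σ : E →+* ℂ) (t : ℂ), ‖t‖ = 1 → ‖∑ n ∈ s, σ (a n) * t ^ n‖ ≤ C) : s.card ≤ R := by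
  obtain ⟨S, hS, hS'⟩ := exists_embs E hE
  have h1 : ∀ σ ∈ S, ∑ n ∈ s, ‖σ (a n)‖ ^ 2 ≤ C ^ 2 := fun σ _ =>
    parseval s (fun n => σ (a n)) (hC σ)
  have h2 : (S.card : ℝ) * s.card ≤ S.card * C ^ 2 := by
    calc (S.card : ℝ) * s.card = ∑ n ∈ s, (S.card : ℝ) := by
          rw [Finset.sum_const, nsmul_eq_mul, mul_comm]
      _ ≤ ∑ n ∈ s, ∑ σ ∈ S, ‖σ (a n)‖ ^ 2 := Finset.sum_le_sum fun n hn => hS' _ (ha n hn) (hi n)
      _ = ∑ σ ∈ S, ∑ n ∈ s, ‖σ (a n)‖ ^ 2 := Finset.sum_comm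
      _ ≤ ∑ σ ∈ S, C ^ 2 := Finset.sum_le_sum h1
      _ = S.card * C ^ 2 := by rw [Finset.sum_const, nsmul_eq_mul]
  have h3 : (0 : ℝ) < S.card := by exact_mod_cast Finset.card_pos.2 hS
  have h4 : (s.card : ℝ) ≤ C ^ 2 := le_of_mul_le_mul_left h2 h3
  exact_mod_cast h4.trans hR

theorem few {r : ℕ} {F : (MvPolynomial (Fin r) ℂ)[X]} (hF : F.Monic)
    (hI : ∀ i m, IsIntegral ℤ ((F.coeff i).coeff m)) :
    ∃ R : ℕ, ∀ ξ : Fin r → ℂ, RU ξ → ∀ (c : Fin r → ℤ) (G H : (ℂ[T;T⁻¹])[X]),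
      G.Monic → H.Monic → F.map (subT ξ c) = G * H →
      ∀ i, (G.coeff i).coeff.support.card ≤ R := by
  obtain ⟨C, hC0, hC⟩ := exists_bound hF hI
  obtain ⟨R, hR⟩ := exists_nat_ge (C ^ 2)
  refine ⟨R, fun ξ hξ c G H hG hH h i => ?_⟩
  have hGi : ∀ i n, IsIntegral ℤ ((G.coeff i).coeff n) := coeff_integral hF hI hξ c hG hH h
  have hHi : ∀ i n, IsIntegral ℤ ((H.coeff i).coeff n) :=
    coeff_integral hF hI hξ c hH hG (by rw [h, mul_comm])
  have hξi : ∀ i, IsIntegral ℤ (ξ i) := by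
    intro i
    obtain ⟨M, hM, hM'⟩ := hξ
    exact IsIntegral.of_pow hM (by rw [hM']; exact isIntegral_one)
  set A : Set ℂ := (({z : ℂ | ∃ i n, z = (G.coeff i).coeff n} ∪
    {z : ℂ | ∃ i n, z = (H.coeff i).coeff n}) ∪ Set.range ξ) ∪
    {z : ℂ | ∃ i m, z = (F.coeff i).coeff m} with hA
  have hAfin : A.Finite :=
    (((few_fin_laurent G).union (few_fin_laurent H)).union (Set.finite_range ξ)).union
      (few_fin_mv F)
  have hAint : ∀ z ∈ A, IsIntegral ℚ z := by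
    intro z hz
    have h1 : IsIntegral ℤ z := by
      rcases hz with ((⟨i, n, rfl⟩ | ⟨i, n, rfl⟩) | ⟨i, rfl⟩) | ⟨i, m, rfl⟩
      · exact hGi i n
      · exact hHi i n
      · exact hξi i
      · exact hI i m
    exact h1.tower_top
  have hfA : Finite A := hAfin
  set E : IntermediateField ℚ ℂ := IntermediateField.adjoin ℚ A with hEd
  have hE : FiniteDimensional ℚ E := IntermediateField.finiteDimensional_adjoin hAint
  have hAE : ∀ z ∈ A, z ∈ E := fun z hz => IntermediateField.subset_adjoin ℚ A hz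
  have hGE : ∀ i n, (G.coeff i).coeff n ∈ E := fun i n =>
    hAE _ (Or.inl (Or.inl (Or.inl ⟨i, n, rfl⟩)))
  have hHE : ∀ i n, (H.coeff i).coeff n ∈ E := fun i n =>
    hAE _ (Or.inl (Or.inl (Or.inr ⟨i, n, rfl⟩)))
  have hξE : ∀ i, ξ i ∈ E := fun i => hAE _ (Or.inl (Or.inr ⟨i, rfl⟩))
  have hFE : ∀ i m, (F.coeff i).coeff m ∈ E := fun i m => hAE _ (Or.inr ⟨i, m, rfl⟩)
  refine few_count E hE hR (G.coeff i).coeff.support
    (fun n => ⟨(G.coeff i).coeff n, hGE i n⟩) (fun n hn => ?_) (fun n => ?_)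
    (fun σ t ht => hC ξ hξ c G H hG hH h E hGE hHE hξE hFE σ t ht i)
  · intro h0
    exact (Finsupp.mem_support_iff.1 hn) (congrArg Subtype.val h0)
  · have h1 := hGi i n
    exact (isIntegral_algebraMap_iff (A := E) (B := ℂ) (algebraMap E ℂ).injective).1 h1

end Pool.Agent.EVF
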