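import Pool.Agent.EVF.BDefs

/-!
# The fields generated by all but one variable

`x i` is transcendental over the field generated by the other variables, an element `h` transcendental over it generates a
subfield of finite index, and an element algebraic over all of these fields is algebraic over `ℚ`. The proofs use the matroid
of algebraic independence.
-/

open scoped BigOperators Polynomial
open Polynomial

namespace Pool.Agent.EVF

open Pool.Agent.CST Pool.Agent.CSG Pool.Agent.Helper11 Pool.Agent.ISI

/-- the field generated by the `x j`, `j ≠ i` -/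
noncomputable abbrev Fx {K : Type} [Field K] [CharZero K] {r : ℕ} (x : Fin r → Kˣ) (i : Fin r) :
    IntermediateField ℚ K :=
  IntermediateField.adjoin ℚ ((fun j => (x j : K)) '' {j | j ≠ i})

private theorem fi_mem {F K : Type} [Field F] [Field K] [Algebra F K] {s : Set K} {a : K} :
    a ∈ (AlgebraicIndependent.matroid F K).closure s ↔ IsAlgebraic (Algebra.adjoin F s) a := by
  rw [AlgebraicIndependent.matroid_closure_eq]
  exact Iff.rfl

private theorem fi_bot {F K : Type} [Field F] [Field K] [Algebra F K] {a : K} :
    a ∈ (AlgebraicIndependent.matroid F K).closure ∅ ↔ IsAlgebraic F a := by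
  rw [fi_mem, Algebra.adjoin_empty]
  exact Subalgebra.isAlgebraic_bot_iff (algebraMap F K).injective

theorem fi_tr {K : Type} [Field K] [CharZero K] {r : ℕ} {x : Fin r → Kˣ}
    (hx : AlgebraicIndependent ℚ fun i => (x i : K)) (i : Fin r) :
    Transcendental (Fx x i) (x i : K) := by
  rw [IntermediateField.transcendental_adjoin_iff]
  exact hx.transcendental_adjoin (s := {j | j ≠ i}) (fun h => h rfl)

/-- a field which is finite over a smaller field of definition is finite over the bigger one -/
private theorem fi_res {k F K : Type} [Field k] [Field F] [Field K] [Algebra k K] [Algebra F K]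
    {L : IntermediateField k K} (hL : FiniteDimensional L K) {A : IntermediateField F K}
    (h : ∀ y ∈ L, y ∈ A) : FiniteDimensional A K := by
  let f : L →+* A :=
    { toFun := fun y => ⟨(y : K), h y y.2⟩
      map_one' := rfl
      map_mul' := fun _ _ => rfl
      map_zero' := rfl
      map_add' := fun _ _ => rfl }
  let _ : Algebra L A := f.toAlgebra
  have : IsScalarTower L A K := IsScalarTower.of_algebraMap_eq (fun _ => rfl)
  exact Module.Finite.of_restrictScalars_finite L A K

theorem fi_fin {K : Type} [Field K] [CharZero K] {r : ℕ} {x : Fin r → Kˣ}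
    (hx : AlgebraicIndependent ℚ fun i => (x i : K))
    (hK : FiniteDimensional (IntermediateField.adjoin ℚ (Set.range fun i => (x i : K))) K)
    (i : Fin r) {h : K} (hh : Transcendental (Fx x i) h) :
    FiniteDimensional (IntermediateField.adjoin (Fx x i) {h}) K := by
  have _ := hx
  have hmem : ∀ {A : IntermediateField (Fx x i) K}, (x i : K) ∈ A →
      ∀ y ∈ IntermediateField.adjoin ℚ (Set.range fun i => (x i : K)), y ∈ A := by
    intro A hA y hy
    have hle : IntermediateField.adjoin ℚ (Set.range fun i => (x i : K)) ≤
        A.restrictScalars ℚ := by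
      rw [IntermediateField.adjoin_le_iff]
      rintro _ ⟨j, rfl⟩
      by_cases hj : j = i
      · subst hj
        exact hA
      · have h1 : (x j : K) ∈ Fx x i := IntermediateField.subset_adjoin ℚ _ ⟨j, hj, rfl⟩
        exact A.algebraMap_mem (⟨(x j : K), h1⟩ : Fx x i)
    exact hle hy
  -- `K` is algebraic over `F(x i)`
  have h1 : FiniteDimensional (IntermediateField.adjoin (Fx x i) {(x i : K)}) K :=
    fi_res hK (hmem (IntermediateField.mem_adjoin_simple_self _ _))
  have h2 : IsAlgebraic (Algebra.adjoin (Fx x i) {(x i : K)}) h := by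
    rw [← IntermediateField.isAlgebraic_adjoin_iff]
    exact Algebra.IsAlgebraic.isAlgebraic h
  -- exchange
  have h3 : h ∈ (AlgebraicIndependent.matroid (Fx x i) K).closure (insert (x i : K) ∅) \
      (AlgebraicIndependent.matroid (Fx x i) K).closure ∅ := by
    refine ⟨?_, fun h4 => hh (fi_bot.1 h4)⟩
    rw [fi_mem, insert_empty_eq]
    exact h2
  have h4 := (Matroid.closure_exchange h3).1
  rw [fi_mem, insert_empty_eq, ← IntermediateField.isAlgebraic_adjoin_iff] at h4
  -- the tower
  have h5 : IsIntegral (IntermediateField.adjoin (Fx x i) {h}) (x i : K) := h4.isIntegral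
  have h6 : FiniteDimensional (IntermediateField.adjoin (Fx x i) {h})
      (IntermediateField.adjoin (IntermediateField.adjoin (Fx x i) {h}) {(x i : K)}) :=
    IntermediateField.adjoin.finiteDimensional h5
  have h7 : FiniteDimensional
      (IntermediateField.adjoin (IntermediateField.adjoin (Fx x i) {h}) {(x i : K)}) K := by
    refine fi_res hK (fun y hy => ?_)
    have h8 : y ∈ (IntermediateField.adjoin (IntermediateField.adjoin (Fx x i) {h})
        {(x i : K)}).restrictScalars (Fx x i) :=
      hmem (A := (IntermediateField.adjoin (IntermediateField.adjoin (Fx x i) {h})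
        {(x i : K)}).restrictScalars (Fx x i)) (IntermediateField.mem_adjoin_simple_self _ _) y hy
    exact h8
  exact FiniteDimensional.trans (IntermediateField.adjoin (Fx x i) {h})
    (IntermediateField.adjoin (IntermediateField.adjoin (Fx x i) {h}) {(x i : K)}) K

theorem fi_alg {K : Type} [Field K] [CharZero K] {r : ℕ} (hr : 0 < r) {x : Fin r → Kˣ}
    (hx : AlgebraicIndependent ℚ fun i => (x i : K)) {h : K}
    (hh : ∀ i, IsAlgebraic (Fx x i) h) : IsAlgebraic ℚ h := by
  have : Nonempty (Fin r) := ⟨⟨0, hr⟩⟩
  have hind : (AlgebraicIndependent.matroid ℚ K).Indep (Set.range fun i => (x i : K)) :=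
    AlgebraicIndependent.matroid_indep_iff.2 hx.to_subtype_range
  have h1 := hind.closure_iInter_eq_biInter_closure_of_forall_subset
    (Js := fun i : Fin r => (fun j => (x j : K)) '' {j | j ≠ i})
    (fun i => Set.image_subset_range _ _)
  have h2 : (⋂ i : Fin r, (fun j => (x j : K)) '' {j | j ≠ i}) = ∅ := by
    rw [Set.eq_empty_iff_forall_notMem]
    intro y hy
    rw [Set.mem_iInter] at hy
    obtain ⟨j, _, hj⟩ := hy ⟨0, hr⟩
    obtain ⟨j', hj1, hj2⟩ := hy j
    apply hj1
    exact hx.injective (hj2.trans hj.symm)
  have h3 : h ∈ (AlgebraicIndependent.matroid ℚ K).closure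
      (⋂ i : Fin r, (fun j => (x j : K)) '' {j | j ≠ i}) := by
    rw [h1, Set.mem_iInter]
    intro i
    rw [fi_mem, ← IntermediateField.isAlgebraic_adjoin_iff]
    exact hh i
  rw [h2] at h3
  exact fi_bot.1 h3

end Pool.Agent.EVF
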