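import Pool.Agent.EVF.CDefs
import Pool.Agent.EVF.BDefs

/-!
# Part B: fields finite over `ℚ(x)`, `x` saturated
-/

open scoped BigOperators Polynomial
open Polynomial

namespace Pool.Agent.EVF

open Pool.Agent.CST Pool.Agent.CSG Pool.Agent.Helper11 Pool.Agent.ISI

theorem fieldB {L : Type} [Field L] [CharZero L] {r : ℕ} (hr : 0 < r) (x : Fin r → Lˣ)
    (hx : AlgebraicIndependent ℚ fun i => (x i : L)) (hL : FiniteDimensional (ratField x) L)
    (hN : NN x) : Module.Finite ℚ ↥(slR x ⊓ geomM L) := by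
  sorry

end Pool.Agent.EVF
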