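import Pool.Agent.CST.PlA
import Pool.Agent.EVF.BDefs

/-!
# Zeros of a function over an arbitrary base field

The same proof as for `CST.exists_zero` and `CST.finite_zeros`, with `ℚ` replaced by a field `F` of
characteristic zero: the integral closure of `F[h]` in `K` is a Dedekind domain, the places which contain `F`
and have `v(h) < 1` are determined by their centres, prime ideals which contain `h ≠ 0`, and `h` is not a unit.
-/

open scoped BigOperators Polynomial
open Polynomial

namespace Pool.Agent.EVF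

open Pool.Agent.CST Pool.Agent.CSG Pool.Agent.Helper11 Pool.Agent.ISI

set_option linter.unusedSectionVars false

section general

variable (F : Type) {K : Type} [Field F] [CharZero F] [Field K] [CharZero K] [Algebra F K]

/-- `F[h]` -/
private noncomputable abbrev FldAh (h : K) : Subalgebra F K := Algebra.adjoin F {h}

/-- the integral closure of `F[h]` in `K` -/
private noncomputable abbrev FldBh (h : K) : Subalgebra (FldAh F h) K := integralClosure (FldAh F h) K

/-- places which contain `F` -/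
private def FldPl (O : ValuationSubring K) : Prop :=
  IsPl O ∧ ∀ y : F, algebraMap F K y ∈ O

omit [CharZero F] [CharZero K] in
private theorem Fld_ah_pid (h : K) : IsPrincipalIdealRing (FldAh F h) := by
  refine IsPrincipalIdealRing.of_surjective
    (aeval (⟨h, Algebra.self_mem_adjoin_singleton F h⟩ : FldAh F h) : F[X] →ₐ[F] FldAh F h).toRingHom ?_
  rintro ⟨x, hx⟩
  have hx' : x ∈ Algebra.adjoin F {h} := hx
  rw [Algebra.adjoin_singleton_eq_range_aeval] at hx'
  obtain ⟨p, hp⟩ := hx'
  refine ⟨p, Subtype.ext ?_⟩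
  have e := aeval_algHom_apply (FldAh F h).val ⟨h, Algebra.self_mem_adjoin_singleton F h⟩ p
  exact e.symm.trans hp

omit [CharZero K] in
open scoped IntermediateField.algebraAdjoinAdjoin in
private theorem Fld_dedekind {h : K}
    (hK : FiniteDimensional (IntermediateField.adjoin F {h}) K) : IsDedekindDomain (FldBh F h) := by
  have := Fld_ah_pid F h
  have := hK
  exact integralClosure.isDedekindDomain (A := FldAh F h) (K := IntermediateField.adjoin F {h}) (L := K)

omit [CharZero F] [CharZero K] in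
open scoped IntermediateField.algebraAdjoinAdjoin in
private theorem Fld_frac {h : K}
    (hK : FiniteDimensional (IntermediateField.adjoin F {h}) K) : IsFractionRing (FldBh F h) K := by
  have := Fld_ah_pid F h
  have := hK
  exact integralClosure.isFractionRing_of_finite_extension (A := FldAh F h)
    (IntermediateField.adjoin F {h}) K

private theorem Fld_exists_place {h : K}
    (hK : FiniteDimensional (IntermediateField.adjoin F {h}) K) (P : Ideal (FldBh F h))
    (hP : P.IsPrime) (hP0 : P ≠ ⊥) : ∃ O : ValuationSubring K, FldPl F O ∧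
      ∀ b : FldBh F h, (b : K) ∈ O ∧ (O.valuation (b : K) < 1 ↔ b ∈ P) := by
  have := Fld_dedekind F hK
  have := Fld_frac F hK
  let v : IsDedekindDomain.HeightOneSpectrum (FldBh F h) := ⟨P, hP, hP0⟩
  have hmem : ∀ b : FldBh F h, (b : K) ∈ (v.valuation K).valuationSubring := fun b =>
    (Valuation.mem_valuationSubring_iff _ _).2 (v.valuation_le_one b)
  have hF : ∀ y : F, algebraMap F K y ∈ (v.valuation K).valuationSubring := fun y =>
    hmem (algebraMap (FldAh F h) (FldBh F h) (algebraMap F (FldAh F h) y))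
  refine ⟨(v.valuation K).valuationSubring, ⟨⟨?_, fun q => ?_⟩, hF⟩, fun b => ⟨hmem b, ?_⟩⟩
  · exact (v.valuation K).valuationSubring_isDiscreteValuationRing
  · have h1 := hF (q : F)
    rwa [map_ratCast] at h1
  · rw [← (Valuation.isEquiv_valuation_valuationSubring (v.valuation K)).lt_one_iff_lt_one]
    exact v.valuation_lt_one_iff_mem b

variable {F}

omit [CharZero F] in
private theorem Fld_ah {h : K} {O : ValuationSubring K} (hO : FldPl F O) (hh : h ∈ O) {x : K}
    (hx : x ∈ FldAh F h) : x ∈ O := by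
  induction hx using Algebra.adjoin_induction with
  | mem x hx =>
    rw [Set.mem_singleton_iff] at hx
    rw [hx]
    exact hh
  | algebraMap r => exact hO.2 r
  | add x y _ _ hx hy => exact add_mem hx hy
  | mul x y _ _ hx hy => exact mul_mem hx hy

private theorem Fld_bh_le {h : K} {O : ValuationSubring K} (hO : FldPl F O) (hh : h ∈ O)
    (b : FldBh F h) : (b : K) ∈ O := by
  let φ : FldAh F h →+* O :=
    { toFun := fun x => ⟨x, Fld_ah hO hh x.2⟩
      map_one' := rfl
      map_mul' := fun _ _ => rfl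
      map_zero' := rfl
      map_add' := fun _ _ => rfl }
  obtain ⟨p, hp, hr⟩ := b.2
  have h1 : IsIntegral O (b : K) := by
    refine ⟨p.map φ, hp.map φ, ?_⟩
    rw [eval₂_map]
    exact hr
  obtain ⟨y, hy⟩ := IsIntegrallyClosed.isIntegral_iff.1 h1
  rw [← hy]
  exact y.2

/-- the inclusion of `FldBh F h` in a place -/
private noncomputable def Fld_inc {h : K} {O : ValuationSubring K} (hO : FldPl F O) (hh : h ∈ O) :
    FldBh F h →+* O where
  toFun b := ⟨b, Fld_bh_le hO hh b⟩
  map_one' := rfl
  map_mul' _ _ := rfl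
  map_zero' := rfl
  map_add' _ _ := rfl

omit [CharZero K] in
private theorem Fld_quot {h : K}
    (hK : FiniteDimensional (IntermediateField.adjoin F {h}) K) (x : K) :
    ∃ a b : FldBh F h, (b : K) ≠ 0 ∧ x = (a : K) / (b : K) := by
  have := Fld_frac F hK
  obtain ⟨a, b, hb, hx⟩ := IsFractionRing.div_surjective (A := FldBh F h) x
  refine ⟨a, b, ?_, hx.symm⟩
  have h1 : b ≠ 0 := nonZeroDivisors.ne_zero hb
  intro h2
  exact h1 (Subtype.ext h2)

private theorem Fld_exists_center {h : K}
    (hK : FiniteDimensional (IntermediateField.adjoin F {h}) K) {O : ValuationSubring K}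
    (hO : FldPl F O) (hhO : h ∈ O) : ∃ P : Ideal (FldBh F h), P.IsPrime ∧ P ≠ ⊥ ∧
      ∀ b : FldBh F h, O.valuation (b : K) < 1 ↔ b ∈ P := by
  have key : ∀ b : FldBh F h, O.valuation (b : K) < 1 ↔
      b ∈ (IsLocalRing.maximalIdeal O).comap (Fld_inc hO hhO) := by
    intro b
    rw [Ideal.mem_comap]
    exact (O.valuation_lt_one_iff (Fld_inc hO hhO b)).symm
  refine ⟨(IsLocalRing.maximalIdeal O).comap (Fld_inc hO hhO), Ideal.comap_isPrime _ _, ?_, key⟩
  intro hbot
  have h1 : ∀ x : K, x ∈ O := by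
    intro x
    obtain ⟨a, b, hb, rfl⟩ := Fld_quot hK x
    rw [← O.valuation_le_one_iff, map_div₀]
    have h2 : ¬ O.valuation (b : K) < 1 := by
      intro h3
      have h4 := (key b).1 h3
      rw [hbot, Ideal.mem_bot] at h4
      exact hb (by rw [h4]; rfl)
    have h3 : O.valuation (b : K) = 1 :=
      le_antisymm ((O.valuation_le_one_iff _).2 (Fld_bh_le hO hhO b)) (not_lt.1 h2)
    rw [h3, div_one]
    exact (O.valuation_le_one_iff _).2 (Fld_bh_le hO hhO a)
  have hdvr := hO.1.1
  refine IsDiscreteValuationRing.not_isField O ⟨⟨0, 1, zero_ne_one⟩, mul_comm, ?_⟩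
  intro a ha
  refine ⟨⟨(a : K)⁻¹, h1 _⟩, Subtype.ext ?_⟩
  exact mul_inv_cancel₀ fun h2 => ha (Subtype.ext h2)

private theorem Fld_tot (R : Type) [CommRing R] [IsDomain R] [IsDiscreteValuationRing R]
    (a b : R) : a ∣ b ∨ b ∣ a := ValuationRing.dvd_total a b

private theorem Fld_dvd {h : K}
    (hK : FiniteDimensional (IntermediateField.adjoin F {h}) K) {P : Ideal (FldBh F h)}
    (hP : P.IsPrime) (hP0 : P ≠ ⊥) (a b : FldBh F h) :
    ∃ c s : FldBh F h, s ∉ P ∧ (s * b = a * c ∨ s * a = b * c) := by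
  have := Fld_dedekind F hK
  have hdom : IsDomain (Localization.AtPrime P) :=
    IsLocalization.isDomain_localization P.primeCompl_le_nonZeroDivisors
  have hd : IsDiscreteValuationRing (Localization.AtPrime P) :=
    IsLocalization.AtPrime.isDiscreteValuationRing_of_dedekind_domain (FldBh F h) hP0
      (Localization.AtPrime P)
  have key : ∀ a b : FldBh F h, algebraMap (FldBh F h) (Localization.AtPrime P) a ∣
      algebraMap (FldBh F h) (Localization.AtPrime P) b → ∃ c s : FldBh F h, s ∉ P ∧ s * b = a * c := by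
    rintro a b ⟨z, hz⟩
    obtain ⟨c, s, rfl⟩ := IsLocalization.exists_mk'_eq P.primeCompl z
    refine ⟨c, s, s.2, ?_⟩
    have hinj := IsLocalization.injective (Localization.AtPrime P) P.primeCompl_le_nonZeroDivisors
    apply hinj
    rw [map_mul, map_mul, hz, mul_left_comm, IsLocalization.mk'_spec']
  rcases Fld_tot (Localization.AtPrime P) (algebraMap (FldBh F h) (Localization.AtPrime P) a)
    (algebraMap (FldBh F h) (Localization.AtPrime P) b) with h1 | h1
  · obtain ⟨c, s, hs, h2⟩ := key a b h1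
    exact ⟨c, s, hs, Or.inl h2⟩
  · obtain ⟨c, s, hs, h2⟩ := key b a h1
    exact ⟨c, s, hs, Or.inr h2⟩

/-- every element of `K` is `c / s` or `s / c` with `s ∉ P` -/
private theorem Fld_fracP {h : K}
    (hK : FiniteDimensional (IntermediateField.adjoin F {h}) K) {P : Ideal (FldBh F h)}
    (hP : P.IsPrime) (hP0 : P ≠ ⊥) (x : K) (hx : x ≠ 0) :
    ∃ c s : FldBh F h, s ∉ P ∧ (c : K) ≠ 0 ∧ (x = (c : K) / (s : K) ∨ x = (s : K) / (c : K)) := by
  obtain ⟨a, b, hb, rfl⟩ := Fld_quot hK x
  have ha : (a : K) ≠ 0 := by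
    intro h1
    exact hx (by rw [h1, zero_div])
  obtain ⟨c, s, hs, h1 | h1⟩ := Fld_dvd hK hP hP0 a b
  · have h2 : (s : K) * b = a * c := congrArg (fun t : FldBh F h => (t : K)) h1
    have hs0 : (s : K) ≠ 0 := by
      intro h3
      have h4 : s = 0 := Subtype.ext h3
      exact hs (h4 ▸ P.zero_mem)
    have hc : (c : K) ≠ 0 := by
      intro h3
      rw [h3, mul_zero] at h2
      exact (mul_ne_zero hs0 hb) h2
    refine ⟨c, s, hs, hc, Or.inr ?_⟩
    rw [div_eq_div_iff hb hc]
    exact h2.symm
  · have h2 : (s : K) * a = b * c := congrArg (fun t : FldBh F h => (t : K)) h1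
    have hs0 : (s : K) ≠ 0 := by
      intro h3
      have h4 : s = 0 := Subtype.ext h3
      exact hs (h4 ▸ P.zero_mem)
    have hc : (c : K) ≠ 0 := by
      intro h3
      rw [h3, mul_zero] at h2
      exact (mul_ne_zero hs0 ha) h2
    refine ⟨c, s, hs, hc, Or.inl ?_⟩
    rw [div_eq_div_iff hb hs0]
    linear_combination h2

private theorem Fld_sub {h : K}
    (hK : FiniteDimensional (IntermediateField.adjoin F {h}) K) {O O' : ValuationSubring K}
    (hO : FldPl F O) (hO' : FldPl F O') (h1 : h ∈ O) (h2 : h ∈ O')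
    (H : ∀ b : FldBh F h, O.valuation (b : K) < 1 ↔ O'.valuation (b : K) < 1) : O ≤ O' := by
  obtain ⟨P, hP, hP0, hPv⟩ := Fld_exists_center hK hO h1
  intro x hx
  by_cases hx0 : x = 0
  · rw [hx0]
    exact zero_mem O'
  obtain ⟨c, s, hs, hc, h3⟩ := Fld_fracP hK hP hP0 x hx0
  have v1 : ∀ t : FldBh F h, t ∉ P → O.valuation (t : K) = 1 := fun t ht =>
    le_antisymm ((O.valuation_le_one_iff _).2 (Fld_bh_le hO h1 t))
      (not_lt.1 fun h4 => ht ((hPv t).1 h4))
  have v2 : ∀ t : FldBh F h, t ∉ P → O'.valuation (t : K) = 1 := fun t ht =>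
    le_antisymm ((O'.valuation_le_one_iff _).2 (Fld_bh_le hO' h2 t))
      (not_lt.1 fun h4 => ht ((hPv t).1 ((H t).2 h4)))
  have hc1 : O.valuation (c : K) ≤ 1 := (O.valuation_le_one_iff _).2 (Fld_bh_le hO h1 c)
  rcases h3 with rfl | rfl
  · rw [← O'.valuation_le_one_iff, map_div₀, v2 s hs, div_one]
    exact (O'.valuation_le_one_iff _).2 (Fld_bh_le hO' h2 c)
  · by_cases hcP : c ∈ P
    · exfalso
      have h4 := (hPv c).2 hcP
      have h5 := (O.valuation_le_one_iff _).2 hx
      rw [map_div₀, v1 s hs] at h5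
      have h6 : (0 : _) < O.valuation (c : K) := by
        rw [zero_lt_iff]
        exact (Valuation.ne_zero_iff _).2 hc
      rw [div_le_one₀ h6] at h5
      exact absurd h4 (not_lt.2 h5)
    · rw [← O'.valuation_le_one_iff, map_div₀, v2 s hs, v2 c hcP, div_one]

private theorem Fld_unique {h : K}
    (hK : FiniteDimensional (IntermediateField.adjoin F {h}) K) {O O' : ValuationSubring K}
    (hO : FldPl F O) (hO' : FldPl F O') (h1 : h ∈ O) (h2 : h ∈ O')
    (H : ∀ b : FldBh F h, O.valuation (b : K) < 1 ↔ O'.valuation (b : K) < 1) : O = O' :=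
  le_antisymm (Fld_sub hK hO hO' h1 h2 H) (Fld_sub hK hO' hO h2 h1 fun b => (H b).symm)

variable (F)

/-- `h` as an element of `F[h]` -/
private noncomputable def FldA (h : K) : FldAh F h := ⟨h, Algebra.self_mem_adjoin_singleton F h⟩

/-- `h` as an element of the integral closure -/
private noncomputable def FldB (h : K) : FldBh F h := algebraMap (FldAh F h) (FldBh F h) (FldA F h)

omit [CharZero F] [CharZero K] in
private theorem FldB_val (h : K) : ((FldB F h : FldBh F h) : K) = h := rfl

omit [CharZero F] [CharZero K] in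
private theorem FldB_ne {h : K} (hh : Transcendental F h) : FldB F h ≠ 0 := by
  intro e
  apply hh
  have e' : ((FldB F h : FldBh F h) : K) = 0 := by rw [e]; rfl
  rw [FldB_val] at e'
  rw [e']
  exact isAlgebraic_zero

omit [CharZero K] in
private theorem Fld_mem_of_lt {O : ValuationSubring K} {x : K} (hx : O.valuation x < 1) : x ∈ O :=
  (O.valuation_le_one_iff x).1 hx.le

open Classical in
private theorem Fld_finite {h : K} (hh : Transcendental F h)
    (hK : FiniteDimensional (IntermediateField.adjoin F {h}) K) :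
    {O : ValuationSubring K | FldPl F O ∧ O.valuation h < 1}.Finite := by
  have := Fld_dedekind F hK
  have hex : ∀ O : ValuationSubring K, FldPl F O ∧ O.valuation h < 1 →
      ∃ P : Ideal (FldBh F h), P.IsPrime ∧ P ≠ ⊥ ∧
        ∀ b : FldBh F h, O.valuation (b : K) < 1 ↔ b ∈ P := fun O hO =>
    Fld_exists_center hK hO.1 (Fld_mem_of_lt hO.2)
  set Φ : ValuationSubring K → Ideal (FldBh F h) := fun O =>
    if hO : FldPl F O ∧ O.valuation h < 1 then (hex O hO).choose else ⊥ with hΦ
  have hΦs : ∀ O, FldPl F O ∧ O.valuation h < 1 → (Φ O).IsPrime ∧ Φ O ≠ ⊥ ∧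
      ∀ b : FldBh F h, O.valuation (b : K) < 1 ↔ b ∈ Φ O := by
    intro O hO
    simp only [hΦ, dif_pos hO]
    exact (hex O hO).choose_spec
  have hfin : {v : IsDedekindDomain.HeightOneSpectrum (FldBh F h) |
      v.asIdeal ∣ Ideal.span {FldB F h}}.Finite := by
    apply Ideal.finite_factors
    rw [Ne, Ideal.zero_eq_bot, Ideal.span_singleton_eq_bot]
    exact FldB_ne F hh
  refine Set.Finite.of_finite_image (f := Φ) ((hfin.image fun v => v.asIdeal).subset ?_) ?_
  · rintro _ ⟨O, hO, rfl⟩
    obtain ⟨h1, h2, h3⟩ := hΦs O hO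
    refine ⟨⟨Φ O, h1, h2⟩, ?_, rfl⟩
    change Φ O ∣ Ideal.span {FldB F h}
    rw [Ideal.dvd_span_singleton, ← h3]
    rw [FldB_val]
    exact hO.2
  · intro O hO O' hO' e
    obtain ⟨-, -, h3⟩ := hΦs O hO
    obtain ⟨-, -, h3'⟩ := hΦs O' hO'
    refine Fld_unique hK hO.1 hO'.1 (Fld_mem_of_lt hO.2) (Fld_mem_of_lt hO'.2) fun b => ?_
    rw [h3, h3', e]

omit [CharZero F] [CharZero K] in
private theorem Fld_not_unit {h : K} (hh : Transcendental F h) : ¬ IsUnit (FldB F h) := by
  intro hu
  have hi : Function.Injective (algebraMap (FldAh F h) (FldBh F h)) := by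
    intro a b e
    have e' : ((algebraMap (FldAh F h) (FldBh F h) a : FldBh F h) : K) =
        ((algebraMap (FldAh F h) (FldBh F h) b : FldBh F h) : K) := by rw [e]
    exact Subtype.ext e'
  have : IsLocalHom (algebraMap (FldAh F h) (FldBh F h)) :=
    (algebraMap_isIntegral_iff.2 inferInstance).isLocalHom hi
  have hA : IsUnit (FldA F h) := isUnit_of_map_unit (algebraMap (FldAh F h) (FldBh F h)) _ hu
  obtain ⟨u, hu⟩ := isUnit_iff_exists_inv.1 hA
  have hu' : h * (u : K) = 1 := congrArg Subtype.val hu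
  have hu2 : (u : K) ∈ (aeval h : F[X] →ₐ[F] K).range := by
    rw [← Algebra.adjoin_singleton_eq_range_aeval]
    exact u.2
  obtain ⟨p, hp⟩ := hu2
  apply hh
  refine ⟨X * p - 1, ?_, ?_⟩
  · intro e
    have := congrArg (Polynomial.eval 0) e
    simp at this
  · have hp' : aeval h p = (u : K) := hp
    rw [map_sub, map_mul, aeval_X, hp', hu', map_one, sub_self]

private theorem Fld_zero {h : K} (hh : Transcendental F h)
    (hK : FiniteDimensional (IntermediateField.adjoin F {h}) K) :
    ∃ O : ValuationSubring K, FldPl F O ∧ O.valuation h < 1 := by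
  obtain ⟨P, hP, hPh⟩ := exists_max_ideal_of_mem_nonunits (Fld_not_unit F hh)
  have hP0 : P ≠ ⊥ := by
    rintro rfl
    exact FldB_ne F hh ((Submodule.mem_bot _).1 hPh)
  obtain ⟨O, hO, hb⟩ := Fld_exists_place F hK P hP.isPrime hP0
  exact ⟨O, hO, ((hb (FldB F h)).2).2 hPh⟩

end general

theorem fld_zero {K : Type} [Field K] [CharZero K] (F : IntermediateField ℚ K) {h : K}
    (hh : Transcendental F h) (hK : FiniteDimensional (IntermediateField.adjoin F {h}) K) :
    ∃ O : ValuationSubring K, IsPl O ∧ (∀ y ∈ F, y ∈ O) ∧ O.valuation h < 1 := by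
  obtain ⟨O, hO, hv⟩ := Fld_zero F hh hK
  exact ⟨O, hO.1, fun y hy => hO.2 ⟨y, hy⟩, hv⟩

theorem fld_fin {K : Type} [Field K] [CharZero K] (F : IntermediateField ℚ K) {h : K}
    (hh : Transcendental F h) (hK : FiniteDimensional (IntermediateField.adjoin F {h}) K) :
    {O : ValuationSubring K | IsPl O ∧ (∀ y ∈ F, y ∈ O) ∧ O.valuation h < 1}.Finite := by
  refine (Fld_finite F hh hK).subset ?_
  rintro O ⟨hO, hF, hv⟩
  exact ⟨⟨hO, fun y => hF y y.2⟩, hv⟩

end Pool.Agent.EVF
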