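import Pool.Agent.EVF.Defs
import Pool.Agent.CSG.Chk

/-!
# Points over roots of unity

Hilbert irreducibility at the points `ζ ^ c`: the polynomial `F(X ^ c, W)`, obtained by the
substitution `X i = X ^ c i`, is monic, its coefficients are algebraic integers of `k₀`, and it satisfies
`GeoC`; so `CSG.chiK` applies.
-/

open scoped BigOperators Polynomial LaurentPolynomial
open Polynomial

namespace Pool.Agent.EVF

open Pool.Agent.CST Pool.Agent.CSG

/-- the substitution `X i = X ^ c i` -/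
private noncomputable def gc_phi {r : ℕ} (c : Fin r → ℕ) : MvPolynomial (Fin r) ℂ →+* ℂ[X] :=
  (MvPolynomial.aeval fun i => (X : ℂ[X]) ^ c i).toRingHom

private theorem gc_phi_coeff {r : ℕ} (c : Fin r → ℕ) (p : MvPolynomial (Fin r) ℂ) (j : ℕ) :
    (gc_phi c p).coeff j = ∑ m ∈ p.support, p.coeff m * (if j = ∑ i, c i * m i then 1 else 0) := by
  have h1 : gc_phi c p = ∑ m ∈ p.support, C (p.coeff m) * X ^ (∑ i, c i * m i) := by
    show MvPolynomial.aeval (fun i => (X : ℂ[X]) ^ c i) p = _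
    rw [MvPolynomial.aeval_def, MvPolynomial.eval₂_eq']
    refine Finset.sum_congr rfl fun m _ => ?_
    rw [← Finset.prod_pow_eq_pow_sum]
    refine congrArg₂ (· * ·) rfl (Finset.prod_congr rfl fun i _ => ?_)
    rw [← pow_mul]
  rw [h1, finsetSum_coeff]
  refine Finset.sum_congr rfl fun m _ => ?_
  rw [coeff_C_mul, coeff_X_pow]

private theorem gc_int {r : ℕ} {k₀ : IntermediateField ℚ ℂ} (c : Fin r → ℕ)
    (p : MvPolynomial (Fin r) ℂ) (hp : ∀ m, p.coeff m ∈ k₀ ∧ IsIntegral ℤ (p.coeff m)) (j : ℕ) :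
    (gc_phi c p).coeff j ∈ k₀ ∧ IsIntegral ℤ ((gc_phi c p).coeff j) := by
  rw [gc_phi_coeff]
  constructor
  · refine sum_mem fun m _ => mul_mem (hp m).1 ?_
    split_ifs
    · exact one_mem _
    · exact zero_mem _
  · refine IsIntegral.sum _ fun m _ => (hp m).2.mul ?_
    split_ifs
    · exact isIntegral_one
    · exact isIntegral_zero

private theorem gc_tsub {r : ℕ} (c : Fin r → ℕ) (a : ℕ) :
    (tsubC a).comp (gc_phi c) = subT (fun _ => 1) fun i => (a : ℤ) * c i := by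
  refine MvPolynomial.ringHom_ext (fun z => ?_) fun i => ?_
  · simp [gc_phi, tsubC, subT, LaurentPolynomial.algebraMap_apply]
  · simp only [gc_phi, tsubC, subT, RingHom.comp_apply, AlgHom.toRingHom_eq_coe,
      RingHom.coe_coe, MvPolynomial.aeval_X, coe_eval₂RingHom, eval₂_X_pow, map_one, one_mul]
    rw [LaurentPolynomial.T_pow]
    exact congrArg LaurentPolynomial.T (mul_comm _ _)

private theorem gc_cev {r : ℕ} (c : Fin r → ℕ) (ζ : ℂ) :
    (cev ζ).comp (gc_phi c) =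
      (MvPolynomial.aeval fun i => ζ ^ c i : MvPolynomial (Fin r) ℂ →ₐ[ℂ] ℂ).toRingHom := by
  refine MvPolynomial.ringHom_ext (fun z => ?_) fun i => ?_
  · simp [gc_phi, cev]
  · simp [gc_phi, cev]

theorem chi_point {r : ℕ} {k₀ : IntermediateField ℚ ℂ} (hk : FiniteDimensional ℚ k₀)
    {F : (MvPolynomial (Fin r) ℂ)[X]} (hF : F.Monic) (hI : IntM k₀ F) {c : Fin r → ℕ}
    (ht : ∀ a : ℕ, 0 < a → ∀ ξ : Fin r → ℂ, RU ξ → ∀ G H : (ℂ[T;T⁻¹])[X], G.Monic → H.Monic →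
      F.map (subT ξ fun i => (a : ℤ) * c i) = G * H → G.natDegree = 0 ∨ H.natDegree = 0) :
    ∃ n₀ : ℕ, ∀ n, n₀ ≤ n → ∀ ζ : ℂ, IsPrimitiveRoot ζ n → ∀ G H : ℂ[X], G.Monic → H.Monic →
      F.map (MvPolynomial.aeval fun i => ζ ^ c i : MvPolynomial (Fin r) ℂ →ₐ[ℂ] ℂ).toRingHom =
        G * H → (∀ i, G.coeff i ∈ Ka k₀ ζ) → (∀ i, H.coeff i ∈ Ka k₀ ζ) →
      G.natDegree = 0 ∨ H.natDegree = 0 := by
  have hI' : IntIn k₀ (F.map (gc_phi c)) := by
    intro i j
    rw [coeff_map]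
    exact gc_int c _ (fun m => hI i m) j
  have hgeo : GeoC (F.map (gc_phi c)) := by
    intro a ha G H hG hH _ _ hfac
    refine ht a ha (fun _ => 1) ⟨1, one_pos, fun i => by simp⟩ G H hG hH ?_
    rw [← gc_tsub, ← hfac, Polynomial.map_map]
  obtain ⟨n₀, hn₀⟩ := chiK k₀ hk (F.map (gc_phi c)) (hF.map _) hI' hgeo
  refine ⟨n₀, fun n hn ζ hζ G H hG hH hfac hGc hHc => ?_⟩
  refine hn₀ n hn ζ hζ G H hG hH ?_ hGc hHc
  rw [Polynomial.map_map, gc_cev]
  exact hfac

end Pool.Agent.EVF
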