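import Pool.Agent.EVF.LoR
import Pool.Agent.EVF.Dgr

/-!
# `GeoM` for the model

`exists_lowR` and `degree_countR` in the algebraic closure of `K`.
-/

open scoped BigOperators Polynomial
open Polynomial

namespace Pool.Agent.EVF

open Pool.Agent.CST Pool.Agent.CSG Pool.Agent.Helper11 Pool.Agent.ISI

theorem geoM_of_md {k K : Type} [Field k] [CharZero k] [Field K] [CharZero K] [Algebra k K]
    (hk : Algebra.IsAlgebraic ℚ k) (hc : CstK k K) (j : k →+* ℂ) {r : ℕ} {x : Fin r → Kˣ} {θ : K}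
    {f : (MvPolynomial (Fin r) k)[X]} (hm : Md x θ f) (hp : NpM k x) :
    GeoM (f.map (MvPolynomial.map j)) := by
  by_contra hf
  obtain ⟨D, γ, α, hD, hγ, hα, hn, hξ, G, hG, hlt, hG', h0⟩ :=
    exists_lowR (L := AlgebraicClosure K) hk j hm hf
  exact degree_countR hc hm hp hD hγ hα hn hξ hG hlt hG' h0

end Pool.Agent.EVF
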