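import Pool.Agent.EVF.Defs

/-!
# Generic integer vectors

`gen_points`: `r` vectors of the form `(1, N, N ^ 2, …)` which are orthogonal to no vector of a given
finite set, and such that no nonzero vector is orthogonal to all of them. `gen_perp`: for almost all
primitive vectors `a` there is a vector orthogonal to `a`, but to no vector of a given finite set.
-/

open scoped BigOperators Polynomial LaurentPolynomial
open Polynomial

namespace Pool.Agent.EVF

private noncomputable def genP {n : ℕ} (a : Fin n → ℤ) : ℤ[X] := ∑ i : Fin n, C (a i) * X ^ (i : ℕ)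

private theorem genP_coeff {n : ℕ} (a : Fin n → ℤ) (i : Fin n) : (genP a).coeff (i : ℕ) = a i := by
  unfold genP
  rw [finsetSum_coeff, Finset.sum_eq_single i]
  · rw [coeff_C_mul, coeff_X_pow, if_pos rfl, mul_one]
  · intro j _ hj
    rw [coeff_C_mul, coeff_X_pow, if_neg, mul_zero]
    intro h
    exact hj (Fin.ext h.symm)
  · intro h
    exact absurd (Finset.mem_univ i) h

private theorem genP_ne {n : ℕ} {a : Fin n → ℤ} (ha : a ≠ 0) : genP a ≠ 0 := by
  intro h
  apply ha
  funext i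
  rw [← genP_coeff a i, h, coeff_zero, Pi.zero_apply]

private theorem genP_eval {n : ℕ} (a : Fin n → ℤ) (N : ℕ) :
    (genP a).eval (N : ℤ) = dt a (fun i => ((N ^ (i : ℕ) : ℕ) : ℤ)) := by
  unfold genP dt
  rw [eval_finsetSum]
  refine Finset.sum_congr rfl fun i _ => ?_
  simp

private theorem gen_bad {n : ℕ} (W : Finset (Fin n → ℤ)) (hW : ∀ w ∈ W, w ≠ 0) :
    {N : ℕ | ∃ w ∈ W, (genP w).eval (N : ℤ) = 0}.Finite := by
  have h1 : {N : ℕ | ∃ w ∈ W, (genP w).eval (N : ℤ) = 0} =
      ⋃ w ∈ W, {N : ℕ | (genP w).eval (N : ℤ) = 0} := by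
    ext N
    simp
  rw [h1]
  refine Set.Finite.biUnion W.finite_toSet fun w hw => ?_
  have h2 : {x : ℤ | IsRoot (genP w) x}.Finite := finite_setOfPred_isRoot (genP_ne (hW w hw))
  exact h2.preimage (Nat.cast_injective.injOn)

private theorem gen_inf {n : ℕ} (W : Finset (Fin n → ℤ)) (hW : ∀ w ∈ W, w ≠ 0) :
    ∃ f : ℕ → ℕ, Function.Injective f ∧
      ∀ l, ∀ w ∈ W, dt w (fun i => ((f l ^ (i : ℕ) : ℕ) : ℤ)) ≠ 0 := by
  have h1 : {N : ℕ | ∃ w ∈ W, (genP w).eval (N : ℤ) = 0}ᶜ.Infinite := (gen_bad W hW).infinite_compl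
  have : Infinite ({N : ℕ | ∃ w ∈ W, (genP w).eval (N : ℤ) = 0}ᶜ : Set ℕ) := h1.to_subtype
  refine ⟨fun l => (Infinite.natEmbedding
    ({N : ℕ | ∃ w ∈ W, (genP w).eval (N : ℤ) = 0}ᶜ : Set ℕ) l : ℕ), ?_, ?_⟩
  · intro l l' h
    exact (Infinite.natEmbedding _).injective (Subtype.ext h)
  · intro l w hw h
    have h2 := (Infinite.natEmbedding
      ({N : ℕ | ∃ w ∈ W, (genP w).eval (N : ℤ) = 0}ᶜ : Set ℕ) l).2
    apply h2
    exact ⟨w, hw, by rw [genP_eval]; exact h⟩

theorem gen_points {r : ℕ} (V : Finset (Fin r → ℤ)) (hV : ∀ v ∈ V, v ≠ 0) :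
    ∃ c : Fin r → (Fin r → ℕ), (∀ j, ∀ v ∈ V, dt v (fun i => (c j i : ℤ)) ≠ 0) ∧
      ∀ a : Fin r → ℤ, a ≠ 0 → ∃ j, dt a (fun i => (c j i : ℤ)) ≠ 0 := by
  obtain ⟨f, hf, hfV⟩ := gen_inf V hV
  refine ⟨fun j i => f (j : ℕ) ^ (i : ℕ), fun j v hv => hfV j v hv, fun a ha => ?_⟩
  by_contra h
  push Not at h
  have hr : 0 < r := by
    rcases Nat.eq_zero_or_pos r with h0 | h0
    · subst h0
      exact absurd (Subsingleton.elim a 0) ha
    · exact h0
  apply genP_ne ha
  refine eq_zero_of_natDegree_lt_card_of_eval_eq_zero (genP a)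
    (f := fun j : Fin r => ((f (j : ℕ) : ℕ) : ℤ)) ?_ ?_ ?_
  · intro j j' hj
    have hj' : ((f (j : ℕ) : ℕ) : ℤ) = ((f (j' : ℕ) : ℕ) : ℤ) := hj
    exact Fin.ext (hf (by exact_mod_cast hj'))
  · intro j
    rw [genP_eval]
    exact h j
  · rw [Fintype.card_fin]
    exact (natDegree_lt_iff_degree_lt (genP_ne ha)).2 (degree_sum_fin_lt a)

private theorem gen_prop {r : ℕ} {a b v : Fin r → ℤ} (hab : dt a b = 1) (hv : v ≠ 0)
    (h : ∀ i j, a j * v i = a i * v j) (i : Fin r) : |a i| ≤ |v i| := by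
  have h1 : ∀ i, v i = dt v b * a i := by
    intro i
    calc v i = dt a b * v i := by rw [hab, one_mul]
      _ = ∑ j, a i * (v j * b j) := by
          unfold dt
          rw [Finset.sum_mul]
          refine Finset.sum_congr rfl fun j _ => ?_
          linear_combination b j * h i j
      _ = dt v b * a i := by
          unfold dt
          rw [← Finset.mul_sum, mul_comm]
  have h2 : dt v b ≠ 0 := by
    intro h0
    apply hv
    funext i
    rw [h1 i, h0, zero_mul, Pi.zero_apply]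
  rw [h1 i, abs_mul]
  have h3 : 1 ≤ |dt v b| := Int.one_le_abs h2
  nlinarith [abs_nonneg (a i)]

theorem gen_perp {r : ℕ} (V : Finset (Fin r → ℤ)) (hV : ∀ v ∈ V, v ≠ 0) (hne : V.Nonempty) :
    ∃ A : Finset (Fin r → ℤ), ∀ a b : Fin r → ℤ, dt a b = 1 → a ∉ A →
      ∃ c : Fin r → ℤ, dt a c = 0 ∧ ∀ v ∈ V, dt v c ≠ 0 := by
  classical
  refine ⟨V.biUnion fun v => Fintype.piFinset fun i => Finset.Icc (-|v i|) |v i|, ?_⟩
  intro a b hab haA
  let w : (Fin r → ℤ) → (Fin (r * r) → ℤ) := fun v m =>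
    a (finProdFinEquiv.symm m).2 * v (finProdFinEquiv.symm m).1 -
      a (finProdFinEquiv.symm m).1 * v (finProdFinEquiv.symm m).2
  have hw : ∀ u ∈ V.image w, u ≠ 0 := by
    intro u hu
    obtain ⟨v, hv, rfl⟩ := Finset.mem_image.1 hu
    intro h0
    apply haA
    rw [Finset.mem_biUnion]
    refine ⟨v, hv, ?_⟩
    rw [Fintype.mem_piFinset]
    intro i
    rw [Finset.mem_Icc, ← abs_le]
    refine gen_prop hab (hV v hv) (fun i j => ?_) i
    have h1 := congrFun h0 (finProdFinEquiv (i, j))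
    simp only [w, Equiv.symm_apply_apply, Pi.zero_apply] at h1
    linarith
  obtain ⟨f, -, hf⟩ := gen_inf (V.image w) hw
  let N : ℕ := f 0
  let c : Fin r → ℤ := fun l => ∑ m : Fin (r * r), ((N ^ (m : ℕ) : ℕ) : ℤ) *
    (a (finProdFinEquiv.symm m).2 * (if (finProdFinEquiv.symm m).1 = l then 1 else 0) -
      a (finProdFinEquiv.symm m).1 * (if (finProdFinEquiv.symm m).2 = l then 1 else 0))
  have hc : ∀ v : Fin r → ℤ, dt v c = dt (w v) (fun i => ((N ^ (i : ℕ) : ℕ) : ℤ)) := by
    intro v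
    unfold dt
    simp only [c, w, Finset.mul_sum]
    rw [Finset.sum_comm]
    refine Finset.sum_congr rfl fun m _ => ?_
    have h1 : ∀ s : Fin r, ∑ l, v l * (if s = l then 1 else 0) = v s := by
      intro s
      rw [Finset.sum_eq_single s]
      · rw [if_pos rfl, mul_one]
      · intro l _ hl
        rw [if_neg (fun h => hl h.symm), mul_zero]
      · intro h
        exact absurd (Finset.mem_univ s) h
    calc ∑ l, v l * (((N ^ (m : ℕ) : ℕ) : ℤ) *
          (a (finProdFinEquiv.symm m).2 * (if (finProdFinEquiv.symm m).1 = l then 1 else 0) -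
            a (finProdFinEquiv.symm m).1 * (if (finProdFinEquiv.symm m).2 = l then 1 else 0)))
        = ((N ^ (m : ℕ) : ℕ) : ℤ) * (a (finProdFinEquiv.symm m).2 *
            (∑ l, v l * (if (finProdFinEquiv.symm m).1 = l then 1 else 0)) -
            a (finProdFinEquiv.symm m).1 *
            (∑ l, v l * (if (finProdFinEquiv.symm m).2 = l then 1 else 0))) := by
          rw [Finset.mul_sum, Finset.mul_sum, ← Finset.sum_sub_distrib, Finset.mul_sum]
          refine Finset.sum_congr rfl fun l _ => ?_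
          ring
      _ = _ := by
          rw [h1, h1]
          ring
  refine ⟨c, ?_, fun v hv => ?_⟩
  · rw [hc]
    unfold dt
    refine Finset.sum_eq_zero fun m _ => ?_
    simp only [w]
    ring
  · rw [hc]
    exact hf 0 (w v) (Finset.mem_image_of_mem w hv)

end Pool.Agent.EVF
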