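import Pool.Agent.EVF.Tor
import Pool.Agent.EVF.Gc
import Pool.Agent.EVF.Gen

/-!
# The main theorem of the complex side

For all but finitely many pairs of an exponent vector `a` and an order `n` the coset `x ^ a = z` contains a point or a curve over
which `F` does not factorise: a point `ζ ^ c` (if `n` is large) or a torsion coset of dimension one in general position.
-/

open scoped BigOperators Polynomial LaurentPolynomial
open Polynomial

namespace Pool.Agent.EVF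

open Pool.Agent.CST Pool.Agent.CSG

private theorem goo_root {z : ℂ} {n : ℕ} (hn : 0 < n) (hz : IsPrimitiveRoot z n) {s : ℤ}
    (hs : s ≠ 0) : ∃ (ζ : ℂ) (N : ℕ), ζ ^ s = z ∧ IsPrimitiveRoot ζ N ∧ 0 < N ∧ n ≤ N := by
  obtain ⟨w, hw⟩ := IsAlgClosed.exists_pow_nat_eq z (Int.natAbs_pos.2 hs)
  obtain ⟨ζ, hζ⟩ : ∃ ζ : ℂ, ζ ^ s = z := by
    rcases Int.natAbs_eq s with h | h
    · exact ⟨w, by rw [h, zpow_natCast]; exact hw⟩
    · exact ⟨w⁻¹, by rw [h, zpow_neg, inv_zpow, inv_inv, zpow_natCast]; exact hw⟩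
  have h1 : ζ ^ (s.natAbs * n) = 1 := by
    have h2 : (ζ ^ s) ^ n = 1 := by rw [hζ, hz.pow_eq_one]
    rcases Int.natAbs_eq s with h | h
    · rw [h, zpow_natCast, ← pow_mul] at h2
      exact h2
    · rw [h, zpow_neg, zpow_natCast, inv_pow, ← pow_mul, inv_eq_one] at h2
      exact h2
  have hpos : 0 < s.natAbs * n := Nat.mul_pos (Int.natAbs_pos.2 hs) hn
  have hfin : IsOfFinOrder ζ := isOfFinOrder_iff_pow_eq_one.2 ⟨_, hpos, h1⟩
  have hN : 0 < orderOf ζ := hfin.orderOf_pos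
  have hzN : z ^ orderOf ζ = 1 := by
    rw [← hζ, ← zpow_natCast, ← zpow_mul, mul_comm, zpow_mul, zpow_natCast, pow_orderOf_eq_one,
      one_zpow]
  exact ⟨ζ, orderOf ζ, hζ, IsPrimitiveRoot.orderOf ζ, hN,
    Nat.le_of_dvd hN (hz.dvd_of_pow_eq_one _ hzN)⟩

private theorem goo_sum {ι : Type*} {z : ℂ} (hz : z ≠ 0) (s : Finset ι) (f : ι → ℤ) :
    ∏ i ∈ s, z ^ f i = z ^ ∑ i ∈ s, f i := by
  classical
  induction s using Finset.induction_on with
  | empty => rw [Finset.prod_empty, Finset.sum_empty, zpow_zero]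
  | insert i t hi ih => rw [Finset.prod_insert hi, Finset.sum_insert hi, zpow_add₀ hz, ih]

private theorem goo_prod {r : ℕ} {z : ℂ} (hz : z ≠ 0) (a b : Fin r → ℤ) :
    ∏ i, (z ^ b i) ^ a i = z ^ dt a b := by
  unfold dt
  rw [← goo_sum hz]
  refine Finset.prod_congr rfl fun i _ => ?_
  rw [← zpow_mul, mul_comm]

/-- the evaluation at `T = 1` -/
private noncomputable def gooEv : ℂ[T;T⁻¹] →+* ℂ := LaurentPolynomial.eval₂ (RingHom.id ℂ) 1

private theorem gooEv_C (q : ℂ) : gooEv (LaurentPolynomial.C q) = q := by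
  unfold gooEv
  rw [LaurentPolynomial.eval₂_C, RingHom.id_apply]

private theorem gooEv_T (n : ℤ) : gooEv (LaurentPolynomial.T n) = 1 := by
  unfold gooEv
  rw [LaurentPolynomial.eval₂_T, one_zpow, Units.val_one]

private theorem goo_comp {r : ℕ} (ζ : ℂ) (c : Fin r → ℕ) :
    gooEv.comp (subT (fun i => ζ ^ c i) 0) =
      (MvPolynomial.aeval fun i => ζ ^ c i : MvPolynomial (Fin r) ℂ →ₐ[ℂ] ℂ).toRingHom := by
  refine MvPolynomial.ringHom_ext (fun q => ?_) (fun i => ?_)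
  · rw [RingHom.comp_apply]
    unfold subT
    change gooEv (MvPolynomial.aeval _ (MvPolynomial.C q)) = MvPolynomial.aeval _ (MvPolynomial.C q)
    rw [MvPolynomial.aeval_C, MvPolynomial.aeval_C]
    exact gooEv_C q
  · rw [RingHom.comp_apply]
    unfold subT
    change gooEv (MvPolynomial.aeval _ (MvPolynomial.X i)) = MvPolynomial.aeval _ (MvPolynomial.X i)
    rw [MvPolynomial.aeval_X, MvPolynomial.aeval_X, map_mul, gooEv_C, gooEv_T, mul_one]

private theorem goo_Rg {r : ℕ} (k₀ : IntermediateField ℚ ℂ) (ζ : ℂ) (c : Fin r → ℕ)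
    {x : ℂ[T;T⁻¹]} (hx : x ∈ Rg k₀ (fun i => ζ ^ c i) 0) : gooEv x ∈ Ka k₀ ζ := by
  have hζ : ζ ∈ Ka k₀ ζ := by
    have h1 : ζ ∈ Qa ζ := IntermediateField.mem_adjoin_simple_self ℚ ζ
    exact (le_sup_right : Qa ζ ≤ Ka k₀ ζ) h1
  have h1 : Rg k₀ (fun i => ζ ^ c i) 0 ≤ (Ka k₀ ζ).toSubalgebra.toSubring.comap gooEv := by
    unfold Rg
    rw [Subring.closure_le]
    rintro y (⟨q, hq, rfl⟩ | ⟨e, rfl⟩)
    · change gooEv (LaurentPolynomial.C q) ∈ Ka k₀ ζ
      rw [gooEv_C]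
      exact (le_sup_left : k₀ ≤ Ka k₀ ζ) hq
    · change gooEv (LaurentPolynomial.C (∏ i, (ζ ^ c i) ^ e i) * LaurentPolynomial.T (dt 0 e)) ∈ Ka k₀ ζ
      rw [map_mul, gooEv_C, gooEv_T, mul_one]
      exact prod_mem fun i _ => zpow_mem (pow_mem hζ _) _
  exact h1 hx

theorem good_all {r : ℕ} (hr : 0 < r) {k₀ : IntermediateField ℚ ℂ} (hk : FiniteDimensional ℚ k₀)
    {F : (MvPolynomial (Fin r) ℂ)[X]} (hF : F.Monic) (hI : IntM k₀ F) (hg : GeoM F) :
    ∃ (n₀ : ℕ) (A : Finset (Fin r → ℤ)), ∀ a b : Fin r → ℤ, dt a b = 1 → ∀ n : ℕ, 0 < n →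
      ∀ z : ℂ, IsPrimitiveRoot z n → (n₀ ≤ n ∨ a ∉ A) → Good k₀ F a z := by
  classical
  obtain ⟨V, hV0, hVt⟩ := toric hF (fun i m => (hI i m).2) hg
  let v₀ : Fin r → ℤ := Pi.single ⟨0, hr⟩ 1
  have hv₀ : v₀ ≠ 0 := by
    intro h
    have h1 := congrFun h ⟨0, hr⟩
    change (Pi.single (⟨0, hr⟩ : Fin r) (1 : ℤ) : Fin r → ℤ) ⟨0, hr⟩ = 0 at h1
    rw [Pi.single_eq_same] at h1
    exact one_ne_zero h1
  obtain ⟨W, hW⟩ : ∃ W : Finset (Fin r → ℤ), W = insert v₀ V := ⟨_, rfl⟩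
  have hW0 : ∀ v ∈ W, v ≠ 0 := by
    intro v hv
    rw [hW, Finset.mem_insert] at hv
    rcases hv with rfl | hv
    · exact hv₀
    · exact hV0 v hv
  have hWne : W.Nonempty := ⟨v₀, by rw [hW]; exact Finset.mem_insert_self _ _⟩
  have hVW : ∀ v ∈ V, v ∈ W := fun v hv => by
    rw [hW]
    exact Finset.mem_insert_of_mem hv
  obtain ⟨A, hA⟩ := gen_perp W hW0 hWne
  obtain ⟨c, hc, hc'⟩ := gen_points W hW0
  have hch : ∀ j : Fin r, ∃ n₀ : ℕ, ∀ n, n₀ ≤ n → ∀ ζ : ℂ, IsPrimitiveRoot ζ n →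
      ∀ G H : ℂ[X], G.Monic → H.Monic →
      F.map (MvPolynomial.aeval fun i => ζ ^ c j i : MvPolynomial (Fin r) ℂ →ₐ[ℂ] ℂ).toRingHom =
        G * H → (∀ i, G.coeff i ∈ Ka k₀ ζ) → (∀ i, H.coeff i ∈ Ka k₀ ζ) →
      G.natDegree = 0 ∨ H.natDegree = 0 := by
    intro j
    refine chi_point hk hF hI ?_
    intro a ha ξ hξ G H hG hH hGH
    refine hVt (fun i => (a : ℤ) * c j i) ?_ ξ hξ G H hG hH hGH
    intro v hv
    have h1 : dt v (fun i => (a : ℤ) * c j i) = (a : ℤ) * dt v (fun i => (c j i : ℤ)) := by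
      unfold dt
      rw [Finset.mul_sum]
      refine Finset.sum_congr rfl fun i _ => ?_
      ring
    rw [h1]
    exact mul_ne_zero (by exact_mod_cast ha.ne') (hc j v (hVW v hv))
  choose m hm using hch
  refine ⟨Finset.univ.sup m, A, ?_⟩
  intro a b hab n hn z hz hor
  have hz0 : z ≠ 0 := hz.ne_zero hn.ne'
  have ha0 : a ≠ 0 := by
    rintro rfl
    unfold dt at hab
    simp at hab
  by_cases hcase : a ∉ A
  · obtain ⟨c', hc1, hc2⟩ := hA a b hab hcase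
    refine ⟨fun i => z ^ b i, c', ⟨n, hn, fun i => ?_⟩, hc1, ?_, ?_⟩
    · rw [← zpow_natCast, ← zpow_mul, mul_comm, zpow_mul, zpow_natCast, hz.pow_eq_one, one_zpow]
    · rw [goo_prod hz0, hab, zpow_one]
    · intro G H hG hH _ _ hGH
      refine hVt c' (fun v hv => hc2 v (hVW v hv)) _ ⟨n, hn, fun i => ?_⟩ G H hG hH hGH
      rw [← zpow_natCast, ← zpow_mul, mul_comm, zpow_mul, zpow_natCast, hz.pow_eq_one, one_zpow]
  · have hn0 : Finset.univ.sup m ≤ n := by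
      rcases hor with h | h
      · exact h
      · exact absurd h hcase
    obtain ⟨j, hj⟩ := hc' a ha0
    obtain ⟨ζ, N, hζz, hζ, hN, hnN⟩ := goo_root hn hz hj
    have hζ0 : ζ ≠ 0 := hζ.ne_zero hN.ne'
    refine ⟨fun i => ζ ^ c j i, 0, ⟨N, hN, fun i => ?_⟩, ?_, ?_, ?_⟩
    · rw [← pow_mul, mul_comm, pow_mul, hζ.pow_eq_one, one_pow]
    · unfold dt
      simp
    · have h1 := goo_prod hζ0 a (fun i => (c j i : ℤ))
      simp only [zpow_natCast] at h1
      rw [h1]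
      exact hζz
    · intro G H hG hH hGR hHR hGH
      have h2 := hm j N ((Finset.le_sup (Finset.mem_univ j)).trans (hn0.trans hnN)) ζ hζ
        (G.map gooEv) (H.map gooEv) (hG.map _) (hH.map _) (by
          rw [← goo_comp, ← Polynomial.map_map, hGH, Polynomial.map_mul])
        (fun i => by rw [Polynomial.coeff_map]; exact goo_Rg k₀ ζ (c j) (hGR i))
        (fun i => by rw [Polynomial.coeff_map]; exact goo_Rg k₀ ζ (c j) (hHR i))
      rw [hG.natDegree_map, hH.natDegree_map] at h2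
      exact h2

end Pool.Agent.EVF
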