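import Pool.Agent.EVF.BDefs

/-!
# Change of coordinates for Laurent polynomials

`lam` sends `q X^e` to `q w^(dt b e) Y^(d e)`. `lam_ev`: both sides are ring homomorphisms which agree on the
`single e q`: `y^e = (y^a)^(dt b e) ∏ (y^(β s))^(d e s)`. `exists_mu`: `E = k(w)`, `π` is the minimal polynomial of `w` over `k`
(monic, irreducible, a root), so there is `σ : E →+* ℂ` with `σ w = z` over `j`; `μ (single u q) = C (σ q) * C (∏ (ξ^(β i))^(u i)) * T (∑ u i dt c (β i))`.
On `X i`: `z^(b i) ∏_s ξ^(d(e_i) s β s) T^(dt c (..)) = ξ i T^(c i)` since `e_i = b i a + ∑ d(e_i) s β s`, `z = ξ^a`, `dt a c = 0`.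
`E` is generated by `w` as a ring over `k` (algebraic), so `σ q` is a polynomial in `z` with coefficients in `j(k)`; `C z` is the
monomial with exponent `a`.
-/

open scoped BigOperators Polynomial LaurentPolynomial
open Polynomial

namespace Pool.Agent.EVF

open Pool.Agent.CST Pool.Agent.CSG Pool.Agent.Helper11 Pool.Agent.ISI

/-- `q X^e ↦ q w^(dt b e) Y^(d e)` -/
noncomputable def lam {k E : Type} [Field k] [Field E] [Algebra k E] {r s : ℕ} (w : Eˣ)
    (b : Fin r → ℤ) (d : (Fin r → ℤ) →+ (Fin s → ℤ)) : LR k r →ₐ[k] LR E s :=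
  AddMonoidAlgebra.lift k (LR E s) (Fin r → ℤ)
    { toFun := fun e => AddMonoidAlgebra.single (d e.toAdd) ((w ^ dt b e.toAdd : Eˣ) : E)
      map_one' := by
        simp [dt, AddMonoidAlgebra.one_def]
      map_mul' := fun e e' => by
        have h : dt b (e.toAdd + e'.toAdd) = dt b e.toAdd + dt b e'.toAdd := by
          simp [dt, mul_add, Finset.sum_add_distrib]
        rw [toAdd_mul, h, zpow_add, map_add, AddMonoidAlgebra.single_mul_single, Units.val_mul] }

private theorem lam_moz {G : Type*} [CommGroup G] {r : ℕ} (y : Fin r → G) (e : Fin r → ℤ) (n : ℤ) :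
    mo y (n • e) = mo y e ^ n := by
  unfold mo
  rw [← Finset.prod_zpow]
  refine Finset.prod_congr rfl fun i _ => ?_
  rw [Pi.smul_apply, smul_eq_mul, mul_comm, zpow_mul]

private theorem lam_mos {G : Type*} [CommGroup G] {r s : ℕ} (y : Fin r → G)
    (β : Fin s → (Fin r → ℤ)) (n : Fin s → ℤ) :
    mo y (∑ i, n i • β i) = mo (fun i => mo y (β i)) n := by
  have h : ∀ t : Finset (Fin s), mo y (∑ i ∈ t, n i • β i) = ∏ i ∈ t, mo y (β i) ^ n i := by
    intro t
    induction t using Finset.induction_on with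
    | empty => rw [Finset.sum_empty, Finset.prod_empty, mo_zero]
    | insert i t hi ih => rw [Finset.sum_insert hi, Finset.prod_insert hi, mo_add, ih, lam_moz]
  exact h Finset.univ

private theorem lam_single {k E : Type} [Field k] [Field E] [Algebra k E] {r s : ℕ} (w : Eˣ)
    (b : Fin r → ℤ) (d : (Fin r → ℤ) →+ (Fin s → ℤ)) (e : Fin r → ℤ) (q : k) :
    lam w b d (AddMonoidAlgebra.single e q) =
      AddMonoidAlgebra.single (d e) (q • ((w ^ dt b e : Eˣ) : E)) := by
  unfold lam
  rw [AddMonoidAlgebra.lift_single]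
  show q • AddMonoidAlgebra.single (d e) ((w ^ dt b e : Eˣ) : E) = _
  rw [AddMonoidAlgebra.smul_single]

private theorem lam_evs {k K : Type} [Field k] [Field K] [Algebra k K] {r : ℕ} (x : Fin r → Kˣ)
    (e : Fin r → ℤ) (q : k) :
    evx x (AddMonoidAlgebra.single e q : LR k r) = q • ((mo x e : Kˣ) : K) := by
  unfold evx
  rw [AddMonoidAlgebra.lift_single]
  rfl

theorem lam_ev {k κ : Type} [Field k] [Field κ] [Algebra k κ] {r : ℕ} {y : Fin r → κˣ}
    {a b : Fin r → ℤ} {s : ℕ} {β : Fin s → (Fin r → ℤ)} {d : (Fin r → ℤ) →+ (Fin s → ℤ)}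
    (hd : ∀ e, e = (dt b e) • a + ∑ i, d e i • β i) (E : IntermediateField k κ) {w : Eˣ}
    (hw : ((w : E) : κ) = ((mo y a : κˣ) : κ)) (P : LR k r) :
    evx (k := E) (K := κ) (fun i => mo y (β i)) (lam w b d P) = evx y P := by
  induction P using AddMonoidAlgebra.induction_linear with
  | zero => rw [map_zero, map_zero, map_zero]
  | add P Q hP hQ => rw [map_add, map_add, map_add, hP, hQ]
  | single e q =>
    rw [lam_single, lam_evs, lam_evs]
    have h1 : mo y e = mo y a ^ dt b e * mo (fun i => mo y (β i)) (d e) := by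
      conv_lhs => rw [hd e]
      rw [mo_add, lam_moz, lam_mos]
    have h2 : (((w ^ dt b e : Eˣ) : E) : κ) = ((mo y a ^ dt b e : κˣ) : κ) := by
      rw [Units.val_zpow_eq_zpow_val, Units.val_zpow_eq_zpow_val, ← hw]
      exact map_zpow₀ (algebraMap E κ) _ _
    rw [h1, Units.val_mul, smul_assoc, ← h2]
    rfl

private noncomputable def lamM {r : ℕ} (ξ : Fin r → ℂ) (c : Fin r → ℤ) (e : Fin r → ℤ) :
    ℂ[T;T⁻¹] :=
  LaurentPolynomial.C (∏ i, ξ i ^ e i) * LaurentPolynomial.T (dt c e)

private theorem lamM_zero {r : ℕ} (ξ : Fin r → ℂ) (c : Fin r → ℤ) : lamM ξ c 0 = 1 := by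
  simp [lamM, dt]

private theorem lamM_add {r : ℕ} {ξ : Fin r → ℂ} (hξ : ∀ i, ξ i ≠ 0) (c e e' : Fin r → ℤ) :
    lamM ξ c (e + e') = lamM ξ c e * lamM ξ c e' := by
  have h1 : dt c (e + e') = dt c e + dt c e' := by
    simp [dt, mul_add, Finset.sum_add_distrib]
  have h2 : ∏ i, ξ i ^ (e + e') i = (∏ i, ξ i ^ e i) * ∏ i, ξ i ^ e' i := by
    rw [← Finset.prod_mul_distrib]
    exact Finset.prod_congr rfl fun i _ => zpow_add₀ (hξ i) _ _
  unfold lamM
  rw [h1, h2, LaurentPolynomial.T_add, map_mul]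
  ring

private theorem lamM_smul {r : ℕ} (ξ : Fin r → ℂ) {a c : Fin r → ℤ} (hac : dt a c = 0) {z : ℂ}
    (hz : ∏ i, ξ i ^ a i = z) (n : ℤ) : lamM ξ c (n • a) = LaurentPolynomial.C (z ^ n) := by
  have h1 : dt c (n • a) = 0 := by
    have h2 : dt c (n • a) = n * dt a c := by
      simp only [dt, Finset.mul_sum, Pi.smul_apply, smul_eq_mul]
      exact Finset.sum_congr rfl fun i _ => by ring
    rw [h2, hac, mul_zero]
  have h2 : ∏ i, ξ i ^ (n • a) i = z ^ n := by
    rw [← hz, ← Finset.prod_zpow]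
    refine Finset.prod_congr rfl fun i _ => ?_
    rw [Pi.smul_apply, smul_eq_mul, mul_comm, zpow_mul]
  unfold lamM
  rw [h1, h2, LaurentPolynomial.T_zero, mul_one]

private theorem lamM_mem {r : ℕ} (k₀ : IntermediateField ℚ ℂ) (ξ : Fin r → ℂ) (c e : Fin r → ℤ) :
    lamM ξ c e ∈ Rg k₀ ξ c :=
  Subring.subset_closure (Or.inr ⟨e, rfl⟩)

private theorem lam_emb {k κ : Type} [Field k] [Field κ] [Algebra k κ] (j : k →+* ℂ) {w : κ}
    {π : k[X]} (hπ : π.Monic) (hπi : Irreducible π) (hπ0 : aeval w π = 0) {z : ℂ}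
    (hz : (π.map j).eval z = 0) :
    ∃ σ : IntermediateField.adjoin k {w} →+* ℂ, (∀ q, σ (algebraMap k _ q) = j q) ∧
      σ (IntermediateField.AdjoinSimple.gen k w) = z ∧
      ∀ q : IntermediateField.adjoin k {w}, ∃ p : k[X],
        q = aeval (IntermediateField.AdjoinSimple.gen k w) p := by
  let _ : Algebra k ℂ := j.toAlgebra
  have hw : IsIntegral k w := ⟨π, hπ, hπ0⟩
  have hm : minpoly k w = π := (minpoly.eq_of_irreducible_of_monic hπi hπ0 hπ).symm
  let pb := IntermediateField.adjoin.powerBasis hw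
  have hg : pb.gen = IntermediateField.AdjoinSimple.gen k w := rfl
  have h1 : aeval z (minpoly k pb.gen) = 0 := by
    rw [hg, IntermediateField.minpoly_gen, hm]
    rw [Polynomial.eval_map] at hz
    exact hz
  refine ⟨(pb.lift z h1).toRingHom, fun q => (pb.lift z h1).commutes q, pb.lift_gen z h1,
    fun q => ?_⟩
  obtain ⟨p, hp⟩ := pb.exists_eq_aeval' q
  exact ⟨p, hp⟩

theorem exists_mu {k κ : Type} [Field k] [CharZero k] [Field κ] [CharZero κ] [Algebra k κ]
    (j : k →+* ℂ) {k₀ : IntermediateField ℚ ℂ} (hj : ∀ q, j q ∈ k₀) {r : ℕ} {w : κ}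
    (w' : (IntermediateField.adjoin k {w})ˣ)
    (hw : ((w' : IntermediateField.adjoin k {w}) : κ) = w) {a b : Fin r → ℤ}
    {s : ℕ} {β : Fin s → (Fin r → ℤ)} {d : (Fin r → ℤ) →+ (Fin s → ℤ)}
    (hd : ∀ e, e = (dt b e) • a + ∑ i, d e i • β i) {π : k[X]} (hπ : π.Monic)
    (hπi : Irreducible π) (hπ0 : aeval w π = 0) {z : ℂ} (hz : (π.map j).eval z = 0)
    {ξ : Fin r → ℂ} {c : Fin r → ℤ} (hξ : ∀ i, ξ i ≠ 0) (hac : dt a c = 0)
    (hξz : ∏ i, ξ i ^ a i = z) :
    ∃ μ : LR (IntermediateField.adjoin k {w}) s →+* ℂ[T;T⁻¹],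
      (∀ P : MvPolynomial (Fin r) k,
        μ (lam w' b d (toL k r P)) = subT ξ c (MvPolynomial.map j P)) ∧
      ∀ P, μ P ∈ Rg k₀ ξ c := by
  obtain ⟨σ, hσ1, hσ2, hσ3⟩ := lam_emb j hπ hπi hπ0 hz
  have hwg : (w' : IntermediateField.adjoin k {w}) = IntermediateField.AdjoinSimple.gen k w :=
    Subtype.ext hw
  let g : Multiplicative (Fin s → ℤ) →* ℂ[T;T⁻¹] :=
    { toFun := fun u => lamM ξ c (∑ i, u.toAdd i • β i)
      map_one' := by
        show lamM ξ c (∑ i, (0 : Fin s → ℤ) i • β i) = 1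
        simp only [Pi.zero_apply, zero_smul, Finset.sum_const_zero]
        exact lamM_zero ξ c
      map_mul' := fun u v => by
        show lamM ξ c (∑ i, (u.toAdd + v.toAdd) i • β i) = _
        rw [← lamM_add hξ, ← Finset.sum_add_distrib]
        refine congrArg (lamM ξ c) (Finset.sum_congr rfl fun i _ => ?_)
        rw [Pi.add_apply, add_smul] }
  let μ : LR (IntermediateField.adjoin k {w}) s →+* ℂ[T;T⁻¹] :=
    AddMonoidAlgebra.liftNCRingHom (LaurentPolynomial.C.comp σ) g fun x y => Commute.all _ _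
  have hμ : ∀ (u : Fin s → ℤ) (q : IntermediateField.adjoin k {w}),
      μ (AddMonoidAlgebra.single u q) =
        LaurentPolynomial.C (σ q) * lamM ξ c (∑ i, u i • β i) := fun u q =>
    AddMonoidAlgebra.liftNCRingHom_single _ _ _ _ _
  have hC : ∀ q : IntermediateField.adjoin k {w}, LaurentPolynomial.C (σ q) ∈ Rg k₀ ξ c := by
    intro q
    obtain ⟨p, rfl⟩ := hσ3 q
    rw [Polynomial.aeval_eq_sum_range, map_sum, map_sum]
    refine Subring.sum_mem _ fun i _ => ?_
    rw [Algebra.smul_def, map_mul, map_mul, hσ1, map_pow, map_pow, hσ2]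
    refine Subring.mul_mem _ (Subring.subset_closure (Or.inl ⟨_, hj _, rfl⟩))
      (Subring.pow_mem _ ?_ _)
    have h1 := lamM_smul ξ hac hξz 1
    rw [zpow_one] at h1
    rw [← h1]
    exact lamM_mem k₀ ξ c _
  refine ⟨μ, fun P => ?_, fun P => ?_⟩
  · have h1 : μ.comp ((lam w' b d : LR k r →ₐ[k] LR (IntermediateField.adjoin k {w}) s).toRingHom.comp
        (toL k r)) = (subT ξ c).comp (MvPolynomial.map j) := by
      have h2 : ∀ (e : Fin r → ℤ) (q : k), μ (lam w' b d (AddMonoidAlgebra.single e q)) =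
          LaurentPolynomial.C (j q) * lamM ξ c e := by
        intro e q
        rw [lam_single, hμ, Algebra.smul_def, map_mul, map_mul, hσ1, mul_assoc]
        congr 1
        conv_rhs => rw [hd e, lamM_add hξ, lamM_smul ξ hac hξz]
        congr 2
        rw [Units.val_zpow_eq_zpow_val, map_zpow₀, hwg, hσ2]
      refine MvPolynomial.ringHom_ext (fun q => ?_) fun i => ?_
      · show μ (lam w' b d (toL k r (MvPolynomial.C q))) =
          MvPolynomial.aeval _ (MvPolynomial.map j (MvPolynomial.C q))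
        have h3 : toL k r (MvPolynomial.C q) = AddMonoidAlgebra.single 0 q := by
          show MvPolynomial.aeval _ (MvPolynomial.C q) = _
          rw [MvPolynomial.aeval_C]
          rfl
        rw [h3, h2, lamM_zero, mul_one, MvPolynomial.map_C, MvPolynomial.aeval_C,
          LaurentPolynomial.algebraMap_apply]
        rfl
      · show μ (lam w' b d (toL k r (MvPolynomial.X i))) =
          MvPolynomial.aeval _ (MvPolynomial.map j (MvPolynomial.X i))
        have h3 : toL k r (MvPolynomial.X i) = AddMonoidAlgebra.single (Pi.single i 1) 1 := by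
          show MvPolynomial.aeval _ (MvPolynomial.X i) = _
          rw [MvPolynomial.aeval_X]
        rw [h3, h2, MvPolynomial.map_X, MvPolynomial.aeval_X, map_one, map_one, one_mul]
        unfold lamM
        congr 2
        · rw [Finset.prod_eq_single i]
          · rw [Pi.single_eq_same, zpow_one]
          · intro m _ hm
            rw [Pi.single_eq_of_ne hm, zpow_zero]
          · intro h
            exact absurd (Finset.mem_univ i) h
        · unfold dt
          rw [Finset.sum_eq_single i]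
          · rw [Pi.single_eq_same, mul_one]
          · intro m _ hm
            rw [Pi.single_eq_of_ne hm, mul_zero]
          · intro h
            exact absurd (Finset.mem_univ i) h
    exact congrArg (fun φ : MvPolynomial (Fin r) k →+* ℂ[T;T⁻¹] => φ P) h1
  · induction P using AddMonoidAlgebra.induction_linear with
    | zero => rw [map_zero]; exact Subring.zero_mem _
    | add P Q hP hQ => rw [map_add]; exact Subring.add_mem _ hP hQ
    | single u q =>
      rw [hμ]
      exact Subring.mul_mem _ (hC q) (lamM_mem k₀ ξ c _)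

end Pool.Agent.EVF
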