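import Pool.Agent.EVF.BDefs

/-!
# Factorisation over a Laurent polynomial ring

`LR E s` is a localisation of `MvPolynomial (Fin s) E` (the product of the variables is inverted), hence integrally
closed; `evx y` is injective if `y` is algebraically independent. The first factor is the minimal polynomial of `θ` over
`LR E s`.
-/

open scoped BigOperators Polynomial
open Polynomial

namespace Pool.Agent.EVF

open Pool.Agent.CST Pool.Agent.CSG Pool.Agent.Helper11 Pool.Agent.ISI

private theorem Lau_prod {E : Type} [Field E] {s : ℕ} (d : Fin s → ℕ) :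
    ∏ i, (AddMonoidAlgebra.single (Pi.single i (1 : ℤ)) (1 : E) : LR E s) ^ d i =
      AddMonoidAlgebra.single (fun i => (d i : ℤ)) 1 := by
  have h1 : ∀ g : Fin s → ℤ, (AddMonoidAlgebra.single g (1 : E) : LR E s) =
      AddMonoidAlgebra.of E (Fin s → ℤ) (Multiplicative.ofAdd g) := fun g => rfl
  rw [h1, Finset.prod_congr rfl fun i _ => by rw [h1, ← map_pow], ← map_prod]
  congr 1
  apply Multiplicative.toAdd.injective
  rw [toAdd_ofAdd, toAdd_prod]
  funext j
  rw [Finset.sum_apply, Finset.sum_eq_single j]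
  · rw [toAdd_pow, toAdd_ofAdd, Pi.smul_apply, Pi.single_eq_same]
    simp
  · intro i _ hij
    rw [toAdd_pow, toAdd_ofAdd, Pi.smul_apply, Pi.single_eq_of_ne hij.symm, smul_zero]
  · intro h
    exact absurd (Finset.mem_univ j) h

private theorem Lau_mono {E : Type} [Field E] {s : ℕ} (d : Fin s →₀ ℕ) (c : E) :
    toL E s (MvPolynomial.monomial d c) = AddMonoidAlgebra.single (fun i => (d i : ℤ)) c := by
  change MvPolynomial.aeval _ (MvPolynomial.monomial d c) = _
  rw [MvPolynomial.aeval_monomial, Finsupp.prod_fintype _ _ (fun i => pow_zero _), Lau_prod]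
  change (AddMonoidAlgebra.single 0 c : LR E s) * _ = _
  rw [AddMonoidAlgebra.single_mul_single, zero_add, mul_one]

private theorem Lau_evx {E κ : Type} [Field E] [Field κ] [Algebra E κ] {s : ℕ} (y : Fin s → κˣ)
    (e : Fin s → ℤ) (c : E) : evx y (AddMonoidAlgebra.single e c : LR E s) =
      c • ((mo y e : κˣ) : κ) := by
  unfold evx
  rw [AddMonoidAlgebra.lift_single]
  rfl

private theorem Lau_mo {κ : Type} [Field κ] {s : ℕ} (y : Fin s → κˣ) (i : Fin s) :
    mo y (Pi.single i 1) = y i := by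
  unfold mo
  rw [Finset.prod_eq_single i]
  · rw [Pi.single_eq_same, zpow_one]
  · intro j _ hj
    rw [Pi.single_eq_of_ne hj, zpow_zero]
  · intro h
    exact absurd (Finset.mem_univ i) h

private theorem Lau_toL {E κ : Type} [Field E] [Field κ] [Algebra E κ] {s : ℕ} (y : Fin s → κˣ)
    (p : MvPolynomial (Fin s) E) : evx y (toL E s p) = MvPolynomial.aeval (fun i => (y i : κ)) p := by
  have h : (evx y : LR E s →ₐ[E] κ).comp (MvPolynomial.aeval fun i =>
      (AddMonoidAlgebra.single (Pi.single i (1 : ℤ)) (1 : E) : LR E s)) =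
        MvPolynomial.aeval (fun i => (y i : κ)) := by
    refine MvPolynomial.algHom_ext fun i => ?_
    rw [AlgHom.comp_apply, MvPolynomial.aeval_X, MvPolynomial.aeval_X, Lau_evx, Lau_mo, one_smul]
  exact congrArg (fun φ : MvPolynomial (Fin s) E →ₐ[E] κ => φ p) h

/-- the product of the variables -/
private noncomputable def Lau_v (E : Type) [Field E] (s : ℕ) : MvPolynomial (Fin s) E :=
  ∏ i, MvPolynomial.X i

private theorem Lau_v_pow (E : Type) [Field E] (s N : ℕ) :
    toL E s (Lau_v E s ^ N) = AddMonoidAlgebra.single (fun _ => (N : ℤ)) 1 := by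
  have h : toL E s (Lau_v E s) = ∏ i, (AddMonoidAlgebra.single (Pi.single i (1 : ℤ)) (1 : E) : LR E s) := by
    unfold Lau_v
    rw [map_prod]
    refine Finset.prod_congr rfl fun i _ => ?_
    exact MvPolynomial.aeval_X _ i
  rw [map_pow, h, ← Finset.prod_pow]
  exact Lau_prod fun _ => N

private theorem Lau_clear {E : Type} [Field E] {s : ℕ} (P : LR E s) :
    ∃ (N : ℕ) (p : MvPolynomial (Fin s) E), P * toL E s (Lau_v E s ^ N) = toL E s p := by
  induction P using AddMonoidAlgebra.induction_linear with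
  | zero => exact ⟨0, 0, by rw [zero_mul, map_zero]⟩
  | add P Q hP hQ =>
    obtain ⟨N, p, hp⟩ := hP
    obtain ⟨M, q, hq⟩ := hQ
    refine ⟨N + M, p * Lau_v E s ^ M + q * Lau_v E s ^ N, ?_⟩
    rw [map_add, map_mul, map_mul, ← hp, ← hq, pow_add, map_mul]
    ring
  | single e c =>
    refine ⟨∑ i, (e i).natAbs, MvPolynomial.monomial (Finsupp.equivFunOnFinite.symm fun i =>
      (e i + ((∑ j, (e j).natAbs : ℕ) : ℤ)).toNat) c, ?_⟩
    rw [Lau_v_pow, Lau_mono, AddMonoidAlgebra.single_mul_single, mul_one]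
    congr 1
    funext i
    rw [Pi.add_apply, Finsupp.equivFunOnFinite_symm_apply_apply]
    have h1 : (e i).natAbs ≤ ∑ j, (e j).natAbs :=
      Finset.single_le_sum (f := fun j => (e j).natAbs) (fun _ _ => Nat.zero_le _) (Finset.mem_univ i)
    omega

private theorem Lau_unit (E : Type) [Field E] (s N : ℕ) : IsUnit (toL E s (Lau_v E s ^ N)) := by
  rw [Lau_v_pow]
  refine IsUnit.of_mul_eq_one (AddMonoidAlgebra.single (fun _ => -(N : ℤ)) 1) ?_
  rw [AddMonoidAlgebra.single_mul_single, mul_one, AddMonoidAlgebra.one_def]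
  congr 1
  funext i
  simp

private theorem Lau_inj {E κ : Type} [Field E] [Field κ] [Algebra E κ] {s : ℕ} {y : Fin s → κˣ}
    (hy : AlgebraicIndependent E fun i => (y i : κ)) :
    Function.Injective (evx y : LR E s →ₐ[E] κ) := by
  rw [injective_iff_map_eq_zero]
  intro P hP
  obtain ⟨N, p, hp⟩ := Lau_clear P
  have h1 : MvPolynomial.aeval (fun i => (y i : κ)) p = 0 := by
    rw [← Lau_toL, ← hp, map_mul, hP, zero_mul]
  have h2 : p = 0 := hy.eq_zero_of_aeval_eq_zero p h1
  rw [h2, map_zero] at hp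
  exact (Lau_unit E s N).mul_left_eq_zero.mp hp

private theorem Lau_toL_inj {E κ : Type} [Field E] [Field κ] [Algebra E κ] {s : ℕ} {y : Fin s → κˣ}
    (hy : AlgebraicIndependent E fun i => (y i : κ)) :
    Function.Injective (toL E s) := by
  rw [injective_iff_map_eq_zero]
  intro p hp
  refine hy.eq_zero_of_aeval_eq_zero p ?_
  rw [← Lau_toL, hp, map_zero]

private theorem Lau_closed {E κ : Type} [Field E] [Field κ] [Algebra E κ] {s : ℕ} {y : Fin s → κˣ}
    (hy : AlgebraicIndependent E fun i => (y i : κ)) : IsIntegrallyClosed (LR E s) := by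
  let _ : Algebra (MvPolynomial (Fin s) E) (LR E s) := (toL E s).toAlgebra
  have hal : ∀ p, algebraMap (MvPolynomial (Fin s) E) (LR E s) p = toL E s p := fun p => rfl
  have hv : Lau_v E s ≠ 0 := Finset.prod_ne_zero_iff.mpr fun i _ => MvPolynomial.X_ne_zero i
  have hloc : IsLocalization (Submonoid.powers (Lau_v E s)) (LR E s) :=
    { map_units := fun ⟨t, ht⟩ => by
        obtain ⟨n, rfl⟩ := ht
        exact Lau_unit E s n
      surj := fun P => by
        obtain ⟨N, p, hp⟩ := Lau_clear P
        exact ⟨(p, ⟨Lau_v E s ^ N, N, rfl⟩), hp⟩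
      exists_of_eq := fun {p q} h => ⟨1, by rw [Lau_toL_inj hy h]⟩ }
  exact isIntegrallyClosed_of_isLocalization (LR E s) (Submonoid.powers (Lau_v E s))
    (powers_le_nonZeroDivisors_of_noZeroDivisors hv)

theorem lau {E κ : Type} [Field E] [Field κ] [Algebra E κ] {s : ℕ} {y : Fin s → κˣ}
    (hy : AlgebraicIndependent E fun i => (y i : κ)) {f : (LR E s)[X]} (hf : f.Monic) {θ : κ}
    (h0 : evW y θ f = 0) {G : (LR E s)[X]} (hG : G ≠ 0) (hd : G.natDegree < f.natDegree)
    (hG0 : evW y θ G = 0) : ∃ G' H' : (LR E s)[X], G'.Monic ∧ H'.Monic ∧ 0 < G'.natDegree ∧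
      0 < H'.natDegree ∧ f = G' * H' := by
  have hcl : IsIntegrallyClosed (LR E s) := Lau_closed hy
  have hinj := Lau_inj hy
  have hdom : IsDomain (LR E s) := hinj.isDomain (evx y : LR E s →ₐ[E] κ).toRingHom
  let _ : Algebra (LR E s) κ := (evx y : LR E s →ₐ[E] κ).toRingHom.toAlgebra
  have hfaith : FaithfulSMul (LR E s) κ := (faithfulSMul_iff_algebraMap_injective _ _).mpr hinj
  have hae : ∀ P : (LR E s)[X], aeval θ P = evW y θ P := fun P => rfl
  have hint : IsIntegral (LR E s) θ := ⟨f, hf, h0⟩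
  have h1 : minpoly (LR E s) θ ∣ f := minpoly.isIntegrallyClosed_dvd hint h0
  have h2 : (minpoly (LR E s) θ).degree ≤ G.degree :=
    minpoly.IsIntegrallyClosed.degree_le_of_ne_zero hG hG0
  have hm := minpoly.monic hint
  obtain ⟨H, hH⟩ := h1
  have hHm : H.Monic := hm.of_mul_monic_left (by rw [← hH]; exact hf)
  refine ⟨minpoly (LR E s) θ, H, hm, hHm, minpoly.natDegree_pos hint, ?_, hH⟩
  have h3 : (minpoly (LR E s) θ).natDegree ≤ G.natDegree := natDegree_le_natDegree h2
  have h4 : f.natDegree = (minpoly (LR E s) θ).natDegree + H.natDegree := by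
    rw [hH, hm.natDegree_mul hHm]
  omega

end Pool.Agent.EVF
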