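import Pool.Agent.EVF.Yin
import Pool.Agent.EVF.Lau
import Pool.Agent.EVF.Lam

/-!
# Irreducibility over the residue field, complex side moved in

Pure algebra: a polynomial `G` in `θ` of degree less than that of `f`, with coefficients in the Laurent
polynomials in `y`, which vanishes at `(y, θ)` has all coefficients vanishing at `y`. Otherwise `f` would factorise over
the Laurent polynomials in the coordinates adapted to `a`, and then over the curve given by `Good`.
-/

open scoped BigOperators Polynomial LaurentPolynomial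
open Polynomial

namespace Pool.Agent.EVF

open Pool.Agent.CST Pool.Agent.CSG Pool.Agent.Helper11 Pool.Agent.ISI

private theorem irc_ne {r : ℕ} {ξ : Fin r → ℂ} (h : RU ξ) (i : Fin r) : ξ i ≠ 0 := by
  obtain ⟨M, hM, h1⟩ := h
  intro h0
  have := h1 i
  rw [h0, zero_pow hM.ne'] at this
  exact zero_ne_one this

private theorem irc_evW {k κ : Type} [Field k] [Field κ] [Algebra k κ] {r s : ℕ}
    {E : IntermediateField k κ} {y : Fin r → κˣ} {Y : Fin s → κˣ} (Λ : LR k r →+* LR E s)
    (hΛ : ∀ P, evx (k := E) (K := κ) Y (Λ P) = evx y P) (θ : κ) (P : (LR k r)[X]) :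
    evW (k := E) (K := κ) Y θ (P.map Λ) = evW y θ P := by
  have h1 : ((evx (k := E) (K := κ) Y).toRingHom.comp Λ) = (evx (k := k) (K := κ) y).toRingHom :=
    RingHom.ext fun P => hΛ P
  show eval₂ _ θ (P.map Λ) = eval₂ _ θ P
  rw [eval₂_map]
  exact congrArg (fun φ => eval₂ φ θ P) h1

theorem irr_core {k κ : Type} [Field k] [CharZero k] [Field κ] [CharZero κ] [Algebra k κ]
    (j : k →+* ℂ) {k₀ : IntermediateField ℚ ℂ} (hj : ∀ q, j q ∈ k₀) {r : ℕ} {y : Fin r → κˣ}
    {θ : κ} {f : (MvPolynomial (Fin r) k)[X]} (hf : f.Monic)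
    (h0 : evW y θ (f.map (toL k r)) = 0) {a b : Fin r → ℤ} (hab : dt a b = 1) {π : k[X]}
    (hπ : π.Monic) (hπi : Irreducible π) (hπ0 : aeval ((mo y a : κˣ) : κ) π = 0)
    (hy : ∃ i, AlgebraicIndependent k fun j : {j // j ≠ i} => (y j.1 : κ)) {z : ℂ}
    (hz : (π.map j).eval z = 0) (hg : Good k₀ (f.map (MvPolynomial.map j)) a z)
    {G : (LR k r)[X]} (hG : G.natDegree < f.natDegree) (hG0 : evW y θ G = 0) :
    ∀ i, evx y (G.coeff i) = 0 := by
  intro i0
  by_contra hi0
  obtain ⟨s, β, d, hs, hd, -, -, -⟩ := exists_coo hab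
  have hY := indep_adapted hab hπ.ne_zero hπ0 hy hs hd
  have hmem : ((mo y a : κˣ) : κ) ∈ IntermediateField.adjoin k {((mo y a : κˣ) : κ)} :=
    IntermediateField.subset_adjoin _ _ rfl
  set w' : (IntermediateField.adjoin k {((mo y a : κˣ) : κ)})ˣ :=
    Units.mk0 ⟨((mo y a : κˣ) : κ), hmem⟩ (fun h => (mo y a).ne_zero (congrArg Subtype.val h))
    with hw'
  have hw : ((w' : IntermediateField.adjoin k {((mo y a : κˣ) : κ)}) : κ) =
      ((mo y a : κˣ) : κ) := rfl
  have hΛ : ∀ P : LR k r, evx (k := IntermediateField.adjoin k {((mo y a : κˣ) : κ)}) (K := κ)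
      (fun i => mo y (β i)) ((lam w' b d).toRingHom P) = evx y P := fun P => lam_ev hd _ hw P
  have hW := irc_evW (lam w' b d).toRingHom hΛ θ
  have hf1 : (f.map (toL k r)).Monic := hf.map _
  have hf2 : ((f.map (toL k r)).map (lam w' b d).toRingHom).Monic := hf1.map _
  have hdeg : ((f.map (toL k r)).map (lam w' b d).toRingHom).natDegree = f.natDegree := by
    rw [hf1.natDegree_map, hf.natDegree_map]
  obtain ⟨G1, H1, hG1, hH1, hGp, hHp, hGH⟩ := lau hY hf2 (θ := θ) (by rw [hW]; exact h0)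
    (G := G.map (lam w' b d).toRingHom)
    (by
      intro hz0
      apply hi0
      rw [← hΛ (G.coeff i0), ← coeff_map, hz0, coeff_zero, map_zero])
    (by
      rw [hdeg]
      exact lt_of_le_of_lt natDegree_map_le hG)
    (by rw [hW]; exact hG0)
  obtain ⟨ξ, c, hξ, hac, hξz, hno⟩ := hg
  obtain ⟨μ, hμ1, hμ2⟩ := exists_mu j hj w' hw hd hπ hπi hπ0 hz (irc_ne hξ) hac hξz
  have hcomp : (μ.comp ((lam w' b d).toRingHom.comp (toL k r))) =
      (subT ξ c).comp (MvPolynomial.map j) := RingHom.ext fun P => hμ1 P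
  have hfac : (f.map (MvPolynomial.map j)).map (subT ξ c) = G1.map μ * H1.map μ := by
    rw [← Polynomial.map_mul, ← hGH, Polynomial.map_map, Polynomial.map_map, Polynomial.map_map,
      ← hcomp]
    rfl
  have := hno (G1.map μ) (H1.map μ) (hG1.map _) (hH1.map _)
    (fun i => by rw [coeff_map]; exact hμ2 _) (fun i => by rw [coeff_map]; exact hμ2 _) hfac
  rw [hG1.natDegree_map, hH1.natDegree_map] at this
  omega

end Pool.Agent.EVF
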