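import Pool.Agent.EVF.Red
import Pool.Agent.EVF.IrC

/-!
# Irreducibility over the residue field

The pairs `(u, ρ u)`, `u` in `O`, form a subring of `K × κ` (`exists_red`). It contains `(evx x P, evx y P)` for all Laurent
polynomials `P` and `(θ, ρ θ)` (`θ` is integral over `O`), hence `(evW x θ G, evW y (ρ θ) G)` for all `G`. So the statement
follows from `irr_core` over the residue field.
-/

open scoped BigOperators Polynomial
open Polynomial

namespace Pool.Agent.EVF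

open Pool.Agent.CST Pool.Agent.CSG Pool.Agent.Helper11 Pool.Agent.ISI

private theorem irr_mo {K κ : Type} [Field K] [Field κ] {r : ℕ} {x : Fin r → Kˣ} {y : Fin r → κˣ}
    {S : Subring (K × κ)} (hx : ∀ i, ((x i : K), (y i : κ)) ∈ S)
    (hx' : ∀ i, ((((x i)⁻¹ : Kˣ) : K), (((y i)⁻¹ : κˣ) : κ)) ∈ S) (e : Fin r → ℤ) :
    (((mo x e : Kˣ) : K), ((mo y e : κˣ) : κ)) ∈ S := by
  let U : Subgroup (Kˣ × κˣ) :=
    { carrier := {u | ((u.1 : K), (u.2 : κ)) ∈ S ∧ ((((u.1)⁻¹ : Kˣ) : K), (((u.2)⁻¹ : κˣ) : κ)) ∈ S}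
      mul_mem' := by
        intro u v hu hv
        refine ⟨?_, ?_⟩
        · have h := mul_mem hu.1 hv.1
          simpa using h
        · have h := mul_mem hu.2 hv.2
          have e1 : (((u * v).1⁻¹ : Kˣ) : K) = ((u.1⁻¹ : Kˣ) : K) * ((v.1⁻¹ : Kˣ) : K) := by
            rw [Prod.fst_mul, mul_inv, Units.val_mul]
          have e2 : (((u * v).2⁻¹ : κˣ) : κ) = ((u.2⁻¹ : κˣ) : κ) * ((v.2⁻¹ : κˣ) : κ) := by
            rw [Prod.snd_mul, mul_inv, Units.val_mul]
          rw [e1, e2]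
          exact h
      one_mem' := by
        have h : ((1 : K), (1 : κ)) ∈ S := one_mem S
        refine ⟨h, ?_⟩
        rw [Prod.fst_one, Prod.snd_one, inv_one, inv_one, Units.val_one, Units.val_one]
        exact h
      inv_mem' := by
        intro u hu
        refine ⟨hu.2, ?_⟩
        have h := hu.1
        rw [Prod.fst_inv, Prod.snd_inv, inv_inv, inv_inv]
        exact h }
  have h1 : (mo x e, mo y e) ∈ U := by
    have h2 : (mo x e, mo y e) = ∏ i, ((x i, y i) : Kˣ × κˣ) ^ e i := by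
      refine Prod.ext ?_ ?_
      · rw [Prod.fst_prod]
        rfl
      · rw [Prod.snd_prod]
        rfl
    rw [h2]
    exact Subgroup.prod_mem U fun i _ => Subgroup.zpow_mem U ⟨hx i, hx' i⟩ _
  exact h1.1

private theorem irr_single {k K : Type} [Field k] [Field K] [Algebra k K] {r : ℕ}
    (x : Fin r → Kˣ) (e : Fin r → ℤ) (c : k) :
    evx x (AddMonoidAlgebra.single e c) = algebraMap k K c * ((mo x e : Kˣ) : K) := by
  rw [evx, AddMonoidAlgebra.lift_single, Algebra.smul_def]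
  rfl

private theorem irr_evx {k K κ : Type} [Field k] [Field K] [Field κ] [Algebra k K] [Algebra k κ]
    {r : ℕ} {x : Fin r → Kˣ} {y : Fin r → κˣ} {S : Subring (K × κ)}
    (hk : ∀ q : k, (algebraMap k K q, algebraMap k κ q) ∈ S)
    (hx : ∀ i, ((x i : K), (y i : κ)) ∈ S)
    (hx' : ∀ i, ((((x i)⁻¹ : Kˣ) : K), (((y i)⁻¹ : κˣ) : κ)) ∈ S) (P : LR k r) :
    (evx x P, evx y P) ∈ S := by
  induction P using AddMonoidAlgebra.induction_linear with
  | zero =>
    rw [map_zero, map_zero]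
    exact zero_mem S
  | add f g hf hg =>
    rw [map_add, map_add]
    exact add_mem hf hg
  | single e c =>
    rw [irr_single, irr_single]
    exact mul_mem (hk c) (irr_mo hx hx' e)

private theorem irr_evW {k K κ : Type} [Field k] [Field K] [Field κ] [Algebra k K] [Algebra k κ]
    {r : ℕ} {x : Fin r → Kˣ} {y : Fin r → κˣ} {S : Subring (K × κ)}
    (hP : ∀ P : LR k r, (evx x P, evx y P) ∈ S) {θ : K} {θ' : κ} (hθ : (θ, θ') ∈ S)
    (G : (LR k r)[X]) : (evW x θ G, evW y θ' G) ∈ S := by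
  have h1 : (evW x θ G, evW y θ' G) =
      ∑ i ∈ Finset.range (G.natDegree + 1),
        ((evx x (G.coeff i), evx y (G.coeff i)) : K × κ) * (θ, θ') ^ i := by
    refine Prod.ext ?_ ?_
    · rw [Prod.fst_sum]
      exact Polynomial.eval₂_eq_sum_range _ _
    · rw [Prod.snd_sum]
      exact Polynomial.eval₂_eq_sum_range _ _
  rw [h1]
  exact sum_mem fun i _ => mul_mem (hP _) (pow_mem hθ i)

theorem irr {k K : Type} [Field k] [CharZero k] [Field K] [CharZero K] [Algebra k K]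
    (hk : Algebra.IsAlgebraic ℚ k) (j : k →+* ℂ) {k₀ : IntermediateField ℚ ℂ}
    (hj : ∀ q, j q ∈ k₀) {r : ℕ} {x : Fin r → Kˣ} {θ : K} {f : (MvPolynomial (Fin r) k)[X]}
    (hm : Md x θ f) {a : Fin r → ℤ} {π : k[X]} {O : ValuationSubring K} (hO : Ov x a π O) {z : ℂ}
    (hz : (π.map j).eval z = 0) (hg : Good k₀ (f.map (MvPolynomial.map j)) a z)
    {G : (LR k r)[X]} (hG : G.natDegree < f.natDegree) (h : O.valuation (evW x θ G) < 1) :
    ∀ i, O.valuation (evx x (G.coeff i) : K) < 1 := by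
  obtain ⟨κ, _, _, _, ρ, y, hρ, hρx, hρk, hπ0, hy⟩ := exists_red hk hm.ind hO
  set S : Subring (K × κ) := (RingHom.prod (algebraMap O K) ρ).range with hS
  have hmem : ∀ (u : K) (w : κ), (u, w) ∈ S ↔ ∃ h : u ∈ O, ρ ⟨u, h⟩ = w := by
    intro u w
    rw [hS, RingHom.mem_range]
    constructor
    · rintro ⟨v, hv⟩
      have h1 : (v : K) = u := congrArg Prod.fst hv
      have h2 : ρ v = w := congrArg Prod.snd hv
      subst h1
      exact ⟨v.2, h2⟩
    · rintro ⟨h1, h2⟩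
      exact ⟨⟨u, h1⟩, Prod.ext rfl h2⟩
  have hxO : ∀ i, (x i : K) ∈ O := fun i => (O.valuation_le_one_iff _).1 (hO.un i).le
  have hxO' : ∀ i, (((x i)⁻¹ : Kˣ) : K) ∈ O := fun i => by
    refine (O.valuation_le_one_iff _).1 ?_
    rw [Units.val_inv_eq_inv_val, map_inv₀, hO.un i, inv_one]
  have hkS : ∀ q : k, (algebraMap k K q, algebraMap k κ q) ∈ S := fun q =>
    (hmem _ _).2 ⟨const_mem hk hO.pp.1 q, hρk q _⟩
  have hxS : ∀ i, ((x i : K), (y i : κ)) ∈ S := fun i => (hmem _ _).2 ⟨hxO i, hρx i _⟩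
  have hxS' : ∀ i, ((((x i)⁻¹ : Kˣ) : K), (((y i)⁻¹ : κˣ) : κ)) ∈ S := fun i => by
    refine (hmem _ _).2 ⟨hxO' i, ?_⟩
    have h1 : ρ ⟨(((x i)⁻¹ : Kˣ) : K), hxO' i⟩ * ρ ⟨(x i : K), hxO i⟩ = 1 := by
      rw [← map_mul]
      have h2 : (⟨(((x i)⁻¹ : Kˣ) : K), hxO' i⟩ * ⟨(x i : K), hxO i⟩ : O) = 1 :=
        Subtype.ext (Units.inv_mul (x i))
      rw [h2, map_one]
    rw [hρx i] at h1
    exact (eq_inv_of_mul_eq_one_left h1).trans (Units.val_inv_eq_inv_val (y i)).symm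
  have hP := irr_evx hkS hxS hxS'
  -- `θ` is integral
  have hθ : θ ∈ O := by
    have h1 : ∀ P : LR k r, evx x P ∈ O := fun P => ((hmem _ _).1 (hP P)).1
    let φ : LR k r →+* O := (evx x : LR k r →ₐ[k] K).toRingHom.codRestrict O.toSubring h1
    have hφ : (algebraMap O K).comp φ = (evx x : LR k r →ₐ[k] K).toRingHom :=
      RingHom.ext fun P => rfl
    have h2 : IsIntegral O θ := by
      refine ⟨(f.map (toL k r)).map φ, (hm.monic.map _).map _, ?_⟩
      rw [Polynomial.eval₂_map, hφ]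
      exact hm.root
    obtain ⟨t, ht⟩ := (IsIntegrallyClosed.isIntegral_iff (R := O) (K := K)).1 h2
    rw [← ht]
    exact t.2
  have hθS : (θ, ρ ⟨θ, hθ⟩) ∈ S := (hmem _ _).2 ⟨hθ, rfl⟩
  have hW := irr_evW hP hθS
  have hzero : ∀ (u : K) (w : κ), (u, w) ∈ S → (w = 0 ↔ O.valuation u < 1) := by
    intro u w hu
    obtain ⟨h1, h2⟩ := (hmem _ _).1 hu
    rw [← h2]
    exact hρ ⟨u, h1⟩
  obtain ⟨b, hab⟩ := hO.pr
  have h0 : evW y (ρ ⟨θ, hθ⟩) (f.map (toL k r)) = 0 := by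
    refine (hzero _ _ (hW _)).2 ?_
    rw [hm.root, map_zero]
    exact zero_lt_one
  have hG0 : evW y (ρ ⟨θ, hθ⟩) G = 0 := (hzero _ _ (hW _)).2 h
  intro i
  exact (hzero _ _ (hP _)).1
    (irr_core j hj hm.monic h0 hab hO.monic hO.irr hπ0 hy hz hg hG hG0 i)

end Pool.Agent.EVF
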