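import Pool.Agent.EVF.NpR
import Pool.Agent.CS2.Km2

/-!
# Independence of the radicals

The monomials `γ ^ i`, `0 ≤ i s < D`, in `D`-th roots `γ s` of the `x s` are linearly independent over `K(α)`: by
`CS2.radicals_indep` it is enough that no `w = γ ^ v` with `v ≠ 0`, `|v s| < D` is in `K(α)`. With `e = gcd(v, D)`, `D = e D'`,
`v = e v'` one has `w ^ D' = ω x ^ v'`, `ω ^ e = 1`, so for a prime `p ∣ D'` the element `x ^ v'` is a `p`-th power in `K(α)` and
`p` does not divide all `v' s`: a contradiction to `not_powR`.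
-/

open scoped BigOperators Polynomial
open Polynomial

namespace Pool.Agent.EVF

open Pool.Agent.CST Pool.Agent.CSG Pool.Agent.Helper11 Pool.Agent.ISI

private theorem kum_le {k K L : Type} [Field k] [Field K] [Field L] [Algebra k K] [Algebra K L]
    [Algebra k L] [IsScalarTower k K L] {α x : L} (hx : x ∈ IntermediateField.adjoin k {α}) :
    x ∈ IntermediateField.adjoin K {α} := by
  induction hx using IntermediateField.adjoin_induction with
  | mem x hx => exact IntermediateField.subset_adjoin K {α} hx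
  | algebraMap q =>
    rw [IsScalarTower.algebraMap_apply k K L]
    exact IntermediateField.algebraMap_mem _ _
  | add x y _ _ hx hy => exact add_mem hx hy
  | inv x _ hx => exact inv_mem hx
  | mul x y _ _ hx hy => exact mul_mem hx hy

private theorem kum_map {K L : Type} [Field K] [Field L] [Algebra K L] {r : ℕ} (x : Fin r → Kˣ)
    (v : Fin r → ℤ) : algebraMap K L ((mo x v : Kˣ) : K) = ∏ s, algebraMap K L (x s) ^ v s := by
  unfold mo
  rw [Units.coe_prod, map_prod]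
  refine Finset.prod_congr rfl fun s _ => ?_
  rw [Units.val_zpow_eq_zpow_val, map_zpow₀]

private theorem kum_pow {L : Type} [Field L] {r : ℕ} (a : Fin r → L) (v : Fin r → ℤ) (n : ℕ) :
    (∏ s, a s ^ v s) ^ n = ∏ s, (a s ^ n) ^ v s := by
  rw [← Finset.prod_pow]
  refine Finset.prod_congr rfl fun s _ => ?_
  rw [← zpow_natCast, ← zpow_natCast, ← zpow_mul, ← zpow_mul, mul_comm]

private theorem kum_key {k K L : Type} [Field k] [CharZero k] [Field K] [CharZero K] [Field L]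
    [CharZero L] [Algebra k K] [Algebra K L] [Algebra k L] [IsScalarTower k K L]
    (hc : CstK k K) {r : ℕ} {x : Fin r → Kˣ} (hp : NpM k x) {D : ℕ} (hD : 0 < D) {γ : Fin r → L}
    (hγ : ∀ i, γ i ^ D = algebraMap K L (x i)) {α : L} (hα : IsAlgebraic k α)
    (hn : Normal k (IntermediateField.adjoin k {α}))
    (hξ : ∃ ξ ∈ IntermediateField.adjoin k {α}, IsPrimitiveRoot ξ D) {v : Fin r → ℤ}
    (hv : ∀ s, |v s| < D) {s₀ : Fin r} (hv0 : v s₀ ≠ 0) :
    ∏ s, γ s ^ v s ∉ IntermediateField.adjoin K {α} := by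
  classical
  intro hw
  obtain ⟨ξ, hξm, hξp⟩ := hξ
  obtain ⟨w, hwdef⟩ : ∃ w : L, w = ∏ s, γ s ^ v s := ⟨_, rfl⟩
  rw [← hwdef] at hw
  obtain ⟨e, hedef⟩ : ∃ e : ℕ, e = Nat.gcd (Finset.univ.gcd fun s => (v s).natAbs) D := ⟨_, rfl⟩
  have he0 : 0 < e := by
    rw [hedef]
    exact Nat.gcd_pos_of_pos_right _ hD
  have heD : e ∣ D := by
    rw [hedef]
    exact Nat.gcd_dvd_right _ _
  have hev : ∀ s, (e : ℤ) ∣ v s := by
    intro s
    rw [Int.natCast_dvd, hedef]
    exact (Nat.gcd_dvd_left _ _).trans (Finset.gcd_dvd (Finset.mem_univ s))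
  have helt : e < D := by
    have h3 : (e : ℤ) ≤ |v s₀| := Int.le_of_dvd (abs_pos.2 hv0) ((dvd_abs _ _).2 (hev s₀))
    exact_mod_cast lt_of_le_of_lt h3 (hv s₀)
  obtain ⟨D', hD'⟩ := heD
  choose v' hv' using hev
  have hD'1 : D' ≠ 1 := by
    rintro rfl
    omega
  obtain ⟨p, hpp, hpD'⟩ := Nat.exists_prime_and_dvd hD'1
  obtain ⟨D'', hD''⟩ := hpD'
  -- `p` does not divide all `v' s`
  have hpuv : ¬ ∀ s, (p : ℤ) ∣ v' s := by
    intro hall
    have h3 : e * p ∣ e := by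
      conv_rhs => rw [hedef]
      refine Nat.dvd_gcd (Finset.dvd_gcd fun s _ => ?_) ⟨D'', by rw [hD', hD'']; ring⟩
      rw [← Int.natCast_dvd]
      obtain ⟨a, ha⟩ := hall s
      refine ⟨a, ?_⟩
      rw [hv' s, ha]
      push_cast
      ring
    have h4 := Nat.le_of_dvd he0 h3
    have h5 := hpp.two_le
    nlinarith
  -- the root of unity
  have hwD : w ^ D = algebraMap K L ((mo x v : Kˣ) : K) := by
    rw [hwdef, kum_pow, kum_map]
    exact Finset.prod_congr rfl fun s _ => by rw [hγ s]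
  obtain ⟨G, hG⟩ : ∃ G : L, G = algebraMap K L ((mo x v' : Kˣ) : K) := ⟨_, rfl⟩
  have hG0 : G ≠ 0 := by
    rw [hG]
    exact fun h => (mo x v').ne_zero ((map_eq_zero _).1 h)
  have hGe : G ^ e = algebraMap K L ((mo x v : Kˣ) : K) := by
    rw [hG, kum_map, kum_map, ← Finset.prod_pow]
    refine Finset.prod_congr rfl fun s _ => ?_
    rw [hv' s, ← zpow_natCast, ← zpow_mul, mul_comm]
  have hω : (w ^ D' / G) ^ e = 1 := by
    rw [div_pow, ← pow_mul, mul_comm D', ← hD', hwD, hGe]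
    exact div_self (by rw [← hGe]; exact pow_ne_zero _ hG0)
  have : NeZero e := ⟨he0.ne'⟩
  have hξe : IsPrimitiveRoot (ξ ^ D') e := hξp.pow hD (by rw [hD', mul_comm])
  obtain ⟨j, -, hj⟩ := hξe.eq_pow_of_pow_eq_one hω
  have hξ0 : ξ ≠ 0 := hξp.ne_zero hD.ne'
  have hfin : (w ^ D'' / ξ ^ (D'' * j)) ^ p = G := by
    have h3 : w ^ D' = (ξ ^ D') ^ j * G := by
      rw [hj]
      field_simp
    have h4 : (w ^ D'') ^ p = w ^ D' := by
      rw [← pow_mul, mul_comm D'', ← hD'']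
    have h5 : (ξ ^ (D'' * j)) ^ p = (ξ ^ D') ^ j := by
      rw [← pow_mul, ← pow_mul, hD'']
      congr 1
      ring
    rw [div_pow, h4, h5, h3]
    exact mul_div_cancel_left₀ _ (pow_ne_zero _ (pow_ne_zero _ hξ0))
  have hξp' : IsPrimitiveRoot (ξ ^ (e * D'')) p :=
    hξp.pow hD (by rw [hD', hD'']; ring)
  refine not_powR hc (mo x v').ne_zero hpp ?_ hα hn ⟨_, pow_mem hξm _, hξp'⟩
    (div_mem (pow_mem hw _) (pow_mem (kum_le hξm) _)) (hfin.trans hG)
  intro a u hau
  exact hpuv (hp p hpp v' a u hau)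

theorem kum {k K L : Type} [Field k] [CharZero k] [Field K] [CharZero K] [Field L]
    [CharZero L] [Algebra k K] [Algebra K L] [Algebra k L] [IsScalarTower k K L] [IsAlgClosed L]
    (hc : CstK k K) {r : ℕ} {x : Fin r → Kˣ} (hp : NpM k x) {D : ℕ} (hD : 0 < D) {γ : Fin r → L}
    (hγ : ∀ i, γ i ^ D = algebraMap K L (x i)) {α : L} (hα : IsAlgebraic k α)
    (hn : Normal k (IntermediateField.adjoin k {α}))
    (hξ : ∃ ξ ∈ IntermediateField.adjoin k {α}, IsPrimitiveRoot ξ D) (c : (Fin r → Fin D) → L)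
    (hcc : ∀ i, c i ∈ IntermediateField.adjoin K {α})
    (h0 : ∑ i, c i * ∏ s, γ s ^ (i s : ℕ) = 0) : ∀ i, c i = 0 := by
  classical
  have hγ0 : ∀ s, γ s ≠ 0 := by
    intro s h
    have h1 := hγ s
    rw [h, zero_pow hD.ne'] at h1
    exact (x s).ne_zero ((map_eq_zero _).1 h1.symm)
  have hξ' : ∃ ξ ∈ IntermediateField.adjoin K {α}, IsPrimitiveRoot ξ D := by
    obtain ⟨ξ, hξm, hξp⟩ := hξ
    exact ⟨ξ, kum_le hξm, hξp⟩
  have hmain := CS2.radicals_indep (IntermediateField.adjoin K {α}) hD hξ'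
    (Finset.univ : Finset (Fin r → Fin D)) (fun i => ∏ s, γ s ^ (i s : ℕ)) c
    (fun i _ => Finset.prod_ne_zero_iff.2 fun s _ => pow_ne_zero _ (hγ0 s)) ?_ ?_
    (fun i _ => hcc i) h0
  · exact fun i => hmain i (Finset.mem_univ i)
  · intro i _
    have h3 : (∏ s, γ s ^ (i s : ℕ)) ^ D = algebraMap K L (∏ s, (x s : K) ^ (i s : ℕ)) := by
      rw [← Finset.prod_pow, map_prod]
      refine Finset.prod_congr rfl fun s _ => ?_
      rw [map_pow, ← hγ s, ← pow_mul, ← pow_mul, mul_comm]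
    change (∏ s, γ s ^ (i s : ℕ)) ^ D ∈ _
    rw [h3]
    exact IntermediateField.algebraMap_mem _ _
  · intro i _ j _ hij hmem
    have h3 : (∏ s, γ s ^ (i s : ℕ)) / (∏ s, γ s ^ (j s : ℕ))
        = ∏ s, γ s ^ (((i s : ℕ) : ℤ) - ((j s : ℕ) : ℤ)) := by
      rw [← Finset.prod_div_distrib]
      refine Finset.prod_congr rfl fun s _ => ?_
      rw [zpow_sub₀ (hγ0 s), zpow_natCast, zpow_natCast]
    change (∏ s, γ s ^ (i s : ℕ)) / (∏ s, γ s ^ (j s : ℕ)) ∈ _ at hmem
    rw [h3] at hmem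
    obtain ⟨s₀, hs₀⟩ : ∃ s, i s ≠ j s := by
      by_contra hcon
      push Not at hcon
      exact hij (funext hcon)
    refine kum_key hc hp hD hγ hα hn hξ
      (v := fun s => ((i s : ℕ) : ℤ) - ((j s : ℕ) : ℤ)) ?_ (s₀ := s₀) ?_ hmem
    · intro s
      have h4 := (i s).isLt
      have h5 := (j s).isLt
      change |((i s : ℕ) : ℤ) - ((j s : ℕ) : ℤ)| < D
      rw [abs_lt]
      constructor <;> omega
    · intro h
      have h6 : ((i s₀ : ℕ) : ℤ) - ((j s₀ : ℕ) : ℤ) = 0 := h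
      exact hs₀ (Fin.ext (by omega))

end Pool.Agent.EVF
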