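import Pool.Agent.EVF.Defs

/-!
# Linear relations between exponents

A finite set `L` of linear forms on `ℤ ^ r × ℤ ^ N`. There is a finite set `V` of nonzero vectors such that, if `c` is
not orthogonal to an element of `V`, then for all `u` the elements `l` of `L` which vanish at `(c, u)` are killed by
one substitution `(D, m)`: `D * l.1 + ∑ p, l.2 p * m p = 0`.
-/

open scoped BigOperators Polynomial LaurentPolynomial
open Polynomial

namespace Pool.Agent.EVF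

/-- a common denominator -/
private theorem lin_den {ι : Type*} [Fintype ι] (x : ι → ℚ) :
    ∃ D : ℕ, 0 < D ∧ ∃ v : ι → ℤ, ∀ i, (v i : ℚ) = D * x i := by
  classical
  refine ⟨∏ i, (x i).den, Finset.prod_pos fun i _ => (x i).den_pos, ?_⟩
  have h : ∀ i, ∃ k : ℕ, ∏ j, (x j).den = (x i).den * k := fun i =>
    Finset.dvd_prod_of_mem (fun j => (x j).den) (Finset.mem_univ i)
  choose k hk using h
  refine ⟨fun i => (x i).num * k i, fun i => ?_⟩
  rw [hk i, Int.cast_mul, ← Rat.den_mul_eq_num (x i)]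
  push_cast
  ring

/-- the rational pair -/
private def lin_c {r N : ℕ} (l : (Fin r → ℤ) × (Fin N → ℤ)) : (Fin r → ℚ) × (Fin N → ℚ) :=
  (fun i => (l.1 i : ℚ), fun p => (l.2 p : ℚ))

/-- the span of a set of pairs -/
private def lin_s {r N : ℕ} (S : Finset ((Fin r → ℤ) × (Fin N → ℤ))) :
    Submodule ℚ ((Fin r → ℚ) × (Fin N → ℚ)) :=
  Submodule.span ℚ (lin_c '' (S : Set ((Fin r → ℤ) × (Fin N → ℤ))))

/-- the linear form given by `(c, u)` -/
private def lin_f {r N : ℕ} (c : Fin r → ℤ) (u : Fin N → ℤ) :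
    ((Fin r → ℚ) × (Fin N → ℚ)) →ₗ[ℚ] ℚ where
  toFun z := ∑ i, z.1 i * c i + ∑ p, z.2 p * u p
  map_add' z w := by
    simp only [Prod.fst_add, Prod.snd_add, Pi.add_apply, add_mul, Finset.sum_add_distrib]
    ring
  map_smul' a z := by
    simp only [Prod.smul_fst, Prod.smul_snd, Pi.smul_apply, smul_eq_mul, RingHom.id_apply, mul_add,
      Finset.mul_sum, mul_assoc]

private theorem lin_f_c {r N : ℕ} (c : Fin r → ℤ) (u : Fin N → ℤ)
    (l : (Fin r → ℤ) × (Fin N → ℤ)) : lin_f c u (lin_c l) = ((dt l.1 c + dt l.2 u : ℤ) : ℚ) := by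
  simp only [lin_f, lin_c, dt, LinearMap.coe_mk, AddHom.coe_mk]
  push_cast
  rfl

private theorem lin_map {r N : ℕ} (K : Submodule ℚ ((Fin r → ℚ) × (Fin N → ℚ)))
    (hK : ∀ x : Fin r → ℚ, ((x, 0) : (Fin r → ℚ) × (Fin N → ℚ)) ∈ K → x = 0) :
    ∃ φ : (Fin N → ℚ) →ₗ[ℚ] (Fin r → ℚ), ∀ z ∈ K, φ z.2 = - z.1 := by
  have hf : LinearMap.ker ((LinearMap.snd ℚ (Fin r → ℚ) (Fin N → ℚ)).domRestrict K) = ⊥ := by
    rw [LinearMap.ker_eq_bot']
    rintro ⟨⟨x, y⟩, hm⟩ h
    have hy : y = 0 := h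
    subst hy
    have hx := hK x hm
    subst hx
    rfl
  obtain ⟨g, hg⟩ := LinearMap.exists_leftInverse_of_injective _ hf
  refine ⟨-(LinearMap.fst ℚ (Fin r → ℚ) (Fin N → ℚ) ∘ₗ K.subtype ∘ₗ g), fun z hz => ?_⟩
  have h1 : g z.2 = ⟨z, hz⟩ := LinearMap.congr_fun hg ⟨z, hz⟩
  rw [LinearMap.neg_apply, LinearMap.comp_apply, LinearMap.comp_apply, h1]
  rfl

theorem exists_lin (r N : ℕ) (L : Finset ((Fin r → ℤ) × (Fin N → ℤ))) :
    ∃ V : Finset (Fin r → ℤ), (∀ v ∈ V, v ≠ 0) ∧ ∀ c : Fin r → ℤ, (∀ v ∈ V, dt v c ≠ 0) →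
      ∀ u : Fin N → ℤ, ∃ (D : ℕ) (m : Fin N → (Fin r → ℤ)), 0 < D ∧
        ∀ l ∈ L, dt l.1 c + dt l.2 u = 0 → ∀ i, (D : ℤ) * l.1 i + ∑ p, l.2 p * m p i = 0 := by
  classical
  let P : Finset ((Fin r → ℤ) × (Fin N → ℤ)) → (Fin r → ℤ) → Prop := fun S v =>
    v ≠ 0 ∧ lin_c (v, (0 : Fin N → ℤ)) ∈ lin_s S
  let ch : Finset ((Fin r → ℤ) × (Fin N → ℤ)) → (Fin r → ℤ) := fun S =>
    if h : ∃ v, P S v then h.choose else 0
  have hch : ∀ S, (∃ v, P S v) → P S (ch S) := by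
    intro S h
    have h1 : ch S = h.choose := dif_pos h
    rw [h1]
    exact h.choose_spec
  refine ⟨(L.powerset.filter fun S => ∃ v, P S v).image ch, ?_, ?_⟩
  · intro v hv
    obtain ⟨S, hS, rfl⟩ := Finset.mem_image.1 hv
    exact (hch S (Finset.mem_filter.1 hS).2).1
  intro c hc u
  set S := L.filter fun l => dt l.1 c + dt l.2 u = 0 with hSdef
  have hzero : ∀ z ∈ lin_s S, lin_f c u z = 0 := by
    intro z hz
    have h : lin_s S ≤ LinearMap.ker (lin_f c u) := by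
      refine Submodule.span_le.2 ?_
      rintro _ ⟨l, hl, rfl⟩
      have hl' : l ∈ S := hl
      rw [SetLike.mem_coe, LinearMap.mem_ker, lin_f_c, (Finset.mem_filter.1 hl').2, Int.cast_zero]
    exact h hz
  have hno : ¬ ∃ v, P S v := by
    intro h
    have h1 := hch S h
    have h2 : ch S ∈ (L.powerset.filter fun S => ∃ v, P S v).image ch :=
      Finset.mem_image_of_mem ch (Finset.mem_filter.2
        ⟨Finset.mem_powerset.2 (Finset.filter_subset _ _), h⟩)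
    have h3 := hzero _ h1.2
    rw [lin_f_c] at h3
    have h4 : dt (ch S) c + dt (0 : Fin N → ℤ) u = 0 := by exact_mod_cast h3
    have h5 : dt (0 : Fin N → ℤ) u = 0 := by
      simp only [dt, Pi.zero_apply, zero_mul, Finset.sum_const_zero]
    rw [h5, add_zero] at h4
    exact hc _ h2 h4
  have hinj : ∀ x : Fin r → ℚ, ((x, 0) : (Fin r → ℚ) × (Fin N → ℚ)) ∈ lin_s S → x = 0 := by
    intro x hx
    obtain ⟨D, hD, v, hv⟩ := lin_den x
    have h1 : lin_c (v, (0 : Fin N → ℤ)) ∈ lin_s S := by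
      have h2 : lin_c (v, (0 : Fin N → ℤ)) =
          (D : ℚ) • ((x, 0) : (Fin r → ℚ) × (Fin N → ℚ)) := by
        refine Prod.ext (funext fun i => ?_) (funext fun p => ?_)
        · exact hv i
        · simp [lin_c]
      rw [h2]
      exact Submodule.smul_mem _ _ hx
    have h3 : v = 0 := by
      by_contra h
      exact hno ⟨v, h, h1⟩
    funext i
    have h4 := hv i
    rw [h3, Pi.zero_apply, Int.cast_zero] at h4
    have h5 : (D : ℚ) ≠ 0 := by exact_mod_cast hD.ne'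
    exact (mul_eq_zero.1 h4.symm).resolve_left h5
  obtain ⟨φ, hφ⟩ := lin_map (lin_s S) hinj
  obtain ⟨D, hD, m, hm⟩ := lin_den fun q : Fin N × Fin r => φ (Pi.single q.1 1) q.2
  refine ⟨D, fun p i => m (p, i), hD, fun l hl h0 i => ?_⟩
  have hlS : l ∈ S := Finset.mem_filter.2 ⟨hl, h0⟩
  have h1 := hφ (lin_c l) (Submodule.subset_span ⟨l, hlS, rfl⟩)
  have h2 : φ (lin_c l).2 = ∑ p, (l.2 p : ℚ) • φ (Pi.single p 1) := by
    conv_lhs => rw [← Finset.univ_sum_single (lin_c l).2]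
    rw [map_sum]
    refine Finset.sum_congr rfl fun p _ => ?_
    rw [← map_smul, ← Pi.single_smul, smul_eq_mul, mul_one]
    rfl
  have h3 := congrFun (h2.symm.trans h1) i
  rw [Finset.sum_apply, Pi.neg_apply] at h3
  have h4 : ((D : ℤ) * l.1 i + ∑ p, l.2 p * m (p, i) : ℤ) = 0 := by
    have h5 : (((D : ℤ) * l.1 i + ∑ p, l.2 p * m (p, i) : ℤ) : ℚ) = 0 := by
      push_cast
      have h6 : ∑ p, (l.2 p : ℚ) * (m (p, i) : ℚ) =
          (D : ℚ) * ∑ p, ((l.2 p : ℚ) • φ (Pi.single p 1)) i := by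
        rw [Finset.mul_sum]
        refine Finset.sum_congr rfl fun p _ => ?_
        rw [hm (p, i), Pi.smul_apply, smul_eq_mul]
        ring
      rw [h6, h3]
      have h7 : (lin_c l).1 i = (l.1 i : ℚ) := rfl
      rw [h7]
      ring
    exact_mod_cast h5
  exact h4

end Pool.Agent.EVF
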