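import Pool.Agent.EVF.BDefs
import Pool.Agent.CSG.Low

/-!
# If `GeoM` fails then `θ` has a small degree over `k(α, γ)`

A factorisation of `f(X ^ D)` over the Laurent polynomials with algebraic coefficients is moved to the algebraically
closed field `L` by an embedding of the algebraic numbers which extends `k → L` and evaluated at `X i = γ i`,
`γ i ^ D = x i`; `θ` is a root of one of the factors, and `α` is a primitive element of a normal extension of `k`
which contains all coefficients and a primitive root of unity of order `D`.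
-/

open scoped BigOperators Polynomial
open Polynomial

namespace Pool.Agent.EVF

open Pool.Agent.CST Pool.Agent.CSG Pool.Agent.Helper11 Pool.Agent.ISI

/-- finitely many algebraic elements lie in a normal extension generated by one element -/
private theorem LoR_prim {k L : Type} [Field k] [CharZero k] [Field L] [CharZero L] [Algebra k L] [IsAlgClosed L]
    (S : Finset L) (hS : ∀ x ∈ S, IsAlgebraic k x) :
    ∃ α : L, IsAlgebraic k α ∧ Normal k (IntermediateField.adjoin k {α}) ∧
      ∀ x ∈ S, x ∈ IntermediateField.adjoin k {α} := by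
  classical
  set p : k[X] := ∏ x ∈ S, minpoly k x with hp
  have hp0 : p ≠ 0 := by
    rw [hp]
    exact Finset.prod_ne_zero_iff.2 fun x hx => minpoly.ne_zero (hS x hx).isIntegral
  set M : IntermediateField k L := IntermediateField.adjoin k (p.rootSet L) with hM
  have hspl := IntermediateField.adjoin_rootSet_isSplittingField (K := k) (L := L) (p := p)
    (IsAlgClosed.splits _)
  rw [← hM] at hspl
  have hfin := @IsSplittingField.finiteDimensional k M _ _ (IntermediateField.algebra' M) p hspl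
  have hnor := @Normal.of_isSplittingField k _ M _ (IntermediateField.algebra' M) p hspl
  obtain ⟨α, hα⟩ := @Field.exists_primitive_element k M _ _ (IntermediateField.algebra' M) hfin
    inferInstance
  have hαM : IntermediateField.adjoin k {(α : L)} = M := by
    rw [← IntermediateField.lift_adjoin_simple, hα, IntermediateField.lift_top]
  refine ⟨(α : L), ?_, ?_, ?_⟩
  · have h1 : IsIntegral k (α : L) :=
      (@IsIntegral.of_finite k M _ _ (IntermediateField.algebra' M) hfin α).map M.val
    exact h1.isAlgebraic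
  · rw [hαM]
    exact hnor
  · intro x hx
    rw [hαM, hM]
    refine IntermediateField.subset_adjoin k _ ?_
    rw [mem_rootSet]
    refine ⟨hp0, ?_⟩
    rw [hp, map_prod]
    exact Finset.prod_eq_zero hx (minpoly.aeval k x)

/-- the substitution `X i = X i ^ D` over a field `E` -/
private noncomputable def LoR_sub {E : Type} [Field E] {r : ℕ} (D : ℕ) : MvPolynomial (Fin r) E →+* LR E r :=
  (MvPolynomial.aeval fun i =>
    (AddMonoidAlgebra.single (Pi.single i (D : ℤ)) (1 : E) : LR E r)).toRingHom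

private theorem LoR_sub_C {E : Type} [Field E] {r : ℕ} (D : ℕ) (c : E) :
    LoR_sub (r := r) D (MvPolynomial.C c) = AddMonoidAlgebra.single 0 c := by
  unfold LoR_sub
  change MvPolynomial.aeval _ (MvPolynomial.C c) = _
  rw [MvPolynomial.aeval_C]
  rfl

private theorem LoR_sub_X {E : Type} [Field E] {r : ℕ} (D : ℕ) (i : Fin r) :
    LoR_sub (E := E) D (MvPolynomial.X i) = AddMonoidAlgebra.single (Pi.single i (D : ℤ)) (1 : E) := by
  unfold LoR_sub
  change MvPolynomial.aeval _ (MvPolynomial.X i) = _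
  rw [MvPolynomial.aeval_X]

private theorem LoR_mu {E : Type} [Field E] (ι : E →+* ℂ) {r : ℕ} (D : ℕ) :
    (AddMonoidAlgebra.mapRingHom (Fin r → ℤ) ι).comp (LoR_sub D) =
      (subD D).comp (MvPolynomial.map ι) := by
  have h : (subD (r := r) D) = LoR_sub D := rfl
  rw [h]
  refine MvPolynomial.ringHom_ext (fun c => ?_) (fun i => ?_)
  · rw [RingHom.comp_apply, RingHom.comp_apply, MvPolynomial.map_C, LoR_sub_C, LoR_sub_C]
    exact AddMonoidAlgebra.mapRingHom_single ι 0 c
  · rw [RingHom.comp_apply, RingHom.comp_apply, MvPolynomial.map_X, LoR_sub_X, LoR_sub_X]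
    have h1 := AddMonoidAlgebra.mapRingHom_single ι (Pi.single i (D : ℤ) : Fin r → ℤ) (1 : E)
    rw [map_one] at h1
    exact h1

private theorem LoR_mo_single {r : ℕ} {G : Type*} [CommGroup G] (x : Fin r → G) (i : Fin r) (n : ℤ) :
    mo x (Pi.single i n) = x i ^ n := by
  classical
  unfold mo
  rw [Finset.prod_eq_single i]
  · rw [Pi.single_eq_same]
  · intro b _ hb
    rw [Pi.single_eq_of_ne hb, zpow_zero]
  · intro h
    exact absurd (Finset.mem_univ i) h

private theorem LoR_evx_single {k K : Type} [Field k] [Field K] [Algebra k K] {r : ℕ} (x : Fin r → Kˣ)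
    (e : Fin r → ℤ) (c : k) :
    evx x (AddMonoidAlgebra.single e c : LR k r) = algebraMap k K c * ((mo x e : Kˣ) : K) := by
  unfold evx
  rw [AddMonoidAlgebra.lift_single, Algebra.smul_def]
  rfl

private theorem LoR_toL_C {k : Type} [Field k] {r : ℕ} (c : k) :
    toL k r (MvPolynomial.C c) = AddMonoidAlgebra.single 0 c := by
  unfold toL
  change MvPolynomial.aeval _ (MvPolynomial.C c) = _
  rw [MvPolynomial.aeval_C]
  rfl

private theorem LoR_toL_X {k : Type} [Field k] {r : ℕ} (i : Fin r) :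
    toL k r (MvPolynomial.X i) = AddMonoidAlgebra.single (Pi.single i (1 : ℤ)) (1 : k) := by
  unfold toL
  change MvPolynomial.aeval _ (MvPolynomial.X i) = _
  rw [MvPolynomial.aeval_X]

/-- the two evaluations agree -/
private theorem LoR_ring {k E K L : Type} [Field k] [Field K] [Field E] [Field L] [Algebra k K] [Algebra K L]
    [Algebra k L] [IsScalarTower k K L] (j : k →+* E) (σ : E →+* L) (hσ : ∀ x, σ (j x) = algebraMap k L x)
    {r D : ℕ} {x : Fin r → Kˣ} {γ : Fin r → Lˣ} (hγ : ∀ i, (γ i : L) ^ D = algebraMap K L (x i)) :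
    (((evx γ : LR L r →ₐ[L] L).toRingHom.comp (AddMonoidAlgebra.mapRingHom (Fin r → ℤ) σ)).comp
      ((LoR_sub D).comp (MvPolynomial.map j))) =
    (algebraMap K L).comp ((evx x : LR k r →ₐ[k] K).toRingHom.comp (toL k r)) := by
  refine MvPolynomial.ringHom_ext (fun c => ?_) (fun i => ?_)
  · rw [RingHom.comp_apply, RingHom.comp_apply, RingHom.comp_apply, RingHom.comp_apply, RingHom.comp_apply,
      MvPolynomial.map_C, LoR_sub_C, LoR_toL_C, AddMonoidAlgebra.mapRingHom_single]
    change evx γ (AddMonoidAlgebra.single 0 (σ (j c)) : LR L r) =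
      algebraMap K L (evx x (AddMonoidAlgebra.single 0 c : LR k r))
    rw [LoR_evx_single, LoR_evx_single, mo_zero, mo_zero, hσ, Units.val_one, Units.val_one, mul_one, mul_one,
      ← IsScalarTower.algebraMap_apply]
    exact IsScalarTower.algebraMap_apply k K L c
  · rw [RingHom.comp_apply, RingHom.comp_apply, RingHom.comp_apply, RingHom.comp_apply, RingHom.comp_apply,
      MvPolynomial.map_X, LoR_sub_X, LoR_toL_X, AddMonoidAlgebra.mapRingHom_single, map_one]
    change evx γ (AddMonoidAlgebra.single (Pi.single i (D : ℤ)) 1 : LR L r) =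
      algebraMap K L (evx x (AddMonoidAlgebra.single (Pi.single i (1 : ℤ)) 1 : LR k r))
    rw [LoR_evx_single, LoR_evx_single, LoR_mo_single, LoR_mo_single, map_one, map_one, one_mul, one_mul,
      zpow_natCast, zpow_one, Units.val_pow_eq_pow_val, hγ]

/-- `θ` is a root of the substituted polynomial -/
private theorem LoR_root {k E K L : Type} [Field k] [Field K] [Field E] [Field L] [Algebra k K] [Algebra K L]
    [Algebra k L] [IsScalarTower k K L] (j : k →+* E) (σ : E →+* L) (hσ : ∀ x, σ (j x) = algebraMap k L x)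
    {r D : ℕ} {x : Fin r → Kˣ} {θ : K} {f : (MvPolynomial (Fin r) k)[X]}
    (hr : evW x θ (f.map (toL k r)) = 0) {γ : Fin r → Lˣ}
    (hγ : ∀ i, (γ i : L) ^ D = algebraMap K L (x i)) :
    evW γ (algebraMap K L θ) ((((f.map (MvPolynomial.map j)).map (LoR_sub D))).map
      (AddMonoidAlgebra.mapRingHom (Fin r → ℤ) σ)) = 0 := by
  have h1 : eval₂ ((evx x : LR k r →ₐ[k] K).toRingHom.comp (toL k r)) θ f = 0 := by
    have h := hr
    unfold evW at h
    rw [coe_eval₂RingHom, eval₂_map] at h
    exact h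
  unfold evW
  rw [coe_eval₂RingHom, eval₂_map, eval₂_map, eval₂_map, RingHom.comp_assoc, LoR_ring j σ hσ hγ,
    ← Polynomial.hom_eval₂, h1, map_zero]

theorem exists_lowR {k K L : Type} [Field k] [CharZero k] [Field K] [CharZero K] [Field L]
    [CharZero L] [Algebra k K] [Algebra K L] [Algebra k L] [IsScalarTower k K L] [IsAlgClosed L]
    (hk : Algebra.IsAlgebraic ℚ k) (j : k →+* ℂ) {r : ℕ} {x : Fin r → Kˣ} {θ : K}
    {f : (MvPolynomial (Fin r) k)[X]} (hm : Md x θ f)
    (hf : ¬ GeoM (f.map (MvPolynomial.map j))) :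
    ∃ (D : ℕ) (γ : Fin r → Lˣ) (α : L), 0 < D ∧ (∀ i, (γ i : L) ^ D = algebraMap K L (x i)) ∧
      IsAlgebraic k α ∧ Normal k (IntermediateField.adjoin k {α}) ∧
      (∃ ξ ∈ IntermediateField.adjoin k {α}, IsPrimitiveRoot ξ D) ∧
      ∃ G : (LR L r)[X], G.Monic ∧ G.natDegree < f.natDegree ∧
        (∀ i n, (G.coeff i).coeff n ∈ IntermediateField.adjoin k {α}) ∧
        evW γ (algebraMap K L θ) G = 0 := by
  classical
  unfold GeoM at hf
  push Not at hf
  obtain ⟨D, hD, G1, H1, hG1, hH1, hGa, hHa, hGH, hG0, hH0⟩ := hf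
  -- the field of the algebraic numbers
  let E : IntermediateField ℚ ℂ := algebraicClosure ℚ ℂ
  have hEalg : Algebra.IsAlgebraic ℚ E := ⟨fun x =>
    (isAlgebraic_algebraMap_iff (R := ℚ) (S := E) (A := ℂ) (algebraMap E ℂ).injective).1
      (mem_algebraicClosure_iff.1 x.2)⟩
  have hmemE : ∀ z : ℂ, IsAlgebraic ℚ z → z ∈ E := fun z hz => mem_algebraicClosure_iff.2 hz
  have hjE : ∀ x : k, j x ∈ E := fun x =>
    hmemE _ ((Algebra.IsAlgebraic.isAlgebraic (R := ℚ) x).algHom j.toRatAlgHom)
  let jE : k →+* E := j.codRestrict E.toSubfield.toSubring hjE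
  let ι : E →+* ℂ := algebraMap E ℂ
  have hιj : ι.comp jE = j := RingHom.ext fun x => rfl
  have hιinj : Function.Injective ι := (algebraMap E ℂ).injective
  let _ : Algebra k E := jE.toAlgebra
  have : IsScalarTower ℚ k E := IsScalarTower.of_algebraMap_eq' (Subsingleton.elim _ _)
  have hkE : Algebra.IsAlgebraic k E := Algebra.IsAlgebraic.tower_top (K := ℚ) k
  let σ : E →ₐ[k] L := IsAlgClosed.lift
  have hσ : ∀ x, (σ : E →+* L) (jE x) = algebraMap k L x := fun x => σ.commutes x
  -- roots
  have hroots : ∀ i, ∃ c : Lˣ, (c : L) ^ D = algebraMap K L (x i) := by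
    intro i
    obtain ⟨c, hc⟩ := IsAlgClosed.exists_pow_nat_eq (algebraMap K L (x i)) hD
    have hc0 : c ≠ 0 := by
      intro h0
      rw [h0, zero_pow hD.ne'] at hc
      exact (x i).ne_zero ((map_eq_zero (algebraMap K L)).1 hc.symm)
    exact ⟨Units.mk0 c hc0, hc⟩
  choose γ hγ using hroots
  -- lifting
  have hlift : ∀ P : (LR ℂ r)[X], P.Monic → (∀ i n, IsAlgebraic ℚ ((P.coeff i).coeff n)) →
      ∃ Q : (LR E r)[X], Q.map (AddMonoidAlgebra.mapRingHom (Fin r → ℤ) ι) = P ∧
        Q.natDegree = P.natDegree ∧ Q.Monic := by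
    intro P hP hPa
    refine lifts_and_natDegree_eq_and_monic ?_ hP
    rw [lifts_iff_coeff_lifts]
    intro i
    refine ⟨∑ n ∈ (P.coeff i).coeff.support,
      (AddMonoidAlgebra.single n (⟨(P.coeff i).coeff n, hmemE _ (hPa i n)⟩ : E) : LR E r), ?_⟩
    rw [map_sum]
    have h1 : ∀ n ∈ (P.coeff i).coeff.support, AddMonoidAlgebra.mapRingHom (Fin r → ℤ) ι
        (AddMonoidAlgebra.single n (⟨(P.coeff i).coeff n, hmemE _ (hPa i n)⟩ : E) : LR E r) =
        AddMonoidAlgebra.single n ((P.coeff i).coeff n) := by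
      intro n _
      rw [AddMonoidAlgebra.mapRingHom_single]
      rfl
    rw [Finset.sum_congr rfl h1]
    exact AddMonoidAlgebra.sum_coeff_single _
  obtain ⟨G2, hG2, hG2d, hG2m⟩ := hlift G1 hG1 hGa
  obtain ⟨H2, hH2, hH2d, hH2m⟩ := hlift H1 hH1 hHa
  have hμinj : Function.Injective (AddMonoidAlgebra.mapRingHom (Fin r → ℤ) ι : LR E r →+* LR ℂ r) := by
    intro P Q hPQ
    refine AddMonoidAlgebra.ext (Finsupp.ext fun n => hιinj ?_)
    rw [← AddMonoidAlgebra.coeff_mapRingHom ι P n, ← AddMonoidAlgebra.coeff_mapRingHom ι Q n, hPQ]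
  have hfac : (f.map (MvPolynomial.map jE)).map (LoR_sub D) = G2 * H2 := by
    apply Polynomial.map_injective _ hμinj
    rw [Polynomial.map_mul, hG2, hH2, ← hGH, Polynomial.map_map, LoR_mu, ← Polynomial.map_map,
      Polynomial.map_map (MvPolynomial.map jE)]
    congr 2
    rw [← hιj]
    exact RingHom.ext fun p => MvPolynomial.map_map jE ι p
  have hroot := LoR_root jE (σ : E →+* L) hσ hm.root hγ
  rw [hfac, Polynomial.map_mul, map_mul] at hroot
  have hsum : G2.natDegree + H2.natDegree ≤ f.natDegree := by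
    rw [← hG2m.natDegree_mul hH2m, ← hfac]
    exact natDegree_map_le.trans natDegree_map_le
  have hdec : ∃ G : (LR E r)[X], G.Monic ∧ G.natDegree < f.natDegree ∧
      evW γ (algebraMap K L θ) (G.map (AddMonoidAlgebra.mapRingHom (Fin r → ℤ) (σ : E →+* L))) = 0 := by
    rcases mul_eq_zero.1 hroot with h | h
    · exact ⟨G2, hG2m, by omega, h⟩
    · exact ⟨H2, hH2m, by omega, h⟩
  obtain ⟨G, hG, hGd, hGr⟩ := hdec
  have hD' : ((D : ℕ) : L) ≠ 0 := Nat.cast_ne_zero.2 hD.ne'
  have : NeZero ((D : ℕ) : L) := ⟨hD'⟩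
  obtain ⟨ξ, hξ⟩ := HasEnoughRootsOfUnity.exists_primitiveRoot L D
  set S : Finset L := {ξ} ∪ (Finset.range (G.natDegree + 1)).biUnion fun i =>
    (G.coeff i).coeff.support.image (fun n => (σ : E →+* L) ((G.coeff i).coeff n)) with hS
  have hSa : ∀ x ∈ S, IsAlgebraic k x := by
    intro x hx
    rw [hS, Finset.mem_union, Finset.mem_singleton, Finset.mem_biUnion] at hx
    rcases hx with rfl | ⟨i, -, hx⟩
    · have h1 : IsAlgebraic k (x ^ D) := by
        rw [hξ.pow_eq_one]
        exact isAlgebraic_one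
      exact h1.of_pow hD
    · rw [Finset.mem_image] at hx
      obtain ⟨n, -, rfl⟩ := hx
      exact (Algebra.IsAlgebraic.isAlgebraic (R := k) _).algHom σ
  obtain ⟨α, hα1, hα2, hα3⟩ := LoR_prim S hSa
  refine ⟨D, γ, α, hD, hγ, hα1, hα2, ⟨ξ, hα3 ξ ?_, hξ⟩,
    G.map (AddMonoidAlgebra.mapRingHom (Fin r → ℤ) (σ : E →+* L)), hG.map _, ?_, ?_, hGr⟩
  · rw [hS]
    exact Finset.mem_union_left _ (Finset.mem_singleton_self _)
  · rw [hG.natDegree_map]
    exact hGd
  · intro i n
    rw [coeff_map, AddMonoidAlgebra.coeff_mapRingHom]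
    by_cases hi : i ≤ G.natDegree
    · by_cases hn : n ∈ (G.coeff i).coeff.support
      · have hir : i ∈ Finset.range (G.natDegree + 1) := Finset.mem_range.2 (by omega)
        refine hα3 _ ?_
        rw [hS]
        exact Finset.mem_union_right _ (Finset.mem_biUnion.2 ⟨i, hir, Finset.mem_image.2 ⟨n, hn, rfl⟩⟩)
      · rw [Finsupp.notMem_support_iff.1 hn, map_zero]
        exact zero_mem _
    · rw [coeff_eq_zero_of_natDegree_lt (by omega)]
      change (σ : E →+* L) 0 ∈ _
      rw [map_zero]
      exact zero_mem _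

end Pool.Agent.EVF
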