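import Pool.Agent.EVF.BDefs

/-!
# A primitive element integral over `ℤ[x]`

A primitive element `θ₀` of `K` over `k(x)` is algebraic over `ℤ[x]`, so a multiple `θ = d(x) θ₀`, `d ≠ 0`, is integral
over `ℤ[x]`.
-/

open scoped BigOperators Polynomial
open Polynomial

namespace Pool.Agent.EVF

open Pool.Agent.CST Pool.Agent.CSG Pool.Agent.Helper11 Pool.Agent.ISI

private theorem mda_trans {R F K : Type} [CommRing R] [IsDomain R] [Field F] [Field K] [Algebra R K]
    [Algebra F K] (hF : ∀ c : F, IsAlgebraic R (algebraMap F K c)) (hK : Algebra.IsAlgebraic F K)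
    (z : K) : IsAlgebraic R z := by
  let j : F →+* Subalgebra.algebraicClosure R K :=
    (algebraMap F K).codRestrict (Subalgebra.algebraicClosure R K) hF
  let : Algebra F (Subalgebra.algebraicClosure R K) := j.toAlgebra
  have h0 : IsScalarTower F (Subalgebra.algebraicClosure R K) K :=
    IsScalarTower.of_algebraMap_eq fun _ => rfl
  have h1 : IsAlgebraic (Subalgebra.algebraicClosure R K) z :=
    (hK.isAlgebraic z).extendScalars j.injective
  exact h1.restrictScalars R

private theorem mda_aeval_mem {k K : Type} [Field k] [Field K] [Algebra k K] {r : ℕ}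
    (x : Fin r → K) (d : MvPolynomial (Fin r) ℤ) :
    MvPolynomial.aeval x d ∈ IntermediateField.adjoin k (Set.range x) := by
  rw [MvPolynomial.aeval_def, MvPolynomial.eval₂_eq]
  refine sum_mem fun m _ => mul_mem ?_ (prod_mem fun i _ => pow_mem ?_ _)
  · exact intCast_mem _ _
  · exact IntermediateField.subset_adjoin k _ ⟨i, rfl⟩

theorem exists_theta {k K : Type} [Field k] [CharZero k] [Field K] [CharZero K] [Algebra k K]
    (hk : Algebra.IsAlgebraic ℚ k) {r : ℕ} {x : Fin r → Kˣ}
    (hx : AlgebraicIndependent k fun i => (x i : K))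
    (hK : FiniteDimensional (IntermediateField.adjoin k (Set.range fun i => (x i : K))) K) :
    ∃ (θ : K) (P : (MvPolynomial (Fin r) ℤ)[X]), P.Monic ∧
      P.eval₂ (MvPolynomial.aeval fun i => (x i : K)).toRingHom θ = 0 ∧
      IntermediateField.adjoin k (Set.range (fun i => (x i : K)) ∪ {θ}) = ⊤ := by
  classical
  set X : Fin r → K := fun i => (x i : K) with hX
  set F : IntermediateField k K := IntermediateField.adjoin k (Set.range X) with hF
  obtain ⟨θ₀, hθ₀⟩ := Field.exists_primitive_element F K
  have hxZ : AlgebraicIndependent ℤ X := hx.restrictScalars (algebraMap ℤ k).injective_int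
  let : Algebra (MvPolynomial (Fin r) ℤ) K := (MvPolynomial.aeval X).toRingHom.toAlgebra
  have hmap : ∀ d : MvPolynomial (Fin r) ℤ,
      algebraMap (MvPolynomial (Fin r) ℤ) K d = MvPolynomial.aeval X d := fun _ => rfl
  have hinj : Function.Injective (algebraMap (MvPolynomial (Fin r) ℤ) K) := hxZ
  have htow : IsScalarTower ℤ (MvPolynomial (Fin r) ℤ) K :=
    IsScalarTower.of_algebraMap_eq fun a => by
      rw [hmap, MvPolynomial.algebraMap_eq, MvPolynomial.aeval_C]
  have hc : ∀ c : k, IsAlgebraic (MvPolynomial (Fin r) ℤ) (algebraMap k K c) := by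
    intro c
    have h1 : IsAlgebraic ℤ c := (IsFractionRing.isAlgebraic_iff ℤ ℚ k).2 (hk.isAlgebraic c)
    have h2 : IsAlgebraic ℤ (algebraMap k K c) := h1.algebraMap
    exact h2.extendScalars (MvPolynomial.C_injective (Fin r) ℤ)
  have hFa : ∀ c : F, IsAlgebraic (MvPolynomial (Fin r) ℤ) (algebraMap F K c) := by
    rintro ⟨c, hc'⟩
    change IsAlgebraic (MvPolynomial (Fin r) ℤ) c
    rw [hF] at hc'
    induction hc' using IntermediateField.adjoin_induction with
    | mem y hy =>
      obtain ⟨i, rfl⟩ := hy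
      have h1 : X i = algebraMap (MvPolynomial (Fin r) ℤ) K (MvPolynomial.X i) := by
        rw [hmap, MvPolynomial.aeval_X]
      rw [h1]
      exact isAlgebraic_algebraMap _
    | algebraMap y => exact hc y
    | add y z _ _ h1 h2 => exact h1.add h2
    | inv y _ h1 => exact h1.inv
    | mul y z _ _ h1 h2 => exact h1.mul h2
  have hθa : IsAlgebraic (MvPolynomial (Fin r) ℤ) θ₀ :=
    mda_trans hFa (Algebra.IsAlgebraic.of_finite F K) θ₀
  obtain ⟨d, hd, P, hP, hP'⟩ := hθa.exists_integral_multiple
  have hd0 : MvPolynomial.aeval X d ≠ 0 := by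
    rw [← hmap]
    exact (map_ne_zero_iff _ hinj).2 hd
  refine ⟨d • θ₀, P, hP, hP', ?_⟩
  rw [← IntermediateField.adjoin_adjoin_left]
  have h1 : IntermediateField.adjoin F {d • θ₀} = ⊤ := by
    rw [← top_le_iff, ← hθ₀, IntermediateField.adjoin_simple_le_iff]
    have h2 : θ₀ = algebraMap F K (⟨MvPolynomial.aeval X d, mda_aeval_mem X d⟩ : F)⁻¹ *
        (d • θ₀) := by
      rw [map_inv₀]
      change θ₀ = (MvPolynomial.aeval X d)⁻¹ * (MvPolynomial.aeval X d * θ₀)
      rw [inv_mul_cancel_left₀ hd0]
    rw [h2]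
    refine mul_mem (algebraMap_mem _ _) ?_
    rw [← h2]
    exact IntermediateField.mem_adjoin_simple_self F _
  rw [h1, IntermediateField.restrictScalars_top]

end Pool.Agent.EVF
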