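import Pool.Agent.EVF.MdA

/-!
# Existence of a model

`θ` from `exists_theta`; `f` is the minimal polynomial of `θ` over the polynomial ring
`MvPolynomial (Fin r) k`, which is integrally closed.
-/

open scoped BigOperators Polynomial
open Polynomial

namespace Pool.Agent.EVF

open Pool.Agent.CST Pool.Agent.CSG Pool.Agent.Helper11 Pool.Agent.ISI

private theorem mdB_single {k : Type} [Field k] {r : ℕ} (e : Fin r → ℕ) (a : k) :
    toL k r (MvPolynomial.monomial (Finsupp.equivFunOnFinite.symm e) a) =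
      (AddMonoidAlgebra.single (fun i => (e i : ℤ)) a : LR k r) := by
  have h1 : ∀ (i : Fin r) (n : ℕ), (AddMonoidAlgebra.single (Pi.single i (1 : ℤ)) (1 : k) : LR k r) ^ n =
      AddMonoidAlgebra.single (n • Pi.single i (1 : ℤ)) (1 : k) := by
    intro i n
    rw [AddMonoidAlgebra.single_pow, one_pow]
  have h2 : ∀ s : Finset (Fin r),
      ∏ i ∈ s, (AddMonoidAlgebra.single (e i • Pi.single i (1 : ℤ)) (1 : k) : LR k r) =
        AddMonoidAlgebra.single (∑ i ∈ s, e i • (Pi.single i (1 : ℤ) : Fin r → ℤ)) (1 : k) := by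
    classical
    intro s
    induction s using Finset.induction_on with
    | empty => rw [Finset.prod_empty, Finset.sum_empty]; rfl
    | insert i s hi ih =>
      rw [Finset.prod_insert hi, Finset.sum_insert hi, ih, AddMonoidAlgebra.single_mul_single,
        one_mul]
  unfold toL
  rw [AlgHom.toRingHom_eq_coe, RingHom.coe_coe, MvPolynomial.aeval_monomial,
    Finsupp.prod_fintype _ _ (fun i => pow_zero _)]
  simp only [Finsupp.equivFunOnFinite_symm_apply_apply]
  rw [Finset.prod_congr rfl fun i _ => h1 i (e i), h2]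
  have h3 : (∑ i, e i • (Pi.single i (1 : ℤ) : Fin r → ℤ)) = fun i => (e i : ℤ) := by
    funext j
    rw [Finset.sum_apply, Finset.sum_eq_single j]
    · simp
    · intro i _ hij
      simp [Pi.single_eq_of_ne' hij]
    · intro h
      exact absurd (Finset.mem_univ j) h
  rw [h3]
  change AddMonoidAlgebra.single 0 a * _ = _
  rw [AddMonoidAlgebra.single_mul_single, zero_add, mul_one]

private theorem mdB_clear {k : Type} [Field k] {r : ℕ} (c : LR k r) :
    ∃ N : ℕ, ∀ n : ℕ, N ≤ n →
      (AddMonoidAlgebra.single (fun _ => (n : ℤ)) (1 : k) : LR k r) * c ∈ Set.range (toL k r) := by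
  induction c using AddMonoidAlgebra.induction_linear with
  | zero => exact ⟨0, fun n _ => ⟨0, by rw [map_zero, mul_zero]⟩⟩
  | add f g hf hg =>
    obtain ⟨N, hN⟩ := hf
    obtain ⟨M, hM⟩ := hg
    refine ⟨max N M, fun n hn => ?_⟩
    obtain ⟨p, hp⟩ := hN n ((le_max_left _ _).trans hn)
    obtain ⟨q, hq⟩ := hM n ((le_max_right _ _).trans hn)
    exact ⟨p + q, by rw [map_add, hp, hq, mul_add]⟩
  | single e a =>
    refine ⟨Finset.univ.sup fun i => (e i).natAbs, fun n hn => ?_⟩
    have h1 : ∀ i, 0 ≤ (n : ℤ) + e i := by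
      intro i
      have h2 : (e i).natAbs ≤ n :=
        (Finset.le_sup (f := fun i => (e i).natAbs) (Finset.mem_univ i)).trans hn
      omega
    refine ⟨MvPolynomial.monomial
      (Finsupp.equivFunOnFinite.symm fun i => ((n : ℤ) + e i).toNat) a, ?_⟩
    rw [mdB_single, AddMonoidAlgebra.single_mul_single, one_mul]
    congr 1
    funext i
    rw [Int.toNat_of_nonneg (h1 i)]
    rfl

private theorem mdB_poly {k : Type} [Field k] {r : ℕ} (G : (LR k r)[X]) :
    ∃ (n : ℕ) (g : (MvPolynomial (Fin r) k)[X]),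
      g.map (toL k r) = C (AddMonoidAlgebra.single (fun _ => (n : ℤ)) (1 : k) : LR k r) * G ∧
        g.degree ≤ G.degree := by
  choose N hN using fun i => mdB_clear (G.coeff i)
  set n := G.support.sup N with hn
  have h1 : C (AddMonoidAlgebra.single (fun _ => (n : ℤ)) (1 : k) : LR k r) * G ∈
      Polynomial.lifts (toL k r) := by
    rw [Polynomial.lifts_iff_coeff_lifts]
    intro i
    rw [coeff_C_mul]
    by_cases hi : i ∈ G.support
    · exact hN i n (Finset.le_sup hi)
    · rw [notMem_support_iff.1 hi, mul_zero]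
      exact ⟨0, map_zero _⟩
  obtain ⟨g, hg, hd⟩ := Polynomial.exists_degree_eq_of_mem_lifts h1
  refine ⟨n, g, hg, ?_⟩
  rw [hd]
  refine (degree_mul_le _ _).trans ?_
  calc _ ≤ 0 + G.degree := add_le_add degree_C_le le_rfl
    _ = G.degree := zero_add _

private theorem mdB_unit {k : Type} [Field k] {r : ℕ} (n : ℕ) {G : (LR k r)[X]}
    (h : C (AddMonoidAlgebra.single (fun _ => (n : ℤ)) (1 : k) : LR k r) * G = 0) : G = 0 := by
  have h1 : C (AddMonoidAlgebra.single (fun _ => -(n : ℤ)) (1 : k) : LR k r) *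
      (C (AddMonoidAlgebra.single (fun _ => (n : ℤ)) (1 : k) : LR k r) * G) = 0 := by
    rw [h, mul_zero]
  rw [← mul_assoc, ← C_mul, AddMonoidAlgebra.single_mul_single, one_mul] at h1
  have h2 : ((fun _ => -(n : ℤ)) + (fun _ => (n : ℤ)) : Fin r → ℤ) = 0 := by
    funext i
    simp
  rw [h2] at h1
  change C (1 : LR k r) * G = 0 at h1
  rwa [C_1, one_mul] at h1

private theorem mdB_evx {k K : Type} [Field k] [Field K] [Algebra k K] {r : ℕ} (x : Fin r → Kˣ) :
    (evx x : LR k r →ₐ[k] K).toRingHom.comp (toL k r) =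
      (MvPolynomial.aeval fun i => (x i : K) : MvPolynomial (Fin r) k →ₐ[k] K).toRingHom := by
  have h1 : (evx x : LR k r →ₐ[k] K).comp (MvPolynomial.aeval fun i =>
      (AddMonoidAlgebra.single (Pi.single i (1 : ℤ)) (1 : k) : LR k r)) =
      (MvPolynomial.aeval fun i => (x i : K) : MvPolynomial (Fin r) k →ₐ[k] K) := by
    refine MvPolynomial.algHom_ext fun i => ?_
    rw [AlgHom.comp_apply, MvPolynomial.aeval_X, MvPolynomial.aeval_X]
    unfold evx
    rw [AddMonoidAlgebra.lift_single, one_smul]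
    change ((mo x (Pi.single i (1 : ℤ)) : Kˣ) : K) = _
    have h2 : mo x (Pi.single i (1 : ℤ)) = x i := by
      unfold mo
      rw [Finset.prod_eq_single i]
      · rw [Pi.single_eq_same, zpow_one]
      · intro j _ hj
        rw [Pi.single_eq_of_ne hj, zpow_zero]
      · intro h
        exact absurd (Finset.mem_univ i) h
    rw [h2]
  have h3 := congrArg AlgHom.toRingHom h1
  exact h3

private theorem mdB_evW {k K : Type} [Field k] [Field K] [Algebra k K] {r : ℕ} (x : Fin r → Kˣ)
    (θ : K) (g : (MvPolynomial (Fin r) k)[X]) :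
    evW x θ (g.map (toL k r)) = g.eval₂
      (MvPolynomial.aeval fun i => (x i : K) : MvPolynomial (Fin r) k →ₐ[k] K).toRingHom θ := by
  unfold evW
  rw [coe_eval₂RingHom, eval₂_map, mdB_evx]

/-- the elements of `k[x, θ]` -/
private theorem mdB_adj {k K : Type} [Field k] [Field K] [Algebra k K] {r : ℕ} (x : Fin r → Kˣ)
    (θ : K) {y : K}
    (hy : y ∈ Algebra.adjoin k (Set.range (fun i => (x i : K)) ∪ {θ})) :
    ∃ g : (MvPolynomial (Fin r) k)[X], y = g.eval₂
      (MvPolynomial.aeval fun i => (x i : K) : MvPolynomial (Fin r) k →ₐ[k] K).toRingHom θ := by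
  induction hy using Algebra.adjoin_induction with
  | mem y hy =>
    rcases hy with ⟨i, rfl⟩ | hy
    · exact ⟨C (MvPolynomial.X i), by rw [eval₂_C]; simp⟩
    · rw [Set.mem_singleton_iff] at hy
      exact ⟨X, by rw [eval₂_X, hy]⟩
  | algebraMap a => exact ⟨C (MvPolynomial.C a), by rw [eval₂_C]; simp⟩
  | add y z _ _ hy hz =>
    obtain ⟨g, rfl⟩ := hy
    obtain ⟨h, rfl⟩ := hz
    exact ⟨g + h, by rw [eval₂_add]⟩
  | mul y z _ _ hy hz =>
    obtain ⟨g, rfl⟩ := hy
    obtain ⟨h, rfl⟩ := hz
    exact ⟨g * h, by rw [eval₂_mul]⟩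

theorem exists_md {k K : Type} [Field k] [CharZero k] [Field K] [CharZero K] [Algebra k K]
    (hk : Algebra.IsAlgebraic ℚ k) {r : ℕ} {x : Fin r → Kˣ}
    (hx : AlgebraicIndependent k fun i => (x i : K))
    (hK : FiniteDimensional (IntermediateField.adjoin k (Set.range fun i => (x i : K))) K) :
    ∃ (θ : K) (f : (MvPolynomial (Fin r) k)[X]), Md x θ f := by
  obtain ⟨θ, P, hP, hPθ, htop⟩ := exists_theta hk hx hK
  set φ : MvPolynomial (Fin r) k →ₐ[k] K := MvPolynomial.aeval fun i => (x i : K) with hφ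
  have hinj : Function.Injective φ := hx
  let := φ.toRingHom.toAlgebra
  have hmap : algebraMap (MvPolynomial (Fin r) k) K = φ.toRingHom := rfl
  have hF : FaithfulSMul (MvPolynomial (Fin r) k) K :=
    (faithfulSMul_iff_algebraMap_injective _ _).2 hinj
  have hT : Module.IsTorsionFree (MvPolynomial (Fin r) k) K :=
    Module.isTorsionFree_iff_faithfulSMul.2 hF
  -- `θ` is integral
  set P' : (MvPolynomial (Fin r) k)[X] := P.map (MvPolynomial.map (algebraMap ℤ k)) with hP'
  have hP'm : P'.Monic := hP.map _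
  have hP'θ : aeval θ P' = 0 := by
    rw [aeval_def, hP', eval₂_map, hmap]
    have h1 : φ.toRingHom.comp (MvPolynomial.map (algebraMap ℤ k)) =
        (MvPolynomial.aeval fun i => (x i : K) : MvPolynomial (Fin r) ℤ →ₐ[ℤ] K).toRingHom := by
      refine MvPolynomial.ringHom_ext (fun n => ?_) fun i => ?_
      · simp
      · simp [hφ]
    rw [h1]
    exact hPθ
  have hint : IsIntegral (MvPolynomial (Fin r) k) θ := ⟨P', hP'm, hP'θ⟩
  have hfm := minpoly.monic hint
  refine ⟨θ, minpoly (MvPolynomial (Fin r) k) θ, hx, hfm, ?_, ?_, ?_, ?_, ?_⟩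
  · -- integrality of the coefficients
    have hdvd : minpoly (MvPolynomial (Fin r) k) θ ∣ P' :=
      minpoly.isIntegrallyClosed_dvd hint hP'θ
    intro i m
    let := MvPolynomial.algebraMvPolynomial (R := ℤ) (S := k) (σ := Fin r)
    have h1 := Polynomial.isIntegral_coeff_of_dvd (R := MvPolynomial (Fin r) ℤ)
      (S := MvPolynomial (Fin r) k) P _ hP hfm hdvd i
    exact (MvPolynomial.isIntegral_iff_isIntegral_coeff.1 h1) m
  · rw [mdB_evW]
    exact minpoly.aeval (MvPolynomial (Fin r) k) θ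
  · intro G hG hG0
    obtain ⟨n, g, hg, hd⟩ := mdB_poly G
    have h1 : aeval θ g = 0 := by
      rw [aeval_def, hmap, ← mdB_evW, hg, map_mul, hG0, mul_zero]
    have h2 : g = 0 := by
      by_contra hne
      have h3 := minpoly.IsIntegrallyClosed.degree_le_of_ne_zero hne h1
      have h4 : (minpoly (MvPolynomial (Fin r) k) θ).degree ≤ G.degree := h3.trans hd
      have h5 := natDegree_le_natDegree h4
      exact absurd hG (not_lt.2 h5)
    rw [h2, Polynomial.map_zero] at hg
    exact mdB_unit n hg.symm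
  · intro y
    have hy : y ∈ IntermediateField.adjoin k (Set.range (fun i => (x i : K)) ∪ {θ}) := by
      rw [htop]
      exact IntermediateField.mem_top
    obtain ⟨a, ha, b, hb, rfl⟩ := IntermediateField.mem_adjoin_iff_div.1 hy
    by_cases hb0 : b = 0
    · refine ⟨1, 0, one_ne_zero, ?_⟩
      rw [hb0, div_zero, mul_zero, map_zero]
    obtain ⟨ga, rfl⟩ := mdB_adj x θ ha
    obtain ⟨gb, hgb⟩ := mdB_adj x θ hb
    have hbint : IsIntegral (MvPolynomial (Fin r) k) b := by
      rw [hgb]
      exact adjoin_le_integralClosure hint (aeval_mem_adjoin_singleton _ _)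
    obtain ⟨q, hq0, hq⟩ := hbint.isAlgebraic.exists_nonzero_coeff_and_aeval_eq_zero
      (mem_nonZeroDivisors_of_ne_zero hb0)
    have h1 : b * aeval b q.divX = - φ (q.coeff 0) := by
      have h2 := congrArg (aeval b) q.X_mul_divX_add
      rw [map_add, map_mul, aeval_X, aeval_C, hq] at h2
      exact eq_neg_of_add_eq_zero_left h2
    have h2 : ∃ gc : (MvPolynomial (Fin r) k)[X], aeval b q.divX = gc.eval₂ φ.toRingHom θ := by
      refine ⟨q.divX.comp gb, ?_⟩
      rw [hgb, ← hmap]
      change aeval (aeval θ gb) q.divX = aeval θ (q.divX.comp gb)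
      rw [aeval_comp]
    obtain ⟨gc, hgc⟩ := h2
    refine ⟨toL k r (- q.coeff 0), (ga * gc).map (toL k r), ?_, ?_⟩
    · intro h3
      have h4 := DFunLike.congr_fun (mdB_evx (k := k) x) (- q.coeff 0)
      rw [RingHom.comp_apply, h3, map_zero] at h4
      have h5 : φ (- q.coeff 0) = 0 := h4.symm
      rw [map_neg, neg_eq_zero] at h5
      exact hq0 (hinj (h5.trans (map_zero φ).symm))
    · have h4 : evx x (toL k r (- q.coeff 0)) = φ (- q.coeff 0) :=
        DFunLike.congr_fun (mdB_evx (k := k) x) (- q.coeff 0)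
      rw [h4, mdB_evW, eval₂_mul, map_neg, ← h1]
      change _ = _ * gc.eval₂ φ.toRingHom θ
      rw [← hgc]
      field_simp
  · exact minpoly.natDegree_pos hint

end Pool.Agent.EVF
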