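import Pool.Agent.EVF.BDefs
import Pool.Agent.CSG.Npo

/-!
# Powers in `K(α)`, one prime

As `CSG.not_powK`, with the hypothesis on `h` only for the prime `p`. If `u ^ p = h`, `u ∈ M = K(α)`, then `M / K` is
Galois, `σ u / u` is a `p`-th root of unity, so it is in `k(α)`, and `u = c * β` with `c ∈ K`, `β ∈ k(α)` (a form of
Hilbert 90). So `β ^ p = h / c ^ p` is algebraic over `k` and in `K`, so in `k`.
-/

open scoped BigOperators Polynomial
open Polynomial

namespace Pool.Agent.EVF

open Pool.Agent.CST Pool.Agent.CSG Pool.Agent.Helper11 Pool.Agent.ISI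

/-- a form of Hilbert 90 -/
private theorem NpR_desc {K M : Type} [Field K] [Field M] [Algebra K M] [FiniteDimensional K M]
    [IsGalois K M] (F : Subfield M) (hF : ∀ σ : M ≃ₐ[K] M, ∀ x ∈ F, σ x ∈ F) {α : M} (hαF : α ∈ F)
    (hα : Algebra.adjoin K {α} = ⊤) {h : M} (h0 : h ≠ 0) (hu : ∀ σ : M ≃ₐ[K] M, σ h / h ∈ F) :
    ∃ k : K, ∃ β ∈ F, k ≠ 0 ∧ h = algebraMap K M k * β := by
  classical
  set u : (M ≃ₐ[K] M) → M := fun σ => σ h / h with hudef
  have hu0 : ∀ σ, u σ ≠ 0 := fun σ => div_ne_zero (by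
    intro h1
    exact h0 ((map_eq_zero σ).1 h1)) h0
  have hcoc : ∀ τ σ : M ≃ₐ[K] M, u (τ * σ) = τ (u σ) * u τ := by
    intro τ σ
    have hτ : τ h ≠ 0 := fun h1 => h0 ((map_eq_zero τ).1 h1)
    change τ (σ h) / h = τ (σ h / h) * (τ h / h)
    rw [map_div₀]
    field_simp
  let b : M →ₗ[K] M := ∑ σ : M ≃ₐ[K] M, (u σ)⁻¹ • (σ.toLinearMap)
  have hb : ∀ x, b x = ∑ σ : M ≃ₐ[K] M, (u σ)⁻¹ * σ x := by
    intro x
    simp [b, LinearMap.sum_apply]
  have hne : ∃ x, b x ≠ 0 := by
    by_contra hno
    push Not at hno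
    have hli := linearIndependent_monoidHom M M
    have hinj : Function.Injective (fun σ : M ≃ₐ[K] M => ((σ : M →ₐ[K] M) : M →* M)) := by
      intro σ τ hst
      ext x
      exact DFunLike.congr_fun hst x
    have hli2 := hli.comp _ hinj
    have h1 := Fintype.linearIndependent_iff.1 hli2 (fun σ => (u σ)⁻¹) (by
      ext x
      have := hno x
      rw [hb] at this
      simpa [Finset.sum_apply] using this) 1
    exact inv_ne_zero (hu0 1) h1
  have hpow : ∃ i : ℕ, b (α ^ i) ≠ 0 := by
    by_contra hno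
    push Not at hno
    obtain ⟨x, hx⟩ := hne
    have hxm : x ∈ Algebra.adjoin K {α} := by
      rw [hα]
      trivial
    rw [Algebra.adjoin_singleton_eq_range_aeval] at hxm
    obtain ⟨P, rfl⟩ := hxm
    apply hx
    change b (aeval α P) = 0
    rw [aeval_eq_sum_range, map_sum]
    refine Finset.sum_eq_zero fun i _ => ?_
    rw [map_smul, hno, smul_zero]
  obtain ⟨i, hi⟩ := hpow
  have hβF : b (α ^ i) ∈ F := by
    rw [hb]
    exact sum_mem fun σ _ => mul_mem (inv_mem (hu σ)) (hF σ _ (pow_mem hαF i))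
  have hτ : ∀ τ : M ≃ₐ[K] M, τ (b (α ^ i)) = u τ * b (α ^ i) := by
    intro τ
    rw [hb, map_sum, Finset.mul_sum, ← Equiv.sum_comp (Equiv.mulLeft τ) (fun σ => u τ * ((u σ)⁻¹ * σ (α ^ i)))]
    refine Finset.sum_congr rfl fun σ _ => ?_
    change τ ((u σ)⁻¹ * σ (α ^ i)) = u τ * ((u (τ * σ))⁻¹ * (τ * σ) (α ^ i))
    rw [hcoc, map_mul, map_inv₀, mul_inv]
    have h1 := hu0 τ
    change _ = u τ * ((τ (u σ))⁻¹ * (u τ)⁻¹ * τ (σ (α ^ i)))
    field_simp
  have hfix : ∀ τ : M ≃ₐ[K] M, τ (h / b (α ^ i)) = h / b (α ^ i) := by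
    intro τ
    have h1 : τ h = u τ * h := by
      change τ h = τ h / h * h
      rw [div_mul_cancel₀ _ h0]
    rw [map_div₀, hτ, h1, mul_div_mul_left _ _ (hu0 τ)]
  obtain ⟨k, hk⟩ := (IsGalois.mem_range_algebraMap_iff_fixed (F := K) (h / b (α ^ i))).2 hfix
  refine ⟨k, b (α ^ i), hβF, ?_, ?_⟩
  · rintro rfl
    rw [map_zero] at hk
    exact div_ne_zero h0 hi hk.symm
  · rw [hk, div_mul_cancel₀ _ hi]

/-- the conjugates of the elements of a normal extension -/
private theorem NpR_conj {k L : Type} [Field k] [Field L] [CharZero L] [Algebra k L] {F : IntermediateField k L} (hn : Normal k F) {x y : L}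
    (hx : x ∈ F) (hy : aeval y (minpoly k x) = 0) : y ∈ F := by
  have h1 := hn.splits (⟨x, hx⟩ : F)
  have h2 : minpoly k (⟨x, hx⟩ : F) = minpoly k x := by
    exact (minpoly.algebraMap_eq (algebraMap F L).injective (⟨x, hx⟩ : F)).symm
  rw [h2] at h1
  have h3 : ((minpoly k x).map (algebraMap k L)).Splits := by
    have h4 := h1.map (algebraMap F L)
    rwa [Polynomial.map_map, ← IsScalarTower.algebraMap_eq] at h4
  have hix : IsIntegral k x := by
    have h5 : IsIntegral k (⟨x, hx⟩ : F) := Normal.isIntegral hn _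
    exact h5.map (IsScalarTower.toAlgHom k F L)
  refine (IntermediateField.splits_iff_mem h3).1 h1 y ?_
  rw [mem_rootSet]
  exact ⟨minpoly.ne_zero hix, hy⟩

private theorem NpR_galois {k K L : Type} [Field k] [CharZero k] [Field K] [CharZero K] [Field L] [CharZero L]
    [Algebra k K] [Algebra K L] [Algebra k L] [IsScalarTower k K L] (hc : CstK k K) {α : L} (hα : IsAlgebraic k α) (hn : Normal k (IntermediateField.adjoin k {α})) :
    IsGalois K (IntermediateField.adjoin K {α}) := by
  have hαF : α ∈ IntermediateField.adjoin k {α} := IntermediateField.mem_adjoin_simple_self k α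
  have hαM : α ∈ IntermediateField.adjoin K {α} := IntermediateField.mem_adjoin_simple_self K α
  have hle : ∀ x ∈ IntermediateField.adjoin k {α}, x ∈ IntermediateField.adjoin K {α} := by
    intro x hx
    have h1 : IntermediateField.adjoin k {α} ≤ (IntermediateField.adjoin K {α}).restrictScalars k := by
      rw [IntermediateField.adjoin_le_iff]
      intro y hy
      rw [Set.mem_singleton_iff] at hy
      rw [hy]
      exact hαM
    exact h1 hx
  have hroot : ∀ y : L, aeval y (minpoly k α) = 0 → y ∈ IntermediateField.adjoin K {α} := fun y hy =>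
    hle y (NpR_conj hn hαF hy)
  have hsp : ((minpoly k α).map (algebraMap k L)).Splits := by
    have h1 := hn.splits (⟨α, hαF⟩ : IntermediateField.adjoin k {α})
    have h2 : minpoly k (⟨α, hαF⟩ : IntermediateField.adjoin k {α}) = minpoly k α :=
      (minpoly.algebraMap_eq (algebraMap (IntermediateField.adjoin k {α}) L).injective _).symm
    rw [h2] at h1
    have h4 := h1.map (algebraMap (IntermediateField.adjoin k {α}) L)
    rwa [Polynomial.map_map, ← IsScalarTower.algebraMap_eq] at h4
  have hm := minpoly_mapK (K := K) hc hα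
  have hspK : ((minpoly K α).map (algebraMap K L)).Splits := by
    rw [hm, Polynomial.map_map, ← IsScalarTower.algebraMap_eq]
    exact hsp
  have hiK : IsIntegral K α := hα.isIntegral.tower_top
  have hrs : ∀ y ∈ (minpoly K α).rootSet L, y ∈ IntermediateField.adjoin K {α} := by
    intro y hy
    rw [mem_rootSet] at hy
    apply hroot
    rw [← aeval_map_algebraMap K, ← hm]
    exact hy.2
  have hSF : (minpoly K α).IsSplittingField K (IntermediateField.adjoin K {α}) := by
    refine IntermediateField.isSplittingField_iff.2 ⟨(IntermediateField.splits_iff_mem hspK).2 hrs, ?_⟩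
    apply le_antisymm
    · rw [IntermediateField.adjoin_le_iff]
      intro y hy
      rw [Set.mem_singleton_iff] at hy
      rw [hy]
      refine IntermediateField.subset_adjoin K _ ?_
      rw [mem_rootSet]
      exact ⟨minpoly.ne_zero hiK, minpoly.aeval K α⟩
    · rw [IntermediateField.adjoin_le_iff]
      exact hrs
  have hN : Normal K (IntermediateField.adjoin K {α}) := Normal.of_isSplittingField (minpoly K α)
  exact isGalois_iff.2 ⟨inferInstance, hN⟩

private theorem NpR_main {k K L : Type} [Field k] [CharZero k] [Field K] [CharZero K] [Field L]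
    [CharZero L] [Algebra k K] [Algebra K L] [Algebra k L] [IsScalarTower k K L]
    (hc : CstK k K) {g : K} (hg0 : g ≠ 0) {p : ℕ} (hp : p.Prime)
    (hg : ∀ (a : k) (u : K), g ≠ algebraMap k K a * u ^ p) {α : L}
    (hα : IsAlgebraic k α) (hn : Normal k (IntermediateField.adjoin k {α}))
    (hξ : ∃ ξ ∈ IntermediateField.adjoin k {α}, IsPrimitiveRoot ξ p) {h : L}
    (hh : h ∈ IntermediateField.adjoin K {α}) : h ^ p ≠ algebraMap K L g := by
  intro hpow
  have hG := NpR_galois hc hα hn
  have hiK : IsIntegral K α := hα.isIntegral.tower_top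
  have hfd : FiniteDimensional K (IntermediateField.adjoin K {α}) := IntermediateField.adjoin.finiteDimensional hiK
  have hαF : α ∈ IntermediateField.adjoin k {α} := IntermediateField.mem_adjoin_simple_self k α
  have hαM : α ∈ IntermediateField.adjoin K {α} := IntermediateField.mem_adjoin_simple_self K α
  have hg0' : algebraMap K L g ≠ 0 := fun h1 => hg0 ((map_eq_zero _).1 h1)
  have h0 : h ≠ 0 := by
    rintro rfl
    rw [zero_pow hp.ne_zero] at hpow
    exact hg0' hpow.symm
  obtain ⟨ξ, hξF, hξp⟩ := hξ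
  have : NeZero p := ⟨hp.ne_zero⟩
  have htow : IsScalarTower k (IntermediateField.adjoin K {α}) L := by
    refine IsScalarTower.of_algebraMap_eq fun x => ?_
    rw [IsScalarTower.algebraMap_apply k K L, IsScalarTower.algebraMap_apply k K (IntermediateField.adjoin K {α})]
    rfl
  let F : Subfield (IntermediateField.adjoin K {α}) :=
    (IntermediateField.adjoin k {α}).toSubfield.comap (algebraMap (IntermediateField.adjoin K {α}) L)
  have hFm : ∀ x : IntermediateField.adjoin K {α}, x ∈ F ↔ (x : L) ∈ IntermediateField.adjoin k {α} := fun x => Iff.rfl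
  have hF : ∀ σ : (IntermediateField.adjoin K {α}) ≃ₐ[K] (IntermediateField.adjoin K {α}), ∀ x ∈ F, σ x ∈ F := by
    intro σ x hx
    rw [hFm] at hx ⊢
    refine NpR_conj hn hx ?_
    have h1 : aeval x (minpoly k (x : L)) = 0 := by
      have h2 := minpoly.aeval k (x : L)
      have h3 : aeval (algebraMap (IntermediateField.adjoin K {α}) L x) (minpoly k (x : L)) = 0 := h2
      rw [aeval_algebraMap_apply] at h3
      exact (map_eq_zero _).1 h3
    have h4 : aeval (σ x) (minpoly k (x : L)) = 0 := by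
      have h5 := congrArg (σ.restrictScalars k).toAlgHom h1
      rw [← aeval_algHom_apply, map_zero] at h5
      exact h5
    have h6 : aeval (algebraMap (IntermediateField.adjoin K {α}) L (σ x)) (minpoly k (x : L)) = 0 := by
      rw [aeval_algebraMap_apply, h4, map_zero]
    exact h6
  have hadj : Algebra.adjoin K {(⟨α, hαM⟩ : IntermediateField.adjoin K {α})} = ⊤ := by
    have h1 := (IntermediateField.adjoin.powerBasis hiK).adjoin_gen_eq_top
    rw [IntermediateField.adjoin.powerBasis_gen] at h1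
    exact h1
  have hu : ∀ σ : (IntermediateField.adjoin K {α}) ≃ₐ[K] (IntermediateField.adjoin K {α}),
      σ ⟨h, hh⟩ / ⟨h, hh⟩ ∈ F := by
    intro σ
    have h1 : (⟨h, hh⟩ : IntermediateField.adjoin K {α}) ^ p = algebraMap K (IntermediateField.adjoin K {α}) g := by
      apply Subtype.ext
      exact hpow
    have h2 : (σ ⟨h, hh⟩ / (⟨h, hh⟩ : IntermediateField.adjoin K {α})) ^ p = 1 := by
      rw [div_pow, ← map_pow, h1, AlgEquiv.commutes]
      exact div_self fun h3 => hg0 ((map_eq_zero _).1 h3)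
    have h3 : ((σ ⟨h, hh⟩ / (⟨h, hh⟩ : IntermediateField.adjoin K {α}) : IntermediateField.adjoin K {α}) : L) ^ p = 1 := by
      have h4 := congrArg Subtype.val h2
      exact h4
    obtain ⟨i, _, hi⟩ := hξp.eq_pow_of_pow_eq_one h3
    rw [hFm, ← hi]
    exact pow_mem hξF i
  obtain ⟨c, β, hβ, hk, hkβ⟩ := NpR_desc F hF (α := ⟨α, hαM⟩) hαF hadj (h := ⟨h, hh⟩) (by
    intro h1
    exact h0 (congrArg Subtype.val h1)) hu
  have hβL : (β : L) ∈ IntermediateField.adjoin k {α} := hβ
  have e1 : h = algebraMap K L c * (β : L) := congrArg Subtype.val hkβ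
  have hkp : c ^ p ≠ 0 := pow_ne_zero p hk
  have hkp' : algebraMap K L (c ^ p) ≠ 0 := fun h1 => hkp ((map_eq_zero _).1 h1)
  have e2 : (β : L) ^ p = algebraMap K L (g / c ^ p) := by
    rw [map_div₀, ← hpow, e1, mul_pow, map_pow, mul_div_cancel_left₀]
    rwa [map_pow] at hkp'
  have hβa : IsAlgebraic k (β : L) := by
    have h5 : IsIntegral k (⟨(β : L), hβL⟩ : IntermediateField.adjoin k {α}) := Normal.isIntegral hn _
    exact (h5.map (IsScalarTower.toAlgHom k (IntermediateField.adjoin k {α}) L)).isAlgebraic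
  have h6 : IsAlgebraic k (algebraMap K L (g / c ^ p)) := by
    rw [← e2]
    exact hβa.pow p
  have h7 : IsAlgebraic k (g / c ^ p) := (isAlgebraic_algebraMap_iff (algebraMap K L).injective).1 h6
  obtain ⟨q, hq⟩ := hc _ h7
  exact hg q c (by rw [hq, div_mul_cancel₀ _ hkp])

theorem not_powR {k K L : Type} [Field k] [CharZero k] [Field K] [CharZero K] [Field L]
    [CharZero L] [Algebra k K] [Algebra K L] [Algebra k L] [IsScalarTower k K L]
    (hc : CstK k K) {h : K} (hh0 : h ≠ 0) {p : ℕ} (hp : p.Prime)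
    (hh : ∀ (a : k) (u : K), h ≠ algebraMap k K a * u ^ p) {α : L}
    (hα : IsAlgebraic k α) (hn : Normal k (IntermediateField.adjoin k {α}))
    (hξ : ∃ ξ ∈ IntermediateField.adjoin k {α}, IsPrimitiveRoot ξ p) {u : L}
    (hu : u ∈ IntermediateField.adjoin K {α}) : u ^ p ≠ algebraMap K L h := by
  exact NpR_main hc hh0 hp hh hα hn hξ hu

end Pool.Agent.EVF
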