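import Pool.Agent.EVF.Defs

/-!
# Parseval

`∑ ‖a n‖ ^ 2` is at most the square of the supremum of `‖∑ a n t ^ n‖` over the unit circle:
average over the `N`-th roots of unity, `N` larger than all differences of the exponents.
-/

open scoped BigOperators Polynomial LaurentPolynomial
open Polynomial

namespace Pool.Agent.EVF

private theorem evfpar_geom {N : ℕ} {ζ : ℂ} (hζ : IsPrimitiveRoot ζ N) (d : ℤ)
    (hd : |d| < (N : ℤ)) :
    ∑ j ∈ Finset.range N, (ζ ^ d) ^ j = if d = 0 then (N : ℂ) else 0 := by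
  split_ifs with h
  · simp [h]
  · have h1 : ζ ^ d ≠ 1 := by
      intro h1
      rw [hζ.zpow_eq_one_iff_dvd] at h1
      exact h (Int.eq_zero_of_abs_lt_dvd h1 hd)
    have h2 : (ζ ^ d) ^ N = 1 := by
      rw [← zpow_natCast, ← zpow_mul, mul_comm, zpow_mul, zpow_natCast, hζ.pow_eq_one, one_zpow]
    have h4 : (ζ ^ d - 1) * ∑ j ∈ Finset.range N, (ζ ^ d) ^ j = 0 := by
      rw [mul_geom_sum, h2, sub_self]
    exact (mul_eq_zero.mp h4).resolve_left (sub_ne_zero.mpr h1)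

private theorem evfpar_sq (s : Finset ℤ) (a : ℤ → ℂ) {t : ℂ} (ht : ‖t‖ = 1) :
    ((‖∑ n ∈ s, a n * t ^ n‖ ^ 2 : ℝ) : ℂ) =
      ∑ n ∈ s, ∑ m ∈ s, a n * (starRingEnd ℂ) (a m) * t ^ (n - m) := by
  have ht0 : t ≠ 0 := by
    intro h
    rw [h, norm_zero] at ht
    exact zero_ne_one ht
  have hc : (starRingEnd ℂ) t = t⁻¹ := (Complex.inv_eq_conj ht).symm
  rw [Complex.ofReal_pow, ← Complex.mul_conj', map_sum, Finset.sum_mul_sum]
  refine Finset.sum_congr rfl fun n _ => Finset.sum_congr rfl fun m _ => ?_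
  rw [map_mul, map_zpow₀, hc, zpow_sub₀ ht0, inv_zpow]
  ring

theorem parseval (s : Finset ℤ) (a : ℤ → ℂ) {C : ℝ}
    (hC : ∀ t : ℂ, ‖t‖ = 1 → ‖∑ n ∈ s, a n * t ^ n‖ ≤ C) : ∑ n ∈ s, ‖a n‖ ^ 2 ≤ C ^ 2 := by
  obtain ⟨B, hB⟩ : ∃ B : ℕ, ∀ n ∈ s, |n| < (B : ℤ) := by
    refine ⟨∑ n ∈ s, (|n|.toNat + 1), fun n hn => ?_⟩
    have h1 : |n|.toNat + 1 ≤ ∑ n ∈ s, (|n|.toNat + 1) :=
      Finset.single_le_sum (f := fun n : ℤ => |n|.toNat + 1) (fun _ _ => Nat.zero_le _) hn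
    have h2 : ((|n|.toNat : ℕ) : ℤ) = |n| := Int.toNat_of_nonneg (abs_nonneg n)
    omega
  set N : ℕ := 2 * B + 1 with hN
  have hN0 : N ≠ 0 := by omega
  have hζ := Complex.isPrimitiveRoot_exp N hN0
  set ζ : ℂ := Complex.exp (2 * Real.pi * Complex.I / N) with hζd
  have hn1 : ‖ζ‖ = 1 := hζ.norm'_eq_one hN0
  have hj : ∀ j : ℕ, ‖ζ ^ j‖ = 1 := fun j => by rw [norm_pow, hn1, one_pow]
  have key : ((∑ j ∈ Finset.range N, ‖∑ n ∈ s, a n * (ζ ^ j) ^ n‖ ^ 2 : ℝ) : ℂ) =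
      ((N * ∑ n ∈ s, ‖a n‖ ^ 2 : ℝ) : ℂ) := by
    rw [Complex.ofReal_sum]
    simp_rw [evfpar_sq s a (hj _)]
    rw [Finset.sum_comm]
    push_cast
    rw [Finset.mul_sum]
    refine Finset.sum_congr rfl fun n hn => ?_
    rw [Finset.sum_comm]
    have h1 : ∀ m ∈ s, ∑ j ∈ Finset.range N, a n * (starRingEnd ℂ) (a m) * (ζ ^ j) ^ (n - m) =
        if n = m then (N : ℂ) * (‖a n‖ : ℂ) ^ 2 else 0 := by
      intro m hm
      have hd : |n - m| < (N : ℤ) := by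
        have h1 := hB n hn
        have h2 := hB m hm
        have h3 : |n - m| ≤ |n| + |m| := abs_sub n m
        rw [hN]
        push_cast
        omega
      have h2 : ∀ j ∈ Finset.range N, a n * (starRingEnd ℂ) (a m) * (ζ ^ j) ^ (n - m) =
          a n * (starRingEnd ℂ) (a m) * (ζ ^ (n - m)) ^ j := by
        intro j _
        congr 1
        rw [← zpow_natCast, ← zpow_natCast, ← zpow_mul, ← zpow_mul, mul_comm]
      rw [Finset.sum_congr rfl h2, ← Finset.mul_sum, evfpar_geom hζ _ hd]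
      by_cases h : n = m
      · subst h
        rw [if_pos (sub_self n), if_pos rfl, ← Complex.mul_conj']
        ring
      · rw [if_neg (sub_ne_zero.mpr h), if_neg h, mul_zero]
    rw [Finset.sum_congr rfl h1, Finset.sum_ite_eq s n, if_pos hn]
  have key2 : ∑ j ∈ Finset.range N, ‖∑ n ∈ s, a n * (ζ ^ j) ^ n‖ ^ 2 =
      N * ∑ n ∈ s, ‖a n‖ ^ 2 := by exact_mod_cast key
  have hub : ∑ j ∈ Finset.range N, ‖∑ n ∈ s, a n * (ζ ^ j) ^ n‖ ^ 2 ≤ N * C ^ 2 := by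
    calc ∑ j ∈ Finset.range N, ‖∑ n ∈ s, a n * (ζ ^ j) ^ n‖ ^ 2
        ≤ ∑ _j ∈ Finset.range N, C ^ 2 := Finset.sum_le_sum fun j _ =>
          pow_le_pow_left₀ (norm_nonneg _) (hC _ (hj j)) 2
      _ = N * C ^ 2 := by rw [Finset.sum_const, Finset.card_range, nsmul_eq_mul]
  rw [key2] at hub
  have hNpos : (0 : ℝ) < N := by exact_mod_cast Nat.pos_of_ne_zero hN0
  exact le_of_mul_le_mul_left hub hNpos

end Pool.Agent.EVF
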