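import Pool.Agent.EVF.BDefs

/-!
# Primitive vectors

A nonzero integral vector is a nonzero multiple of a primitive one (Bezout), and the monomials with
nonzero exponent in algebraically independent elements are transcendental.
-/

open scoped BigOperators Polynomial
open Polynomial

namespace Pool.Agent.EVF

open Pool.Agent.CST Pool.Agent.CSG Pool.Agent.Helper11 Pool.Agent.ISI

theorem exists_prim {r : ℕ} {v : Fin r → ℤ} (hv : v ≠ 0) :
    ∃ (m : ℤ) (a b : Fin r → ℤ), m ≠ 0 ∧ dt a b = 1 ∧ v = m • a := by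
  classical
  obtain ⟨m, hm⟩ := (IsPrincipalIdealRing.principal (Ideal.span (Set.range v))).principal
  have hm1 : m ∈ Ideal.span (Set.range v) := by
    rw [hm]
    exact Submodule.mem_span_singleton_self m
  obtain ⟨b, hb⟩ := Ideal.mem_span_range_iff_exists_fun.1 hm1
  have hv1 : ∀ i, ∃ c, v i = m * c := by
    intro i
    have h1 : v i ∈ Ideal.span (Set.range v) := Ideal.subset_span ⟨i, rfl⟩
    rw [hm] at h1
    obtain ⟨c, hc⟩ := Submodule.mem_span_singleton.1 h1
    exact ⟨c, by rw [← hc, smul_eq_mul, mul_comm]⟩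
  choose a ha using hv1
  have hm0 : m ≠ 0 := by
    rintro rfl
    apply hv
    funext i
    rw [ha i, zero_mul]
    rfl
  refine ⟨m, a, b, hm0, ?_, ?_⟩
  · apply mul_left_cancel₀ hm0
    rw [mul_one]
    calc m * dt a b = ∑ i, b i * v i := by
          unfold dt
          rw [Finset.mul_sum]
          refine Finset.sum_congr rfl fun i _ => ?_
          rw [ha i]
          ring
      _ = m := hb
  · funext i
    rw [Pi.smul_apply, smul_eq_mul]
    exact ha i

private theorem prm_zpow {A K : Type} [CommRing A] [IsDomain A] [Field K] [Algebra A K]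
    {y : Kˣ} (hy : IsAlgebraic A (y : K)) (n : ℤ) : IsAlgebraic A ((y ^ n : Kˣ) : K) := by
  cases n with
  | ofNat n =>
    rw [Int.ofNat_eq_natCast, zpow_natCast, Units.val_pow_eq_pow_val]
    exact hy.pow n
  | negSucc n =>
    rw [zpow_negSucc, Units.val_inv_eq_inv_val, Units.val_pow_eq_pow_val]
    exact (hy.pow _).inv

private theorem prm_zpow' {A K : Type} [CommRing A] [IsDomain A] [Field K] [Algebra A K]
    {y : Kˣ} {n : ℤ} (hn : n ≠ 0) (hy : IsAlgebraic A ((y ^ n : Kˣ) : K)) :
    IsAlgebraic A (y : K) := by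
  cases n with
  | ofNat n =>
    rw [Int.ofNat_eq_natCast, zpow_natCast, Units.val_pow_eq_pow_val] at hy
    refine hy.of_pow (Nat.pos_of_ne_zero ?_)
    rintro rfl
    exact hn rfl
  | negSucc n =>
    rw [zpow_negSucc, Units.val_inv_eq_inv_val, Units.val_pow_eq_pow_val] at hy
    have h1 := hy.inv
    rw [inv_inv] at h1
    exact h1.of_pow (Nat.succ_pos n)

private theorem prm_prod {A K : Type} [CommRing A] [IsDomain A] [Field K] [Algebra A K]
    {ι : Type*} (s : Finset ι) (y : ι → Kˣ) (h : ∀ i ∈ s, IsAlgebraic A (y i : K)) :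
    IsAlgebraic A ((∏ i ∈ s, y i : Kˣ) : K) := by
  classical
  induction s using Finset.induction_on with
  | empty =>
    rw [Finset.prod_empty, Units.val_one]
    exact isAlgebraic_one
  | insert i s hi ih =>
    rw [Finset.prod_insert hi, Units.val_mul]
    exact (h i (Finset.mem_insert_self i s)).mul
      (ih fun j hj => h j (Finset.mem_insert_of_mem hj))

theorem mo_tr {K : Type} [Field K] [CharZero K] {r : ℕ} {x : Fin r → Kˣ}
    (hx : AlgebraicIndependent ℚ fun i => (x i : K)) {a : Fin r → ℤ} (ha : a ≠ 0) :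
    Transcendental ℚ ((mo x a : Kˣ) : K) := by
  classical
  intro hM
  obtain ⟨i, hi⟩ : ∃ i, a i ≠ 0 := by
    by_contra hcon
    apply ha
    funext i
    by_contra h1
    exact hcon ⟨i, h1⟩
  have hi0 : i ∉ ({i}ᶜ : Set (Fin r)) := by simp
  have htr := hx.transcendental_adjoin hi0
  apply htr
  have hinj : Function.Injective
      (algebraMap ℚ (Algebra.adjoin ℚ ((fun i => (x i : K)) '' {i}ᶜ))) :=
    (algebraMap ℚ (Algebra.adjoin ℚ ((fun i => (x i : K)) '' {i}ᶜ))).injective
  have h1 : IsAlgebraic (Algebra.adjoin ℚ ((fun i => (x i : K)) '' {i}ᶜ))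
      ((mo x a : Kˣ) : K) := hM.extendScalars hinj
  have h2 : ∀ j, j ≠ i → IsAlgebraic (Algebra.adjoin ℚ ((fun i => (x i : K)) '' {i}ᶜ))
      (x j : K) := by
    intro j hj
    exact isAlgebraic_algebraMap (⟨(x j : K), Algebra.subset_adjoin ⟨j, hj, rfl⟩⟩ :
      Algebra.adjoin ℚ ((fun i => (x i : K)) '' {i}ᶜ))
  have h3 : IsAlgebraic (Algebra.adjoin ℚ ((fun i => (x i : K)) '' {i}ᶜ))
      ((∏ j ∈ Finset.univ.erase i, x j ^ a j : Kˣ) : K) :=
    prm_prod _ _ fun j hj => prm_zpow (h2 j (Finset.ne_of_mem_erase hj)) (a j)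
  have h4 : x i ^ a i = mo x a * (∏ j ∈ Finset.univ.erase i, x j ^ a j)⁻¹ := by
    unfold mo
    rw [← Finset.mul_prod_erase Finset.univ (fun j => x j ^ a j) (Finset.mem_univ i),
      mul_inv_cancel_right]
  have h5 : IsAlgebraic (Algebra.adjoin ℚ ((fun i => (x i : K)) '' {i}ᶜ))
      ((x i ^ a i : Kˣ) : K) := by
    rw [h4, Units.val_mul, Units.val_inv_eq_inv_val]
    exact h1.mul h3.inv
  exact prm_zpow' hi h5

end Pool.Agent.EVF
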