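import Pool.Agent.EVF.BDefs
import Pool.Agent.CSG.PlI

/-!
# The residue field of a place

The residue field `κ` of a place `O` of `K` which contains the field generated by all but one of the `x i` is a `k`-algebra (`k` is
contained in `O`, since it is algebraic over `ℚ`), the residue of `x ^ a` is a root of `π`, and the residues of the `x j`, `j ≠ i`, are
algebraically independent over `k`: the residue map is injective on the field generated by the `x j`, `j ≠ i`.
-/

open scoped BigOperators Polynomial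
open Polynomial

namespace Pool.Agent.EVF

open Pool.Agent.CST Pool.Agent.CSG Pool.Agent.Helper11 Pool.Agent.ISI

private theorem red_mo {r : ℕ} {G H : Type*} [CommGroup G] [CommGroup H] (f : G →* H)
    (u : Fin r → G) (e : Fin r → ℤ) : f (mo u e) = mo (fun i => f (u i)) e := by
  unfold mo
  rw [map_prod]
  exact Finset.prod_congr rfl fun i _ => map_zpow f _ _

private theorem red_ind {K κ : Type} [Field K] [CharZero K] [Field κ] [CharZero κ] {ι : Type}
    {x : ι → K} (hx : AlgebraicIndependent ℚ x) {O : ValuationSubring K} (ρ : O →+* κ)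
    (hρ : ∀ z : O, ρ z = 0 ↔ O.valuation (z : K) < 1)
    (hF : ∀ y ∈ IntermediateField.adjoin ℚ (Set.range x), y ∈ O) (incQ : ℚ →+* O) (u : ι → O)
    (hu : ∀ j, (u j : K) = x j) : AlgebraicIndependent ℚ fun j => ρ (u j) := by
  rw [algebraicIndependent_iff]
  intro P hP
  obtain ⟨z, hz⟩ : ∃ z : O, z = MvPolynomial.eval₂Hom incQ u P := ⟨_, rfl⟩
  have h1 : ρ z = 0 := by
    rw [← hP, hz]
    change (ρ.comp (MvPolynomial.eval₂Hom incQ u)) P =
      (MvPolynomial.aeval fun j => ρ (u j) : MvPolynomial ι ℚ →ₐ[ℚ] κ).toRingHom P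
    refine RingHom.congr_fun (MvPolynomial.ringHom_ext (fun q => ?_) fun j => ?_) P
    · exact RingHom.congr_fun (Subsingleton.elim
        ((ρ.comp (MvPolynomial.eval₂Hom incQ u)).comp MvPolynomial.C)
        ((MvPolynomial.aeval fun j => ρ (u j) :
          MvPolynomial ι ℚ →ₐ[ℚ] κ).toRingHom.comp MvPolynomial.C)) q
    · change ρ (MvPolynomial.eval₂Hom incQ u (MvPolynomial.X j)) =
        MvPolynomial.aeval (fun j => ρ (u j)) (MvPolynomial.X j)
      rw [MvPolynomial.eval₂Hom_X', MvPolynomial.aeval_X]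
  have h2 : (z : K) = MvPolynomial.aeval x P := by
    rw [hz]
    change (O.subtype.comp (MvPolynomial.eval₂Hom incQ u)) P =
      (MvPolynomial.aeval x : MvPolynomial ι ℚ →ₐ[ℚ] K).toRingHom P
    refine RingHom.congr_fun (MvPolynomial.ringHom_ext (fun q => ?_) fun j => ?_) P
    · exact RingHom.congr_fun (Subsingleton.elim
        ((O.subtype.comp (MvPolynomial.eval₂Hom incQ u)).comp MvPolynomial.C)
        ((MvPolynomial.aeval x : MvPolynomial ι ℚ →ₐ[ℚ] K).toRingHom.comp MvPolynomial.C)) q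
    · change O.subtype (MvPolynomial.eval₂Hom incQ u (MvPolynomial.X j)) =
        MvPolynomial.aeval x (MvPolynomial.X j)
      rw [MvPolynomial.eval₂Hom_X', MvPolynomial.aeval_X]
      exact hu j
  have h3 : MvPolynomial.aeval x P ∈ IntermediateField.adjoin ℚ (Set.range x) := by
    have h4 : (MvPolynomial.aeval x : MvPolynomial ι ℚ →ₐ[ℚ] K) P ∈
        Algebra.adjoin ℚ (Set.range x) := by
      rw [Algebra.adjoin_range_eq_range_aeval]
      exact ⟨P, rfl⟩
    exact IntermediateField.algebra_adjoin_le_adjoin ℚ _ h4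
  have h5 : MvPolynomial.aeval x P = 0 := by
    by_contra h6
    have h7 : (MvPolynomial.aeval x P)⁻¹ ∈ O := hF _ (inv_mem h3)
    have h8 : O.valuation (MvPolynomial.aeval x P)⁻¹ ≤ 1 := (O.valuation_le_one_iff _).2 h7
    have h9 : O.valuation (MvPolynomial.aeval x P) < 1 := by
      rw [← h2]
      exact (hρ z).1 h1
    have h10 : O.valuation (MvPolynomial.aeval x P) * O.valuation (MvPolynomial.aeval x P)⁻¹ = 1 := by
      rw [← map_mul, mul_inv_cancel₀ h6, map_one]
    have h11 := mul_lt_one_of_nonneg_of_lt_one_left zero_le h9 h8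
    rw [h10] at h11
    exact lt_irrefl _ h11
  exact (algebraicIndependent_iff.1 hx) P h5

private theorem red_aux {k K κ : Type} [Field k] [CharZero k] [Field K] [CharZero K] [Algebra k K]
    [Field κ] (hk : Algebra.IsAlgebraic ℚ k) {r : ℕ} {x : Fin r → Kˣ}
    (hx : AlgebraicIndependent k fun i => (x i : K)) {a : Fin r → ℤ} {π : k[X]}
    {O : ValuationSubring K} (hO : Ov x a π O) (ρ : O →+* κ)
    (hρ : ∀ z : O, ρ z = 0 ↔ O.valuation (z : K) < 1) :
    ∃ (_ : CharZero κ) (_ : Algebra k κ) (y : Fin r → κˣ),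
      (∀ i, ∀ h : (x i : K) ∈ O, ρ ⟨x i, h⟩ = y i) ∧
      (∀ q, ∀ h : algebraMap k K q ∈ O, ρ ⟨algebraMap k K q, h⟩ = algebraMap k κ q) ∧
      aeval ((mo y a : κˣ) : κ) π = 0 ∧
      ∃ i, AlgebraicIndependent k fun j : {j // j ≠ i} => (y j.1 : κ) := by
  classical
  obtain ⟨hOI, i₀, hi₀⟩ := hO.pp
  obtain ⟨inc, hinc⟩ : ∃ inc : k →+* O, ∀ q, ((inc q : O) : K) = algebraMap k K q :=
    ⟨(algebraMap k K).codRestrict O fun q => const_mem hk hOI q, fun _ => rfl⟩
  have hmem : ∀ i, ((x i : Kˣ) : K) ∈ O := fun i => (O.valuation_le_one_iff _).1 (hO.un i).le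
  have hmem' : ∀ i, (((x i)⁻¹ : Kˣ) : K) ∈ O := by
    intro i
    refine (O.valuation_le_one_iff _).1 ?_
    rw [Units.val_inv_eq_inv_val, map_inv₀, hO.un i, inv_one]
  obtain ⟨u, hu⟩ : ∃ u : Fin r → Oˣ, ∀ i, (((u i : Oˣ) : O) : K) = x i :=
    ⟨fun i => ⟨⟨x i, hmem i⟩, ⟨((x i)⁻¹ : Kˣ), hmem' i⟩, Subtype.ext (x i).mul_inv,
      Subtype.ext (x i).inv_mul⟩, fun i => rfl⟩
  have hch : CharZero κ := charZero_of_injective_ringHom (ρ.comp inc).injective
  let alg : Algebra k κ := (ρ.comp inc).toAlgebra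
  refine ⟨hch, alg, fun i => Units.map ρ.toMonoidHom (u i), ?_, ?_, ?_, i₀, ?_⟩
  · intro i h
    have h1 : (⟨x i, h⟩ : O) = (u i : O) := Subtype.ext (hu i).symm
    rw [h1]
    rfl
  · intro q h
    have h1 : (⟨algebraMap k K q, h⟩ : O) = inc q := Subtype.ext (hinc q).symm
    rw [h1]
    rfl
  · have e1 : ((mo (fun i => Units.map ρ.toMonoidHom (u i)) a : κˣ) : κ) =
        ρ ((mo u a : Oˣ) : O) := by
      rw [← red_mo (Units.map ρ.toMonoidHom)]
      rfl
    have e2 : ((eval₂ inc ((mo u a : Oˣ) : O) π : O) : K) = aeval ((mo x a : Kˣ) : K) π := by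
      have h1 := hom_eval₂ π inc O.subtype ((mo u a : Oˣ) : O)
      have h2 : O.subtype.comp inc = algebraMap k K := RingHom.ext hinc
      have h3 : O.subtype ((mo u a : Oˣ) : O) = ((mo x a : Kˣ) : K) := by
        have h4 : mo x a = Units.map O.subtype.toMonoidHom (mo u a) := by
          rw [red_mo]
          exact (congrArg (fun f => mo f a) (funext fun i => Units.ext (hu i))).symm
        rw [h4]
        rfl
      rw [h2, h3] at h1
      rw [aeval_def]
      exact h1
    rw [e1, aeval_def]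
    change eval₂ (ρ.comp inc) (ρ ((mo u a : Oˣ) : O)) π = 0
    rw [← hom_eval₂ π inc ρ ((mo u a : Oˣ) : O), hρ, e2]
    exact hO.lt
  · have : Algebra.IsAlgebraic ℚ k := hk
    have tk : IsScalarTower ℚ k κ := IsScalarTower.of_algebraMap_eq' (Subsingleton.elim _ _)
    have tK : IsScalarTower ℚ k K := IsScalarTower.of_algebraMap_eq' (Subsingleton.elim _ _)
    have hxQ : AlgebraicIndependent ℚ (fun j : {j // j ≠ i₀} => (x j.1 : K)) :=
      (hx.restrictScalars (K := k) (algebraMap ℚ k).injective).comp _ Subtype.val_injective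
    have hyQ : AlgebraicIndependent ℚ (fun j : {j // j ≠ i₀} => ρ (u j.1 : O)) := by
      refine red_ind hxQ ρ hρ (fun y hy => hi₀ y ?_) (inc.comp (algebraMap ℚ k)) _
        (fun j => hu j.1)
      refine IntermediateField.adjoin.mono ℚ _ _ ?_ hy
      rintro _ ⟨j, rfl⟩
      exact ⟨j.1, j.2, rfl⟩
    exact hyQ.extendScalars k

theorem exists_red {k K : Type} [Field k] [CharZero k] [Field K] [CharZero K] [Algebra k K]
    (hk : Algebra.IsAlgebraic ℚ k) {r : ℕ} {x : Fin r → Kˣ}
    (hx : AlgebraicIndependent k fun i => (x i : K)) {a : Fin r → ℤ} {π : k[X]}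
    {O : ValuationSubring K} (hO : Ov x a π O) :
    ∃ (κ : Type) (_ : Field κ) (_ : CharZero κ) (_ : Algebra k κ) (ρ : O →+* κ)
      (y : Fin r → κˣ), (∀ z : O, ρ z = 0 ↔ O.valuation (z : K) < 1) ∧
      (∀ i, ∀ h : (x i : K) ∈ O, ρ ⟨x i, h⟩ = y i) ∧
      (∀ q, ∀ h : algebraMap k K q ∈ O, ρ ⟨algebraMap k K q, h⟩ = algebraMap k κ q) ∧
      aeval ((mo y a : κˣ) : κ) π = 0 ∧
      ∃ i, AlgebraicIndependent k fun j : {j // j ≠ i} => (y j.1 : κ) := by
  have hρ : ∀ z : O, IsLocalRing.residue O z = 0 ↔ O.valuation (z : K) < 1 := fun z => by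
    rw [IsLocalRing.residue_eq_zero_iff, ValuationSubring.valuation_lt_one_iff]
  obtain ⟨h1, h2, y, h3, h4, h5, h6⟩ := red_aux hk hx hO (IsLocalRing.residue O) hρ
  exact ⟨IsLocalRing.ResidueField O, inferInstance, h1, h2, IsLocalRing.residue O, y, hρ, h3, h4,
    h5, h6⟩

end Pool.Agent.EVF
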