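import Pool.Agent.EVF.Lin

/-!
# Exponents in `r` variables for the exponents in one variable

`exists_lin` is applied to `N + 1` unknowns `u` (`u 0 = 0`, the others enumerate `P`) and to the relations
`u 0 = 0`, `e . c = e' . c`, `e . c = u p + u q`, `u p + u q = u p' + u q'`; they make `ψ (u p) = m p`,
`ρ (u p + u q) = m p + m q` and `ρ (c . e) = D e` well defined.
-/

open scoped BigOperators Polynomial LaurentPolynomial
open Polynomial

namespace Pool.Agent.EVF

private theorem rho_comm {r : ℕ} (a b : Fin r → ℤ) : dt a b = dt b a := by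
  unfold dt
  exact Finset.sum_congr rfl fun i _ => mul_comm _ _

private theorem rho_zero {r : ℕ} (a : Fin r → ℤ) : dt 0 a = 0 := by
  unfold dt
  exact Finset.sum_eq_zero fun i _ => by rw [Pi.zero_apply, zero_mul]

private theorem rho_add {r : ℕ} (a b c : Fin r → ℤ) : dt (a + b) c = dt a c + dt b c := by
  unfold dt
  rw [← Finset.sum_add_distrib]
  exact Finset.sum_congr rfl fun i _ => by rw [Pi.add_apply, add_mul]

private theorem rho_sub {r : ℕ} (a b c : Fin r → ℤ) : dt (a - b) c = dt a c - dt b c := by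
  unfold dt
  rw [← Finset.sum_sub_distrib]
  exact Finset.sum_congr rfl fun i _ => by rw [Pi.sub_apply, sub_mul]

private theorem rho_single {n : ℕ} (p : Fin n) (a : Fin n → ℤ) :
    dt (Pi.single p 1) a = a p := by
  unfold dt
  rw [Finset.sum_eq_single p]
  · rw [Pi.single_eq_same, one_mul]
  · intro q _ hq
    rw [Pi.single_eq_of_ne hq, zero_mul]
  · intro h
    exact absurd (Finset.mem_univ p) h

/-- the relations -/
private def rhoL {r : ℕ} (E : Finset (Fin r → ℤ)) (N : ℕ) :
    Finset ((Fin r → ℤ) × (Fin (N + 1) → ℤ)) :=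
  {((0 : Fin r → ℤ), (Pi.single 0 1 : Fin (N + 1) → ℤ))} ∪
    (((E ×ˢ E).image fun w => (w.1 - w.2, (0 : Fin (N + 1) → ℤ))) ∪
    (((E ×ˢ ((Finset.univ : Finset (Fin (N + 1))) ×ˢ (Finset.univ : Finset (Fin (N + 1))))).image
      fun w => (w.1, (0 : Fin (N + 1) → ℤ) - (Pi.single w.2.1 1 + Pi.single w.2.2 1))) ∪
    (((Finset.univ : Finset ((Fin (N + 1) × Fin (N + 1)) × (Fin (N + 1) × Fin (N + 1))))).image
      fun w => ((0 : Fin r → ℤ), ((Pi.single w.1.1 1 + Pi.single w.1.2 1) -
        (Pi.single w.2.1 1 + Pi.single w.2.2 1) : Fin (N + 1) → ℤ)))))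

theorem exists_rho {r : ℕ} (E : Finset (Fin r → ℤ)) (N : ℕ) :
    ∃ V : Finset (Fin r → ℤ), (∀ v ∈ V, v ≠ 0) ∧ ∀ c : Fin r → ℤ, (∀ v ∈ V, dt v c ≠ 0) →
      ∀ P : Finset ℤ, P.card ≤ N → ∃ (D : ℕ) (ψ ρ : ℤ → (Fin r → ℤ)), 0 < D ∧ ψ 0 = 0 ∧
        (∀ p ∈ insert 0 P, ∀ q ∈ insert 0 P, ρ (p + q) = ψ p + ψ q) ∧
        ∀ e ∈ E, ρ (dt c e) = (D : ℤ) • e := by
  classical
  obtain ⟨V, hV0, hV⟩ := exists_lin r (N + 1) (rhoL E N)
  refine ⟨V, hV0, ?_⟩
  intro c hc P hP
  -- the enumeration
  obtain ⟨u, hu0, hu⟩ : ∃ u : Fin (N + 1) → ℤ, u 0 = 0 ∧ ∀ p ∈ insert 0 P, ∃ i, u i = p := by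
    refine ⟨fun i => (0 :: P.toList).getD i.val 0, by simp, ?_⟩
    intro p hp
    rcases Finset.mem_insert.1 hp with h | h
    · exact ⟨0, by simp [h]⟩
    · have h1 : p ∈ P.toList := Finset.mem_toList.2 h
      obtain ⟨k, hk, hkp⟩ := List.getElem_of_mem h1
      have h2 : k < P.card := by rwa [Finset.length_toList] at hk
      refine ⟨⟨k + 1, by omega⟩, ?_⟩
      simp only [List.getD_cons_succ]
      rw [List.getD_eq_getElem _ _ hk, hkp]
  obtain ⟨D, m, hD, hm⟩ := hV c hc u
  -- the relations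
  have m0 : m 0 = 0 := by
    have h1 := hm ((0 : Fin r → ℤ), (Pi.single 0 1 : Fin (N + 1) → ℤ)) (by
      unfold rhoL
      exact Finset.mem_union_left _ (Finset.mem_singleton_self _))
      (by rw [rho_zero, rho_single, hu0, add_zero])
    funext i
    have h2 := h1 i
    have h3 : ∑ p, (Pi.single 0 1 : Fin (N + 1) → ℤ) p * m p i = m 0 i :=
      rho_single 0 fun p => m p i
    simp only [Pi.zero_apply, mul_zero, zero_add] at h2
    rw [h3] at h2
    rw [h2, Pi.zero_apply]
  have R1 : ∀ p q p' q' : Fin (N + 1), u p + u q = u p' + u q' → m p + m q = m p' + m q' := by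
    intro p q p' q' h
    have h1 := hm ((0 : Fin r → ℤ), ((Pi.single p 1 + Pi.single q 1) -
        (Pi.single p' 1 + Pi.single q' 1) : Fin (N + 1) → ℤ)) (by
      unfold rhoL
      refine Finset.mem_union_right _ (Finset.mem_union_right _ (Finset.mem_union_right _ ?_))
      exact Finset.mem_image.2 ⟨((p, q), (p', q')), Finset.mem_univ _, rfl⟩)
      (by rw [rho_zero, rho_sub, rho_add, rho_add, rho_single, rho_single, rho_single, rho_single]
          omega)
    funext i
    have h2 := h1 i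
    have h3 : ∑ x, ((Pi.single p 1 + Pi.single q 1) -
        (Pi.single p' 1 + Pi.single q' 1) : Fin (N + 1) → ℤ) x * m x i =
          (m p i + m q i) - (m p' i + m q' i) := by
      have h4 := rho_sub (Pi.single p 1 + Pi.single q 1) (Pi.single p' 1 + Pi.single q' 1)
        (fun x => m x i)
      rw [rho_add, rho_add, rho_single, rho_single, rho_single, rho_single] at h4
      exact h4
    simp only [Pi.zero_apply, mul_zero, zero_add] at h2
    rw [h3] at h2
    rw [Pi.add_apply, Pi.add_apply]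
    linarith
  have R2 : ∀ e ∈ E, ∀ p q : Fin (N + 1), u p + u q = dt e c → m p + m q = (D : ℤ) • e := by
    intro e he p q h
    have h1 := hm (e, (0 : Fin (N + 1) → ℤ) - (Pi.single p 1 + Pi.single q 1)) (by
      unfold rhoL
      refine Finset.mem_union_right _ (Finset.mem_union_right _ (Finset.mem_union_left _ ?_))
      exact Finset.mem_image.2 ⟨(e, (p, q)), Finset.mem_product.2 ⟨he, Finset.mem_product.2
        ⟨Finset.mem_univ _, Finset.mem_univ _⟩⟩, rfl⟩)
      (by show dt e c + dt ((0 : Fin (N + 1) → ℤ) - (Pi.single p 1 + Pi.single q 1)) u = 0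
          rw [rho_sub, rho_zero, rho_add, rho_single, rho_single]
          omega)
    funext i
    have h2 := h1 i
    have h3 : ∑ x, ((0 : Fin (N + 1) → ℤ) - (Pi.single p 1 + Pi.single q 1) :
        Fin (N + 1) → ℤ) x * m x i =
        0 - (m p i + m q i) := by
      have h4 := rho_sub 0 (Pi.single p 1 + Pi.single q 1) (fun x => m x i)
      rw [rho_zero, rho_add, rho_single, rho_single] at h4
      exact h4
    simp only at h2
    rw [h3] at h2
    rw [Pi.add_apply, Pi.smul_apply, smul_eq_mul]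
    linarith
  have R3 : ∀ e ∈ E, ∀ e' ∈ E, dt e c = dt e' c → (D : ℤ) • e = (D : ℤ) • e' := by
    intro e he e' he' h
    have h1 := hm (e - e', (0 : Fin (N + 1) → ℤ)) (by
      unfold rhoL
      refine Finset.mem_union_right _ (Finset.mem_union_left _ ?_)
      exact Finset.mem_image.2 ⟨(e, e'), Finset.mem_product.2 ⟨he, he'⟩, rfl⟩)
      (by rw [rho_sub, rho_zero, h, sub_self, add_zero])
    funext i
    have h2 := h1 i
    have h3 : ∑ x, (0 : Fin (N + 1) → ℤ) x * m x i = 0 := rho_zero fun x => m x i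
    simp only [Pi.sub_apply] at h2
    rw [h3] at h2
    rw [Pi.smul_apply, Pi.smul_apply, smul_eq_mul, smul_eq_mul]
    linarith
  -- the functions
  set ψ : ℤ → (Fin r → ℤ) := fun x => if h : ∃ p, u p = x then m h.choose else 0 with hψ
  set ρ : ℤ → (Fin r → ℤ) := fun x =>
    if h : ∃ w : Fin (N + 1) × Fin (N + 1), u w.1 + u w.2 = x then m h.choose.1 + m h.choose.2
    else if h' : ∃ e, e ∈ E ∧ dt e c = x then (D : ℤ) • h'.choose else 0 with hρ
  have hψu : ∀ p, ψ (u p) = m p := by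
    intro p
    have h : ∃ q, u q = u p := ⟨p, rfl⟩
    have h1 : ψ (u p) = m h.choose := by
      rw [hψ]
      simp only
      rw [dif_pos h]
    rw [h1]
    have h2 := R1 h.choose 0 p 0 (by rw [h.choose_spec])
    rw [m0, add_zero, add_zero] at h2
    exact h2
  have hρu : ∀ p q, ρ (u p + u q) = m p + m q := by
    intro p q
    have h : ∃ w : Fin (N + 1) × Fin (N + 1), u w.1 + u w.2 = u p + u q := ⟨(p, q), rfl⟩
    have h1 : ρ (u p + u q) = m h.choose.1 + m h.choose.2 := by
      rw [hρ]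
      simp only
      rw [dif_pos h]
    rw [h1]
    exact R1 _ _ _ _ h.choose_spec
  refine ⟨D, ψ, ρ, hD, ?_, ?_, ?_⟩
  · have h := hψu 0
    rw [hu0, m0] at h
    exact h
  · intro p hp q hq
    obtain ⟨i, rfl⟩ := hu p hp
    obtain ⟨j, rfl⟩ := hu q hq
    rw [hρu, hψu, hψu]
  · intro e he
    rw [rho_comm]
    by_cases h : ∃ w : Fin (N + 1) × Fin (N + 1), u w.1 + u w.2 = dt e c
    · obtain ⟨⟨p, q⟩, hpq⟩ := h
      simp only at hpq
      rw [← hpq, hρu]
      exact R2 e he p q hpq
    · have h' : ∃ e', e' ∈ E ∧ dt e' c = dt e c := ⟨e, he, rfl⟩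
      have h1 : ρ (dt e c) = (D : ℤ) • h'.choose := by
        rw [hρ]
        simp only
        rw [dif_neg h, dif_pos h']
      rw [h1]
      exact R3 _ h'.choose_spec.1 _ he h'.choose_spec.2

end Pool.Agent.EVF
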