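import Pool.Agent.ISG.Defs

/-!
# Definitions used in the statement
-/

namespace Pool.Agent.EVF

open Pool.Agent.ISG

/-- The elements of `K_2(K) ⊗ ℚ` which for every discrete valuation ring `O` of `K` containing the
rational numbers are combinations of symbols of units of `O`. -/
noncomputable def unramK2 (K : Type) [Field K] [CharZero K] : Submodule ℚ (K2Q K) :=
  ⨅ (O : ValuationSubring K) (_ : IsDiscreteValuationRing O) (_ : ∀ q : ℚ, (q : K) ∈ O),
    Submodule.span ℚ {z | ∃ u v : Kˣ, u ∈ O.unitGroup ∧ v ∈ O.unitGroup ∧ z = sb u v}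

/-- The field `ℚ(g_1, ..., g_r)`. -/
noncomputable abbrev ratField {K : Type} [Field K] [CharZero K] {r : ℕ} (g : Fin r → Kˣ) :
    IntermediateField ℚ K :=
  IntermediateField.adjoin ℚ (Set.range fun i => (g i : K))

/-- The span of the symbols `{g_i, h}`, `h` an arbitrary element of `Kˣ`, and of the symbols
`{a, b}` of two nonzero elements of `ℚ(g_1, ..., g_r)`. -/
noncomputable def slices {K : Type} [Field K] [CharZero K] {r : ℕ} (g : Fin r → Kˣ) :
    Submodule ℚ (K2Q K) :=
  Submodule.span ℚ {z | ∃ u v : Kˣ,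
    ((∃ i, u = g i) ∨ ((u : K) ∈ ratField g ∧ (v : K) ∈ ratField g)) ∧ z = sb u v}

end Pool.Agent.EVF
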