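import Pool.Agent.EVF.Fld
import Pool.Agent.EVF.Fi

/-!
# Supports

An element which is algebraic over the base field is a unit at all places over the base field; an element which is transcendental over it has
finitely many zeros and poles, and at least one zero. This gives the finiteness of the support of a function at the places of `IsPP`, and
functions without support are algebraic over the rational numbers.
-/

open scoped BigOperators Polynomial
open Polynomial

namespace Pool.Agent.EVF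

open Pool.Agent.CST Pool.Agent.CSG Pool.Agent.Helper11 Pool.Agent.ISI

private theorem sup_mem {K : Type} [Field K] [CharZero K] {F : IntermediateField ℚ K}
    {O : ValuationSubring K} (hF : ∀ y ∈ F, y ∈ O) {h : K} (hh : IsAlgebraic F h) : h ∈ O := by
  have h1 : IsIntegral F h := hh.isIntegral
  obtain ⟨p, hp, hp2⟩ := h1
  have hrange : ∀ n, (p.map (algebraMap F K)).coeff n ∈ O.toSubring := by
    intro n
    rw [coeff_map]
    exact hF _ (p.coeff n).2
  have hl : (p.map (algebraMap F K)) ∈ Polynomial.lifts (algebraMap O K) := by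
    rw [Polynomial.lifts_iff_coeff_lifts]
    intro n
    exact ⟨⟨_, hrange n⟩, rfl⟩
  obtain ⟨q, hq1, hq2, hq3⟩ := Polynomial.lifts_and_degree_eq_and_monic hl (hp.map _)
  have h2 : IsIntegral O h := by
    refine ⟨q, hq3, ?_⟩
    rw [eval₂_eq_eval_map, hq1, eval_map]
    exact hp2
  obtain ⟨y, hy⟩ := IsIntegrallyClosed.isIntegral_iff.1 h2
  rw [← hy]
  exact y.2

private theorem sup_alg {K : Type} [Field K] [CharZero K] {F : IntermediateField ℚ K}
    {O : ValuationSubring K} (hO : IsPl O) (hF : ∀ y ∈ F, y ∈ O) {h : Kˣ}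
    (hh : IsAlgebraic F (h : K)) : vo O h = 0 := by
  have h1 : 0 ≤ vo O h := (vo_nonneg_iff hO h).2 (sup_mem hF hh)
  have h2 : 0 ≤ vo O h⁻¹ := by
    refine (vo_nonneg_iff hO h⁻¹).2 (sup_mem hF ?_)
    rw [Units.val_inv_eq_inv_val]
    exact hh.inv
  have h3 : vo O h⁻¹ = -vo O h := by
    have h4 := vo_zpow O h (-1)
    rw [zpow_neg_one] at h4
    rw [h4]
    ring
  omega

theorem supp_finite {K : Type} [Field K] [CharZero K] {r : ℕ} {x : Fin r → Kˣ}
    (hx : AlgebraicIndependent ℚ fun i => (x i : K))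
    (hK : FiniteDimensional (IntermediateField.adjoin ℚ (Set.range fun i => (x i : K))) K)
    (h : Kˣ) : {O : ValuationSubring K | IsPP x O ∧ vo O h ≠ 0}.Finite := by
  have hi : ∀ i : Fin r,
      {O : ValuationSubring K | IsPl O ∧ (∀ y ∈ Fx x i, y ∈ O) ∧ vo O h ≠ 0}.Finite := by
    intro i
    by_cases ha : IsAlgebraic (Fx x i) (h : K)
    · have : {O : ValuationSubring K | IsPl O ∧ (∀ y ∈ Fx x i, y ∈ O) ∧ vo O h ≠ 0} = ∅ := by
        ext O
        simp only [Set.mem_setOf_eq, Set.mem_empty_iff_false, iff_false]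
        rintro ⟨h1, h2, h3⟩
        exact h3 (sup_alg h1 h2 ha)
      rw [this]
      exact Set.finite_empty
    · have ha' : Transcendental (Fx x i) ((h⁻¹ : Kˣ) : K) := by
        intro hc
        apply ha
        have h1 := hc.inv
        rwa [Units.val_inv_eq_inv_val, inv_inv] at h1
      have f1 := fld_fin (Fx x i) (h := (h : K)) ha (fi_fin hx hK i ha)
      have f2 := fld_fin (Fx x i) (h := ((h⁻¹ : Kˣ) : K)) ha' (fi_fin hx hK i ha')
      refine (f1.union f2).subset ?_
      rintro O ⟨h1, h2, h3⟩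
      rcases lt_or_gt_of_ne h3 with h4 | h4
      · right
        refine ⟨h1, h2, (vo_pos_iff h1 h⁻¹).1 ?_⟩
        have h5 := vo_zpow O h (-1)
        rw [zpow_neg_one] at h5
        rw [h5]
        omega
      · left
        exact ⟨h1, h2, (vo_pos_iff h1 h).1 h4⟩
  refine (Set.finite_iUnion hi).subset ?_
  rintro O ⟨⟨h1, i, h2⟩, h3⟩
  exact Set.mem_iUnion.2 ⟨i, h1, h2, h3⟩

theorem const_of_no_supp {K : Type} [Field K] [CharZero K] {r : ℕ} (hr : 0 < r)
    {x : Fin r → Kˣ} (hx : AlgebraicIndependent ℚ fun i => (x i : K))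
    (hK : FiniteDimensional (IntermediateField.adjoin ℚ (Set.range fun i => (x i : K))) K)
    {h : Kˣ} (h0 : ∀ O : ValuationSubring K, IsPP x O → vo O h = 0) : IsAlgebraic ℚ (h : K) := by
  refine fi_alg hr hx fun i => ?_
  by_contra ha
  obtain ⟨O, h1, h2, h3⟩ := fld_zero (Fx x i) (h := (h : K)) ha (fi_fin hx hK i ha)
  have h4 := h0 O ⟨h1, i, h2⟩
  have h5 := (vo_pos_iff h1 h).2 h3
  omega

theorem exists_pp_zero {K : Type} [Field K] [CharZero K] {r : ℕ} {x : Fin r → Kˣ}
    (hx : AlgebraicIndependent ℚ fun i => (x i : K))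
    (hK : FiniteDimensional (IntermediateField.adjoin ℚ (Set.range fun i => (x i : K))) K)
    (i : Fin r) : ∃ O : ValuationSubring K, IsPP x O ∧ 0 < vo O (x i) ∧
      ∀ j, j ≠ i → vo O (x j) = 0 := by
  have ht := fi_tr hx i
  obtain ⟨O, h1, h2, h3⟩ := fld_zero (Fx x i) ht (fi_fin hx hK i ht)
  refine ⟨O, ⟨h1, i, h2⟩, (vo_pos_iff h1 (x i)).2 h3, fun j hj => ?_⟩
  refine sup_alg h1 h2 ?_
  have hm : (x j : K) ∈ Fx x i := IntermediateField.subset_adjoin ℚ _ ⟨j, hj, rfl⟩
  exact isAlgebraic_algebraMap (⟨(x j : K), hm⟩ : Fx x i)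

end Pool.Agent.EVF
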