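import Pool.Agent.EVF.BDefs
import Pool.Agent.CST.Tam

/-!
# The tame symbol of a sum of symbols

If the `g i` are units and `∑ {g i, h i}` is unramified up to an unramified element, the tame symbol
`∏ g i ^ ord (h i)` is a root of unity in the residue field.
-/

open scoped BigOperators Polynomial
open Polynomial

namespace Pool.Agent.EVF

open Pool.Agent.CST Pool.Agent.CSG Pool.Agent.Helper11 Pool.Agent.ISI

private theorem tam_vo {K : Type} [Field K] [CharZero K] {O : ValuationSubring K} (hO : IsPl O)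
    {p : Kˣ} {ord : Kˣ → ℤ} (H : IsOrd O p ord) (h : Kˣ) : vo O h = ord h := by
  have h1 : vo O p = 1 := by
    refine vo_uniform hO H.lt fun x hx => ?_
    by_cases hx0 : x = 0
    · rw [hx0, map_zero]
      exact zero_le
    · have h2 := H.le_iff (Units.mk0 x hx0) p
      have h3 := (H.lt_one_iff (Units.mk0 x hx0)).1 hx
      have h4 := (H.lt_one_iff p).1 H.lt
      refine h2.2 ?_
      have h5 : ord p = 1 := by
        apply H.zpow_inj
        rw [← H.eq p, zpow_one]
      omega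
  have h2 : vo O (h * (p ^ ord h)⁻¹) = 0 := by
    rw [vo_eq_zero_iff hO]
    rw [Units.val_mul, Units.val_inv_eq_inv_val, Units.val_zpow_eq_zpow_val, map_mul, map_inv₀,
      map_zpow₀, H.eq h]
    exact mul_inv_cancel₀ (zpow_ne_zero _ ((Valuation.ne_zero_iff _).2 p.ne_zero))
  rw [← zpow_neg, vo_mul, vo_zpow, h1] at h2
  omega

theorem tame_sum {K : Type} [Field K] [CharZero K] {O : ValuationSubring K} (hO : IsPl O) {r : ℕ}
    {g h : Fin r → Kˣ} (hg : ∀ i, O.valuation (g i : K) = 1) {w : KMQ K 2} (hw : w ∈ unrM O 2)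
    (hs : sS g h + w ∈ unrM O 2) :
    ∃ m : ℕ, 0 < m ∧ O.valuation (((∏ i, g i ^ vo O (h i) : Kˣ) : K) ^ m - 1) < 1 := by
  have hdvr := hO.1
  obtain ⟨V, _, _, χ, τ, ord, p, hord, h1, h2, h3⟩ := exists_tameT O
  have hgu : ∀ i, g i ∈ O.unitGroup := fun i => (O.mem_unitGroup_iff (g i)).2 (hg i)
  have hp : ord p = 1 := by
    apply hord.zpow_inj
    rw [← hord.eq p, zpow_one]
  have hG : (∏ i, g i ^ vo O (h i) : Kˣ) ∈ O.unitGroup :=
    Subgroup.prod_mem _ fun i _ => Subgroup.zpow_mem _ (hgu i) _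
  have h4 : τ (sS g h) = 0 := by
    have h5 := h2 _ hs
    rw [map_add, h2 _ hw, add_zero] at h5
    exact h5
  have h6 : χ (∏ i, g i ^ vo O (h i) : Kˣ) = 0 := by
    have h7 := h1 p _ hG
    rw [hp, Int.cast_one, one_smul, sy_prod_right, map_sum] at h7
    rw [← h7]
    unfold sS at h4
    rw [map_sum] at h4
    rw [← neg_eq_zero, ← Finset.sum_neg_distrib, ← h4]
    refine Finset.sum_congr rfl fun i _ => ?_
    rw [sy_zpow_right, map_smul, h1 p _ (hgu i), hp, Int.cast_one, one_smul, sy_anti (g i), map_neg,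
      h1 _ _ (hgu i), tam_vo hO hord]
  obtain ⟨m, hm, h8⟩ := h3 _ hG h6
  exact ⟨m, Nat.pos_of_ne_zero hm, h8⟩

end Pool.Agent.EVF
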