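import Pool.Agent.EVF.Defs

/-!
# Transfer of a factorisation to `r` variables

A factorisation `F(ξ T ^ c, W) = G H` in one variable is carried to `F(X ^ D, W) = G' H'` in `r`
variables: the exponents of `T` are replaced by `ψ`, the product is compared through `ρ`, and
`X i` is rescaled by a `D`-th root `η i` of `ξ i`.
-/

open scoped BigOperators Polynomial LaurentPolynomial
open Polynomial

namespace Pool.Agent.EVF

private theorem trf_coeff_pm {R S : Type*} [Semiring R] [Semiring S] (φ : R →+ S) (P : R[X])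
    (i : ℕ) : (∑ j ∈ Finset.range (P.natDegree + 1), monomial j (φ (P.coeff j))).coeff i =
      φ (P.coeff i) := by
  rw [finsetSum_coeff]
  simp only [coeff_monomial]
  rw [Finset.sum_ite_eq' (Finset.range (P.natDegree + 1)) i]
  split_ifs with h
  · rfl
  · rw [Finset.mem_range, not_lt] at h
    rw [coeff_eq_zero_of_natDegree_lt (by omega), map_zero]

/-- the change of exponents as an additive homomorphism -/
private noncomputable def trfMd {M N : Type*} (f : M → N) :
    AddMonoidAlgebra ℂ M →+ AddMonoidAlgebra ℂ N where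
  toFun := AddMonoidAlgebra.mapDomain f
  map_zero' := AddMonoidAlgebra.mapDomain_zero f
  map_add' := AddMonoidAlgebra.mapDomain_add f

private theorem trfMd_single {M N : Type*} (f : M → N) (a : M) (q : ℂ) :
    trfMd f (AddMonoidAlgebra.single a q) = AddMonoidAlgebra.single (f a) q :=
  AddMonoidAlgebra.mapDomain_single

private theorem trfMd_mul {r : ℕ} {ψ ρ : ℤ → (Fin r → ℤ)} (g h : ℂ[T;T⁻¹])
    (hρ : ∀ p ∈ g.coeff.support, ∀ q ∈ h.coeff.support, ρ (p + q) = ψ p + ψ q) :
    trfMd ρ (g * h) = trfMd ψ g * trfMd ψ h := by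
  have hs : ∀ x : ℂ[T;T⁻¹], x = ∑ p ∈ x.coeff.support, AddMonoidAlgebra.single p (x.coeff p) := by
    intro x
    exact (AddMonoidAlgebra.sum_coeff_single x).symm
  conv_lhs => rw [hs g, hs h]
  conv_rhs => rw [hs g, hs h]
  rw [Finset.sum_mul_sum, map_sum, map_sum, map_sum, Finset.sum_mul_sum]
  refine Finset.sum_congr rfl fun p hp => ?_
  rw [map_sum]
  refine Finset.sum_congr rfl fun q hq => ?_
  rw [AddMonoidAlgebra.single_mul_single, trfMd_single, trfMd_single, trfMd_single,
    AddMonoidAlgebra.single_mul_single, hρ p hp q hq]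

/-- the rescaling of the variables -/
private noncomputable def trfTau {r : ℕ} (η : Fin r → ℂ) (hη : ∀ i, η i ≠ 0) : LR ℂ r →+* LR ℂ r :=
  (AddMonoidAlgebra.lift ℂ (LR ℂ r) (Fin r → ℤ)
    { toFun := fun n => AddMonoidAlgebra.single n.toAdd (∏ i, η i ^ (-(n.toAdd i)))
      map_one' := by
        simp [AddMonoidAlgebra.one_def]
      map_mul' := by
        intro a b
        rw [AddMonoidAlgebra.single_mul_single, ← Finset.prod_mul_distrib]
        congr 1
        refine Finset.prod_congr rfl fun i _ => ?_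
        rw [← zpow_add₀ (hη i)]
        congr 1
        simp only [toAdd_mul, Pi.add_apply]
        ring }).toRingHom

private theorem trfTau_single {r : ℕ} (η : Fin r → ℂ) (hη : ∀ i, η i ≠ 0) (n : Fin r → ℤ) (q : ℂ) :
    trfTau η hη (AddMonoidAlgebra.single n q) =
      AddMonoidAlgebra.single n (q * ∏ i, η i ^ (-(n i))) := by
  change AddMonoidAlgebra.lift ℂ (LR ℂ r) (Fin r → ℤ) _ (AddMonoidAlgebra.single n q) = _
  rw [AddMonoidAlgebra.lift_single]
  change q • AddMonoidAlgebra.single n (∏ i, η i ^ (-(n i))) = _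
  rw [AddMonoidAlgebra.smul_single]
  rfl

private theorem trfTau_coeff {r : ℕ} (η : Fin r → ℂ) (hη : ∀ i, η i ≠ 0) (x : LR ℂ r)
    (n : Fin r → ℤ) :
    (trfTau η hη x).coeff n = x.coeff n * ∏ i, η i ^ (-(n i)) := by
  have hs : x = ∑ p ∈ x.coeff.support, AddMonoidAlgebra.single p (x.coeff p) :=
    (AddMonoidAlgebra.sum_coeff_single x).symm
  conv_lhs => rw [hs]
  rw [map_sum, AddMonoidAlgebra.coeff_sum, Finsupp.finsetSum_apply]
  simp only [trfTau_single, AddMonoidAlgebra.coeff_single, Finsupp.single_apply]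
  rw [Finset.sum_ite_eq' x.coeff.support n]
  split_ifs with h
  · rfl
  · rw [Finsupp.notMem_support_iff] at h
    rw [h, zero_mul]

private theorem trf_prod {M ι : Type*} [AddCommMonoid M] (s : Finset ι) (a : ι → M) (b : ι → ℂ) :
    (∏ i ∈ s, (AddMonoidAlgebra.single (a i) (b i) : AddMonoidAlgebra ℂ M)) =
      AddMonoidAlgebra.single (∑ i ∈ s, a i) (∏ i ∈ s, b i) := by
  classical
  induction s using Finset.induction_on with
  | empty => rfl
  | insert i s hi ih =>
    rw [Finset.prod_insert hi, Finset.sum_insert hi, Finset.prod_insert hi, ih,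
      AddMonoidAlgebra.single_mul_single]

private theorem trfMd_alg {r : ℕ} (ψ : ℤ → (Fin r → ℤ)) (g : ℂ[T;T⁻¹])
    (hg : ∀ n, IsAlgebraic ℚ (g.coeff n)) (n : Fin r → ℤ) :
    IsAlgebraic ℚ ((trfMd ψ g).coeff n) := by
  have hs : g = ∑ p ∈ g.coeff.support, AddMonoidAlgebra.single p (g.coeff p) :=
    (AddMonoidAlgebra.sum_coeff_single g).symm
  rw [hs, map_sum, AddMonoidAlgebra.coeff_sum, Finsupp.finsetSum_apply]
  have hmem : ∀ z : ℂ, z ∈ algebraicClosure ℚ ℂ ↔ IsAlgebraic ℚ z := fun z =>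
    mem_algebraicClosure_iff
  rw [← hmem]
  refine sum_mem fun p _ => ?_
  rw [trfMd_single, AddMonoidAlgebra.coeff_single, Finsupp.single_apply]
  split_ifs
  · exact (hmem _).2 (hg p)
  · exact zero_mem _

theorem transfer {r : ℕ} {F : (MvPolynomial (Fin r) ℂ)[X]} (hF : F.Monic) {ξ : Fin r → ℂ}
    (hξ : RU ξ) {c : Fin r → ℤ} {G H : (ℂ[T;T⁻¹])[X]} (hG : G.Monic) (hH : H.Monic)
    (hGa : ∀ i n, IsAlgebraic ℚ ((G.coeff i).coeff n))
    (hHa : ∀ i n, IsAlgebraic ℚ ((H.coeff i).coeff n)) (h : F.map (subT ξ c) = G * H) {D : ℕ}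
    (hD : 0 < D) {ψ ρ : ℤ → (Fin r → ℤ)} (h0 : ψ 0 = 0)
    (hρ : ∀ i j, ∀ p ∈ insert 0 (G.coeff i).coeff.support,
      ∀ q ∈ insert 0 (H.coeff j).coeff.support, ρ (p + q) = ψ p + ψ q)
    (hE : ∀ i, ∀ m ∈ (F.coeff i).support,
      ρ (dt c fun s => (m s : ℤ)) = (D : ℤ) • fun s => (m s : ℤ)) :
    ∃ G' H' : (LR ℂ r)[X], G'.Monic ∧ H'.Monic ∧ G'.natDegree = G.natDegree ∧
      H'.natDegree = H.natDegree ∧ (∀ i n, IsAlgebraic ℚ ((G'.coeff i).coeff n)) ∧
      (∀ i n, IsAlgebraic ℚ ((H'.coeff i).coeff n)) ∧ F.map (subD D) = G' * H' := by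
  classical
  obtain ⟨M, hM, hξM⟩ := hξ
  choose η hη using fun i => IsAlgClosed.exists_pow_nat_eq (ξ i) hD
  have hξ0 : ∀ i, ξ i ≠ 0 := by
    intro i hi
    have := hξM i
    rw [hi, zero_pow hM.ne'] at this
    exact zero_ne_one this
  have hη0 : ∀ i, η i ≠ 0 := by
    intro i hi
    have := hη i
    rw [hi, zero_pow hD.ne'] at this
    exact hξ0 i this.symm
  have hηa : ∀ i, IsAlgebraic ℚ (η i) := by
    intro i
    have h1 : IsIntegral ℚ (ξ i) := IsIntegral.of_pow hM (by rw [hξM i]; exact isIntegral_one)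
    have h2 : IsIntegral ℚ (η i) := IsIntegral.of_pow hD (by rw [hη i]; exact h1)
    exact h2.isAlgebraic
  -- general facts on the image of a monic polynomial
  have key : ∀ P : (ℂ[T;T⁻¹])[X], P.Monic → (∀ i n, IsAlgebraic ℚ ((P.coeff i).coeff n)) →
      ∃ P₁ : (LR ℂ r)[X], (∀ i, P₁.coeff i = trfMd ψ (P.coeff i)) ∧
        (P₁.map (trfTau η hη0)).Monic ∧ (P₁.map (trfTau η hη0)).natDegree = P.natDegree ∧
        ∀ i n, IsAlgebraic ℚ (((P₁.map (trfTau η hη0)).coeff i).coeff n) := by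
    intro P hP hPa
    refine ⟨∑ j ∈ Finset.range (P.natDegree + 1), monomial j (trfMd ψ (P.coeff j)),
      trf_coeff_pm (trfMd ψ) P, ?_⟩
    set P₁ : (LR ℂ r)[X] := ∑ j ∈ Finset.range (P.natDegree + 1), monomial j (trfMd ψ (P.coeff j))
      with hP₁
    have hc : ∀ i, P₁.coeff i = trfMd ψ (P.coeff i) := trf_coeff_pm (trfMd ψ) P
    have htop : P₁.coeff P.natDegree = 1 := by
      rw [hc, hP.coeff_natDegree]
      have h1 : (1 : ℂ[T;T⁻¹]) = AddMonoidAlgebra.single 0 1 := rfl
      rw [h1, trfMd_single, h0]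
      rfl
    have hle : P₁.natDegree ≤ P.natDegree := by
      refine natDegree_le_iff_coeff_eq_zero.2 fun N hN => ?_
      rw [hc, coeff_eq_zero_of_natDegree_lt hN, map_zero]
    have hmon : P₁.Monic := monic_of_natDegree_le_of_coeff_eq_one P.natDegree hle htop
    have hdeg : P₁.natDegree = P.natDegree := by
      refine le_antisymm hle (le_natDegree_of_ne_zero ?_)
      rw [htop]
      exact one_ne_zero
    refine ⟨hmon.map _, by rw [hmon.natDegree_map, hdeg], fun i n => ?_⟩
    rw [coeff_map, trfTau_coeff, hc]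
    have hmem : ∀ z : ℂ, z ∈ algebraicClosure ℚ ℂ ↔ IsAlgebraic ℚ z := fun z =>
      mem_algebraicClosure_iff
    rw [← hmem]
    refine mul_mem ((hmem _).2 (trfMd_alg ψ _ (hPa i) n)) (prod_mem fun j _ => ?_)
    exact zpow_mem ((hmem _).2 (hηa j)) _
  obtain ⟨G₁, hG₁, hGm, hGd, hGa'⟩ := key G hG hGa
  obtain ⟨H₁, hH₁, hHm, hHd, hHa'⟩ := key H hH hHa
  refine ⟨_, _, hGm, hHm, hGd, hHd, hGa', hHa', ?_⟩
  -- the substitution with the roots of unity
  set sD : MvPolynomial (Fin r) ℂ →+* LR ℂ r :=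
    (MvPolynomial.aeval fun i =>
      (AddMonoidAlgebra.single (Pi.single i (D : ℤ)) (ξ i) : LR ℂ r)).toRingHom with hsD
  have hcomp : subD D = (trfTau η hη0).comp sD := by
    refine MvPolynomial.ringHom_ext (fun z => ?_) (fun i => ?_)
    · have e1 : (subD D : MvPolynomial (Fin r) ℂ →+* LR ℂ r) (MvPolynomial.C z) =
          algebraMap ℂ (LR ℂ r) z := MvPolynomial.aeval_C _ _
      have e2 : sD (MvPolynomial.C z) = algebraMap ℂ (LR ℂ r) z := MvPolynomial.aeval_C _ _
      rw [RingHom.comp_apply, e1, e2]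
      have e3 : algebraMap ℂ (LR ℂ r) z = AddMonoidAlgebra.single 0 z := rfl
      rw [e3, trfTau_single]
      simp
    · have e1 : (subD D : MvPolynomial (Fin r) ℂ →+* LR ℂ r) (MvPolynomial.X i) =
          AddMonoidAlgebra.single (Pi.single i (D : ℤ)) (1 : ℂ) := MvPolynomial.aeval_X _ _
      have e2 : sD (MvPolynomial.X i) = AddMonoidAlgebra.single (Pi.single i (D : ℤ)) (ξ i) :=
        MvPolynomial.aeval_X _ _
      rw [RingHom.comp_apply, e1, e2, trfTau_single]
      congr 1
      rw [Finset.prod_eq_single i]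
      · rw [Pi.single_eq_same, zpow_neg, zpow_natCast, hη i, mul_inv_cancel₀ (hξ0 i)]
      · intro j _ hj
        rw [Pi.single_eq_of_ne hj, neg_zero, zpow_zero]
      · intro hi
        exact absurd (Finset.mem_univ i) hi
  have hmain : F.map sD = G₁ * H₁ := by
    ext1 k
    rw [coeff_map, coeff_mul]
    have hk : subT ξ c (F.coeff k) = ∑ x ∈ Finset.HasAntidiagonal.antidiagonal k, G.coeff x.1 * H.coeff x.2 := by
      rw [← coeff_map, h, coeff_mul]
    have hR : ∑ x ∈ Finset.HasAntidiagonal.antidiagonal k, G₁.coeff x.1 * H₁.coeff x.2 =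
        trfMd ρ (subT ξ c (F.coeff k)) := by
      rw [hk, map_sum]
      refine Finset.sum_congr rfl fun x _ => ?_
      rw [hG₁, hH₁, trfMd_mul]
      intro p hp q hq
      exact hρ x.1 x.2 p (Finset.mem_insert_of_mem hp) q (Finset.mem_insert_of_mem hq)
    rw [hR]
    have hs : F.coeff k = ∑ m ∈ (F.coeff k).support,
        MvPolynomial.monomial m ((F.coeff k).coeff m) := (F.coeff k).as_sum
    conv_lhs => rw [hs]
    conv_rhs => rw [hs]
    rw [map_sum, map_sum, map_sum]
    refine Finset.sum_congr rfl fun m hm => ?_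
    have hL : ∀ a : ℂ, subT ξ c (MvPolynomial.monomial m a) =
        AddMonoidAlgebra.single (dt c fun s => (m s : ℤ)) (a * ∏ i, ξ i ^ m i) := by
      intro a
      have e1 : subT ξ c (MvPolynomial.monomial m a) = algebraMap ℂ ℂ[T;T⁻¹] a *
          m.prod fun i k => (LaurentPolynomial.C (ξ i) * LaurentPolynomial.T (c i)) ^ k :=
        MvPolynomial.aeval_monomial _ _ _
      have e2 : algebraMap ℂ ℂ[T;T⁻¹] a = AddMonoidAlgebra.single 0 a := rfl
      rw [e1, Finsupp.prod_fintype _ _ (fun i => pow_zero _), e2]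
      have e3 : ∀ i, (LaurentPolynomial.C (ξ i) * LaurentPolynomial.T (c i) : ℂ[T;T⁻¹]) ^ m i =
          AddMonoidAlgebra.single ((m i : ℕ) • c i) (ξ i ^ m i) := by
        intro i
        rw [← LaurentPolynomial.single_eq_C_mul_T, AddMonoidAlgebra.single_pow]
      rw [Finset.prod_congr rfl fun i _ => e3 i, trf_prod, AddMonoidAlgebra.single_mul_single,
        zero_add]
      congr 1
      refine Finset.sum_congr rfl fun i _ => ?_
      rw [nsmul_eq_mul, mul_comm]
    have hS : ∀ a : ℂ, sD (MvPolynomial.monomial m a) =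
        AddMonoidAlgebra.single ((D : ℤ) • fun s => (m s : ℤ)) (a * ∏ i, ξ i ^ m i) := by
      intro a
      have e1 : sD (MvPolynomial.monomial m a) = algebraMap ℂ (LR ℂ r) a *
          m.prod fun i k => (AddMonoidAlgebra.single (Pi.single i (D : ℤ)) (ξ i) : LR ℂ r) ^ k :=
        MvPolynomial.aeval_monomial _ _ _
      have e2 : algebraMap ℂ (LR ℂ r) a = AddMonoidAlgebra.single 0 a := rfl
      rw [e1, Finsupp.prod_fintype _ _ (fun i => pow_zero _), e2]
      have e3 : ∀ i, (AddMonoidAlgebra.single (Pi.single i (D : ℤ)) (ξ i) : LR ℂ r) ^ m i =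
          AddMonoidAlgebra.single ((m i : ℕ) • Pi.single i (D : ℤ)) (ξ i ^ m i) := by
        intro i
        rw [AddMonoidAlgebra.single_pow]
      rw [Finset.prod_congr rfl fun i _ => e3 i, trf_prod, AddMonoidAlgebra.single_mul_single,
        zero_add]
      congr 1
      funext j
      rw [Finset.sum_apply, Finset.sum_eq_single j]
      · rw [Pi.smul_apply, Pi.single_eq_same, Pi.smul_apply, nsmul_eq_mul, smul_eq_mul, mul_comm]
      · intro i _ hi
        rw [Pi.smul_apply, Pi.single_eq_of_ne hi.symm, smul_zero]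
      · intro hj
        exact absurd (Finset.mem_univ j) hj
    rw [hL, hS, trfMd_single, hE k m hm]
  rw [hcomp, ← Polynomial.map_map, hmain, Polynomial.map_mul]

end Pool.Agent.EVF
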