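import Pool.Agent.EVF.Few
import Pool.Agent.EVF.Rho
import Pool.Agent.EVF.Trf

/-!
# Toric Bertini theorem over torsion cosets of dimension one

If the monic polynomial `F` over the polynomial ring in `r` variables is geometrically irreducible in the
sense of `GeoM`, then it does not factorise over the curves `ξ T ^ c`, `ξ` a tuple of roots of unity, when
`c` avoids finitely many hyperplanes.
-/

open scoped BigOperators Polynomial LaurentPolynomial
open Polynomial

namespace Pool.Agent.EVF

private theorem tor_alg {x : ℂ} (hx : IsIntegral ℤ x) : IsAlgebraic ℚ x :=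
  (hx.tower_top (A := ℚ)).isAlgebraic

private theorem tor_deg {r : ℕ} {F : (MvPolynomial (Fin r) ℂ)[X]} (hF : F.Monic)
    {ξ : Fin r → ℂ} {c : Fin r → ℤ} {G H : (ℂ[T;T⁻¹])[X]} (hG : G.Monic) (hH : H.Monic)
    (h : F.map (subT ξ c) = G * H) : G.natDegree + H.natDegree = F.natDegree := by
  have h1 : (F.map (subT ξ c)).natDegree = F.natDegree := hF.natDegree_map _
  rw [← hG.natDegree_mul hH, ← h, h1]

private noncomputable def torP (n : ℕ) (G : (ℂ[T;T⁻¹])[X]) : Finset ℤ :=
  (Finset.range (n + 1)).biUnion fun i => (G.coeff i).coeff.support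

private theorem tor_card {n R : ℕ} {G : (ℂ[T;T⁻¹])[X]}
    (h : ∀ i, (G.coeff i).coeff.support.card ≤ R) : (torP n G).card ≤ (n + 1) * R := by
  refine (Finset.card_biUnion_le).trans ?_
  refine (Finset.sum_le_card_nsmul _ _ R fun i _ => h i).trans ?_
  simp

private theorem tor_mem {n : ℕ} {G : (ℂ[T;T⁻¹])[X]} (hn : G.natDegree ≤ n) {i : ℕ} {p : ℤ}
    (hp : p ∈ (G.coeff i).coeff.support) : p ∈ torP n G := by
  refine Finset.mem_biUnion.2 ⟨i, ?_, hp⟩
  by_contra hi
  have h1 : n < i := by
    have := Finset.mem_range.not.1 hi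
    omega
  rw [Polynomial.coeff_eq_zero_of_natDegree_lt (lt_of_le_of_lt hn h1)] at hp
  simp at hp

theorem toric {r : ℕ} {F : (MvPolynomial (Fin r) ℂ)[X]} (hF : F.Monic)
    (hI : ∀ i m, IsIntegral ℤ ((F.coeff i).coeff m)) (hg : GeoM F) :
    ∃ V : Finset (Fin r → ℤ), (∀ v ∈ V, v ≠ 0) ∧ ∀ c : Fin r → ℤ, (∀ v ∈ V, dt v c ≠ 0) →
      ∀ ξ : Fin r → ℂ, RU ξ → ∀ G H : (ℂ[T;T⁻¹])[X], G.Monic → H.Monic →
        F.map (subT ξ c) = G * H → G.natDegree = 0 ∨ H.natDegree = 0 := by
  classical
  obtain ⟨R, hR⟩ := few hF hI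
  set E : Finset (Fin r → ℤ) := (Finset.range (F.natDegree + 1)).biUnion fun i =>
    (F.coeff i).support.image fun m => fun s => (m s : ℤ) with hE
  obtain ⟨V, hV, hV'⟩ := exists_rho E (2 * (F.natDegree + 1) * R)
  refine ⟨V, hV, ?_⟩
  intro c hc ξ hξ G H hG hH h
  have hdeg := tor_deg hF hG hH h
  have h' : F.map (subT ξ c) = H * G := by rw [h, mul_comm]
  have hPG : (torP F.natDegree G).card ≤ (F.natDegree + 1) * R :=
    tor_card (hR ξ hξ c G H hG hH h)
  have hPH : (torP F.natDegree H).card ≤ (F.natDegree + 1) * R :=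
    tor_card (hR ξ hξ c H G hH hG h')
  have hP : (torP F.natDegree G ∪ torP F.natDegree H).card ≤ 2 * (F.natDegree + 1) * R := by
    refine (Finset.card_union_le _ _).trans ?_
    calc _ ≤ (F.natDegree + 1) * R + (F.natDegree + 1) * R := add_le_add hPG hPH
      _ = _ := by ring
  obtain ⟨D, ψ, ρ, hD, h0, hρ, hρE⟩ := hV' c hc _ hP
  obtain ⟨G', H', hG', hH', hGd, hHd, hGa, hHa, hF'⟩ := transfer hF hξ hG hH
    (fun i n => tor_alg (coeff_integral hF hI hξ c hG hH h i n))
    (fun i n => tor_alg (coeff_integral hF hI hξ c hH hG h' i n)) h hD h0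
    (ρ := ρ) (by
      intro i j p hp q hq
      refine hρ p ?_ q ?_
      · rcases Finset.mem_insert.1 hp with hp | hp
        · rw [hp]; exact Finset.mem_insert_self _ _
        · exact Finset.mem_insert_of_mem (Finset.mem_union_left _ (tor_mem (by omega) hp))
      · rcases Finset.mem_insert.1 hq with hq | hq
        · rw [hq]; exact Finset.mem_insert_self _ _
        · exact Finset.mem_insert_of_mem (Finset.mem_union_right _ (tor_mem (by omega) hq)))
    (by
      intro i m hm
      refine hρE _ ?_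
      rw [hE]
      refine Finset.mem_biUnion.2 ⟨i, ?_, Finset.mem_image.2 ⟨m, hm, rfl⟩⟩
      by_contra hi
      have h1 : F.natDegree < i := by
        have := Finset.mem_range.not.1 hi
        omega
      rw [Polynomial.coeff_eq_zero_of_natDegree_lt h1] at hm
      simp at hm)
  have := hg D hD G' H' hG' hH' hGa hHa hF'
  rw [hGd, hHd] at this
  exact this

end Pool.Agent.EVF
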