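import Pool.Agent.EVF.Cen

/-!
# Uniqueness of the place

Let `B` be the image of `evW x θ` and `Π = evx x (pia a π)`. For `b` in `B` the valuation is `< 1` iff `b` is in `Π B`, for `O` and for `O'`. Every
nonzero `b` in `B` is `Π ^ m b₁`, `b₁` in `B` of valuation `1`, and every element of `K` is a quotient of two elements of `B`.
-/

open scoped BigOperators Polynomial
open Polynomial

namespace Pool.Agent.EVF

open Pool.Agent.CST Pool.Agent.CSG Pool.Agent.Helper11 Pool.Agent.ISI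

private theorem uni_dec {K : Type} [Field K] (O : ValuationSubring K)
    [IsDiscreteValuationRing O] (B : Subring K) (hB : ∀ b ∈ B, b ∈ O) {p : K} (hp : p ∈ B)
    (hp1 : O.valuation p < 1) (hd : ∀ b ∈ B, O.valuation b < 1 → ∃ b' ∈ B, b = p * b') (c : O)
    (hc : c ≠ 0) (hcB : (c : K) ∈ B) :
    ∃ (m : ℕ) (b : K), b ∈ B ∧ (c : K) = p ^ m * b ∧ O.valuation b = 1 := by
  induction c using (wellFounded_dvdNotUnit (α := O)).induction with
  | _ c ih =>
    rcases lt_or_eq_of_le ((O.valuation_le_one_iff (c : K)).2 c.2) with h1 | h1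
    · obtain ⟨b, hb, hcb⟩ := hd c hcB h1
      have hb0 : (⟨b, hB b hb⟩ : O) ≠ 0 := by
        intro h0
        have h2 : b = 0 := congrArg Subtype.val h0
        rw [h2, mul_zero] at hcb
        exact hc (Subtype.ext hcb)
      have h2 : DvdNotUnit (⟨b, hB b hb⟩ : O) c := by
        refine ⟨hb0, ⟨p, hB p hp⟩, ?_, ?_⟩
        · rw [← mem_nonunits_iff, ← IsLocalRing.mem_maximalIdeal, O.valuation_lt_one_iff]
          exact hp1
        · apply Subtype.ext
          change (c : K) = b * p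
          rw [hcb, mul_comm]
      obtain ⟨m, b₁, hb₁, h3, h4⟩ := ih _ h2 hb0 hb
      refine ⟨m + 1, b₁, hb₁, ?_, h4⟩
      change b = p ^ m * b₁ at h3
      rw [hcb, h3, pow_succ]
      ring
    · exact ⟨0, c, hcB, by rw [pow_zero, one_mul], h1⟩

private theorem uni_le {K : Type} [Field K] (O O' : ValuationSubring K)
    [IsDiscreteValuationRing O] (B : Subring K) (hB : ∀ b ∈ B, b ∈ O) (hB' : ∀ b ∈ B, b ∈ O')
    {p : K} (hp : p ∈ B) (hp1 : O.valuation p < 1)
    (hd : ∀ b ∈ B, O.valuation b < 1 → ∃ b' ∈ B, b = p * b')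
    (hd' : ∀ b ∈ B, O'.valuation b < 1 → ∃ b' ∈ B, b = p * b')
    (hfr : ∀ z : K, ∃ c ∈ B, c ≠ 0 ∧ c * z ∈ B) : O ≤ O' := by
  intro z hz
  by_cases hz0 : z = 0
  · rw [hz0]
    exact O'.zero_mem
  obtain ⟨c, hc, hc0, hcz⟩ := hfr z
  have h1 : ∀ b ∈ B, O.valuation b = 1 → O'.valuation b = 1 := by
    intro b hb hb1
    refine le_antisymm ((O'.valuation_le_one_iff b).2 (hB' b hb)) (not_lt.1 fun h2 => ?_)
    obtain ⟨b', hb', hbb⟩ := hd' b hb h2
    rw [hbb, map_mul] at hb1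
    have h3 : O.valuation p * O.valuation b' < 1 :=
      mul_lt_one_of_lt_of_le hp1 ((O.valuation_le_one_iff b').2 (hB b' hb'))
    exact h3.ne hb1
  obtain ⟨n, c₁, hc₁, hcn, hc₁v⟩ := uni_dec O B hB hp hp1 hd ⟨c, hB c hc⟩
    (fun h => hc0 (congrArg Subtype.val h)) hc
  obtain ⟨m, b₁, hb₁, hbm, hb₁v⟩ := uni_dec O B hB hp hp1 hd ⟨c * z, hB _ hcz⟩
    (fun h => (mul_ne_zero hc0 hz0) (congrArg Subtype.val h)) hcz
  change c = p ^ n * c₁ at hcn
  change c * z = p ^ m * b₁ at hbm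
  have hc₁0 : c₁ ≠ 0 := fun h => by
    rw [h, mul_zero] at hcn
    exact hc0 hcn
  have hpn : p ^ n ≠ 0 := fun h => by
    rw [h, zero_mul] at hcn
    exact hc0 hcn
  have hzv : O.valuation z ≤ 1 := (O.valuation_le_one_iff z).2 hz
  have hnm : n ≤ m := by
    by_contra hlt
    push Not at hlt
    have hp0 : p ≠ 0 := fun h => hpn (by rw [h, zero_pow (by omega)])
    have h2 : O.valuation p ^ m = O.valuation p ^ n * O.valuation z := by
      have h3 := congrArg O.valuation hbm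
      rw [hcn, map_mul, map_mul, map_mul, map_pow, map_pow, hb₁v, hc₁v, mul_one, mul_one] at h3
      exact h3.symm
    have h3 : O.valuation p ^ n < O.valuation p ^ m :=
      pow_lt_pow_right_of_lt_one₀ (zero_lt_iff.2 ((_root_.map_ne_zero _).2 hp0)) hp1 hlt
    have h4 : O.valuation p ^ n * O.valuation z ≤ O.valuation p ^ n := mul_le_of_le_one_right' hzv
    rw [← h2] at h4
    exact absurd h4 (not_le.2 h3)
  have hz1 : z = p ^ (m - n) * (b₁ * c₁⁻¹) := by
    have h2 : p ^ m = p ^ n * p ^ (m - n) := by rw [← pow_add, Nat.add_sub_cancel' hnm]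
    rw [hcn, h2] at hbm
    have h3 : c₁ * z = p ^ (m - n) * b₁ := by
      have h4 : p ^ n * (c₁ * z) = p ^ n * (p ^ (m - n) * b₁) := by
        rw [← mul_assoc, hbm, mul_assoc]
      exact mul_left_cancel₀ hpn h4
    rw [← mul_assoc, ← h3]
    field_simp
  rw [← O'.valuation_le_one_iff, hz1, map_mul, map_mul, map_pow, map_inv₀, h1 _ hb₁ hb₁v,
    h1 _ hc₁ hc₁v, inv_one, mul_one, mul_one]
  exact pow_le_one' ((O'.valuation_le_one_iff p).2 (hB' p hp)) _

private theorem uni_evx_mem {k K : Type} [Field k] [CharZero k] [Field K] [CharZero K]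
    [Algebra k K] (hk : Algebra.IsAlgebraic ℚ k) {r : ℕ} {x : Fin r → Kˣ} {a : Fin r → ℤ}
    {π : k[X]} {O : ValuationSubring K} (hO : Ov x a π O) (P : LR k r) : evx x P ∈ O := by
  have h1 : ∀ e : Fin r → ℤ, ((mo x e : Kˣ) : K) ∈ O := by
    intro e
    rw [← O.valuation_le_one_iff]
    unfold mo
    rw [Units.coe_prod, map_prod]
    refine (Finset.prod_eq_one fun i _ => ?_).le
    rw [Units.val_zpow_eq_zpow_val, map_zpow₀, hO.un, one_zpow]
  unfold evx
  rw [AddMonoidAlgebra.lift_apply]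
  refine sum_mem fun e _ => ?_
  change P.coeff e • ((mo x e : Kˣ) : K) ∈ O
  rw [Algebra.smul_def]
  exact mul_mem (const_mem hk hO.pp.1 _) (h1 _)

private theorem uni_theta_mem {k K : Type} [Field k] [CharZero k] [Field K] [CharZero K]
    [Algebra k K] (hk : Algebra.IsAlgebraic ℚ k) {r : ℕ} {x : Fin r → Kˣ} {θ : K}
    {f : (MvPolynomial (Fin r) k)[X]} (hm : Md x θ f) {a : Fin r → ℤ}
    {π : k[X]} {O : ValuationSubring K} (hO : Ov x a π O) : θ ∈ O := by
  let ev : LR k r →+* O := ((evx x : LR k r →ₐ[k] K).toRingHom).codRestrict O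
    (fun P => uni_evx_mem hk hO P)
  have h1 : IsIntegral O θ := by
    refine ⟨(f.map (toL k r)).map ev, (hm.monic.map _).map _, ?_⟩
    rw [Polynomial.eval₂_map]
    exact hm.root
  obtain ⟨y, hy⟩ := IsIntegrallyClosed.algebraMap_eq_of_integral (R := O) (K := K) h1
  rw [← hy]
  exact y.2

private theorem uni_evW_mem {k K : Type} [Field k] [CharZero k] [Field K] [CharZero K]
    [Algebra k K] (hk : Algebra.IsAlgebraic ℚ k) {r : ℕ} {x : Fin r → Kˣ} {θ : K}
    {f : (MvPolynomial (Fin r) k)[X]} (hm : Md x θ f) {a : Fin r → ℤ}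
    {π : k[X]} {O : ValuationSubring K} (hO : Ov x a π O) (G : (LR k r)[X]) :
    evW x θ G ∈ O := by
  unfold evW
  rw [coe_eval₂RingHom, eval₂_eq_sum_range]
  exact sum_mem fun i _ => mul_mem (uni_evx_mem hk hO _) (pow_mem (uni_theta_mem hk hm hO) _)

private theorem uni_red {k K : Type} [Field k] [Field K]
    [Algebra k K] {r : ℕ} {x : Fin r → Kˣ} {θ : K}
    {f : (MvPolynomial (Fin r) k)[X]} (hm : Md x θ f) (G : (LR k r)[X]) :
    ∃ G' : (LR k r)[X], G'.natDegree < f.natDegree ∧ evW x θ G' = evW x θ G := by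
  have hF : (f.map (toL k r)).Monic := hm.monic.map _
  have hdeg : (f.map (toL k r)).natDegree = f.natDegree := hm.monic.natDegree_map _
  have hF1 : f.map (toL k r) ≠ 1 := by
    intro h
    have h1 := hm.pos
    rw [← hdeg, h, natDegree_one] at h1
    exact lt_irrefl _ h1
  refine ⟨G %ₘ (f.map (toL k r)), ?_, ?_⟩
  · rw [← hdeg]
    exact natDegree_modByMonic_lt G hF hF1
  · have h1 := congrArg (evW x θ) (modByMonic_add_div G (f.map (toL k r)))
    rw [map_add, map_mul, hm.root, zero_mul, add_zero] at h1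
    exact h1

private theorem uni_dvd {k K : Type} [Field k] [CharZero k] [Field K] [CharZero K] [Algebra k K]
    (hk : Algebra.IsAlgebraic ℚ k) {r : ℕ} {x : Fin r → Kˣ} {θ : K}
    {f : (MvPolynomial (Fin r) k)[X]} (hm : Md x θ f) {a : Fin r → ℤ} {π : k[X]}
    {O : ValuationSubring K} (hO : Ov x a π O)
    (h : ∀ G : (LR k r)[X], G.natDegree < f.natDegree → O.valuation (evW x θ G) < 1 →
      ∀ i, O.valuation (evx x (G.coeff i) : K) < 1) (b : K)
    (hb : b ∈ (evW x θ : (LR k r)[X] →+* K).range) (hb1 : O.valuation b < 1) :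
    ∃ b' ∈ (evW x θ : (LR k r)[X] →+* K).range, b = evx x (pia a π) * b' := by
  obtain ⟨G₀, rfl⟩ := hb
  obtain ⟨G, hG, hGe⟩ := uni_red hm G₀
  rw [← hGe] at hb1 ⊢
  have h1 : C (pia a π) ∣ G := by
    rw [Polynomial.C_dvd_iff_dvd_coeff]
    intro i
    exact (cen hk hm.ind hO _).1 (h G hG hb1 i)
  obtain ⟨G', rfl⟩ := h1
  refine ⟨evW x θ G', ⟨G', rfl⟩, ?_⟩
  rw [map_mul]
  congr 1
  unfold evW
  rw [coe_eval₂RingHom, eval₂_C]
  rfl

theorem uni {k K : Type} [Field k] [CharZero k] [Field K] [CharZero K] [Algebra k K]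
    (hk : Algebra.IsAlgebraic ℚ k) {r : ℕ} {x : Fin r → Kˣ} {θ : K}
    {f : (MvPolynomial (Fin r) k)[X]} (hm : Md x θ f) {a : Fin r → ℤ} {π : k[X]}
    {O O' : ValuationSubring K} (hO : Ov x a π O) (hO' : Ov x a π O')
    (h : ∀ G : (LR k r)[X], G.natDegree < f.natDegree → O.valuation (evW x θ G) < 1 →
      ∀ i, O.valuation (evx x (G.coeff i) : K) < 1)
    (h' : ∀ G : (LR k r)[X], G.natDegree < f.natDegree → O'.valuation (evW x θ G) < 1 →
      ∀ i, O'.valuation (evx x (G.coeff i) : K) < 1) : O = O' := by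
  have hevC : ∀ Q : LR k r, evW x θ (C Q) = evx x Q := by
    intro Q
    unfold evW
    rw [coe_eval₂RingHom, eval₂_C]
    rfl
  set B : Subring K := (evW x θ : (LR k r)[X] →+* K).range with hBd
  have hB : ∀ b ∈ B, b ∈ O := by
    rintro b ⟨G, rfl⟩
    exact uni_evW_mem hk hm hO G
  have hB' : ∀ b ∈ B, b ∈ O' := by
    rintro b ⟨G, rfl⟩
    exact uni_evW_mem hk hm hO' G
  have hp : evx x (pia a π) ∈ B := ⟨C (pia a π), hevC _⟩
  have hp1 : O.valuation (evx x (pia a π) : K) < 1 := (cen hk hm.ind hO _).2 dvd_rfl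
  have hp1' : O'.valuation (evx x (pia a π) : K) < 1 := (cen hk hm.ind hO' _).2 dvd_rfl
  have hfr : ∀ z : K, ∃ c ∈ B, c ≠ 0 ∧ c * z ∈ B := by
    intro z
    obtain ⟨Q, G, hQ, hQG⟩ := hm.gen z
    refine ⟨evx x Q, ⟨C Q, hevC Q⟩, ?_, ?_⟩
    · intro h0
      have h1 := hm.min (C Q) (by rw [natDegree_C]; exact hm.pos) (by rw [hevC, h0])
      exact hQ (C_eq_zero.1 h1)
    · rw [hQG]
      exact ⟨G, rfl⟩
  have hv := hO.pp.1.1
  have hv' := hO'.pp.1.1
  exact le_antisymm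
    (uni_le O O' B hB hB' hp hp1 (uni_dvd hk hm hO h) (uni_dvd hk hm hO' h') hfr)
    (uni_le O' O B hB' hB hp hp1' (uni_dvd hk hm hO' h') (uni_dvd hk hm hO h) hfr)

end Pool.Agent.EVF
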